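import Pool.Agent.Lib.MP_16285c_agX.Can.Spec

/-!
# Package CAN, module Cl: subrings of the elements with residue algebraic over the residues of given elements
-/

set_option autoImplicit false

namespace Pool.Agent.Lib.MP_16285c_agX.Cn

namespace ClM

open Polynomial

variable {k E : Type} [Field k] [Field E] [Algebra k E] (O : ValuationSubring E)

/-- the inclusion of `k` in `O` -/
noncomputable def inc (hk : ∀ c : k, algebraMap k E c ∈ O) : k →+* O :=
  (algebraMap k E).codRestrict O.toSubring hk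

theorem lt_iff (x : O) : O.valuation (x : E) < 1 ↔ IsLocalRing.residue O x = 0 := by
  rw [IsLocalRing.residue_eq_zero_iff, ValuationSubring.valuation_lt_one_iff]

theorem eq_iff (x : O) : O.valuation (x : E) = 1 ↔ IsLocalRing.residue O x ≠ 0 := by
  rw [Ne, ← lt_iff, not_lt]
  exact ⟨fun h => h.ge, fun h => le_antisymm ((O.valuation_le_one_iff _).2 x.2) h⟩

/-- values of polynomials in `O` -/
noncomputable def psi (hk : ∀ c : k, algebraMap k E c ∈ O) {m : ℕ} (s : Fin m → O) :
    MvPolynomial (Fin m) k →+* O :=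
  MvPolynomial.eval₂Hom (inc O hk) s

theorem sub_psi (hk : ∀ c : k, algebraMap k E c ∈ O) {m : ℕ} (s : Fin m → O) :
    O.subtype.comp (psi O hk s)
      = (MvPolynomial.aeval (fun i => (s i : E)) : MvPolynomial (Fin m) k →ₐ[k] E).toRingHom := by
  apply MvPolynomial.ringHom_ext
  · intro c
    have h1 : psi O hk s (MvPolynomial.C c) = inc O hk c := MvPolynomial.eval₂Hom_C _ _ _
    have h2 : (MvPolynomial.aeval (fun i => (s i : E)) : MvPolynomial (Fin m) k →ₐ[k] E)
        (MvPolynomial.C c) = algebraMap k E c := MvPolynomial.aeval_C _ _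
    rw [RingHom.comp_apply, h1]
    exact h2.symm
  · intro i
    have h1 : psi O hk s (MvPolynomial.X i) = s i := MvPolynomial.eval₂Hom_X' _ _ _
    have h2 : (MvPolynomial.aeval (fun i => (s i : E)) : MvPolynomial (Fin m) k →ₐ[k] E)
        (MvPolynomial.X i) = (s i : E) := MvPolynomial.aeval_X _ _
    rw [RingHom.comp_apply, h1]
    exact h2.symm

theorem aeval_coe (hk : ∀ c : k, algebraMap k E c ∈ O) {m : ℕ} (s : Fin m → O)
    (G : MvPolynomial (Fin m) k) :
    MvPolynomial.aeval (fun i => (s i : E)) G = ((psi O hk s G : O) : E) := by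
  have h := congrArg (fun f : MvPolynomial (Fin m) k →+* E => f G) (sub_psi O hk s)
  exact h.symm

theorem ev_coe (hk : ∀ c : k, algebraMap k E c ∈ O) {m : ℕ} (s : Fin m → O) (a : O)
    (G : Polynomial (MvPolynomial (Fin m) k)) :
    ev (k := k) (fun i => (s i : E)) (a : E) G = ((eval₂ (psi O hk s) a G : O) : E) := by
  have h := hom_eval₂ G (psi O hk s) O.subtype a
  rw [sub_psi] at h
  exact h.symm

theorem res_ev (hk : ∀ c : k, algebraMap k E c ∈ O) {m : ℕ} (s : Fin m → O) (a : O)
    (G : Polynomial (MvPolynomial (Fin m) k)) :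
    IsLocalRing.residue O (eval₂ (psi O hk s) a G)
      = eval₂ ((IsLocalRing.residue O).comp (psi O hk s)) (IsLocalRing.residue O a) G :=
  hom_eval₂ G (psi O hk s) (IsLocalRing.residue O) a

theorem psi_res (hk : ∀ c : k, algebraMap k E c ∈ O) {m : ℕ} (s : Fin m → O)
    (inst : Algebra k (IsLocalRing.ResidueField O))
    (hi : algebraMap k (IsLocalRing.ResidueField O) = (IsLocalRing.residue O).comp (inc O hk)) :
    (IsLocalRing.residue O).comp (psi O hk s)
      = (MvPolynomial.aeval (fun i => IsLocalRing.residue O (s i)) :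
          MvPolynomial (Fin m) k →ₐ[k] IsLocalRing.ResidueField O).toRingHom := by
  apply MvPolynomial.ringHom_ext
  · intro c
    have h1 : psi O hk s (MvPolynomial.C c) = inc O hk c := MvPolynomial.eval₂Hom_C _ _ _
    have h2 : (MvPolynomial.aeval (fun i => IsLocalRing.residue O (s i)) :
        MvPolynomial (Fin m) k →ₐ[k] IsLocalRing.ResidueField O)
        (MvPolynomial.C c) = algebraMap k _ c := MvPolynomial.aeval_C _ _
    rw [RingHom.comp_apply, h1]
    refine Eq.trans ?_ h2.symm
    rw [hi]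
    rfl
  · intro i
    have h1 : psi O hk s (MvPolynomial.X i) = s i := MvPolynomial.eval₂Hom_X' _ _ _
    have h2 : (MvPolynomial.aeval (fun i => IsLocalRing.residue O (s i)) :
        MvPolynomial (Fin m) k →ₐ[k] IsLocalRing.ResidueField O)
        (MvPolynomial.X i) = IsLocalRing.residue O (s i) := MvPolynomial.aeval_X _ _
    rw [RingHom.comp_apply, h1]
    exact h2.symm

/-- clearing denominators -/
theorem clear {κ : Type} [Field κ] [Algebra k κ] {m : ℕ} (x : Fin m → κ)
    (μ : Polynomial (IntermediateField.adjoin k (Set.range x))) :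
    ∃ (b : MvPolynomial (Fin m) k) (G : Polynomial (MvPolynomial (Fin m) k)),
      MvPolynomial.aeval x b ≠ 0 ∧
      G.map (MvPolynomial.aeval x : MvPolynomial (Fin m) k →ₐ[k] κ).toRingHom
        = C (MvPolynomial.aeval x b) * μ.map (algebraMap (IntermediateField.adjoin k (Set.range x)) κ) := by
  induction μ using Polynomial.induction_on' with
  | add p q hp hq =>
    obtain ⟨b, G, hb, hG⟩ := hp
    obtain ⟨b', G', hb', hG'⟩ := hq
    refine ⟨b * b', C b' * G + C b * G', ?_, ?_⟩
    · rw [map_mul]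
      exact mul_ne_zero hb hb'
    · rw [Polynomial.map_add, Polynomial.map_mul, Polynomial.map_mul, hG, hG', Polynomial.map_C,
        Polynomial.map_C, Polynomial.map_add, map_mul, C_mul]
      have e1 : (MvPolynomial.aeval x : MvPolynomial (Fin m) k →ₐ[k] κ).toRingHom b
          = MvPolynomial.aeval x b := rfl
      have e2 : (MvPolynomial.aeval x : MvPolynomial (Fin m) k →ₐ[k] κ).toRingHom b'
          = MvPolynomial.aeval x b' := rfl
      rw [e1, e2]
      ring
  | monomial n c =>
    obtain ⟨r, s, hrs⟩ := (IntermediateField.mem_adjoin_range_iff k x (c : κ)).1 c.2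
    by_cases hs : MvPolynomial.aeval x s = 0
    · have hc : (c : κ) = 0 := by rw [hrs, hs, div_zero]
      refine ⟨1, 0, ?_, ?_⟩
      · rw [map_one]; exact one_ne_zero
      · rw [Polynomial.map_zero, Polynomial.map_monomial]
        have e : algebraMap (IntermediateField.adjoin k (Set.range x)) κ c = 0 := hc
        rw [e, monomial_zero_right, mul_zero]
    · refine ⟨s, monomial n r, hs, ?_⟩
      rw [Polynomial.map_monomial, Polynomial.map_monomial, C_mul_monomial]
      have e : algebraMap (IntermediateField.adjoin k (Set.range x)) κ c = (c : κ) := rfl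
      rw [e, hrs, mul_div_cancel₀ _ hs]
      rfl

/-- dependence of `m + 1` elements which are algebraic over a field generated by `m` elements -/
theorem depend {κ : Type} [Field κ] [Algebra k κ] {m : ℕ} (x : Fin m → κ) (y : Fin (m + 1) → κ)
    (hy : ∀ i, y i ∈ algebraicClosure (IntermediateField.adjoin k (Set.range x)) κ) :
    ∃ G : MvPolynomial (Fin (m + 1)) k, G ≠ 0 ∧ MvPolynomial.aeval y G = 0 := by
  by_contra hcon
  have hind : AlgebraicIndependent k y := by
    rw [algebraicIndependent_iff]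
    intro p hp
    by_contra hp0
    exact hcon ⟨p, hp0, hp⟩
  let K0 := IntermediateField.adjoin k (Set.range x)
  let A := (algebraicClosure K0 κ).restrictScalars k
  have hA : ∀ z : κ, z ∈ A ↔ z ∈ algebraicClosure K0 κ := fun z => Iff.rfl
  have hxA : ∀ i, x i ∈ A := by
    intro i
    have h0 : x i ∈ K0 := IntermediateField.subset_adjoin k _ (Set.mem_range_self i)
    exact (algebraicClosure K0 κ).algebraMap_mem ⟨x i, h0⟩
  let x' : Fin m → A := fun i => ⟨x i, hxA i⟩
  let y' : Fin (m + 1) → A := fun i => ⟨y i, hy i⟩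
  have hind' : AlgebraicIndependent k y' := by
    have h := (AlgHom.algebraicIndependent_iff (x := y') A.val A.val.injective).1
    exact h hind
  let R0 := Algebra.adjoin k (Set.range x')
  have halg : Algebra.IsAlgebraic R0 A := by
    constructor
    intro a
    have ha : IsAlgebraic K0 (a : κ) := (mem_algebraicClosure_iff).1 ((hA a).1 a.2)
    obtain ⟨p, hp0, hp⟩ := ha
    obtain ⟨b, G, hb, hG⟩ := clear x p
    let φ : MvPolynomial (Fin m) k →ₐ[k] R0 :=
      MvPolynomial.aeval (fun i => (⟨x' i, Algebra.subset_adjoin (Set.mem_range_self i)⟩ : R0))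
    have hφ : (A.val.comp R0.val).comp φ = MvPolynomial.aeval x := by
      apply MvPolynomial.algHom_ext
      intro i
      have h1 : φ (MvPolynomial.X i) = ⟨x' i, Algebra.subset_adjoin (Set.mem_range_self i)⟩ :=
        MvPolynomial.aeval_X _ _
      have h2 : MvPolynomial.aeval x (MvPolynomial.X i : MvPolynomial (Fin m) k) = x i :=
        MvPolynomial.aeval_X _ _
      rw [AlgHom.comp_apply, h1, h2]
      rfl
    have hφ' : ((A.val.comp R0.val).toRingHom).comp φ.toRingHom
        = (MvPolynomial.aeval x : MvPolynomial (Fin m) k →ₐ[k] κ).toRingHom :=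
      congrArg (fun f : MvPolynomial (Fin m) k →ₐ[k] κ => f.toRingHom) hφ
    refine ⟨G.map φ.toRingHom, ?_, ?_⟩
    · intro h0
      have h1 : (G.map φ.toRingHom).map (A.val.comp R0.val).toRingHom = 0 := by
        rw [h0, Polynomial.map_zero]
      rw [Polynomial.map_map, hφ', hG] at h1
      have h2 : p.map (algebraMap K0 κ) ≠ 0 :=
        (Polynomial.map_ne_zero_iff (algebraMap K0 κ).injective).2 hp0
      exact mul_ne_zero (C_ne_zero.2 hb) h2 h1
    · have h1 : A.val (aeval a (G.map φ.toRingHom)) = 0 := by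
        have e1 : A.val (aeval a (G.map φ.toRingHom))
            = eval₂ ((A.val.comp R0.val).toRingHom) (a : κ) (G.map φ.toRingHom) := by
          rw [aeval_def]
          exact hom_eval₂ (G.map φ.toRingHom) (algebraMap R0 A) A.val.toRingHom a
        rw [e1, eval₂_map, hφ', ← eval_map, hG, eval_mul, eval_map, ← aeval_def, hp, mul_zero]
      exact A.val.injective (h1.trans (map_zero _).symm)
  have h1 : Algebra.trdeg k A ≤ Cardinal.mk (Set.range x') :=
    Algebra.IsAlgebraic.trdeg_le_cardinalMk k (Set.range x')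
  have h2 : Cardinal.mk (Fin (m + 1)) ≤ Algebra.trdeg k A := hind'.cardinalMk_le_trdeg
  have h3 : Cardinal.mk (Set.range x') ≤ Cardinal.mk (Fin m) := Cardinal.mk_range_le
  have h4 := (h2.trans h1).trans h3
  rw [Cardinal.mk_fin, Cardinal.mk_fin] at h4
  have h5 : m + 1 ≤ m := by exact_mod_cast h4
  omega
end ClM

open ClM Polynomial in
theorem tCl : S_Cl := by
  intro k E _ _ _ _ O hk d s hs
  obtain ⟨s', hs'⟩ : ∃ s' : Fin d → O, s = fun i => (s' i : E) := ⟨fun i => ⟨s i, hs i⟩, rfl⟩
  subst hs'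
  let κ := IsLocalRing.ResidueField O
  let ρ : O →+* κ := IsLocalRing.residue O
  let _ : Algebra k κ := (ρ.comp (inc O hk)).toAlgebra
  let x : Fin d → κ := fun i => ρ (s' i)
  let K0 := IntermediateField.adjoin k (Set.range x)
  have hps : ρ.comp (psi O hk s')
      = (MvPolynomial.aeval x : MvPolynomial (Fin d) k →ₐ[k] κ).toRingHom :=
    psi_res O hk s' _ rfl
  have hcf : ∀ b : MvPolynomial (Fin d) k, ρ (psi O hk s' b) = MvPolynomial.aeval x b := fun b =>
    congrArg (fun f : MvPolynomial (Fin d) k →+* κ => f b) hps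
  have hre : ∀ (a : O) (G : Polynomial (MvPolynomial (Fin d) k)), ρ (eval₂ (psi O hk s') a G)
      = eval (ρ a) (G.map (MvPolynomial.aeval x : MvPolynomial (Fin d) k →ₐ[k] κ).toRingHom) := by
    intro a G
    rw [eval_map, ← hps]
    exact res_ev O hk s' a G
  let C : Subring E := ((algebraicClosure K0 κ).toSubring.comap ρ).map O.subtype
  have hCO : ∀ a ∈ C, a ∈ O := by
    rintro a ⟨b, _, rfl⟩
    exact b.2
  have hCr : ∀ (a : E) (ha : a ∈ O), a ∈ C ↔ ρ ⟨a, ha⟩ ∈ algebraicClosure K0 κ := by
    intro a ha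
    constructor
    · rintro ⟨b, hb, hba⟩
      have e : b = ⟨a, ha⟩ := Subtype.ext hba
      rw [← e]
      exact hb
    · intro h
      exact ⟨⟨a, ha⟩, h, rfl⟩
  refine ⟨C, ⟨?_, ?_, hCO, ?_, ?_, ?_⟩, ?_, ?_, ?_⟩
  · intro c
    rw [hCr _ (hk c)]
    exact (algebraicClosure K0 κ).algebraMap_mem (algebraMap k K0 c)
  · intro a ha
    obtain ⟨p, hp, hpa⟩ := ha
    let ι : C →+* O := Subring.inclusion (S := C) (T := O.toSubring) hCO
    have haO : a ∈ O := by
      have h1 : IsIntegral O a := by
        refine ⟨p.map ι, hp.map ι, ?_⟩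
        rw [eval₂_map]
        exact hpa
      obtain ⟨y, hy⟩ := IsIntegrallyClosed.algebraMap_eq_of_integral h1
      rw [← hy]
      exact y.2
    rw [hCr a haO]
    have hι : ∀ c : C, ρ (ι c) ∈ (algebraicClosure K0 κ).toSubring := fun c =>
      (hCr c.1 (hCO c.1 c.2)).1 c.2
    let φ : C →+* (algebraicClosure K0 κ) :=
      (ρ.comp ι).codRestrict (algebraicClosure K0 κ).toSubring hι
    have h2 : eval₂ (ρ.comp ι) (ρ ⟨a, haO⟩) p = 0 := by
      have h3 : O.subtype (eval₂ ι (⟨a, haO⟩ : O) p) = 0 := by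
        rw [hom_eval₂]
        exact hpa
      have h4 : eval₂ ι (⟨a, haO⟩ : O) p = 0 := Subtype.ext h3
      rw [← hom_eval₂, h4, map_zero]
    have h5 : IsIntegral (algebraicClosure K0 κ) (ρ ⟨a, haO⟩) := by
      refine ⟨p.map φ, hp.map φ, ?_⟩
      rw [eval₂_map]
      exact h2
    rw [mem_algebraicClosure_iff']
    exact isIntegral_trans _ h5
  · intro a ha
    have haO : a ∈ O := (O.valuation_le_one_iff _).1 ha.le
    rw [hCr a haO]
    have h1 : ρ ⟨a, haO⟩ = 0 := (lt_iff O ⟨a, haO⟩).1 ha
    rw [h1]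
    exact zero_mem _
  · intro a ha h1
    have haO : a ∈ O := hCO a ha
    have ha0 : a ≠ 0 := by
      rintro rfl
      rw [map_zero] at h1
      exact zero_ne_one h1
    have h2 : O.valuation a⁻¹ = 1 := by rw [map_inv₀, h1, inv_one]
    have h3 : a⁻¹ ∈ O := (O.valuation_le_one_iff _).1 h2.le
    rw [hCr a⁻¹ h3]
    have h4 : ρ ⟨a⁻¹, h3⟩ * ρ ⟨a, haO⟩ = 1 := by
      rw [← map_mul, ← map_one ρ]
      congr 1
      exact Subtype.ext (inv_mul_cancel₀ ha0)
    rw [eq_inv_of_mul_eq_one_left h4]
    exact inv_mem ((hCr a haO).1 ha)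
  · intro c hc
    let c' : Fin (d + 1) → O := fun i => ⟨c i, hCO _ (hc i)⟩
    obtain ⟨G, hG0, hG⟩ := depend x (fun i => ρ (c' i)) (fun i => (hCr _ (hCO _ (hc i))).1 (hc i))
    refine ⟨G, hG0, ?_⟩
    have e1 : MvPolynomial.aeval c G = ((psi O hk c' G : O) : E) := aeval_coe O hk c' G
    rw [e1, lt_iff]
    have e2 := congrArg (fun f : MvPolynomial (Fin (d + 1)) k →+* κ => f G) (psi_res O hk c' _ rfl)
    exact Eq.trans e2 hG
  · intro i
    rw [hCr _ (s' i).2]
    have h0 : x i ∈ K0 := IntermediateField.subset_adjoin k _ (Set.mem_range_self i)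
    exact (algebraicClosure K0 κ).algebraMap_mem ⟨x i, h0⟩
  · rintro a ha ⟨G, ⟨i, hi⟩, hG⟩
    rw [hCr a ha]
    have h1 : ρ (eval₂ (psi O hk s') ⟨a, ha⟩ G) = 0 := by
      have e1 : ev (k := k) (fun i => (s' i : E)) a G
          = ((eval₂ (psi O hk s') (⟨a, ha⟩ : O) G : O) : E) := ev_coe O hk s' ⟨a, ha⟩ G
      rw [e1] at hG
      exact (lt_iff O _).1 hG
    have h2 : MvPolynomial.aeval x (G.coeff i) ≠ 0 := by
      rw [aeval_coe O hk s' (G.coeff i)] at hi
      have h3 := (eq_iff O _).1 hi
      intro h4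
      exact h3 ((hcf (G.coeff i)).trans h4)
    have hxK : ∀ i, x i ∈ K0 := fun i => IntermediateField.subset_adjoin k _ (Set.mem_range_self i)
    let φ : MvPolynomial (Fin d) k →ₐ[k] K0 := MvPolynomial.aeval (fun i => (⟨x i, hxK i⟩ : K0))
    have hφ : K0.val.comp φ = MvPolynomial.aeval x := by
      apply MvPolynomial.algHom_ext
      intro i
      have e1 : φ (MvPolynomial.X i) = ⟨x i, hxK i⟩ := MvPolynomial.aeval_X _ _
      have e2 : MvPolynomial.aeval x (MvPolynomial.X i : MvPolynomial (Fin d) k) = x i :=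
        MvPolynomial.aeval_X _ _
      rw [AlgHom.comp_apply, e1, e2]
      rfl
    have hφ' : (algebraMap K0 κ).comp φ.toRingHom
        = (MvPolynomial.aeval x : MvPolynomial (Fin d) k →ₐ[k] κ).toRingHom :=
      congrArg (fun f : MvPolynomial (Fin d) k →ₐ[k] κ => f.toRingHom) hφ
    rw [mem_algebraicClosure_iff]
    refine ⟨G.map φ.toRingHom, ?_, ?_⟩
    · intro h0
      have h3 : (G.map φ.toRingHom).coeff i = 0 := by rw [h0, coeff_zero]
      rw [coeff_map] at h3
      apply h2
      have h4 := congrArg (fun f : MvPolynomial (Fin d) k →+* κ => f (G.coeff i)) hφ'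
      have h5 : (algebraMap K0 κ) (φ.toRingHom (G.coeff i)) = 0 := by rw [h3, map_zero]
      exact h4.symm.trans h5
    · rw [aeval_def, eval₂_map, hφ', ← eval_map, ← hre]
      exact h1
  · intro a ha
    have haO : a ∈ O := hCO a ha
    have h1 : ρ ⟨a, haO⟩ ∈ algebraicClosure K0 κ := (hCr a haO).1 ha
    rw [mem_algebraicClosure_iff'] at h1
    obtain ⟨b, G, hb, hG⟩ := clear x (minpoly K0 (ρ ⟨a, haO⟩))
    have key : ∀ H : Polynomial (MvPolynomial (Fin d) k),
        ev (k := k) (fun i => (s' i : E)) a H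
          = ((eval₂ (psi O hk s') (⟨a, haO⟩ : O) H : O) : E) := fun H => ev_coe O hk s' ⟨a, haO⟩ H
    refine ⟨G, ?_, ?_⟩
    · rw [key, lt_iff]
      have e := hre ⟨a, haO⟩ G
      rw [hG, eval_mul, eval_map, ← aeval_def, minpoly.aeval, mul_zero] at e
      exact e
    · rw [key, eq_iff]
      have e := hre ⟨a, haO⟩ G.derivative
      rw [← derivative_map, hG, derivative_mul, derivative_C, zero_mul, zero_add, derivative_map,
        eval_mul, eval_C, eval_map, ← aeval_def] at e
      intro h0
      have h2 := e.symm.trans h0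
      rcases mul_eq_zero.1 h2 with h3 | h3
      · exact hb h3
      · exact (minpoly.irreducible h1).separable.aeval_derivative_ne_zero (minpoly.aeval _ _) h3

end Pool.Agent.Lib.MP_16285c_agX.Cn
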