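import Pool.Agent.Lib.MP_16285c_agX.Can.Spec

/-!
# ZDX, package CAN: the inverse image of a divisor under an endomorphism (`S_Cmp`)
-/

set_option autoImplicit false

namespace Pool.Agent.Lib.MP_16285c_agX.Cn

open Pool.Agent.Lib.MP_16285c_agS.Cn (Plc cm S_Dvr)

namespace CmpM

variable {k E : Type} [Field k] [Field E] [Algebra k E]

/-- An element is in the maximal ideal iff it is zero or its inverse is not in the ring. -/
theorem val_lt_iff (O : ValuationSubring E) (a : E) :
    O.valuation a < 1 ↔ a = 0 ∨ a⁻¹ ∉ O := by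
  by_cases ha : a = 0
  · simp [ha]
  · have hva : O.valuation a ≠ 0 := (Valuation.ne_zero_iff _).2 ha
    rw [← ValuationSubring.valuation_le_one_iff, map_inv₀]
    constructor
    · intro h
      right
      rw [not_le]
      exact (one_lt_inv₀ (zero_lt_iff.2 hva)).2 h
    · rintro (h | h)
      · exact absurd h ha
      · rw [not_le] at h
        exact (one_lt_inv₀ (zero_lt_iff.2 hva)).1 h

/-- The valuation of the inverse image. -/
theorem cm_val (ρ : E →ₐ[k] E) (O : ValuationSubring E) (a : E) :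
    (cm ρ O).valuation a < 1 ↔ O.valuation (ρ a) < 1 := by
  rw [val_lt_iff, val_lt_iff]
  have h1 : a⁻¹ ∈ cm ρ O ↔ (ρ a)⁻¹ ∈ O := by
    rw [← map_inv₀]
    exact Iff.rfl
  rw [h1, map_eq_zero]

/-- Independence in the inverse image. -/
theorem cm_ind (ρ : E →ₐ[k] E) (O : ValuationSubring E) (m : ℕ) (s : Fin m → E) :
    Ind k (cm ρ O) s ↔ Ind k O fun i => ρ (s i) := by
  refine forall_congr' fun G => imp_congr_right fun _ => not_congr ?_
  rw [cm_val, MvPolynomial.comp_aeval_apply]

/-- `ρ` is a finite ring homomorphism. -/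
theorem fin_ring (ρ : E →ₐ[k] E) (hf : Module.Finite ρ.fieldRange E) :
    (ρ : E →+* E).Finite := by
  have h1 : (algebraMap ρ.fieldRange E).Finite := hf
  have h2 : ((ρ.rangeRestrict : E →ₐ[k] ρ.range) : E →+* ρ.range).Finite :=
    RingHom.Finite.of_surjective _ ρ.rangeRestrict_surjective
  exact RingHom.Finite.comp h1 h2

/-- The inverse image is a divisor. -/
theorem plc (hD : S_Dvr) (ρ : E →ₐ[k] E) (hf : Module.Finite ρ.fieldRange E)
    (O : ValuationSubring E) (hO : Plc k O) : Plc k (cm ρ O) := by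
  refine ⟨?_, ?_⟩
  · exact @hD E E _ _ (ρ : E →+* E).toAlgebra (fin_ring ρ hf) O hO.dvr
  · intro c
    change ρ (algebraMap k E c) ∈ O
    rw [ρ.commutes]
    exact hO.con c

/-- A relation normalized at a coefficient of largest valuation. -/
theorem rel (O : ValuationSubring E)
    (F : Set E) (hF : ∀ x ∈ F, ∀ y ∈ F, x / y ∈ F)
    (a : E) (Q : Polynomial E) (hQ : Q ≠ 0) (hQF : ∀ i, Q.coeff i ∈ F)
    (hQa : Q.eval a = 0) : ∃ (c : ℕ → E) (l n : ℕ), l < n ∧ c l = 1 ∧ (∀ i, c i ∈ F) ∧ (∀ i, c i ∈ O) ∧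
      ∑ i ∈ Finset.range n, c i * a ^ i = 0 := by
  classical
  obtain ⟨l, hl, hmax⟩ := Finset.exists_max_image Q.support (fun i => O.valuation (Q.coeff i))
    (Polynomial.support_nonempty.2 hQ)
  have hmax' : ∀ i, O.valuation (Q.coeff i) ≤ O.valuation (Q.coeff l) := by
    intro i
    by_cases hi : i ∈ Q.support
    · exact hmax i hi
    · rw [Polynomial.notMem_support_iff.1 hi, map_zero]
      exact zero_le'
  have hlne : Q.coeff l ≠ 0 := Polynomial.mem_support_iff.1 hl
  have hvl : O.valuation (Q.coeff l) ≠ 0 := (Valuation.ne_zero_iff _).2 hlne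
  refine ⟨fun i => Q.coeff i / Q.coeff l, l, Q.natDegree + 1, ?_, div_self hlne,
    fun i => hF _ (hQF i) _ (hQF l), ?_, ?_⟩
  · have := Polynomial.le_natDegree_of_ne_zero hlne
    omega
  · intro i
    rw [← ValuationSubring.valuation_le_one_iff]
    simp only [map_div₀]
    rw [div_le_one₀ (zero_lt_iff.2 hvl)]
    exact hmax' i
  · have h1 : Q.eval a = ∑ i ∈ Finset.range (Q.natDegree + 1), Q.coeff i * a ^ i :=
      Polynomial.eval_eq_sum_range a
    have h2 : ∑ i ∈ Finset.range (Q.natDegree + 1), Q.coeff i / Q.coeff l * a ^ i =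
        (Q.eval a) / Q.coeff l := by
      rw [h1, Finset.sum_div]
      refine Finset.sum_congr rfl ?_
      intro i _
      ring
    rw [h2, hQa, zero_div]

/-- The scalars in `O`. -/
noncomputable def kO (O : ValuationSubring E) (hO : ∀ c : k, algebraMap k E c ∈ O) : k →+* O :=
  (algebraMap k E).codRestrict O hO

/-- The scalars in the residue field. -/
noncomputable def kres (O : ValuationSubring E) (hO : ∀ c : k, algebraMap k E c ∈ O) :
    k →+* IsLocalRing.ResidueField O := (IsLocalRing.residue O).comp (kO O hO)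

/-- The residue is zero iff the valuation is less than one. -/
theorem res_zero (O : ValuationSubring E) (a : O) :
    IsLocalRing.residue O a = 0 ↔ O.valuation (a : E) < 1 := by
  rw [IsLocalRing.residue_eq_zero_iff, ValuationSubring.valuation_lt_one_iff]

/-- Independence of the residues. -/
theorem ind_iff (O : ValuationSubring E) (hO : ∀ c : k, algebraMap k E c ∈ O) (m : ℕ) (s : Fin m → O) :
    @AlgebraicIndependent (Fin m) k (IsLocalRing.ResidueField O) (fun i => IsLocalRing.residue O (s i)) _ _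
      (kres O hO).toAlgebra ↔ Ind k O fun i => (s i : E) := by
  letI : Algebra k (IsLocalRing.ResidueField O) := (kres O hO).toAlgebra
  have h1 : ∀ G : MvPolynomial (Fin m) k, ((MvPolynomial.eval₂ (kO O hO) s G : O) : E) =
      MvPolynomial.aeval (fun i => (s i : E)) G := by
    intro G
    change O.subtype (MvPolynomial.eval₂ (kO O hO) s G) = _
    rw [MvPolynomial.eval₂_comp_left, MvPolynomial.aeval_def]
    rfl
  have h2 : ∀ G : MvPolynomial (Fin m) k, MvPolynomial.aeval (fun i => IsLocalRing.residue O (s i)) G =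
      IsLocalRing.residue O (MvPolynomial.eval₂ (kO O hO) s G) := by
    intro G
    rw [MvPolynomial.eval₂_comp_left, MvPolynomial.aeval_def]
    rfl
  rw [algebraicIndependent_iff]
  refine forall_congr' fun G => ?_
  rw [h2, res_zero, h1]
  tauto

/-- The map of the local rings. -/
noncomputable def fm (ρ : E →ₐ[k] E) (O : ValuationSubring E) : cm ρ O →+* O where
  toFun b := ⟨ρ b, b.2⟩
  map_one' := Subtype.ext (map_one ρ)
  map_mul' a b := Subtype.ext (map_mul ρ _ _)
  map_zero' := Subtype.ext (map_zero ρ)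
  map_add' a b := Subtype.ext (map_add ρ _ _)

theorem fm_loc (ρ : E →ₐ[k] E) (O : ValuationSubring E) : IsLocalHom (fm ρ O) := by
  refine ⟨fun b hb => ?_⟩
  by_contra h
  have h1 : b ∈ IsLocalRing.maximalIdeal (cm ρ O) := (IsLocalRing.mem_maximalIdeal _).2 h
  rw [ValuationSubring.valuation_lt_one_iff, cm_val] at h1
  have h2 : fm ρ O b ∈ IsLocalRing.maximalIdeal O :=
    (ValuationSubring.valuation_lt_one_iff O (fm ρ O b)).2 h1
  exact (IsLocalRing.mem_maximalIdeal _).1 h2 hb

/-- The last statement. -/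
theorem last (ρ : E →ₐ[k] E) (hf : Module.Finite ρ.fieldRange E)
    (O : ValuationSubring E) (hO : ∀ c : k, algebraMap k E c ∈ O)
    (hO' : ∀ c : k, algebraMap k E c ∈ cm ρ O) (m : ℕ) (s : Fin m → E) (hs : ∀ i, s i ∈ O)
    (hi : Ind k O s) : ∃ s : Fin m → E, (∀ i, s i ∈ cm ρ O) ∧ Ind k (cm ρ O) s := by
  letI a1 : Algebra k (IsLocalRing.ResidueField O) := (kres O hO).toAlgebra
  letI a2 : Algebra k (IsLocalRing.ResidueField (cm ρ O)) := (kres (cm ρ O) hO').toAlgebra
  haveI := fm_loc ρ O
  letI a3 : Algebra (IsLocalRing.ResidueField (cm ρ O)) (IsLocalRing.ResidueField O) :=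
    (IsLocalRing.ResidueField.map (fm ρ O)).toAlgebra
  haveI : IsScalarTower k (IsLocalRing.ResidueField (cm ρ O)) (IsLocalRing.ResidueField O) := by
    refine IsScalarTower.of_algebraMap_eq fun c => ?_
    change IsLocalRing.residue O (kO O hO c) =
      IsLocalRing.residue O (fm ρ O (kO (cm ρ O) hO' c))
    congr 1
    exact Subtype.ext (ρ.commutes c).symm
  haveI : Algebra.IsAlgebraic (IsLocalRing.ResidueField (cm ρ O)) (IsLocalRing.ResidueField O) := by
    refine ⟨fun x => ?_⟩
    obtain ⟨a, rfl⟩ := IsLocalRing.residue_surjective x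
    haveI : FiniteDimensional ρ.fieldRange E := hf
    obtain ⟨q, hq, hqa⟩ : IsAlgebraic ρ.fieldRange (a : E) := Algebra.IsAlgebraic.isAlgebraic _
    obtain ⟨c, l, n, hln, hcl, hcF, hcO, hsum⟩ := rel O (Set.range ρ) (by
        rintro _ ⟨x, rfl⟩ _ ⟨y, rfl⟩
        exact ⟨x / y, map_div₀ ρ x y⟩) (a : E) (q.map (algebraMap ρ.fieldRange E))
      ((Polynomial.map_ne_zero_iff (algebraMap ρ.fieldRange E).injective).2 hq)
      (by
        intro i
        rw [Polynomial.coeff_map]
        exact (q.coeff i).2)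
      (by
        rw [Polynomial.eval_map_algebraMap]
        exact hqa)
    choose b hb using hcF
    have hbO : ∀ i, b i ∈ cm ρ O := by
      intro i
      change ρ (b i) ∈ O
      rw [hb i]
      exact hcO i
    have hbl : b l = 1 := by
      have h1 : ρ (b l) = ρ 1 := by rw [hb l, hcl, map_one]
      exact ρ.injective h1
    refine ⟨∑ i ∈ Finset.range n, Polynomial.monomial i
      (IsLocalRing.residue (cm ρ O) (⟨b i, hbO i⟩ : cm ρ O)), ?_, ?_⟩
    · intro h
      have h1 := congrArg (fun p => Polynomial.coeff p l) h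
      simp only [Polynomial.finset_sum_coeff, Polynomial.coeff_monomial, Polynomial.coeff_zero] at h1
      rw [Finset.sum_ite_eq' (Finset.range n) l, if_pos (Finset.mem_range.2 hln)] at h1
      have h2 : (⟨b l, hbO l⟩ : cm ρ O) = 1 := Subtype.ext hbl
      rw [h2, map_one] at h1
      exact one_ne_zero h1
    · rw [map_sum]
      have h3 : ∀ i ∈ Finset.range n, Polynomial.aeval (IsLocalRing.residue O a)
          (Polynomial.monomial i (IsLocalRing.residue (cm ρ O) (⟨b i, hbO i⟩ : cm ρ O))) =
          IsLocalRing.residue O ((⟨c i, hcO i⟩ : O) * a ^ i) := by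
        intro i _
        rw [Polynomial.aeval_monomial, map_mul, map_pow]
        congr 1
        change IsLocalRing.residue O (fm ρ O ⟨b i, hbO i⟩) = _
        congr 1
        exact Subtype.ext (hb i)
      rw [Finset.sum_congr rfl h3, ← map_sum]
      have h4 : ∑ i ∈ Finset.range n, (⟨c i, hcO i⟩ : O) * a ^ i = 0 := by
        apply Subtype.ext
        change O.subtype (∑ i ∈ Finset.range n, (⟨c i, hcO i⟩ : O) * a ^ i) = 0
        rw [map_sum]
        exact hsum
      rw [h4, map_zero]
  have hd : Algebra.trdeg k (IsLocalRing.ResidueField (cm ρ O)) =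
      Algebra.trdeg k (IsLocalRing.ResidueField O) := by
    have h1 := trdeg_add_eq k (IsLocalRing.ResidueField (cm ρ O)) (A := IsLocalRing.ResidueField O)
    rw [trdeg_eq_zero (R := IsLocalRing.ResidueField (cm ρ O)) (A := IsLocalRing.ResidueField O), add_zero] at h1
    exact h1
  have h2 : AlgebraicIndependent k fun i => IsLocalRing.residue O (⟨s i, hs i⟩ : O) :=
    (ind_iff O hO m fun i => ⟨s i, hs i⟩).2 hi
  have h3 := h2.cardinalMk_le_trdeg
  rw [← hd] at h3
  obtain ⟨ι, x, hx⟩ := exists_isTranscendenceBasis' k (IsLocalRing.ResidueField (cm ρ O))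
  rw [← hx.cardinalMk_eq_trdeg, Cardinal.le_def] at h3
  obtain ⟨g⟩ := h3
  choose y hy using fun i : Fin m => IsLocalRing.residue_surjective (x (g i))
  refine ⟨fun i => y i, fun i => (y i).2, (ind_iff (cm ρ O) hO' m y).1 ?_⟩
  have h4 := hx.1.comp g g.injective
  have h5 : (fun i => IsLocalRing.residue (cm ρ O) (y i)) = x ∘ g := funext hy
  rw [h5]
  exact h4

end CmpM

open CmpM in
/-- The inverse image of a divisor under an endomorphism. -/
theorem tCmp : S_Dvr → S_Cmp := by
  intro hD k E _ _ _ _ ρ hf O hO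
  have hO' := plc hD ρ hf O hO
  refine ⟨hO', cm_val ρ O, cm_ind ρ O, ?_⟩
  rintro m ⟨s, hs, hi⟩
  exact last ρ hf O hO.con hO'.con m s hs hi

end Pool.Agent.Lib.MP_16285c_agX.Cn
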