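import Pool.Agent.Lib.MP_16285c_agX.Can.Spec

/-!
# Package CAN in every dimension: derivations are regular at unramified divisors
-/

set_option autoImplicit false

namespace Pool.Agent.Lib.MP_16285c_agX.Cn

namespace DOM

variable {d : ℕ} {k E : Type} [Field k] [Field E] [Algebra k E]

theorem aeval_mem (O : ValuationSubring E) (hk : ∀ c : k, algebraMap k E c ∈ O) (t : Fin (d + 2) → E)
    (ht : ∀ i, t i ∈ O) (G : Po d k) : MvPolynomial.aeval t G ∈ O := by
  induction G using MvPolynomial.induction_on with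
  | C a =>
    rw [MvPolynomial.aeval_C]
    exact hk a
  | add p q hp hq =>
    rw [map_add]
    exact O.add_mem _ _ hp hq
  | mul_X p i hp =>
    rw [map_mul, MvPolynomial.aeval_X]
    exact O.mul_mem _ _ hp (ht i)

theorem ev_mem (O : ValuationSubring E) (hk : ∀ c : k, algebraMap k E c ∈ O) (t : Fin (d + 2) → E)
    (ht : ∀ i, t i ∈ O) (z : E) (hz : z ∈ O) (N : PZ d k) : ev t z N ∈ O := by
  induction N using Polynomial.induction_on' with
  | add p q hp hq =>
    rw [map_add]
    exact O.add_mem _ _ hp hq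
  | monomial n a =>
    have h1 : ev t z (Polynomial.monomial n a) = MvPolynomial.aeval t a * z ^ n := by
      unfold ev
      rw [Polynomial.coe_eval₂RingHom, Polynomial.eval₂_monomial]
      rfl
    rw [h1]
    exact O.mul_mem _ _ (aeval_mem O hk t ht a) (pow_mem hz n)

theorem der_aeval (O : ValuationSubring E) (hk : ∀ c : k, algebraMap k E c ∈ O) (t : Fin (d + 2) → E)
    (ht : ∀ i, t i ∈ O) (δ : Derivation k E E) (hδ : ∀ j, δ (t j) ∈ O) (G : Po d k) :
    δ (MvPolynomial.aeval t G) ∈ O := by
  induction G using MvPolynomial.induction_on with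
  | C a =>
    rw [MvPolynomial.aeval_C, Derivation.map_algebraMap]
    exact O.zero_mem
  | add p q hp hq =>
    rw [map_add, map_add]
    exact O.add_mem _ _ hp hq
  | mul_X p i hp =>
    rw [map_mul, MvPolynomial.aeval_X, Derivation.leibniz, smul_eq_mul, smul_eq_mul]
    exact O.add_mem _ _ (O.mul_mem _ _ (aeval_mem O hk t ht p) (hδ i)) (O.mul_mem _ _ (ht i) hp)

theorem der_ev (O : ValuationSubring E) (hk : ∀ c : k, algebraMap k E c ∈ O) (t : Fin (d + 2) → E)
    (ht : ∀ i, t i ∈ O) (z : E) (hz : z ∈ O) (δ : Derivation k E E) (hδ : ∀ j, δ (t j) ∈ O)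
    (N : PZ d k) : δ (ev t z N) - ev t z N.derivative * δ z ∈ O := by
  induction N using Polynomial.induction_on' with
  | add p q hp hq =>
    rw [map_add, map_add, Polynomial.derivative_add, map_add]
    have h1 : δ (ev t z p) + δ (ev t z q) -
        (ev t z (Polynomial.derivative p) + ev t z (Polynomial.derivative q)) * δ z =
        (δ (ev t z p) - ev t z (Polynomial.derivative p) * δ z) +
          (δ (ev t z q) - ev t z (Polynomial.derivative q) * δ z) := by ring
    rw [h1]
    exact O.add_mem _ _ hp hq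
  | monomial n a =>
    have h1 : ∀ (n : ℕ) (a : Po d k), ev t z (Polynomial.monomial n a) =
        MvPolynomial.aeval t a * z ^ n := by
      intro n a
      unfold ev
      rw [Polynomial.coe_eval₂RingHom, Polynomial.eval₂_monomial]
      rfl
    have h2 : δ (z ^ n) = (n : E) * z ^ (n - 1) * δ z := by
      rw [Derivation.leibniz_pow, smul_eq_mul, nsmul_eq_mul]
      ring
    rw [Polynomial.derivative_monomial, h1, h1, Derivation.leibniz, smul_eq_mul, smul_eq_mul, h2,
      map_mul, map_natCast]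
    have h3 : MvPolynomial.aeval t a * ((n : E) * z ^ (n - 1) * δ z) +
        z ^ n * δ (MvPolynomial.aeval t a) -
        MvPolynomial.aeval t a * (n : E) * z ^ (n - 1) * δ z =
        z ^ n * δ (MvPolynomial.aeval t a) := by ring
    rw [h3]
    exact O.mul_mem _ _ (pow_mem hz n) (der_aeval O hk t ht δ hδ a)

theorem z_mem (O : ValuationSubring E) (hk : ∀ c : k, algebraMap k E c ∈ O) (t : Fin (d + 2) → E)
    (ht : ∀ i, t i ∈ O) (z : E) (P : PZ d k) (hP : P.Monic) (h0 : ev t z P = 0) : z ∈ O := by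
  let f : Po d k →+* O.toSubring :=
    (MvPolynomial.aeval t : Po d k →ₐ[k] E).toRingHom.codRestrict O.toSubring
      (fun G => aeval_mem O hk t ht G)
  have h1 : (algebraMap O E).comp f = (MvPolynomial.aeval t : Po d k →ₐ[k] E).toRingHom := by
    ext x <;> rfl
  have h2 : IsIntegral O z := by
    refine ⟨P.map f, hP.map f, ?_⟩
    rw [Polynomial.eval₂_map]
    exact (congrArg (fun g => Polynomial.eval₂ g z P) h1).trans h0
  obtain ⟨y, hy⟩ := (IsIntegrallyClosed.isIntegral_iff (R := O) (K := E)).1 h2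
  rw [← hy]
  exact y.2

theorem unit_of (O : ValuationSubring E) (a b c : E) (ha : a ∈ O) (hb : b ∈ O)
    (h : a * b = c) (hc : O.valuation c = 1) : O.valuation b = 1 := by
  rw [← h, map_mul] at hc
  have h1 := (O.valuation_le_one_iff a).2 ha
  have h2 := (O.valuation_le_one_iff b).2 hb
  refine le_antisymm h2 ?_
  calc (1 : O.ValueGroup) = O.valuation a * O.valuation b := hc.symm
    _ ≤ 1 * O.valuation b := mul_le_mul_left h1 _
    _ = O.valuation b := one_mul _

theorem mem_of_mul (O : ValuationSubring E) (a b : E) (h : a * b ∈ O) (hb : O.valuation b = 1) :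
    a ∈ O := by
  rw [← O.valuation_le_one_iff] at h ⊢
  rwa [map_mul, hb, mul_one] at h

end DOM

open DOM in
theorem tDO : S_Res → S_Unr → S_DO := by
  intro hRes hUnr d k E _ _ _ _ t z P m D hT hM Δ hΔ O hO e he i
  have hk := hO.toDv.toPlc.con
  have ht := hO.fin
  obtain ⟨R, hR, hRG⟩ := hRes d k E t hT O hO.toDv ht
  obtain ⟨hi, -, -⟩ := hUnr d k E t z P m D hT hM O hO R hR hRG
  have hz : z ∈ O := z_mem O hk t ht z P hM.mon hM.rt
  have hδ : ∀ j, Δ i (t j) ∈ O := by
    intro j
    rw [hΔ i j]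
    split_ifs
    · exact O.one_mem
    · exact O.zero_mem
  have hP : O.valuation (ev t z P.derivative) = 1 := by
    obtain ⟨V, hV⟩ := hM.dis
    exact unit_of O _ _ _ (ev_mem O hk t ht z hz V) (ev_mem O hk t ht z hz _) hV hO.unit
  have hΔz : Δ i z ∈ O := by
    have h1 := der_ev O hk t ht z hz (Δ i) hδ P
    rw [hM.rt, map_zero, zero_sub] at h1
    have h2 : Δ i z * ev t z P.derivative ∈ O := by
      have h3 := O.neg_mem _ h1
      rw [neg_neg] at h3
      rwa [mul_comm]
    exact mem_of_mul O _ _ h2 hP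
  have hN : ∀ N : PZ d k, Δ i (ev t z N) ∈ O := by
    intro N
    have h1 := O.add_mem _ _ (der_ev O hk t ht z hz (Δ i) hδ N)
      (O.mul_mem _ _ (ev_mem O hk t ht z hz N.derivative) hΔz)
    rwa [sub_add_cancel] at h1
  obtain ⟨N, C, hC, heC⟩ := hi e he
  have h1 : Δ i e * ev t z C = Δ i (ev t z N) - e * Δ i (ev t z C) := by
    rw [← heC, Derivation.leibniz, smul_eq_mul, smul_eq_mul]
    ring
  refine mem_of_mul O _ (ev t z C) ?_ hC
  rw [h1]
  exact sub_mem (hN N) (O.mul_mem _ _ he (hN C))

end Pool.Agent.Lib.MP_16285c_agX.Cn
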