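import Pool.Agent.Lib.MP_16285c_agX.Can.Spec

/-!
# Directions (Dir)
-/

set_option autoImplicit false

namespace Pool.Agent.Lib.MP_16285c_agX.Cn

namespace DirM

theorem eval_smul {k : Type} [Field k] {n D : ℕ} {h : MvPolynomial (Fin n) k}
    (hh : h.IsHomogeneous D) (c : k) (w : Fin n → k) :
    MvPolynomial.eval (fun i => c * w i) h = c ^ D * MvPolynomial.eval w h := by
  rw [MvPolynomial.eval_eq', MvPolynomial.eval_eq', Finset.mul_sum]
  refine Finset.sum_congr rfl fun s hs => ?_
  have h1 : ∑ i, s i = D := by
    have h2 := hh (MvPolynomial.mem_support_iff.1 hs)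
    rw [← h2, Finsupp.weight_apply, Finsupp.sum_fintype]
    · simp
    · intro i
      simp
  have h3 : ∏ i, (c * w i) ^ s i = c ^ D * ∏ i, w i ^ s i := by
    rw [← h1, ← Finset.prod_pow_eq_pow_sum, ← Finset.prod_mul_distrib]
    exact Finset.prod_congr rfl fun i _ => mul_pow _ _ _
  rw [h3]
  ring

theorem top_ne {k : Type} [Field k] {n : ℕ} {R : MvPolynomial (Fin n) k} (hR : R ≠ 0) :
    MvPolynomial.homogeneousComponent R.totalDegree R ≠ 0 := by
  obtain ⟨s, hs, hd⟩ : ∃ s ∈ R.support, R.totalDegree = s.sum fun _ e => e := by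
    have h1 : R.support.Nonempty := MvPolynomial.support_nonempty.2 hR
    obtain ⟨s, hs, h2⟩ := Finset.exists_mem_eq_sup R.support h1 fun s => s.sum fun _ e => e
    exact ⟨s, hs, h2⟩
  intro h0
  have h2 : MvPolynomial.coeff s (MvPolynomial.homogeneousComponent R.totalDegree R) = 0 := by
    rw [h0, MvPolynomial.coeff_zero]
  rw [MvPolynomial.coeff_homogeneousComponent, if_pos] at h2
  · exact MvPolynomial.mem_support_iff.1 hs h2
  · rw [hd]
    rfl

end DirM

open DirM in
/-- Directions in which the leading form does not vanish. -/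
theorem tDir : S_Dir := by
  intro d k _ _ R hR
  have hT := top_ne hR
  have hH := MvPolynomial.homogeneousComponent_isHomogeneous R.totalDegree R
  revert hT hH
  generalize MvPolynomial.homogeneousComponent R.totalDegree R = h
  generalize R.totalDegree = D
  intro hT hH
  obtain ⟨w, hw⟩ : ∃ w : Fin (d + 2) → k,
      MvPolynomial.eval w (h * MvPolynomial.X (Fin.last (d + 1))) ≠ 0 := by
    by_contra hc
    push Not at hc
    have h1 : h * MvPolynomial.X (Fin.last (d + 1)) = 0 :=
      MvPolynomial.funext fun x => by rw [hc x, map_zero]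
    rcases mul_eq_zero.1 h1 with h2 | h2
    · exact hT h2
    · exact MvPolynomial.X_ne_zero _ h2
  rw [map_mul, MvPolynomial.eval_X] at hw
  have hw1 := left_ne_zero_of_mul hw
  have hw2 := right_ne_zero_of_mul hw
  obtain ⟨v, hv⟩ : ∃ v : Fin (d + 2) → k, v = fun i => (w (Fin.last (d + 1)))⁻¹ * w i := ⟨_, rfl⟩
  have hv1 : v (Fin.last (d + 1)) = 1 := by
    rw [hv]
    exact inv_mul_cancel₀ hw2
  have hv2 : MvPolynomial.eval v h ≠ 0 := by
    rw [hv, eval_smul hH]
    exact mul_ne_zero (pow_ne_zero _ (inv_ne_zero hw2)) hw1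
  have hs : ∀ i : Fin (d + 1), ∃ s : k, s ≠ 0 ∧
      MvPolynomial.eval (Function.update v i.castSucc (v i.castSucc + s)) h ≠ 0 := by
    intro i
    obtain ⟨p, hp⟩ : ∃ p : Polynomial k, p = MvPolynomial.aeval
      (Function.update (fun j => Polynomial.C (v j)) i.castSucc
        (Polynomial.C (v i.castSucc) + Polynomial.X)) h := ⟨_, rfl⟩
    have he : ∀ s : k, p.eval s =
        MvPolynomial.eval (Function.update v i.castSucc (v i.castSucc + s)) h := by
      intro s
      have h1 : (Polynomial.evalRingHom s).comp
          (MvPolynomial.aeval (Function.update (fun j => Polynomial.C (v j)) i.castSucc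
            (Polynomial.C (v i.castSucc) + Polynomial.X)) :
              MvPolynomial (Fin (d + 2)) k →ₐ[k] Polynomial k).toRingHom =
          MvPolynomial.eval (Function.update v i.castSucc (v i.castSucc + s)) := by
        refine MvPolynomial.ringHom_ext (fun c => ?_) fun j => ?_
        · simp
        · by_cases hj : j = i.castSucc
          · subst hj
            simp
          · simp [Function.update_of_ne hj]
      rw [hp]
      exact congrArg (fun g => g h) h1
    have hp0 : p ≠ 0 := by
      intro h0
      have h1 := he 0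
      rw [h0, Polynomial.eval_zero, add_zero, Function.update_eq_self] at h1
      exact hv2 h1.symm
    obtain ⟨s, hs⟩ : ∃ s : k, (p * Polynomial.X).eval s ≠ 0 := by
      by_contra hc
      push Not at hc
      have h1 : p * Polynomial.X = 0 := Polynomial.funext fun x => by rw [hc x, Polynomial.eval_zero]
      rcases mul_eq_zero.1 h1 with h2 | h2
      · exact hp0 h2
      · exact Polynomial.X_ne_zero h2
    rw [Polynomial.eval_mul, Polynomial.eval_X, he] at hs
    exact ⟨s, right_ne_zero_of_mul hs, left_ne_zero_of_mul hs⟩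
  choose s hs1 hs2 using hs
  exact ⟨v, s, hv1, hs1, hv2, hs2⟩

end Pool.Agent.Lib.MP_16285c_agX.Cn
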