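import Pool.Agent.Lib.MP_16285c_agX.Can.Spec

/-!
# Criteria for divisors (statement `S_Dvc`)
-/

set_option autoImplicit false

namespace Pool.Agent.Lib.MP_16285c_agX.Cn

open Pool.Agent.Lib.MP_16285c_agS.Cn (Plc)

namespace DvcM

variable {k E : Type} [Field k] [Field E] [Algebra k E] {d : ℕ} {t : Fin (d + 2) → E}

theorem one_mem : (1 : E) ∈ UU k t := Submodule.subset_span (Set.mem_insert _ _)

theorem t_mem (i : Fin (d + 2)) : t i ∈ UU k t :=
  Submodule.subset_span (Set.mem_insert_of_mem _ (Set.mem_range_self i))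

/-- Quotients of elements of the linear system by a fixed element are in a subring. -/
theorem div_mem {C : Subring E} (hk : ∀ c : k, algebraMap k E c ∈ C) {w : E} (h1 : 1 / w ∈ C)
    (ht : ∀ i, t i / w ∈ C) {u : E} (hu : u ∈ UU k t) : u / w ∈ C := by
  unfold UU at hu
  induction hu using Submodule.span_induction with
  | mem x hx =>
    rcases hx with rfl | ⟨i, rfl⟩
    · exact h1
    · exact ht i
  | zero =>
    rw [zero_div]
    exact C.zero_mem
  | add x y _ _ hx hy =>
    rw [add_div]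
    exact C.add_mem hx hy
  | smul a x _ hx =>
    rw [Algebra.smul_def, mul_div_assoc]
    exact C.mul_mem (hk a) hx

/-- If `x` and `x⁻¹` are in `O`, then `x` has valuation one. -/
theorem val_one {O : ValuationSubring E} {x : E} (h0 : x ≠ 0) (h : x ∈ O) (h' : x⁻¹ ∈ O) :
    O.valuation x = 1 := by
  apply le_antisymm ((O.valuation_le_one_iff x).2 h)
  have h2 := (O.valuation_le_one_iff x⁻¹).2 h'
  have hx : O.valuation x ≠ 0 := (Valuation.ne_zero_iff _).2 h0
  rw [map_inv₀] at h2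
  exact (inv_le_one₀ (zero_lt_iff.2 hx)).1 h2

end DvcM

open DvcM in
theorem tDvc : S_Sel → S_Dvc := by
  intro hSel d k E _ _ _ _ t O
  have p1 : Dv k t O → (∀ i, t i ∈ O) →
      ∃ σ : Fin (d + 1) → Fin (d + 2), Function.Injective σ ∧ Ind k O fun j => t (σ j) := by
    intro hD ht
    by_contra hcon
    obtain ⟨-, -, C, -, -, hSb, htC, -⟩ := hSel k E O hD.con (d + 2) t ht d hcon
    refine hD.nc ⟨1, one_mem, one_ne_zero, C, hSb, fun u hu => div_mem hSb.con ?_ (fun i => ?_) hu⟩
    · rw [div_one]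
      exact C.one_mem
    · rw [div_one]
      exact htC i
  have p2 : Plc k O → (∀ i, t i ∈ O) →
      (∃ σ : Fin (d + 1) → Fin (d + 2), Function.Injective σ ∧ Ind k O fun j => t (σ j)) → Dv k t O := by
    intro hP ht hne
    refine ⟨hP, ?_⟩
    rintro ⟨w, hw, hw0, C, hSb, h⟩
    obtain ⟨σ, -, hInd⟩ := hne
    have h1 : 1 / w ∈ C := h 1 one_mem
    have hwO : w ∈ O := by
      have := div_mem (C := O.toSubring) (w := 1) (t := t) hP.con (by simp)
        (fun i => by rw [div_one]; exact ht i) hw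
      rwa [div_one] at this
    have h1O : w⁻¹ ∈ O := by
      rw [← one_div]
      exact hSb.le _ h1
    have hv : O.valuation (1 / w) = 1 := by
      rw [one_div]
      exact val_one (inv_ne_zero hw0) h1O (by rwa [inv_inv])
    have hwC : w ∈ C := by
      have := hSb.inv _ h1 hv
      rwa [one_div, inv_inv] at this
    obtain ⟨G, hG0, hG⟩ := hSb.dep (fun j => t (σ j)) fun j => by
      have h3 := C.mul_mem (h (t (σ j)) (t_mem (σ j))) hwC
      rwa [div_mul_cancel₀ _ hw0] at h3
    exact hInd G hG0 hG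
  have p3 : Dv k t O → (∃ i, t i ∉ O) → ∃ l, 1 < O.valuation (t l) ∧ (∀ i, t i / t l ∈ O) ∧
      ∃ σ : Fin (d + 1) → Fin (d + 2), Function.Injective σ ∧ Ind k O fun j => t (σ j) / t l := by
    intro hD hne
    obtain ⟨l, hl⟩ : ∃ l, ∀ i, O.valuation (t i) ≤ O.valuation (t l) :=
      Finite.exists_max fun i => O.valuation (t i)
    obtain ⟨i, hi⟩ := hne
    have hv : 1 < O.valuation (t l) := by
      refine lt_of_lt_of_le ?_ (hl i)
      rw [← not_le]
      exact fun h => hi ((O.valuation_le_one_iff _).1 h)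
    have hv0 : O.valuation (t l) ≠ 0 := (zero_lt_one.trans hv).ne'
    have ht0 : t l ≠ 0 := (Valuation.ne_zero_iff _).1 hv0
    have hO : ∀ i, t i / t l ∈ O := fun i => by
      rw [← O.valuation_le_one_iff, map_div₀]
      exact (div_le_one₀ (zero_lt_iff.2 hv0)).2 (hl i)
    refine ⟨l, hv, hO, ?_⟩
    by_contra hcon
    obtain ⟨-, -, C, -, -, hSb, htC, -⟩ := hSel k E O hD.con (d + 2) (fun i => t i / t l) hO d hcon
    refine hD.nc ⟨t l, t_mem l, ht0, C, hSb, fun u hu => div_mem hSb.con ?_ htC hu⟩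
    apply hSb.mx
    rw [map_div₀, map_one]
    exact (div_lt_one₀ (zero_lt_iff.2 hv0)).2 hv
  have p4 : Plc k O → ∀ l, 1 < O.valuation (t l) → (∀ i, t i / t l ∈ O) →
      (∃ σ : Fin (d + 1) → Fin (d + 2), Function.Injective σ ∧ Ind k O fun j => t (σ j) / t l) →
      Dv k t O := by
    intro hP l hv hO hne
    refine ⟨hP, ?_⟩
    rintro ⟨w, hw, hw0, C, hSb, h⟩
    obtain ⟨σ, -, hInd⟩ := hne
    have hv0 : O.valuation (t l) ≠ 0 := (zero_lt_one.trans hv).ne'
    have ht0 : t l ≠ 0 := (Valuation.ne_zero_iff _).1 hv0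
    have hwO : w / t l ∈ O := by
      refine div_mem (C := O.toSubring) (w := t l) (t := t) hP.con ?_ hO hw
      change (1 / t l) ∈ O
      rw [← O.valuation_le_one_iff, map_div₀, map_one]
      exact ((div_lt_one₀ (zero_lt_iff.2 hv0)).2 hv).le
    have h1 : t l / w ∈ C := h (t l) (t_mem l)
    have hv1 : O.valuation (t l / w) = 1 :=
      val_one (div_ne_zero ht0 hw0) (hSb.le _ h1) (by rwa [inv_div])
    have hwC : w / t l ∈ C := by
      have := hSb.inv _ h1 hv1
      rwa [inv_div] at this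
    obtain ⟨G, hG0, hG⟩ := hSb.dep (fun j => t (σ j) / t l) fun j => by
      have h3 := C.mul_mem (h (t (σ j)) (t_mem (σ j))) hwC
      rwa [div_mul_div_cancel₀ hw0] at h3
    exact hInd G hG0 hG
  refine ⟨p1, p2, p3, p4, fun hD => ?_⟩
  by_cases hall : ∀ i, t i ∈ O
  · obtain ⟨σ, -, hσ⟩ := p1 hD hall
    exact ⟨fun j => t (σ j), fun j => hall (σ j), hσ⟩
  · push Not at hall
    obtain ⟨l, -, h2, σ, -, hσ⟩ := p3 hD hall
    exact ⟨fun j => t (σ j) / t l, fun j => h2 (σ j), hσ⟩

end Pool.Agent.Lib.MP_16285c_agX.Cn
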