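import Pool.Agent.Lib.MP_16285c_agX.Can.Spec

/-!
# Package CAN, every dimension: only finitely many divisors are contracted by the coordinates after pull back
-/

set_option autoImplicit false

namespace Pool.Agent.Lib.MP_16285c_agX.Cn

open Pool.Agent.Lib.MP_16285c_agS (InTI)
open Pool.Agent.Lib.MP_16285c_agS.Cn (Plc cm)

namespace F1aM

/-- Values of polynomials are in `O`. -/
theorem aeval_mem (k E : Type) [Field k] [Field E] [Algebra k E] {m : ℕ} (x : Fin m → E) (O : ValuationSubring E)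
    (hk : ∀ c : k, algebraMap k E c ∈ O) (hx : ∀ i, x i ∈ O) (G : MvPolynomial (Fin m) k) :
    MvPolynomial.aeval x G ∈ O := by
  induction G using MvPolynomial.induction_on with
  | C a => rw [MvPolynomial.aeval_C]; exact hk a
  | add p q hp hq => rw [map_add]; exact O.add_mem _ _ hp hq
  | mul_X p i hp => rw [map_mul, MvPolynomial.aeval_X]; exact O.mul_mem _ _ hp (hx i)

/-- Roots of monic polynomials are in `O`. -/
theorem root_mem (k E : Type) [Field k] [Field E] [Algebra k E] {m : ℕ} (x : Fin m → E) (O : ValuationSubring E)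
    (hk : ∀ c : k, algebraMap k E c ∈ O) (hx : ∀ i, x i ∈ O) (z : E)
    (P : Polynomial (MvPolynomial (Fin m) k)) (hP : P.Monic) (h0 : ev x z P = 0) : z ∈ O := by
  let f : MvPolynomial (Fin m) k →+* O :=
    (MvPolynomial.aeval x : MvPolynomial (Fin m) k →ₐ[k] E).toRingHom.codRestrict O
      fun G => aeval_mem k E x O hk hx G
  have hf : (algebraMap O E).comp f = (MvPolynomial.aeval x : MvPolynomial (Fin m) k →ₐ[k] E).toRingHom := rfl
  have hi : IsIntegral O z := by
    refine ⟨P.map f, hP.map f, ?_⟩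
    rw [Polynomial.eval₂_map, hf]
    exact h0
  obtain ⟨w, hw⟩ := IsIntegrallyClosed.isIntegral_iff.1 hi
  rw [← hw]
  exact w.2

/-- Values of polynomials are in `O`. -/
theorem ev_mem (k E : Type) [Field k] [Field E] [Algebra k E] {m : ℕ} (x : Fin m → E) (O : ValuationSubring E)
    (hk : ∀ c : k, algebraMap k E c ∈ O) (hx : ∀ i, x i ∈ O) (z : E) (hz : z ∈ O)
    (N : Polynomial (MvPolynomial (Fin m) k)) : ev x z N ∈ O := by
  have h : ev x z N = N.sum fun e a =>
      (MvPolynomial.aeval x : MvPolynomial (Fin m) k →ₐ[k] E).toRingHom a * z ^ e :=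
    Polynomial.eval₂_eq_sum
  rw [h, Polynomial.sum]
  exact sum_mem fun e _ => mul_mem (aeval_mem k E x O hk hx _) (pow_mem hz e)

/-- Division by a unit. -/
theorem div_mem (E : Type) [Field E] (O : ValuationSubring E) (a b c : E) (h : a * b = c) (hb : O.valuation b = 1)
    (hc : c ∈ O) : a ∈ O := by
  rw [← ValuationSubring.valuation_le_one_iff] at hc ⊢
  rw [← h, map_mul, hb, mul_one] at hc
  exact hc

/-- The derivative of a value of a polynomial in several variables. -/
theorem der_aeval (k E : Type) [Field k] [Field E] [Algebra k E] {m : ℕ} (s : Fin m → E) (O : ValuationSubring E)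
    (hk : ∀ c : k, algebraMap k E c ∈ O) (hs : ∀ i, s i ∈ O) (G : MvPolynomial (Fin m) k) :
    ∃ b : Fin m → E, (∀ l, b l ∈ O) ∧ ∀ Δ : Derivation k E E,
      Δ (MvPolynomial.aeval s G) = ∑ l, b l * Δ (s l) := by
  classical
  induction G using MvPolynomial.induction_on with
  | C a =>
    refine ⟨fun _ => 0, fun _ => O.zero_mem, fun Δ => ?_⟩
    rw [MvPolynomial.aeval_C, Derivation.map_algebraMap]
    simp
  | add p q hp hq =>
    obtain ⟨b, hb, hp⟩ := hp
    obtain ⟨c, hc, hq⟩ := hq
    refine ⟨fun l => b l + c l, fun l => O.add_mem _ _ (hb l) (hc l), fun Δ => ?_⟩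
    rw [map_add, map_add, hp, hq, ← Finset.sum_add_distrib]
    exact Finset.sum_congr rfl fun l _ => by ring
  | mul_X p i hp =>
    obtain ⟨b, hb, hp⟩ := hp
    refine ⟨fun l => s i * b l + if l = i then MvPolynomial.aeval s p else 0, fun l => ?_, fun Δ => ?_⟩
    · refine O.add_mem _ _ (O.mul_mem _ _ (hs i) (hb l)) ?_
      split_ifs
      · exact aeval_mem k E s O hk hs p
      · exact O.zero_mem
    · rw [map_mul, MvPolynomial.aeval_X, Derivation.leibniz, smul_eq_mul, smul_eq_mul, hp]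
      have h1 : ∀ l : Fin m, (s i * b l + if l = i then MvPolynomial.aeval s p else 0) * Δ (s l) =
          s i * (b l * Δ (s l)) + if l = i then MvPolynomial.aeval s p * Δ (s l) else 0 := by
        intro l
        split_ifs
        · ring
        · ring
      rw [Finset.sum_congr rfl fun l _ => h1 l, Finset.sum_add_distrib, ← Finset.mul_sum,
        Finset.sum_ite_eq' Finset.univ i, if_pos (Finset.mem_univ i)]
      ring

/-- The derivative of a value of a polynomial. -/
theorem der_ev (k E : Type) [Field k] [Field E] [Algebra k E] {m : ℕ} (s : Fin m → E) (u : E)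
    (O : ValuationSubring E) (hk : ∀ c : k, algebraMap k E c ∈ O) (hs : ∀ i, s i ∈ O) (hu : u ∈ O)
    (G : Polynomial (MvPolynomial (Fin m) k)) :
    ∃ b : Fin m → E, (∀ l, b l ∈ O) ∧ ∀ Δ : Derivation k E E,
      Δ (ev s u G) = ev s u G.derivative * Δ u + ∑ l, b l * Δ (s l) := by
  induction G using Polynomial.induction_on' with
  | add p q hp hq =>
    obtain ⟨b, hb, hp⟩ := hp
    obtain ⟨c, hc, hq⟩ := hq
    refine ⟨fun l => b l + c l, fun l => O.add_mem _ _ (hb l) (hc l), fun Δ => ?_⟩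
    have h1 : ∑ l, (b l + c l) * Δ (s l) = ∑ l, b l * Δ (s l) + ∑ l, c l * Δ (s l) := by
      rw [← Finset.sum_add_distrib]
      exact Finset.sum_congr rfl fun l _ => by ring
    rw [map_add, map_add, hp, hq, Polynomial.derivative_add, map_add, h1]
    ring
  | monomial n a =>
    obtain ⟨b, hb, ha⟩ := der_aeval k E s O hk hs a
    refine ⟨fun l => u ^ n * b l, fun l => O.mul_mem _ _ (pow_mem hu n) (hb l), fun Δ => ?_⟩
    have e1 : ∀ (r : ℕ) (c : MvPolynomial (Fin m) k),
        ev s u (Polynomial.monomial r c) = MvPolynomial.aeval s c * u ^ r := by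
      intro r c
      exact Polynomial.eval₂_monomial _ _
    have h1 : ∑ l, u ^ n * b l * Δ (s l) = u ^ n * ∑ l, b l * Δ (s l) := by
      rw [Finset.mul_sum]
      exact Finset.sum_congr rfl fun l _ => by ring
    rw [Polynomial.derivative_monomial, e1, e1, Derivation.leibniz, smul_eq_mul, smul_eq_mul, ha,
      Derivation.leibniz_pow, h1, map_mul, map_natCast, smul_eq_mul, nsmul_eq_mul]
    ring

/-- A determinant whose columns are in the span of too few columns. -/
theorem det_zero (κ : Type) [Field κ] (d m' : ℕ) (hm : m' ≤ d) (σ : Fin m' → Fin (d + 2))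
    (c : Fin (d + 2) → Fin (d + 2) → κ) (p : Fin (d + 2) → κ) (a : Fin (d + 2) → Fin m' → κ)
    (b : Fin (d + 2) → κ) (h : ∀ i j, c i j = ∑ l, a j l * c i (σ l) + b j * p i) :
    (Matrix.of fun i j => c i j).det = 0 := by
  classical
  let A : Matrix (Option (Fin m')) (Fin (d + 2)) κ := Matrix.of fun o j => o.elim (b j) (a j)
  have hlt : Module.finrank κ (Option (Fin m') → κ) < Module.finrank κ (Fin (d + 2) → κ) := by
    rw [Module.finrank_fintype_fun_eq_card, Module.finrank_fintype_fun_eq_card, Fintype.card_option,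
      Fintype.card_fin, Fintype.card_fin]
    omega
  have hker := LinearMap.ker_ne_bot_of_finrank_lt (f := A.mulVecLin) hlt
  obtain ⟨v, hv, hv0⟩ := Submodule.exists_mem_ne_zero_of_ne_bot hker
  rw [LinearMap.mem_ker, Matrix.mulVecLin_apply] at hv
  have h1 : ∑ j, b j * v j = 0 := by
    have := congrFun hv none
    exact this
  have h2 : ∀ l, ∑ j, a j l * v j = 0 := by
    intro l
    have := congrFun hv (some l)
    exact this
  refine Matrix.exists_mulVec_eq_zero_iff.1 ⟨v, hv0, ?_⟩
  funext i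
  change ∑ j, c i j * v j = 0
  have h3 : ∀ j, c i j * v j = ∑ l, c i (σ l) * (a j l * v j) + p i * (b j * v j) := by
    intro j
    rw [h i j, add_mul, Finset.sum_mul]
    congr 1
    · exact Finset.sum_congr rfl fun l _ => by ring
    · ring
  rw [Finset.sum_congr rfl fun j _ => h3 j, Finset.sum_add_distrib, Finset.sum_comm, ← Finset.mul_sum, h1,
    mul_zero, add_zero]
  refine Finset.sum_eq_zero fun l _ => ?_
  rw [← Finset.mul_sum, h2, mul_zero]

end F1aM

open F1aM in
/-- **F1a**. -/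
theorem tF1a : S_Sel → S_Cmp → S_Dvc → S_Mdl → S_Exc → S_Der → S_DO → S_Jac → S_F1a := by
  intro hSel hCmp hDvc hMdl hExc hDer hDO hJac d k E _ _ _ _ x hT ρ hfin
  classical
  obtain ⟨z, P, m, D, hM⟩ := hMdl d k E x hT
  obtain ⟨⟨Δ, hΔ⟩, -⟩ := hDer d k E x hT
  set y : Fin (d + 2) → E := fun i => ρ (x i) with hy
  obtain ⟨hJ1, hJ2⟩ := hJac d k E x hT
  have hTy : Tb k y := hJ1 ρ hfin
  set J : E := (Matrix.of fun i j => Δ i (y j)).det with hJ
  have hJ0 : J ≠ 0 := hJ2 Δ hΔ y hTy
  choose N c hc0 hN using fun j => hM.gen (y j)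
  obtain ⟨NJ, cJ, hcJ, hNJ⟩ := hM.gen J⁻¹
  have hne : D * ((∏ j, c j) * cJ) ≠ 0 :=
    mul_ne_zero hM.ne (mul_ne_zero (Finset.prod_ne_zero_iff.2 fun j _ => hc0 j) hcJ)
  refine (hExc d k E x hT _ hne).subset ?_
  rintro O ⟨hO, hn⟩
  refine ⟨hO, ?_⟩
  by_contra hcon
  apply hn
  rw [not_or, not_exists] at hcon
  obtain ⟨hx', hv⟩ := hcon
  have hx : ∀ i, x i ∈ O := fun i => not_not.1 (hx' i)
  have hk := hO.toPlc.con
  have hle : ∀ G : Po d k, O.valuation (MvPolynomial.aeval x G) ≤ 1 := fun G =>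
    (O.valuation_le_one_iff _).2 (aeval_mem k E x O hk hx G)
  have hmul : ∀ G H : Po d k, ¬ O.valuation (MvPolynomial.aeval x (G * H)) < 1 →
      O.valuation (MvPolynomial.aeval x G) = 1 ∧ O.valuation (MvPolynomial.aeval x H) = 1 := by
    intro G H h
    rw [map_mul, map_mul] at h
    constructor
    · by_contra h1
      exact h (mul_lt_one_of_lt_of_le (lt_of_le_of_ne (hle G) h1) (hle H))
    · by_contra h1
      rw [mul_comm] at h
      exact h (mul_lt_one_of_lt_of_le (lt_of_le_of_ne (hle H) h1) (hle G))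
  obtain ⟨hvD, hvc⟩ := hmul _ _ hv
  obtain ⟨hvp, hvJ⟩ := hmul _ _ (by rw [hvc]; exact lt_irrefl 1)
  have hvj : ∀ j, O.valuation (MvPolynomial.aeval x (c j)) = 1 := by
    intro j
    obtain ⟨r, hr⟩ := Finset.dvd_prod_of_mem c (Finset.mem_univ j)
    refine (hmul (c j) r ?_).1
    rw [← hr, hvp]
    exact lt_irrefl 1
  have hG : Gd k x D O := ⟨hO, hx, hvD⟩
  have hz : z ∈ O := root_mem k E x O hk hx z P hM.mon hM.rt
  have hyO : ∀ j, y j ∈ O := fun j => div_mem E O _ _ _ (hN j) (hvj j) (ev_mem k E x O hk hx z hz _)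
  have hJi : J⁻¹ ∈ O := div_mem E O _ _ _ hNJ hvJ (ev_mem k E x O hk hx z hz _)
  have hΔO : ∀ e ∈ O, ∀ i, Δ i e ∈ O := hDO d k E x z P m D hT hM Δ hΔ O hG
  obtain ⟨hP', -, hI', -⟩ := hCmp k E ρ hfin O hO.toPlc
  refine (hDvc d k E x (cm ρ O)).2.1 hP' (fun i => hyO i) ?_
  by_contra hall
  have hall' : ¬ ∃ σ : Fin (d + 1) → Fin (d + 2), Function.Injective σ ∧ Ind k O fun j => y (σ j) := by
    rintro ⟨σ, hσ, hI⟩
    exact hall ⟨σ, hσ, (hI' (d + 1) fun j => x (σ j)).2 hI⟩
  obtain ⟨m', σ, C, hm', -, -, -, hGG⟩ := hSel k E O hk (d + 2) y hyO d hall'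
  choose G hG0 hG1 using hGG
  have : IsDiscreteValuationRing O := hO.toPlc.dvr
  obtain ⟨π, hπ⟩ := IsDiscreteValuationRing.exists_irreducible O
  have hπm : π ∈ IsLocalRing.maximalIdeal O := hπ.not_isUnit
  have hdiv : ∀ a : E, O.valuation a < 1 → ∃ h : O, a = (π : E) * h := by
    intro a ha
    have haO : a ∈ O := (O.valuation_le_one_iff a).1 ha.le
    have h1 : (⟨a, haO⟩ : O) ∈ IsLocalRing.maximalIdeal O := (O.valuation_lt_one_iff ⟨a, haO⟩).2 ha
    rw [hπ.maximalIdeal_eq, Ideal.mem_span_singleton] at h1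
    obtain ⟨h, hh⟩ := h1
    exact ⟨h, congrArg Subtype.val hh⟩
  choose h hh using fun j => hdiv _ (hG0 j)
  choose b hb hder using fun j => der_ev k E (fun l => y (σ l)) (y j) O hk (fun l => hyO (σ l)) (hyO j) (G j)
  -- everything in `O`
  let M : Fin (d + 2) → Fin (d + 2) → O := fun i j => ⟨Δ i (y j), hΔO _ (hyO j) i⟩
  let g : Fin (d + 2) → O := fun j =>
    ⟨ev (fun l => y (σ l)) (y j) (G j).derivative,
      ev_mem k E _ O hk (fun l => hyO (σ l)) _ (hyO j) _⟩
  let bo : Fin (d + 2) → Fin m' → O := fun j l => ⟨b j l, hb j l⟩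
  let dh : Fin (d + 2) → Fin (d + 2) → O := fun i j => ⟨Δ i (h j : E), hΔO _ (h j).2 i⟩
  let dp : Fin (d + 2) → O := fun i => ⟨Δ i (π : E), hΔO _ π.2 i⟩
  have hrel : ∀ i j, g j * M i j + ∑ l, bo j l * M i (σ l) = π * dh i j + h j * dp i := by
    intro i j
    apply Subtype.ext
    have h2 := hder j (Δ i)
    rw [hh j, Derivation.leibniz, smul_eq_mul, smul_eq_mul] at h2
    have h3 : ((g j * M i j + ∑ l, bo j l * M i (σ l) : O) : E) =
        ev (fun l => y (σ l)) (y j) (G j).derivative * Δ i (y j) + ∑ l, b j l * Δ i (y (σ l)) := by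
      simp [g, M, bo]
    rw [h3, ← h2]
    rfl
  have hg : ∀ j, IsLocalRing.residue O (g j) ≠ 0 := by
    intro j h0
    rw [IsLocalRing.residue_eq_zero_iff] at h0
    have h1 := (O.valuation_lt_one_iff (g j)).1 h0
    exact absurd (hG1 j) h1.ne
  have hπ0 : IsLocalRing.residue O π = 0 := (IsLocalRing.residue_eq_zero_iff π).2 hπm
  have hcol : ∀ i j, IsLocalRing.residue O (M i j) =
      ∑ l, (-(IsLocalRing.residue O (bo j l)) / IsLocalRing.residue O (g j)) *
        IsLocalRing.residue O (M i (σ l)) +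
      (IsLocalRing.residue O (h j) / IsLocalRing.residue O (g j)) * IsLocalRing.residue O (dp i) := by
    intro i j
    have h1 := congrArg (IsLocalRing.residue O) (hrel i j)
    rw [map_add, map_add, map_mul, map_mul, map_mul, map_sum, hπ0, zero_mul, zero_add] at h1
    have h2 : ∀ l, IsLocalRing.residue O (bo j l * M i (σ l)) =
        IsLocalRing.residue O (bo j l) * IsLocalRing.residue O (M i (σ l)) := fun l => map_mul _ _ _
    rw [Finset.sum_congr rfl fun l _ => h2 l] at h1
    have h3 : ∑ l, (-(IsLocalRing.residue O (bo j l)) / IsLocalRing.residue O (g j)) *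
        IsLocalRing.residue O (M i (σ l)) =
        -(∑ l, IsLocalRing.residue O (bo j l) * IsLocalRing.residue O (M i (σ l))) /
          IsLocalRing.residue O (g j) := by
      rw [← Finset.sum_neg_distrib, Finset.sum_div]
      exact Finset.sum_congr rfl fun l _ => by ring
    rw [h3]
    have hgj := hg j
    field_simp
    rw [← h1]
    ring
  have hdet := det_zero (IsLocalRing.ResidueField O) d m' hm' σ (fun i j => IsLocalRing.residue O (M i j))
    (fun i => IsLocalRing.residue O (dp i)) _ _ hcol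
  have h4 : IsLocalRing.residue O (Matrix.of fun i j => M i j).det = 0 := by
    rw [RingHom.map_det, ← hdet]
    rfl
  have h5 : ((Matrix.of fun i j => M i j).det : O).1 = J := by
    have h6 := RingHom.map_det (algebraMap O E) (Matrix.of fun i j => M i j)
    rw [hJ]
    exact h6
  have hlt : O.valuation J < 1 := by
    rw [IsLocalRing.residue_eq_zero_iff] at h4
    rw [← h5]
    exact (O.valuation_lt_one_iff _).1 h4
  have h3 : O.valuation J * O.valuation J⁻¹ < 1 :=
    mul_lt_one_of_lt_of_le hlt ((O.valuation_le_one_iff _).2 hJi)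
  rw [← map_mul, mul_inv_cancel₀ hJ0, map_one] at h3
  exact lt_irrefl _ h3

end Pool.Agent.Lib.MP_16285c_agX.Cn
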