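import Pool.Agent.Lib.MP_16285c_agX.Can.Spec

/-!
# (F3): the numerators of the logarithmic form in every dimension
-/

set_option autoImplicit false

namespace Pool.Agent.Lib.MP_16285c_agX.Cn

namespace F3M

open MvPolynomial

theorem wle_comb {d : ℕ} {k : Type} [Field k] {m N : ℕ} {H H' : PZ d k} (h : Wle m N H)
    (h' : Wle m N H') (a b : k) :
    Wle m N (Polynomial.C (C a) * H + Polynomial.C (C b) * H') := by
  intro e he
  rw [Polynomial.mem_support_iff, Polynomial.coeff_add, Polynomial.coeff_C_mul,
    Polynomial.coeff_C_mul] at he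
  rw [Polynomial.coeff_add, Polynomial.coeff_C_mul, Polynomial.coeff_C_mul]
  have hb : ∀ (a : k) (G : Po d k), (C a * G).totalDegree ≤ G.totalDegree := by
    intro a G
    refine (totalDegree_mul _ _).trans ?_
    rw [totalDegree_C, zero_add]
  by_cases h1 : H.coeff e = 0
  · rw [h1, mul_zero, zero_add] at he ⊢
    have h2 : H'.coeff e ≠ 0 := right_ne_zero_of_mul he
    exact (Nat.add_le_add_right (hb b _) _).trans (h' e (Polynomial.mem_support_iff.2 h2))
  · have h3 := h e (Polynomial.mem_support_iff.2 h1)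
    by_cases h2 : H'.coeff e = 0
    · rw [h2, mul_zero, add_zero]
      exact (Nat.add_le_add_right (hb a _) _).trans h3
    · have h4 := h' e (Polynomial.mem_support_iff.2 h2)
      have h5 := totalDegree_add (C a * H.coeff e) (C b * H'.coeff e)
      have h6 := hb a (H.coeff e)
      have h7 := hb b (H'.coeff e)
      have h8 : (C a * H.coeff e + C b * H'.coeff e).totalDegree ≤
          max (H.coeff e).totalDegree (H'.coeff e).totalDegree :=
        h5.trans (max_le_max h6 h7)
      rcases le_total (H.coeff e).totalDegree (H'.coeff e).totalDegree with h9 | h9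
      · rw [max_eq_right h9] at h8
        omega
      · rw [max_eq_left h9] at h8
        omega

theorem lt_comb {k E : Type} [Field k] [Field E] [Algebra k E] (O : ValuationSubring E)
    (hO : ∀ c : k, algebraMap k E c ∈ O) (a b : k) {u v : E}
    (hu : O.valuation u < 1) (hv : O.valuation v < 1) :
    O.valuation (algebraMap k E a * u + algebraMap k E b * v) < 1 := by
  have h : ∀ (a : k) (u : E), O.valuation u < 1 → O.valuation (algebraMap k E a * u) < 1 := by
    intro a u hu
    rw [map_mul]
    have h1 : O.valuation (algebraMap k E a) ≤ 1 := (O.valuation_le_one_iff _).2 (hO a)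
    exact (mul_le_of_le_one_left' h1).trans_lt hu
  exact O.valuation.map_add_lt (h a u hu) (h b v hv)

theorem ev_C {m : ℕ} {k E : Type} [Field k] [Field E] [Algebra k E] (y : Fin m → E) (w : E)
    (G : MvPolynomial (Fin m) k) : ev y w (Polynomial.C G) = aeval y G := by
  simp [ev]

/-- `N` is a numerator with the value `a` at `O` and the value `0` at the places of `S`. -/
structure Gq {k E : Type} [Field k] [Field E] [Algebra k E] {d : ℕ} (t : Fin (d + 2) → E) (z : E)
    (m W : ℕ) (O : ValuationSubring E) (S : Set (ValuationSubring E)) (N : PZ d k) (a : E) :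
    Prop where
  wt : Wle m W N
  cg : O.valuation (ev t z N - a) < 1
  va : ∀ O₁ ∈ S, O₁.valuation (ev t z N) < 1

section

variable {k E : Type} [Field k] [Field E] [Algebra k E] {d : ℕ} {t : Fin (d + 2) → E} {z : E}
  {m W : ℕ} {O : ValuationSubring E} {S : Set (ValuationSubring E)}

theorem Gq.comb (hO : ∀ c : k, algebraMap k E c ∈ O)
    (hS : ∀ O₁ ∈ S, ∀ c : k, algebraMap k E c ∈ O₁) {N N' : PZ d k} {x y : E}
    (h : Gq t z m W O S N x) (h' : Gq t z m W O S N' y) (a b : k) :
    Gq t z m W O S (Polynomial.C (C a) * N + Polynomial.C (C b) * N')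
      (algebraMap k E a * x + algebraMap k E b * y) := by
  have hev : ev t z (Polynomial.C (C a) * N + Polynomial.C (C b) * N') =
      algebraMap k E a * ev t z N + algebraMap k E b * ev t z N' := by
    rw [map_add, map_mul, map_mul, ev_C, ev_C, ← algebraMap_eq, AlgHom.commutes, AlgHom.commutes]
  refine ⟨wle_comb h.wt h'.wt a b, ?_, ?_⟩
  · rw [hev]
    have h2 : algebraMap k E a * ev t z N + algebraMap k E b * ev t z N' -
        (algebraMap k E a * x + algebraMap k E b * y) =
        algebraMap k E a * (ev t z N - x) + algebraMap k E b * (ev t z N' - y) := by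
      ring
    rw [h2]
    exact lt_comb O hO a b h.cg h'.cg
  · intro O₁ hO₁
    rw [hev]
    exact lt_comb O₁ (hS O₁ hO₁) a b (h.va O₁ hO₁) (h'.va O₁ hO₁)

theorem Gq.zero : Gq t z m W O S (0 : PZ d k) 0 := by
  refine ⟨?_, ?_, ?_⟩
  · intro e he
    exact absurd (Polynomial.coeff_zero e) (Polynomial.mem_support_iff.1 he)
  · rw [map_zero, sub_zero, map_zero]
    exact zero_lt_one
  · intro O₁ _
    rw [map_zero, map_zero]
    exact zero_lt_one

theorem Gq.sum (hO : ∀ c : k, algebraMap k E c ∈ O)
    (hS : ∀ O₁ ∈ S, ∀ c : k, algebraMap k E c ∈ O₁) {ι : Type} (s : Finset ι) (N : ι → PZ d k)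
    (x : ι → E) (a : ι → k) (h : ∀ i, Gq t z m W O S (N i) (x i)) :
    Gq t z m W O S (∑ i ∈ s, Polynomial.C (C (a i)) * N i) (∑ i ∈ s, algebraMap k E (a i) * x i) := by
  classical
  induction s using Finset.induction_on with
  | empty => exact Gq.zero
  | insert i s hi ih =>
    rw [Finset.sum_insert hi, Finset.sum_insert hi]
    have h1 := Gq.comb hO hS (h i) ih (a i) 1
    rw [C_1, map_one, one_mul, map_one, one_mul] at h1
    exact h1

end

end F3M

open F3M MvPolynomial in
/-- (F3) -/
theorem tF3 : S_F3v → S_Dir → S_F3 := by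
  intro hv hDir d k E _ _ _ _ t z P m D hT hM O hG R hR hRd
  obtain ⟨v, s, hv1, hs, hv0, hvi⟩ := hDir d k R hR.ne_zero
  have hcon := hG.toDv.con
  set S : Set (ValuationSubring E) := {O₁ | Dv k t O₁ ∧ (∀ j, t j ∈ O₁) ∧
    O₁.valuation (MvPolynomial.aeval t R) < 1 ∧ O₁ ≠ O} with hSdef
  have hS : ∀ O₁ ∈ S, ∀ c : k, algebraMap k E c ∈ O₁ := fun O₁ h => h.1.con
  -- one direction
  have one : ∀ u : Fin (d + 2) → k, u (Fin.last (d + 1)) = 1 →
      MvPolynomial.eval u (MvPolynomial.homogeneousComponent R.totalDegree R) ≠ 0 →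
      ∃ H : PZ d k, Gq t z m (R.totalDegree + m * P.natDegree) O S H
        ((∑ i, algebraMap k E (u i) * aeval t (pderiv i R)) * ev t z P.derivative) := by
    intro u hu1 hu0
    obtain ⟨H, h1, h2, h3⟩ := hv d k E t z P m D hT hM O hG R hR hRd u hu1 hu0
    refine ⟨H, h1, ?_, fun O₁ h => h3 O₁ h.1 h.2.1 h.2.2.1 h.2.2.2⟩
    have e : aeval t (∑ i, C (u i) * pderiv i R) = ∑ i, algebraMap k E (u i) * aeval t (pderiv i R) := by
      rw [map_sum]
      refine Finset.sum_congr rfl fun i _ => ?_
      rw [map_mul, ← algebraMap_eq, AlgHom.commutes]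
    rw [← e]
    exact h2
  obtain ⟨H0, hH0⟩ := one v hv1 hv0
  have hi : ∀ i : Fin (d + 1), ∃ H : PZ d k, Gq t z m (R.totalDegree + m * P.natDegree) O S H
      (aeval t (pderiv i.castSucc R) * ev t z P.derivative) := by
    intro i
    obtain ⟨H', hH'⟩ := one (Function.update v i.castSucc (v i.castSucc + s i)) (by
      rw [Function.update_of_ne (Fin.castSucc_lt_last i).ne', hv1]) (hvi i)
    have h1 := Gq.comb hcon hS hH' hH0 (s i)⁻¹ (-(s i)⁻¹)
    refine ⟨Polynomial.C (C (s i)⁻¹) * H' + Polynomial.C (C (-(s i)⁻¹)) * H0, ?_⟩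
    · convert h1 using 1
      have e1 : ∑ j, algebraMap k E (Function.update v i.castSucc (v i.castSucc + s i) j) *
          aeval t (pderiv j R) = ∑ j, algebraMap k E (v j) * aeval t (pderiv j R) +
          algebraMap k E (s i) * aeval t (pderiv i.castSucc R) := by
        have e2 : ∀ j, algebraMap k E (Function.update v i.castSucc (v i.castSucc + s i) j) *
          aeval t (pderiv j R) = algebraMap k E (v j) * aeval t (pderiv j R) +
            if j = i.castSucc then algebraMap k E (s i) * aeval t (pderiv i.castSucc R) else 0 := by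
          intro j
          by_cases hj : j = i.castSucc
          · rw [if_pos hj, hj, Function.update_self, map_add]
            ring
          · rw [if_neg hj, Function.update_of_ne hj, add_zero]
        rw [Finset.sum_congr rfl fun j _ => e2 j, Finset.sum_add_distrib, Finset.sum_ite_eq',
          if_pos (Finset.mem_univ _)]
      rw [e1]
      have e3 : algebraMap k E (s i)⁻¹ * algebraMap k E (s i) = 1 := by
        rw [← map_mul, inv_mul_cancel₀ (hs i), map_one]
      rw [map_neg]
      linear_combination (-(aeval t (pderiv i.castSucc R) * ev t z P.derivative)) * e3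
  choose Hc hHc using hi
  have hsum := Gq.sum hcon hS (Finset.univ : Finset (Fin (d + 1))) Hc _ (fun i => v i.castSucc) hHc
  have hlast := Gq.comb hcon hS hH0 hsum 1 (-1)
  refine ⟨Fin.snoc (α := fun _ => PZ d k) Hc (Polynomial.C (C 1) * H0 + Polynomial.C (C (-1)) *
      ∑ i ∈ (Finset.univ : Finset (Fin (d + 1))), Polynomial.C (C (v i.castSucc)) * Hc i),
    fun i => ?_⟩
  · refine Fin.lastCases ?_ (fun i => ?_) i
    · rw [Fin.snoc_last]
      refine ⟨hlast.wt, ?_, fun O₁ h1 h2 h3 h4 => hlast.va O₁ ⟨h1, h2, h3, h4⟩⟩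
      have h := hlast.cg
      convert h using 3
      rw [Fin.sum_univ_castSucc, hv1, map_one, map_neg, map_one, one_mul, one_mul, add_mul,
        Finset.sum_mul]
      have e : ∀ j : Fin (d + 1), algebraMap k E (v j.castSucc) * aeval t (pderiv j.castSucc R) *
          ev t z P.derivative = algebraMap k E (v j.castSucc) *
          (aeval t (pderiv j.castSucc R) * ev t z P.derivative) := fun j => mul_assoc _ _ _
      rw [Finset.sum_congr rfl fun j _ => e j]
      ring
    · rw [Fin.snoc_castSucc]
      exact ⟨(hHc i).wt, (hHc i).cg, fun O₁ h1 h2 h3 h4 => (hHc i).va O₁ ⟨h1, h2, h3, h4⟩⟩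

end Pool.Agent.Lib.MP_16285c_agX.Cn
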