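import Pool.Agent.Lib.MP_16285c_agX.Can.Spec
import Mathlib.RingTheory.AlgebraicIndependent.TranscendenceBasis
import Mathlib.Combinatorics.Matroid.Rank.ENat

/-!
# (F3v): the numerators of the logarithmic form, one direction
-/

set_option autoImplicit false

namespace Pool.Agent.Lib.MP_16285c_agX.Cn

open Pool.Agent.Lib.MP_16285c_agS.Cn (Plc cm S_Dvr S_Fib S_Fbc S_Loc S_Int)

namespace F3vM

open MvPolynomial

/-! ## The linear change of coordinates -/

section poly

variable {k : Type} [Field k] {d : ℕ}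

/-- `T_i ↦ T_i + w_i T_last`. -/
noncomputable def ph (w : Fin (d + 2) → k) : Po d k →ₐ[k] Po d k :=
  aeval fun i => X i + C (w i) * X (Fin.last (d + 1))

theorem ph_X (w : Fin (d + 2) → k) (i : Fin (d + 2)) :
    ph w (X i) = X i + C (w i) * X (Fin.last (d + 1)) := by simp [ph]

theorem ph_C (w : Fin (d + 2) → k) (a : k) : ph w (C a) = C a := by
  rw [← algebraMap_eq, AlgHom.commutes]

theorem ph_ph {w : Fin (d + 2) → k} (hw : w (Fin.last (d + 1)) = 0) (G : Po d k) :
    ph (-w) (ph w G) = G := by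
  have h : (ph (-w)).comp (ph w) = AlgHom.id k (Po d k) := by
    apply MvPolynomial.algHom_ext
    intro i
    rw [AlgHom.comp_apply, AlgHom.id_apply, ph_X, map_add, map_mul, ph_X, ph_X, ph_C, Pi.neg_apply,
      Pi.neg_apply, hw, neg_zero, C_0, zero_mul, add_zero, C_neg]
    ring
  exact congrArg (fun f : Po d k →ₐ[k] Po d k => f G) h

theorem ph_ph' {w : Fin (d + 2) → k} (hw : w (Fin.last (d + 1)) = 0) (G : Po d k) :
    ph w (ph (-w) G) = G := by
  have h := ph_ph (w := -w) (by rw [Pi.neg_apply, hw, neg_zero]) G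
  rwa [neg_neg] at h

theorem ph_inj {w : Fin (d + 2) → k} (hw : w (Fin.last (d + 1)) = 0) :
    Function.Injective (ph w) := Function.LeftInverse.injective (ph_ph hw)

theorem ph_deg (w : Fin (d + 2) → k) (G : Po d k) : (ph w G).totalDegree ≤ G.totalDegree := by
  have h0 : ∀ i : Fin (d + 2), (X i + C (w i) * X (Fin.last (d + 1)) : Po d k).totalDegree ≤ 1 := by
    intro i
    refine (totalDegree_add _ _).trans (max_le (totalDegree_X i).le ?_)
    refine (totalDegree_mul _ _).trans ?_
    rw [totalDegree_C, totalDegree_X]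
  unfold ph
  rw [aeval_def, eval₂_eq']
  refine totalDegree_finsetSum_le fun s hs => ?_
  refine (totalDegree_mul _ _).trans ?_
  rw [algebraMap_eq, totalDegree_C, zero_add]
  refine (totalDegree_finsetProd _ _).trans ?_
  refine le_trans (Finset.sum_le_sum fun i _ => (totalDegree_pow _ _).trans
    (Nat.mul_le_mul_left (s i) (h0 i))) ?_
  have h1 : ∑ i : Fin (d + 2), s i * 1 = s.sum fun _ e => e := by
    rw [Finsupp.sum_fintype _ _ (fun _ => rfl)]
    simp
  rw [h1]
  exact le_totalDegree hs

theorem ph_deg_eq {w : Fin (d + 2) → k} (hw : w (Fin.last (d + 1)) = 0) (G : Po d k) :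
    (ph w G).totalDegree = G.totalDegree :=
  le_antisymm (ph_deg w G) (by
    have h := ph_deg (-w) (ph w G)
    rwa [ph_ph hw] at h)

theorem coeff_top (n : ℕ) (G : Po d k) : coeff (Finsupp.single (Fin.last (d + 1)) n) G =
    (aeval (fun i => if i = Fin.last (d + 1) then Polynomial.X else 0) G : Polynomial k).coeff n := by
  induction G using MvPolynomial.induction_on' with
  | monomial s a =>
    rw [coeff_monomial, aeval_monomial, Finsupp.prod_fintype _ _ (fun _ => pow_zero _),
      Fin.prod_univ_castSucc, if_pos rfl, Polynomial.algebraMap_apply, Algebra.algebraMap_self,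
      RingHom.id_apply]
    have hc : ∀ i : Fin (d + 1), (if i.castSucc = Fin.last (d + 1) then (Polynomial.X : Polynomial k)
        else 0) ^ s i.castSucc = (0 : Polynomial k) ^ s i.castSucc := by
      intro i
      rw [if_neg (Fin.castSucc_lt_last i).ne]
    rw [Finset.prod_congr rfl fun i _ => hc i]
    by_cases h0 : ∀ i : Fin (d + 1), s i.castSucc = 0
    · rw [Finset.prod_congr rfl fun i _ => by rw [h0 i, pow_zero], Finset.prod_const_one, one_mul,
        Polynomial.coeff_C_mul, Polynomial.coeff_X_pow]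
      by_cases h1 : s (Fin.last (d + 1)) = n
      · have h2 : s = Finsupp.single (Fin.last (d + 1)) n := by
          ext i
          refine Fin.lastCases ?_ (fun i => ?_) i
          · rw [Finsupp.single_eq_same, h1]
          · rw [h0 i, Finsupp.single_apply, if_neg (Fin.castSucc_lt_last i).ne']
        rw [if_pos h2, if_pos h1.symm, mul_one]
      · have h2 : s ≠ Finsupp.single (Fin.last (d + 1)) n := by
          intro h
          apply h1
          rw [h, Finsupp.single_eq_same]
        rw [if_neg h2, if_neg (Ne.symm h1), mul_zero]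
    · push Not at h0
      obtain ⟨i, hi⟩ := h0
      have h2 : s ≠ Finsupp.single (Fin.last (d + 1)) n := by
        intro h
        apply hi
        rw [h, Finsupp.single_apply, if_neg (Fin.castSucc_lt_last i).ne']
      rw [if_neg h2, Finset.prod_eq_zero (Finset.mem_univ i) (zero_pow hi), zero_mul, mul_zero,
        Polynomial.coeff_zero]
  | add p q hp hq => rw [coeff_add, map_add, Polynomial.coeff_add, hp, hq]

theorem top_eval (n : ℕ) (v : Fin (d + 2) → k) (G : Po d k) :
    (aeval (fun i => Polynomial.C (v i) * Polynomial.X) G : Polynomial k).coeff n =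
      eval v (homogeneousComponent n G) := by
  rw [aeval_def, eval₂_eq', Polynomial.finsetSum_coeff, homogeneousComponent_apply, map_sum,
    Finset.sum_filter]
  refine Finset.sum_congr rfl fun s _ => ?_
  rw [Finset.prod_congr rfl fun i _ => mul_pow (Polynomial.C (v i)) Polynomial.X (s i),
    Finset.prod_mul_distrib, Finset.prod_pow_eq_pow_sum, Polynomial.algebraMap_apply,
    Algebra.algebraMap_self, RingHom.id_apply]
  have h1 : ∏ i, Polynomial.C (v i) ^ s i = (Polynomial.C (∏ i, v i ^ s i) : Polynomial k) := by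
    rw [map_prod]
    exact Finset.prod_congr rfl fun i _ => (map_pow _ _ _).symm
  rw [h1, ← mul_assoc, ← map_mul, Polynomial.coeff_C_mul, Polynomial.coeff_X_pow,
    Finsupp.degree_eq_sum]
  by_cases h : ∑ i, s i = n
  · rw [if_pos h.symm, if_pos h, mul_one, eval_monomial,
      Finsupp.prod_fintype _ _ (fun _ => pow_zero _)]
  · rw [if_neg (Ne.symm h), if_neg h, mul_zero]

theorem coeff_ph {w v : Fin (d + 2) → k} (hw : w (Fin.last (d + 1)) = 0)
    (hv : ∀ i, v i = w i + if i = Fin.last (d + 1) then 1 else 0) (n : ℕ) (G : Po d k) :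
    coeff (Finsupp.single (Fin.last (d + 1)) n) (ph w G) = eval v (homogeneousComponent n G) := by
  rw [coeff_top, ← top_eval]
  congr 1
  have h2 : (aeval (fun i => if i = Fin.last (d + 1) then Polynomial.X else 0)).comp (ph w) =
      (aeval (fun i => Polynomial.C (v i) * Polynomial.X) : Po d k →ₐ[k] Polynomial k) := by
    apply MvPolynomial.algHom_ext
    intro i
    rw [AlgHom.comp_apply, ph_X, map_add, map_mul, aeval_X, aeval_X, aeval_X, if_pos rfl,
      ← algebraMap_eq, AlgHom.commutes, Polynomial.algebraMap_apply, Algebra.algebraMap_self,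
      RingHom.id_apply, hv i]
    by_cases hi : i = Fin.last (d + 1)
    · rw [if_pos hi, if_pos hi, hi, hw]
      simp
    · rw [if_neg hi, if_neg hi, add_zero, zero_add]
  exact congrArg (fun f : Po d k →ₐ[k] Polynomial k => f G) h2

theorem pderiv_ph {w v : Fin (d + 2) → k}
    (hv : ∀ i, v i = w i + if i = Fin.last (d + 1) then 1 else 0) (G : Po d k) :
    pderiv (Fin.last (d + 1)) (ph w G) = ph w (∑ i, C (v i) * pderiv i G) := by
  induction G using MvPolynomial.induction_on with
  | C a =>
    rw [ph_C]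
    simp only [pderiv_C, mul_zero, Finset.sum_const_zero, map_zero]
  | add p q hp hq =>
    rw [map_add (ph w), map_add (pderiv (Fin.last (d + 1))), hp, hq, ← map_add (ph w),
      ← Finset.sum_add_distrib]
    congr 1
    refine Finset.sum_congr rfl fun i _ => ?_
    rw [map_add (pderiv i), mul_add]
  | mul_X p i hp =>
    have h1 : pderiv (Fin.last (d + 1)) (ph w (X i)) = ph w (C (v i)) := by
      rw [ph_X, ph_C, map_add (pderiv (Fin.last (d + 1))), pderiv_mul, pderiv_C, pderiv_X_self,
        zero_mul, zero_add, mul_one, hv i, C_add]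
      by_cases hi : i = Fin.last (d + 1)
      · rw [hi, pderiv_X_self, if_pos rfl, C_1]
        exact add_comm _ _
      · rw [pderiv_X_of_ne hi, if_neg hi, C_0, zero_add, add_zero]
    have h2 : ∑ j, C (v j) * pderiv j (p * X i) =
        (∑ j, C (v j) * pderiv j p) * X i + p * C (v i) := by
      have h3 : ∀ j, C (v j) * pderiv j (p * X i) =
          C (v j) * pderiv j p * X i + p * (C (v j) * pderiv j (X i : Po d k)) := by
        intro j
        rw [pderiv_mul]
        ring
      have h4 : ∑ j, C (v j) * pderiv j (X i : Po d k) = C (v i) := by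
        rw [Finset.sum_eq_single i]
        · rw [pderiv_X_self, mul_one]
        · intro j _ hj
          rw [pderiv_X_of_ne (Ne.symm hj), mul_zero]
        · intro h
          exact absurd (Finset.mem_univ i) h
      rw [Finset.sum_congr rfl fun j _ => h3 j, Finset.sum_add_distrib, ← Finset.sum_mul,
        ← Finset.mul_sum, h4]
    rw [map_mul, pderiv_mul, hp, h1, h2, ← map_mul, ← map_mul, ← map_add]

theorem wle_map {m N : ℕ} {H : PZ d k} (h : Wle m N H) (w : Fin (d + 2) → k) :
    Wle m N (H.map (ph w).toRingHom) := by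
  intro e he
  have h1 : e ∈ H.support := Polynomial.support_map_subset _ _ he
  rw [Polynomial.coeff_map]
  exact (Nat.add_le_add_right (ph_deg w _) _).trans (h e h1)

end poly

/-! ## Independence -/

/-- `m` elements over which `m` independent elements are algebraic are independent. -/
theorem ind_of_alg {k κ : Type} [Field k] [Field κ] [Algebra k κ] {m : ℕ} (Y T : Fin m → κ)
    (hT : AlgebraicIndependent k T)
    (h : ∀ j, IsAlgebraic (Algebra.adjoin k (Set.range Y)) (T j)) : AlgebraicIndependent k Y := by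
  obtain ⟨M, hM⟩ : ∃ M, M = AlgebraicIndependent.matroid k κ := ⟨_, rfl⟩
  have hTi : M.Indep (Set.range T) := by
    rw [hM, AlgebraicIndependent.matroid_indep_iff]
    exact hT.to_subtype_range
  have h1 : M.eRk (Set.range T) = m := by
    rw [hTi.eRk_eq_encard, ← Set.image_univ, hT.injective.encard_image, Set.encard_univ]
    simp
  have h2 : Set.range T ⊆ M.closure (Set.range Y) := by
    rintro _ ⟨j, rfl⟩
    rw [hM, AlgebraicIndependent.matroid_closure_eq]
    exact h j
  have h3 : (m : ℕ∞) ≤ M.eRk (Set.range Y) := by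
    rw [← h1, ← M.eRk_closure_eq (Set.range Y)]
    exact M.eRk_mono h2
  have h4 : (Set.range Y).encard ≤ m := by
    rw [← Set.image_univ]
    refine (Set.encard_image_le _ _).trans ?_
    rw [Set.encard_univ]
    simp
  have h5 : M.eRk (Set.range Y) = (Set.range Y).encard :=
    le_antisymm (M.eRk_le_encard _) (h4.trans h3)
  have h6 : M.Indep (Set.range Y) := by
    rw [Matroid.indep_iff_eRk_eq_encard_of_finite (Set.finite_range Y)]
    exact h5
  have h7 : Function.Injective Y := by
    have h8 : (Set.range Y).encard = m := le_antisymm h4 (h3.trans h5.le)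
    have h9 : Nat.card (Set.range Y) = m := by
      have : (Set.range Y).ncard = m := by
        rw [Set.ncard, h8]
        rfl
      exact this
    have h10 : Function.Injective (Set.rangeFactorization Y) :=
      (Set.rangeFactorization_surjective.bijective_of_nat_card_le (by
        rw [h9]
        simp)).1
    intro a b hab
    exact h10 (Subtype.ext hab)
  rw [hM, AlgebraicIndependent.matroid_indep_iff] at h6
  exact AlgebraicIndependent.of_subtype_range h7 h6

/-! ## Residues -/

section res

variable {k E : Type} [Field k] [Field E] [Algebra k E] {d : ℕ}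

/-- The constants in `O`. -/
def ic (O : ValuationSubring E) (hO : ∀ c : k, algebraMap k E c ∈ O) : k →+* O :=
  (algebraMap k E).codRestrict O hO

theorem ic_coe (O : ValuationSubring E) (hO : ∀ c : k, algebraMap k E c ∈ O) (c : k) :
    ((ic O hO c : O) : E) = algebraMap k E c := rfl

theorem res_exists (O : ValuationSubring E) (hO : ∀ c : k, algebraMap k E c ∈ O) :
    ∃ (κ : Type) (_ : Field κ) (_ : Algebra k κ) (r : O →+* κ), Function.Surjective r ∧
      (∀ a : O, r a = 0 ↔ O.valuation (a : E) < 1) ∧ ∀ c : k, algebraMap k κ c = r (ic O hO c) := by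
  refine ⟨IsLocalRing.ResidueField O, inferInstance,
    ((IsLocalRing.residue O).comp (ic O hO)).toAlgebra, IsLocalRing.residue O,
    IsLocalRing.residue_surjective, ?_, fun _ => rfl⟩
  intro a
  rw [IsLocalRing.residue_eq_zero_iff, ValuationSubring.valuation_lt_one_iff]

theorem ev_res (O : ValuationSubring E) (hO : ∀ c : k, algebraMap k E c ∈ O) {κ : Type} [Field κ]
    [Algebra k κ] (r : O →+* κ) (hr : ∀ c : k, algebraMap k κ c = r (ic O hO c)) {n : ℕ}
    (y : Fin n → O) (w : O) (N : Polynomial (MvPolynomial (Fin n) k)) :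
    ∃ b : O, (b : E) = ev (fun j => (y j : E)) (w : E) N ∧ r b = ev (fun j => r (y j)) (r w) N := by
  refine ⟨Polynomial.eval₂RingHom (eval₂Hom (ic O hO) y) w N, ?_, ?_⟩
  · have h : (algebraMap O E).comp (Polynomial.eval₂RingHom (eval₂Hom (ic O hO) y) w) =
        ev (fun j => (y j : E)) (w : E) := by
      apply Polynomial.ringHom_ext'
      · apply MvPolynomial.ringHom_ext
        · intro c
          simp [ev]
          rfl
        · intro i
          simp [ev]
      · simp [ev]
    exact congrArg (fun f : Polynomial (MvPolynomial (Fin n) k) →+* E => f N) h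
  · have h : r.comp (Polynomial.eval₂RingHom (eval₂Hom (ic O hO) y) w) =
        ev (fun j => r (y j)) (r w) := by
      apply Polynomial.ringHom_ext'
      · apply MvPolynomial.ringHom_ext
        · intro c
          simp [ev, hr]
        · intro i
          simp [ev]
      · simp [ev]
    exact congrArg (fun f : Polynomial (MvPolynomial (Fin n) k) →+* κ => f N) h

theorem ev_lt (O : ValuationSubring E) (hO : ∀ c : k, algebraMap k E c ∈ O) {κ : Type} [Field κ]
    [Algebra k κ] (r : O →+* κ) (hr0 : ∀ a : O, r a = 0 ↔ O.valuation (a : E) < 1)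
    (hr : ∀ c : k, algebraMap k κ c = r (ic O hO c)) {n : ℕ} (y : Fin n → O)
    (w : O) (N : Polynomial (MvPolynomial (Fin n) k)) :
    O.valuation (ev (fun j => (y j : E)) (w : E) N) < 1 ↔ ev (fun j => r (y j)) (r w) N = 0 := by
  obtain ⟨b, hb, hb'⟩ := ev_res O hO r hr y w N
  rw [← hb, ← hb', hr0]

theorem ev_C {F : Type} [Field F] [Algebra k F] {n : ℕ} (y : Fin n → F) (w : F)
    (G : MvPolynomial (Fin n) k) : ev y w (Polynomial.C G) = aeval y G := by
  simp [ev]

/-- `(φ N)(y, z) = N(t, z)`. -/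
theorem ev_ph {w : Fin (d + 2) → k} (hw : w (Fin.last (d + 1)) = 0) (t y : Fin (d + 2) → E) (z : E)
    (h0 : ∀ i, y i = t i - algebraMap k E (w i) * t (Fin.last (d + 1))) (N : PZ d k) :
    ev y z (N.map (ph w).toRingHom) = ev t z N := by
  have h1 : ∀ i, y i + algebraMap k E (w i) * y (Fin.last (d + 1)) = t i := by
    intro i
    rw [h0 i, h0 (Fin.last (d + 1)), hw, map_zero, zero_mul, sub_zero, sub_add_cancel]
  have h : (ev y z).comp (Polynomial.mapRingHom (ph w).toRingHom) = ev t z := by
    apply Polynomial.ringHom_ext'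
    · apply MvPolynomial.ringHom_ext
      · intro a
        have h2 : ph w (C a) = C a := ph_C w a
        simp [ev, h2]
      · intro i
        have h2 := ph_X w i
        simp [ev, h2, h1]
    · simp [ev]
  exact congrArg (fun f : PZ d k →+* E => f N) h

theorem aeval_ph {w : Fin (d + 2) → k} (hw : w (Fin.last (d + 1)) = 0) (t y : Fin (d + 2) → E)
    (h0 : ∀ i, y i = t i - algebraMap k E (w i) * t (Fin.last (d + 1))) (G : Po d k) :
    aeval y (ph w G) = aeval t G := by
  have h := ev_ph hw t y 0 h0 (Polynomial.C G)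
  rw [Polynomial.map_C, ev_C, ev_C] at h
  exact h

theorem z_mem (O : ValuationSubring E) (hO : ∀ c : k, algebraMap k E c ∈ O) (t : Fin (d + 2) → E)
    (ht : ∀ j, t j ∈ O) (z : E) (P : PZ d k) (hP : P.Monic) (hz : ev t z P = 0) : z ∈ O := by
  have hi : IsIntegral O z := by
    refine ⟨P.map (eval₂Hom (ic O hO) fun j => (⟨t j, ht j⟩ : O)), hP.map _, ?_⟩
    rw [Polynomial.eval₂_map]
    have h : (algebraMap O E).comp (eval₂Hom (ic O hO) fun j => (⟨t j, ht j⟩ : O)) =
        (aeval t : Po d k →ₐ[k] E).toRingHom := by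
      apply MvPolynomial.ringHom_ext
      · intro c
        simp
        rfl
      · intro i
        simp
    rw [h]
    exact hz
  obtain ⟨a, ha⟩ := IsIntegrallyClosed.isIntegral_iff.1 hi
  rw [← ha]
  exact a.2

/-- The last coordinate is algebraic over the others. -/
theorem last_alg {κ : Type} [Field κ] [Algebra k κ] (Y : Fin (d + 2) → κ) (Q : Po d k)
    (hQ : coeff (Finsupp.single (Fin.last (d + 1)) Q.totalDegree) Q ≠ 0) (h : aeval Y Q = 0) :
    IsAlgebraic (Algebra.adjoin k (Set.range fun i : Fin (d + 1) => Y i.castSucc))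
      (Y (Fin.last (d + 1))) := by
  obtain ⟨B, hB⟩ : ∃ B, B = Algebra.adjoin k (Set.range fun i : Fin (d + 1) => Y i.castSucc) :=
    ⟨_, rfl⟩
  have hY : ∀ i : Fin (d + 1), Y i.castSucc ∈ B := by
    intro i
    rw [hB]
    exact Algebra.subset_adjoin ⟨i, rfl⟩
  rw [← hB]
  obtain ⟨n, hn⟩ : ∃ n, n = Q.totalDegree := ⟨_, rfl⟩
  rw [← hn] at hQ
  obtain ⟨p, hp⟩ : ∃ p : Polynomial B, p = ∑ s ∈ Q.support,
    Polynomial.C (algebraMap k B (coeff s Q) * ∏ i : Fin (d + 1), (⟨_, hY i⟩ : B) ^ s i.castSucc) *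
      Polynomial.X ^ s (Fin.last (d + 1)) := ⟨_, rfl⟩
  have hsd : ∀ s ∈ Q.support, ∑ i : Fin (d + 1), s i.castSucc + s (Fin.last (d + 1)) ≤ n := by
    intro s hs
    have h1 := le_totalDegree hs
    rw [Finsupp.sum_fintype _ _ (fun _ => rfl), Fin.sum_univ_castSucc] at h1
    exact h1.trans hn.ge
  have hpc : p.coeff n = algebraMap k B (coeff (Finsupp.single (Fin.last (d + 1)) n) Q) := by
    rw [hp, Polynomial.finsetSum_coeff,
      Finset.sum_eq_single (Finsupp.single (Fin.last (d + 1)) n)]
    · have h5 : ∏ i : Fin (d + 1), (⟨_, hY i⟩ : B) ^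
          (Finsupp.single (Fin.last (d + 1)) n) i.castSucc = 1 := by
        refine Finset.prod_eq_one fun i _ => ?_
        rw [Finsupp.single_apply, if_neg (Fin.castSucc_lt_last i).ne', pow_zero]
      rw [Polynomial.coeff_C_mul, Polynomial.coeff_X_pow, Finsupp.single_eq_same, if_pos rfl,
        mul_one, h5, mul_one]
    · intro s hs hne
      rw [Polynomial.coeff_C_mul, Polynomial.coeff_X_pow, if_neg, mul_zero]
      intro h1
      apply hne
      have h2 := hsd s hs
      have h3 : ∑ i : Fin (d + 1), s i.castSucc = 0 := by omega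
      rw [Finset.sum_eq_zero_iff] at h3
      ext i
      refine Fin.lastCases ?_ (fun i => ?_) i
      · rw [Finsupp.single_eq_same, h1]
      · rw [h3 i (Finset.mem_univ i), Finsupp.single_apply, if_neg (Fin.castSucc_lt_last i).ne']
    · intro h1
      rw [notMem_support_iff] at h1
      exact absurd h1 hQ
  refine ⟨p, ?_, ?_⟩
  · intro h0
    rw [h0, Polynomial.coeff_zero] at hpc
    apply hQ
    have h1 := congrArg (algebraMap B κ) hpc
    rw [map_zero, ← IsScalarTower.algebraMap_apply] at h1
    exact (map_eq_zero (algebraMap k κ)).1 h1.symm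
  · rw [← h, hp, map_sum, aeval_def, eval₂_eq']
    refine Finset.sum_congr rfl fun s _ => ?_
    have h6 : algebraMap B κ (∏ i : Fin (d + 1), (⟨_, hY i⟩ : B) ^ s i.castSucc) =
        ∏ i : Fin (d + 1), Y i.castSucc ^ s i.castSucc := by
      rw [map_prod]
      refine Finset.prod_congr rfl fun i _ => ?_
      rw [map_pow]
      rfl
    rw [map_mul, Polynomial.aeval_C, map_pow, Polynomial.aeval_X, map_mul,
      ← IsScalarTower.algebraMap_apply, h6, Fin.prod_univ_castSucc (fun i => Y i ^ s i), mul_assoc]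

/-- The residue of the point `(y, z)`. -/
theorem point [CharZero k] (hDvc : S_Dvc) (O : ValuationSubring E) (t y : Fin (d + 2) → E)
    (z : E) (P : PZ d k) (hPm : P.Monic) (hPz : ev t z P = 0)
    (hDv : Dv k t O) (ht : ∀ j, t j ∈ O) (R : Po d k) {w : Fin (d + 2) → k}
    (hw : w (Fin.last (d + 1)) = 0)
    (h0 : ∀ i, y i = t i - algebraMap k E (w i) * t (Fin.last (d + 1)))
    (hc : coeff (Finsupp.single (Fin.last (d + 1)) R.totalDegree) (ph w R) ≠ 0)
    (hv : O.valuation (aeval t R) < 1) :
    ∃ (κ : Type) (_ : Field κ) (_ : Algebra k κ) (r : O →+* κ) (Y : Fin (d + 2) → κ) (W : κ),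
      Function.Surjective r ∧ (∀ N : PZ d k, ∃ b : O, (b : E) = ev y z N ∧ r b = ev Y W N) ∧
      (∀ N : PZ d k, O.valuation (ev y z N) < 1 ↔ ev Y W N = 0) ∧
      AlgebraicIndependent k fun i : Fin (d + 1) => Y i.castSucc := by
  obtain ⟨κ, hκ1, hκ2, r, hs, hr0, hr⟩ := res_exists O hDv.con
  have hz : z ∈ O := z_mem O hDv.con t ht z P hPm hPz
  have hy : ∀ j, y j ∈ O := by
    intro j
    rw [h0 j]
    exact O.sub_mem (ht j) (O.mul_mem _ _ (hDv.con _) (ht _))
  have hlt : ∀ N : PZ d k, O.valuation (ev y z N) < 1 ↔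
      ev (fun j => r ⟨y j, hy j⟩) (r ⟨z, hz⟩) N = 0 := fun N =>
    ev_lt O hDv.con r hr0 hr (fun j => ⟨y j, hy j⟩) ⟨z, hz⟩ N
  refine ⟨κ, hκ1, hκ2, r, fun j => r ⟨y j, hy j⟩, r ⟨z, hz⟩, hs,
    fun N => ev_res O hDv.con r hr (fun j => ⟨y j, hy j⟩) ⟨z, hz⟩ N, hlt, ?_⟩
  obtain ⟨σ, hσ, hI⟩ := (hDvc d k E t O).1 hDv ht
  refine ind_of_alg _ (fun j => r ⟨t (σ j), ht (σ j)⟩) ?_ ?_
  · rw [algebraicIndependent_iff]
    intro G hG
    by_contra hne
    apply hI G hne
    have h1 := (ev_lt O hDv.con r hr0 hr (fun j => (⟨t (σ j), ht (σ j)⟩ : O)) 0 (Polynomial.C G)).2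
      (by rw [ev_C]; exact hG)
    rw [ev_C] at h1
    exact h1
  · intro j
    have hQ : coeff (Finsupp.single (Fin.last (d + 1)) (ph w R).totalDegree) (ph w R) ≠ 0 := by
      rw [ph_deg_eq hw]
      exact hc
    have hYR : aeval (fun j => r ⟨y j, hy j⟩) (ph w R) = 0 := by
      rw [← ev_C (fun j => r ⟨y j, hy j⟩) (r ⟨z, hz⟩), ← hlt, ev_C, aeval_ph hw t y h0]
      exact hv
    have hl := last_alg (fun j => r ⟨y j, hy j⟩) (ph w R) hQ hYR
    have hA : ∀ i : Fin (d + 2), IsAlgebraic (Algebra.adjoin k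
        (Set.range fun i : Fin (d + 1) => r ⟨y i.castSucc, hy i.castSucc⟩)) (r ⟨y i, hy i⟩) := by
      intro i
      refine Fin.lastCases hl (fun i => ?_) i
      exact isAlgebraic_algebraMap (⟨_, Algebra.subset_adjoin ⟨i, rfl⟩⟩ : Algebra.adjoin k
        (Set.range fun i : Fin (d + 1) => r ⟨y i.castSucc, hy i.castSucc⟩))
    have e1 : r ⟨t (σ j), ht (σ j)⟩ = r ⟨y (σ j), hy (σ j)⟩ +
        algebraMap k κ (w (σ j)) * r ⟨y (Fin.last (d + 1)), hy _⟩ := by
      rw [hr, ← map_mul, ← map_add]
      congr 1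
      apply Subtype.ext
      change t (σ j) = y (σ j) + algebraMap k E (w (σ j)) * y (Fin.last (d + 1))
      rw [h0 (σ j), h0 (Fin.last (d + 1)), hw, map_zero, zero_mul, sub_zero, sub_add_cancel]
    rw [e1]
    refine (hA _).add ?_
    refine IsAlgebraic.mul ?_ (hA _)
    rw [IsScalarTower.algebraMap_apply k (Algebra.adjoin k
        (Set.range fun i : Fin (d + 1) => r ⟨y i.castSucc, hy i.castSucc⟩)) κ]
    exact isAlgebraic_algebraMap _

end res

end F3vM

open F3vM MvPolynomial in
/-- (F3v) -/
theorem tF3v : S_TrB → S_Unr → S_Dvc → S_F3v := by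
  intro hTrB hUnr hDvc d k E _ _ _ _ t z P m D hTb hM O hO R hR hRO v hvl hvt
  obtain ⟨w, hwd⟩ : ∃ w : Fin (d + 2) → k, w = fun i => if i = Fin.last (d + 1) then 0 else v i :=
    ⟨_, rfl⟩
  have hw : w (Fin.last (d + 1)) = 0 := by
    rw [hwd]
    exact if_pos rfl
  have hvw : ∀ i, v i = w i + if i = Fin.last (d + 1) then 1 else 0 := by
    intro i
    rw [hwd]
    by_cases hi : i = Fin.last (d + 1)
    · change v i = (if i = Fin.last (d + 1) then 0 else v i) + _
      rw [if_pos hi, if_pos hi, hi, hvl, zero_add]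
    · change v i = (if i = Fin.last (d + 1) then 0 else v i) + _
      rw [if_neg hi, if_neg hi, add_zero]
  have hc : coeff (Finsupp.single (Fin.last (d + 1)) R.totalDegree) (ph w R) ≠ 0 := by
    rw [coeff_ph hw hvw]
    exact hvt
  obtain ⟨y, hy⟩ : ∃ y : Fin (d + 2) → E,
    y = fun i => t i - algebraMap k E (w i) * t (Fin.last (d + 1)) := ⟨_, rfl⟩
  have h0 : ∀ i, y i = t i - algebraMap k E (w i) * t (Fin.last (d + 1)) := by
    intro i
    rw [hy]
  have hev := ev_ph hw t y z h0
  have hae := aeval_ph hw t y h0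
  have hv : O.valuation (aeval t R) < 1 := (hRO R).2 dvd_rfl
  obtain ⟨hU1, -, hU3⟩ := hUnr d k E t z P m D hTb hM O hO R hR hRO
  obtain ⟨κ, hκ1, hκ2, r, Y, W, hs, hb, hlt, htr⟩ := point hDvc O t y z P hM.mon hM.rt
    hO.toDv hO.fin R hw h0 hc hv
  have hdeg : (P.map (ph w).toRingHom).natDegree = P.natDegree := hM.mon.natDegree_map _
  have hlt0 : ∀ (O' : ValuationSubring E), O'.valuation (0 : E) < 1 := by
    intro O'
    rw [map_zero]
    exact zero_lt_one
  obtain ⟨H, hH1, hH2, hH3⟩ := hTrB d k κ Y W (ph w R) (P.map (ph w).toRingHom) m htr (by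
      intro a
      obtain ⟨e, rfl⟩ := hs a
      obtain ⟨N, B, hB, hN⟩ := hU1 e e.2
      refine ⟨N.map (ph w).toRingHom, B.map (ph w).toRingHom, ?_, ?_⟩
      · intro h0
        rw [← hlt, hev, hB] at h0
        exact lt_irrefl _ h0
      · obtain ⟨b1, hb1, hb1'⟩ := hb (B.map (ph w).toRingHom)
        obtain ⟨b2, hb2, hb2'⟩ := hb (N.map (ph w).toRingHom)
        rw [← hb1', ← hb2', ← map_mul]
        congr 1
        apply Subtype.ext
        rw [hb2, hev]
        change (e : E) * (b1 : E) = _
        rw [hb1, hev]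
        exact hN)
    (by
      rw [← ev_C Y W, ← hlt, ev_C, hae]
      exact hv)
    (by
      intro h0
      exact hR.ne_zero (ph_inj hw (by rw [h0, map_zero])))
    (by
      rw [ph_deg_eq hw]
      exact hc)
    (hM.mon.map _)
    (by
      rw [← hlt, hev, hM.rt]
      exact hlt0 O)
    (by
      rw [hdeg]
      exact wle_map hM.wt w)
  rw [ph_deg_eq hw, hdeg] at hH1
  have hcomp : (ph w).toRingHom.comp (ph (-w)).toRingHom = RingHom.id (Po d k) := by
    apply RingHom.ext
    intro G
    exact ph_ph' hw G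
  have hevH : ev t z (H.map (ph (-w)).toRingHom) = ev y z H := by
    rw [← hev, Polynomial.map_map, hcomp, Polynomial.map_id]
  refine ⟨H.map (ph (-w)).toRingHom, wle_map hH1 (-w), ?_, ?_⟩
  · have h2 : ev t z (H.map (ph (-w)).toRingHom) -
        aeval t (∑ i, C (v i) * pderiv i R) * ev t z P.derivative =
        ev y z (H - Polynomial.C (pderiv (Fin.last (d + 1)) (ph w R)) *
          (P.map (ph w).toRingHom).derivative) := by
      rw [hevH, map_sub, map_mul, ev_C, pderiv_ph hvw, hae, Polynomial.derivative_map, hev]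
    rw [h2, hlt, map_sub, map_mul, ev_C, hH2, sub_self]
  · intro O₁ hDv₁ ht₁ hv₁ hne
    obtain ⟨κ₁, hκ₁1, hκ₁2, r₁, Y₁, W₁, hs₁, hb₁, hlt₁, htr₁⟩ := point hDvc O₁ t y z P hM.mon
      hM.rt hDv₁ ht₁ R hw h0 hc hv₁
    rw [hevH, hlt₁]
    rcases hH3 κ₁ Y₁ W₁ htr₁ (by
        rw [← ev_C Y₁ W₁, ← hlt₁, ev_C, hae]
        exact hv₁) (by
        rw [← hlt₁, hev, hM.rt]
        exact hlt0 O₁) with h | h
    · exact h
    · exfalso
      apply hne
      refine hU3 O₁ hDv₁.toPlc ht₁ fun N => ?_
      rw [← hev, hlt, h, ← hlt₁]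

end Pool.Agent.Lib.MP_16285c_agX.Cn
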