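import Pool.Agent.Lib.MP_16285c_agX.Can.Spec

/-!
# Logarithmic forms with bounded poles (proof of `S_F4`)
-/

set_option autoImplicit false

namespace Pool.Agent.Lib.MP_16285c_agX.Cn

open Pool.Agent.Lib.MP_16285c_agS.Cn (Plc cm S_Dvr S_Fib S_Fbc S_Loc S_Int)

namespace F4M

section

variable {d : ℕ} {k E : Type} [Field k] [Field E] [Algebra k E]

theorem smul_mem (Δ : Fin (d + 2) → Derivation k E E) (O : ValuationSubring E) (a : E) (ha : a ∈ O)
    (w : Fin (d + 2) → E) (hw : w ∈ Om Δ O) : a • w ∈ Om Δ O := by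
  have h1 : (⟨a, ha⟩ : O) • w ∈ Om Δ O := Submodule.smul_mem _ _ hw
  exact h1

theorem dd_mem (Δ : Fin (d + 2) → Derivation k E E) (O : ValuationSubring E) (h : E) (hh : h ∈ O) :
    dd Δ h ∈ Om Δ O :=
  Submodule.subset_span ⟨⟨h, hh⟩, rfl⟩

theorem om_mem (Δ : Fin (d + 2) → Derivation k E E) (O : ValuationSubring E) (t c : Fin (d + 2) → E)
    (ht : ∀ i, t i ∈ O) (hc : ∀ i, c i ∈ O) : ∑ i, c i • dd Δ (t i) ∈ Om Δ O :=
  Submodule.sum_mem _ fun i _ => smul_mem Δ O _ (hc i) _ (dd_mem Δ O _ (ht i))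

theorem dd_div (Δ : Fin (d + 2) → Derivation k E E) (a b : E) (hb : b ≠ 0) :
    dd Δ a = b • dd Δ (a / b) - (a / b * b ^ 2) • dd Δ (1 / b) := by
  funext i
  have h1 : Δ i a = Δ i ((a / b) * b) := by rw [div_mul_cancel₀ a hb]
  have h2 : Δ i ((a / b) * b) = (a / b) • Δ i b + b • Δ i (a / b) := Derivation.leibniz _ _ _
  have h3 : Δ i (1 / b) = -b⁻¹ ^ 2 • Δ i b := by rw [one_div]; exact Derivation.leibniz_inv _ _
  simp only [dd, Pi.sub_apply, Pi.smul_apply, smul_eq_mul] at h1 h2 h3 ⊢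
  rw [h1, h2, h3]
  field_simp
  ring

/-- Elements at infinity. -/
theorem inf_mem (Δ : Fin (d + 2) → Derivation k E E) (O : ValuationSubring E) (a b c : E) (hb0 : b ≠ 0)
    (hb : 1 < O.valuation b) (hab : a / b ∈ O) (hc : c * b ^ 2 ∈ O) : c • dd Δ a ∈ Om Δ O := by
  have hb1 : 1 / b ∈ O := by
    rw [← O.valuation_le_one_iff, one_div, map_inv₀]
    exact inv_le_one_of_one_le₀ hb.le
  have hcb : c * b ∈ O := by
    have h : c * b = (c * b ^ 2) * (1 / b) := by field_simp
    rw [h]
    exact O.mul_mem _ _ hc hb1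
  rw [dd_div Δ a b hb0, smul_sub, smul_smul, smul_smul]
  refine Submodule.sub_mem _ (smul_mem Δ O _ hcb _ (dd_mem Δ O _ hab)) (smul_mem Δ O _ ?_ _ (dd_mem Δ O _ hb1))
  have h : c * (a / b * b ^ 2) = (a / b) * (c * b ^ 2) := by ring
  rw [h]
  exact O.mul_mem _ _ hab hc

theorem aeval_mem (O : ValuationSubring E) (hk : ∀ c : k, algebraMap k E c ∈ O) (t : Fin (d + 2) → E)
    (ht : ∀ i, t i ∈ O) (G : Po d k) : MvPolynomial.aeval t G ∈ O := by
  induction G using MvPolynomial.induction_on with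
  | C a =>
    rw [MvPolynomial.aeval_C]
    exact hk a
  | add p q hp hq =>
    rw [map_add]
    exact O.add_mem _ _ hp hq
  | mul_X p n hp =>
    rw [map_mul, MvPolynomial.aeval_X]
    exact O.mul_mem _ _ hp (ht n)

theorem ev_eq (t : Fin (d + 2) → E) (z : E) (N : PZ d k) :
    ev t z N = ∑ i ∈ Finset.range (N.natDegree + 1), MvPolynomial.aeval t (N.coeff i) * z ^ i :=
  Polynomial.eval₂_eq_sum_range (MvPolynomial.aeval t : Po d k →ₐ[k] E).toRingHom z

theorem z_mem (O : ValuationSubring E) (hk : ∀ c : k, algebraMap k E c ∈ O) (t : Fin (d + 2) → E)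
    (ht : ∀ i, t i ∈ O) (z : E) (P : PZ d k) (hP : P.Monic) (h0 : ev t z P = 0) : z ∈ O := by
  by_contra hz
  have h1 : 1 < O.valuation z := by
    rw [← not_le, O.valuation_le_one_iff]
    exact hz
  rw [ev_eq, Finset.sum_range_succ, hP.coeff_natDegree, map_one, one_mul] at h0
  have hg : O.valuation z ^ P.natDegree ≠ 0 := pow_ne_zero _ (ne_of_gt (lt_trans zero_lt_one h1))
  have h2 : O.valuation (∑ i ∈ Finset.range P.natDegree, MvPolynomial.aeval t (P.coeff i) * z ^ i) <
      O.valuation z ^ P.natDegree := by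
    refine Valuation.map_sum_lt _ hg fun i hi => ?_
    have hi' := Finset.mem_range.1 hi
    rw [map_mul, map_pow]
    have h3 : O.valuation (MvPolynomial.aeval t (P.coeff i)) ≤ 1 :=
      (O.valuation_le_one_iff _).2 (aeval_mem O hk t ht _)
    calc O.valuation (MvPolynomial.aeval t (P.coeff i)) * O.valuation z ^ i
        ≤ 1 * O.valuation z ^ i := mul_le_mul_left h3 _
      _ = O.valuation z ^ i := one_mul _
      _ < O.valuation z ^ P.natDegree := pow_lt_pow_right₀ h1 hi'
  have h4 : ∑ i ∈ Finset.range P.natDegree, MvPolynomial.aeval t (P.coeff i) * z ^ i =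
      -z ^ P.natDegree := eq_neg_of_add_eq_zero_left h0
  rw [h4, Valuation.map_neg, map_pow] at h2
  exact lt_irrefl _ h2

theorem ev_mem (O : ValuationSubring E) (hk : ∀ c : k, algebraMap k E c ∈ O) (t : Fin (d + 2) → E)
    (ht : ∀ i, t i ∈ O) (z : E) (hz : z ∈ O) (N : PZ d k) : ev t z N ∈ O := by
  rw [ev_eq]
  exact O.toSubring.sum_mem fun i _ => O.mul_mem _ _ (aeval_mem O hk t ht _) (O.toSubring.pow_mem hz i)

theorem chain (δ : Derivation k E E) (t : Fin (d + 2) → E) (G : Po d k) :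
    δ (MvPolynomial.aeval t G) = ∑ i, MvPolynomial.aeval t (MvPolynomial.pderiv i G) * δ (t i) := by
  induction G using MvPolynomial.induction_on with
  | C a => simp
  | add p q hp hq =>
    rw [map_add, map_add, hp, hq, ← Finset.sum_add_distrib]
    refine Finset.sum_congr rfl fun i _ => ?_
    rw [map_add, map_add]
    ring
  | mul_X p n hp =>
    rw [map_mul, MvPolynomial.aeval_X, Derivation.leibniz, hp, smul_eq_mul, smul_eq_mul,
      Finset.mul_sum]
    have h1 : ∀ i, MvPolynomial.aeval t (MvPolynomial.pderiv i (p * MvPolynomial.X n)) * δ (t i) =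
        (if i = n then MvPolynomial.aeval t p * δ (t n) else 0) +
          t n * (MvPolynomial.aeval t (MvPolynomial.pderiv i p) * δ (t i)) := by
      intro i
      rw [Derivation.leibniz, MvPolynomial.pderiv_X, smul_eq_mul, smul_eq_mul, map_add, map_mul,
        map_mul, MvPolynomial.aeval_X]
      by_cases h : i = n
      · subst h
        simp
        ring
      · rw [if_neg h, Pi.single_eq_of_ne (Ne.symm h)]
        simp
        ring
    rw [Finset.sum_congr rfl fun i _ => h1 i, Finset.sum_add_distrib]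
    simp

theorem dd_aeval (Δ : Fin (d + 2) → Derivation k E E) (t : Fin (d + 2) → E) (G : Po d k) :
    dd Δ (MvPolynomial.aeval t G) =
      ∑ i, MvPolynomial.aeval t (MvPolynomial.pderiv i G) • dd Δ (t i) := by
  funext j
  rw [Finset.sum_apply]
  exact chain (Δ j) t G

theorem wle_derivative (P : PZ d k) (m N : ℕ) (h : Wle m N P) : Wle m N P.derivative := by
  intro c hc
  rw [Polynomial.mem_support_iff, Polynomial.coeff_derivative] at hc
  have h1 : P.coeff (c + 1) ≠ 0 := fun h0 => hc (by rw [h0, zero_mul])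
  have h2 := h (c + 1) (Polynomial.mem_support_iff.2 h1)
  rw [Polynomial.coeff_derivative]
  have h3 : (P.coeff (c + 1) * ((c : Po d k) + 1)).totalDegree ≤ (P.coeff (c + 1)).totalDegree := by
    refine (MvPolynomial.totalDegree_mul _ _).trans ?_
    have h4 : ((c : Po d k) + 1) = MvPolynomial.C ((c : k) + 1) := by simp
    rw [h4, MvPolynomial.totalDegree_C, add_zero]
  have h5 : m * (c + 1) = m * c + m := by ring
  omega

theorem aeval_ne (t : Fin (d + 2) → E) (ht : Tb k t) (G : Po d k) (hG : G ≠ 0) :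
    MvPolynomial.aeval t G ≠ 0 := by
  intro h
  apply hG
  exact (injective_iff_map_eq_zero _).1 ht.ind G h

/-- The unit `P_z` at good places. -/
theorem pz_unit (t : Fin (d + 2) → E) (z : E) (P : PZ d k) (m : ℕ) (D : Po d k) (hM : Mdl k t z P m D)
    (O : ValuationSubring E) (hO : Gd k t D O) : O.valuation (ev t z P.derivative) = 1 := by
  obtain ⟨V, hV⟩ := hM.dis
  have hz := z_mem O hO.con t hO.fin z P hM.mon hM.rt
  have h1 : O.valuation (ev t z V) ≤ 1 :=
    (O.valuation_le_one_iff _).2 (ev_mem O hO.con t hO.fin z hz V)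
  have h2 : O.valuation (ev t z P.derivative) ≤ 1 :=
    (O.valuation_le_one_iff _).2 (ev_mem O hO.con t hO.fin z hz _)
  have h3 : O.valuation (ev t z V) * O.valuation (ev t z P.derivative) = 1 := by
    rw [← map_mul, hV, hO.unit]
  refine le_antisymm h2 ?_
  calc (1 : O.ValueGroup) = O.valuation (ev t z V) * O.valuation (ev t z P.derivative) := h3.symm
    _ ≤ 1 * O.valuation (ev t z P.derivative) := mul_le_mul_left h1 _
    _ = _ := one_mul _

end

/-- The factors `B`. -/
theorem exists_B (hInf : S_Inf) (hInz : S_Inz) (d : ℕ) (k E : Type) [Field k] [CharZero k] [Field E]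
    [Algebra k E] (Δ : Fin (d + 2) → Derivation k E E) (t : Fin (d + 2) → E) (z : E) (P : PZ d k) (m : ℕ)
    (D : Po d k) (ht : Tb k t) (hM : Mdl k t z P m D) (hz0 : ev t z P.derivative ≠ 0)
    (O₁ : ValuationSubring E) :
    ∃ b : E, b ≠ 0 ∧ (Dv k t O₁ → b ∈ O₁) ∧ (Gd k t D O₁ → b = 1) ∧
      (Dv k t O₁ → ¬ Gd k t D O₁ → ∀ (R : Po d k) (H : Fin (d + 2) → PZ d k), R ≠ 0 →
        (∀ i, Wle m (R.totalDegree + m * P.natDegree) (H i)) →
        ((∀ i, t i ∈ O₁) → O₁.valuation (MvPolynomial.aeval t R) = 1) →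
        b • ∑ i, (ev t z (H i) / (ev t z P.derivative * MvPolynomial.aeval t R)) • dd Δ (t i) ∈
          Om Δ O₁) := by
  by_cases hG : Gd k t D O₁
  · exact ⟨1, one_ne_zero, fun _ => O₁.one_mem, fun _ => rfl, fun _ h => absurd hG h⟩
  by_cases hD : Dv k t O₁
  swap
  · exact ⟨1, one_ne_zero, fun h => absurd h hD, fun _ => rfl, fun h => absurd h hD⟩
  by_cases hfin : ∀ i, t i ∈ O₁
  · have hz := z_mem O₁ hD.con t hfin z P hM.mon hM.rt
    refine ⟨ev t z P.derivative, hz0, fun _ => ev_mem O₁ hD.con t hfin z hz _,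
      fun h => absurd h hG, fun _ _ R H hR _ h1 => ?_⟩
    have hr0 := aeval_ne t ht R hR
    rw [Finset.smul_sum]
    simp only [smul_smul]
    refine om_mem Δ O₁ t _ hfin fun i => ?_
    have h2 : ev t z P.derivative *
        (ev t z (H i) / (ev t z P.derivative * MvPolynomial.aeval t R)) =
        ev t z (H i) / MvPolynomial.aeval t R := by
      field_simp
    rw [h2, ← O₁.valuation_le_one_iff, map_div₀, h1 hfin, div_one, O₁.valuation_le_one_iff]
    exact ev_mem O₁ hD.con t hfin z hz _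
  · push Not at hfin
    obtain ⟨l, hl1, hl2, hl3⟩ := hInf d k E t O₁ hD hfin
    have htl0 : t l ≠ 0 := by
      intro h
      rw [h, map_zero] at hl1
      exact absurd hl1 (not_lt.2 zero_le_one)
    have hv0 : O₁.valuation (t l) ≠ 0 := ne_of_gt (lt_trans zero_lt_one hl1)
    refine ⟨ev t z P.derivative / t l ^ (m * P.natDegree + 2), div_ne_zero hz0 (pow_ne_zero _ htl0),
      fun _ => ?_, fun h => absurd h hG, fun _ _ R H hR hH _ => ?_⟩
    · rw [← O₁.valuation_le_one_iff, map_div₀, map_pow]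
      have h1 := hInz d k E t z P m D hM O₁ hD.con l hl1 hl2 _ P.derivative
        (wle_derivative P m _ hM.wt)
      refine div_le_one_of_le₀ (h1.trans ?_) zero_le
      exact pow_le_pow_right₀ hl1.le (by omega)
    · have hr0 := aeval_ne t ht R hR
      rw [Finset.smul_sum]
      refine Submodule.sum_mem _ fun i _ => ?_
      rw [smul_smul]
      refine inf_mem Δ O₁ (t i) (t l) _ htl0 hl1 (hl2 i) ?_
      have h2 : ev t z P.derivative / t l ^ (m * P.natDegree + 2) *
          (ev t z (H i) / (ev t z P.derivative * MvPolynomial.aeval t R)) * t l ^ 2 =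
          ev t z (H i) / (MvPolynomial.aeval t R * t l ^ (m * P.natDegree)) := by
        rw [pow_add]
        field_simp
      rw [h2, ← O₁.valuation_le_one_iff, map_div₀, map_mul, map_pow, hl3 R hR, ← pow_add]
      exact div_le_one_of_le₀ (hInz d k E t z P m D hM O₁ hD.con l hl1 hl2 _ (H i) (hH i)) zero_le

end F4M

open F4M in
/-- Proof of `S_F4`. -/
theorem tF4 : S_Res → S_Inf → S_Inz → S_Unr → S_F3 → S_F4e → S_F4 := by
  intro hRes hInf hInz hUnr hF3 hF4e d k E _ _ _ _ x hx Δ hΔ t z P m D ht hM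
  have hz0 : ev t z P.derivative ≠ 0 := by
    intro h
    obtain ⟨V, hV⟩ := hM.dis
    rw [h, mul_zero] at hV
    exact aeval_ne t ht D hM.ne hV.symm
  choose B hB0 hB1 hB2 hB3 using exists_B hInf hInz d k E Δ t z P m D ht hM hz0
  refine ⟨B, hB0, hB1, hB2, fun O hO => ?_⟩
  obtain ⟨R, hR, hRG⟩ := hRes d k E t ht O hO.toDv hO.fin
  obtain ⟨H, hH⟩ := hF3 d k E t z P m D ht hM O hO R hR hRG
  have hR0 : R ≠ 0 := hR.ne_zero
  have hr0 := aeval_ne t ht R hR0
  have hPz := pz_unit t z P m D hM O hO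
  obtain ⟨-, hdiv, -⟩ := hUnr d k E t z P m D ht hM O hO R hR hRG
  have hda := dd_aeval Δ t R
  set r : E := MvPolynomial.aeval t R with hr
  set pz : E := ev t z P.derivative with hpz
  have hdiff : (∑ i, (ev t z (H i) / (pz * r)) • dd Δ (t i)) - r⁻¹ • dd Δ r ∈ Om Δ O := by
    have h1 : (∑ i, (ev t z (H i) / (pz * r)) • dd Δ (t i)) - r⁻¹ • dd Δ r =
        ∑ i, ((ev t z (H i) - MvPolynomial.aeval t (MvPolynomial.pderiv i R) * pz) / r / pz) •
          dd Δ (t i) := by
      rw [hda, Finset.smul_sum, ← Finset.sum_sub_distrib]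
      refine Finset.sum_congr rfl fun i _ => ?_
      rw [smul_smul, ← sub_smul]
      congr 1
      field_simp
    rw [h1]
    refine om_mem Δ O t _ hO.fin fun i => ?_
    rw [← O.valuation_le_one_iff, map_div₀, hPz, div_one, O.valuation_le_one_iff]
    exact hdiv _ (hH i).2.1
  refine ⟨∑ i, (ev t z (H i) / (pz * r)) • dd Δ (t i), r, hr0, (hRG R).2 dvd_rfl, hdiv, hdiff, ?_, ?_⟩
  · intro hmem
    apply hF4e d k E x hx Δ hΔ t z P m D ht hM O hO R hR hRG
    have h2 := Submodule.sub_mem _ hmem hdiff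
    rwa [sub_sub_cancel] at h2
  · intro O₁ hO₁ hne
    have hass : (∀ i, t i ∈ O₁) → O₁.valuation r < 1 →
        ∀ G : Po d k, O₁.valuation (MvPolynomial.aeval t G) < 1 ↔ R ∣ G := by
      intro hf hlt
      obtain ⟨R₁, hR₁, hR₁G⟩ := hRes d k E t ht O₁ hO₁ hf
      have h3 : R₁ ∣ R := (hR₁G R).1 hlt
      have h4 : Associated R₁ R := hR₁.associated_of_dvd hR h3
      intro G
      rw [hR₁G G]
      exact h4.dvd_iff_dvd_left
    by_cases hG : Gd k t D O₁
    · rw [hB2 O₁ hG, one_smul]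
      have hPz₁ := pz_unit t z P m D hM O₁ hG
      have hz := z_mem O₁ hG.con t hG.fin z P hM.mon hM.rt
      refine om_mem Δ O₁ t _ hG.fin fun i => ?_
      have h5 : ev t z (H i) / (pz * r) = ev t z (H i) / r / pz := by field_simp
      rw [h5, ← O₁.valuation_le_one_iff, map_div₀, hPz₁, div_one, O₁.valuation_le_one_iff]
      have hrO : O₁.valuation r ≤ 1 :=
        (O₁.valuation_le_one_iff _).2 (aeval_mem O₁ hG.con t hG.fin R)
      rcases lt_or_eq_of_le hrO with hlt | heq
      · have h6 := hass hG.fin hlt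
        obtain ⟨-, hdiv₁, -⟩ := hUnr d k E t z P m D ht hM O₁ hG R hR h6
        exact hdiv₁ _ ((hH i).2.2 O₁ hO₁ hG.fin hlt hne)
      · rw [← O₁.valuation_le_one_iff, map_div₀, heq, div_one, O₁.valuation_le_one_iff]
        exact ev_mem O₁ hG.con t hG.fin z hz _
    · refine hB3 O₁ hO₁ hG R H hR0 (fun i => (hH i).1) fun hf => ?_
      have hrO : O₁.valuation r ≤ 1 :=
        (O₁.valuation_le_one_iff _).2 (aeval_mem O₁ hO₁.con t hf R)
      rcases lt_or_eq_of_le hrO with hlt | heq
      · exfalso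
        have h6 := hass hf hlt
        have hDO : O₁.valuation (MvPolynomial.aeval t D) ≤ 1 :=
          (O₁.valuation_le_one_iff _).2 (aeval_mem O₁ hO₁.con t hf D)
        rcases lt_or_eq_of_le hDO with h7 | h7
        · have h8 := (hRG D).2 ((h6 D).1 h7)
          rw [hO.unit] at h8
          exact lt_irrefl _ h8
        · exact hG ⟨hO₁, hf, h7⟩
      · exact heq

end Pool.Agent.Lib.MP_16285c_agX.Cn
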