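import Pool.Agent.Lib.MP_16285c_agX.Can.Spec

/-!
# The logarithmic form of an irreducible polynomial has a pole (F4e)
-/

set_option autoImplicit false

namespace Pool.Agent.Lib.MP_16285c_agX.Cn


namespace F4eM

/-- An irreducible polynomial in characteristic zero does not divide all its derivatives. -/
private theorem irr {d : ℕ} {k : Type} [Field k] [CharZero k] {R : Po d k} (hR : Irreducible R)
    (h : ∀ i, R ∣ MvPolynomial.pderiv i R) : False := by
  have h0 : ∀ i, MvPolynomial.pderiv i R = 0 := by
    intro i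
    by_contra hne
    obtain ⟨Q, hQ⟩ := h i
    have hQ0 : Q ≠ 0 := by
      rintro rfl
      rw [mul_zero] at hQ
      exact hne hQ
    have h1 : (MvPolynomial.pderiv i R).totalDegree = R.totalDegree + Q.totalDegree := by
      rw [hQ]
      exact MvPolynomial.totalDegree_mul_of_isDomain hR.ne_zero hQ0
    obtain ⟨m, hm, hdeg⟩ := (MvPolynomial.pderiv i R).support.exists_mem_eq_sup
      (MvPolynomial.support_nonempty.2 hne) fun m => m.sum fun _ e => e
    have hm' := MvPolynomial.mem_support_iff.1 hm
    rw [MvPolynomial.coeff_pderiv] at hm'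
    have h2 : m + Finsupp.single i 1 ∈ R.support :=
      MvPolynomial.mem_support_iff.2 (left_ne_zero_of_mul hm')
    have h3 := MvPolynomial.le_totalDegree h2
    have h4 : ((m + Finsupp.single i 1).sum fun _ e => e) = (m.sum fun _ e => e) + 1 := by
      rw [Finsupp.sum_add_index' (fun _ => rfl) (fun _ _ _ => rfl), Finsupp.sum_single_index rfl]
    have h5 : (MvPolynomial.pderiv i R).totalDegree = m.sum fun _ e => e := hdeg
    omega
  have hc : R = MvPolynomial.C (MvPolynomial.coeff 0 R) := by
    ext m
    rw [MvPolynomial.coeff_C]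
    by_cases hm : 0 = m
    · rw [if_pos hm, hm]
    · rw [if_neg hm]
      obtain ⟨i, hi⟩ : ∃ i, m i ≠ 0 := by
        by_contra hcon
        push Not at hcon
        exact hm (Finsupp.ext fun i => (hcon i).symm)
      have h1 := congrArg (MvPolynomial.coeff (m - Finsupp.single i 1)) (h0 i)
      rw [MvPolynomial.coeff_pderiv, MvPolynomial.coeff_zero] at h1
      have h2 : m - Finsupp.single i 1 + Finsupp.single i 1 = m := by
        refine tsub_add_cancel_of_le ?_
        rw [Finsupp.single_le_iff]
        omega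
      rw [h2] at h1
      refine (mul_eq_zero.1 h1).resolve_right ?_
      exact Nat.cast_add_one_ne_zero _
  rw [hc] at hR
  by_cases h1 : MvPolynomial.coeff 0 R = 0
  · rw [h1, map_zero] at hR
    exact hR.ne_zero rfl
  · exact hR.not_isUnit ((isUnit_iff_ne_zero.2 h1).map MvPolynomial.C)

/-- The derivation of a polynomial. -/
private theorem der {d : ℕ} {k E : Type} [Field k] [Field E] [Algebra k E] {t : Fin (d + 2) → E}
    {Δ : Fin (d + 2) → Derivation k E E} (hΔ : Dual t Δ) (i : Fin (d + 2)) (G : Po d k) :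
    Δ i (MvPolynomial.aeval t G) = MvPolynomial.aeval t (MvPolynomial.pderiv i G) := by
  induction G using MvPolynomial.induction_on with
  | C c => rw [MvPolynomial.aeval_C, Derivation.map_algebraMap, MvPolynomial.pderiv_C, map_zero]
  | add p q hp hq => rw [map_add, map_add, map_add, map_add, hp, hq]
  | mul_X p j hp =>
    rw [map_mul, Derivation.leibniz, hp, MvPolynomial.aeval_X, hΔ i j, MvPolynomial.pderiv_mul,
      map_add, map_mul, map_mul, MvPolynomial.aeval_X]
    by_cases hij : i = j
    · rw [if_pos hij, hij, MvPolynomial.pderiv_X_self, map_one]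
      simp only [smul_eq_mul]
      ring
    · rw [if_neg hij, MvPolynomial.pderiv_X_of_ne (Ne.symm hij), map_zero]
      simp only [smul_eq_mul]
      ring

end F4eM

open F4eM in
theorem tF4e : S_Der → S_DO → S_F4e := by
  intro hDer hDO d k E _ _ _ _ x hx Δ hΔ t z P m D ht hM O hO R hR hRO hmem
  obtain ⟨Δ', hΔ'⟩ := (hDer d k E t ht).1
  -- the change of coordinates
  have hchg : ∀ i h, ∑ j, Δ j h * Δ' i (x j) = Δ' i h := by
    intro i h
    have h1 := (hDer d k E x hx).2 (RingHom.id E) (fun h => Δ' i h - ∑ j, Δ j h * Δ' i (x j))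
      (fun a b => by
        simp only [map_add, add_mul, Finset.sum_add_distrib]
        ring)
      (fun a b => by
        simp only [Derivation.leibniz, smul_eq_mul, RingHom.id_apply, add_mul,
          Finset.sum_add_distrib, mul_sub, Finset.mul_sum]
        have e1 : ∑ j, a * Δ j b * Δ' i (x j) = ∑ j, a * (Δ j b * Δ' i (x j)) :=
          Finset.sum_congr rfl fun j _ => mul_assoc _ _ _
        have e2 : ∑ j, b * Δ j a * Δ' i (x j) = ∑ j, b * (Δ j a * Δ' i (x j)) :=
          Finset.sum_congr rfl fun j _ => mul_assoc _ _ _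
        rw [e1, e2]
        ring)
      (fun c => by simp)
      (fun j => by
        have e1 : ∀ l, Δ l (x j) * Δ' i (x l) = if l = j then Δ' i (x j) else 0 := by
          intro l
          rw [hΔ l j]
          by_cases hlj : l = j
          · rw [if_pos hlj, if_pos hlj, one_mul, hlj]
          · rw [if_neg hlj, if_neg hlj, zero_mul]
        simp only [e1, Finset.sum_ite_eq', Finset.mem_univ, if_true, sub_self])
      h
    exact (sub_eq_zero.1 h1).symm
  have hreg : ∀ i, ∀ w ∈ Om Δ O, ∑ j, w j * Δ' i (x j) ∈ O := by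
    intro i w hw
    refine Submodule.span_induction ?_ ?_ ?_ ?_ hw
    · rintro _ ⟨h, rfl⟩
      have e1 : ∑ j, dd Δ (h : E) j * Δ' i (x j) = Δ' i h := hchg i h
      rw [e1]
      exact hDO d k E t z P m D ht hM Δ' hΔ' O hO h h.2 i
    · simp only [Pi.zero_apply, zero_mul, Finset.sum_const_zero]
      exact O.zero_mem
    · intro w w' _ _ h1 h2
      simp only [Pi.add_apply, add_mul, Finset.sum_add_distrib]
      exact O.add_mem _ _ h1 h2
    · intro a w _ h1
      have e1 : ∑ j, (a • w) j * Δ' i (x j) = (a : E) * ∑ j, w j * Δ' i (x j) := by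
        rw [Finset.mul_sum]
        refine Finset.sum_congr rfl fun j _ => ?_
        show ((a : E) * w j) * _ = _
        ring
      rw [e1]
      exact O.mul_mem _ _ a.2 h1
  set r := MvPolynomial.aeval t R with hr
  have hr0 : r ≠ 0 := by
    intro h
    exact hR.ne_zero ((injective_iff_map_eq_zero _).1 ht.ind R h)
  have hr1 : O.valuation r < 1 := (hRO R).2 dvd_rfl
  refine irr hR fun i => (hRO _).1 ?_
  have h1 := hreg i _ hmem
  have h2 : ∑ j, (r⁻¹ • dd Δ r) j * Δ' i (x j) = r⁻¹ * Δ' i r := by
    rw [← hchg i r, Finset.mul_sum]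
    refine Finset.sum_congr rfl fun j _ => ?_
    show (r⁻¹ * Δ j r) * _ = _
    ring
  rw [h2, hr, der hΔ' i R, ← hr] at h1
  have h3 := (O.valuation_le_one_iff _).2 h1
  have h4 : MvPolynomial.aeval t (MvPolynomial.pderiv i R) =
      r * (r⁻¹ * MvPolynomial.aeval t (MvPolynomial.pderiv i R)) := by
    rw [mul_inv_cancel_left₀ hr0]
  rw [h4, map_mul]
  exact mul_lt_one_of_lt_of_le hr1 h3

end Pool.Agent.Lib.MP_16285c_agX.Cn
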