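import Pool.Agent.Lib.MP_16285c_agX.Can.Spec

/-!
# Fixed forms: dimension count and invariants, every dimension
-/

set_option autoImplicit false

namespace Pool.Agent.Lib.MP_16285c_agX.Cn

namespace F7M

variable {k E : Type} [Field k] [Field E] [Algebra k E]

theorem indep {m : ℕ} {ι : Type} [DecidableEq ι] (ρ : E →ₐ[k] E)
    (hinv : ∀ h : E, ρ h = h → ∃ c : k, h = algebraMap k E c)
    (σ : (Fin m → E) →ₗ[k] (Fin m → E)) (hσ : ∀ (a : E) (w : Fin m → E), σ (a • w) = ρ a • σ w)
    (w : ι → Fin m → E) (hw : LinearIndependent k w) (hf : ∀ j, σ (w j) = w j) :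
    ∀ (n : ℕ) (s : Finset ι), s.card = n → ∀ c : ι → E, ∑ j ∈ s, c j • w j = 0 →
      ∀ j ∈ s, c j = 0 := by
  intro n
  induction n with
  | zero =>
    intro s hs c _ j hj
    rw [Finset.card_eq_zero] at hs
    rw [hs] at hj
    exact absurd hj (Finset.notMem_empty j)
  | succ n ih =>
    intro s hs c hc l hl
    by_contra hne
    set d : ι → E := fun j => c j / c l with hd
    have h1 : ∑ j ∈ s, d j • w j = 0 := by
      have : ∑ j ∈ s, d j • w j = (c l)⁻¹ • ∑ j ∈ s, c j • w j := by
        rw [Finset.smul_sum]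
        refine Finset.sum_congr rfl fun j _ => ?_
        rw [smul_smul]
        change (c j / c l) • w j = _
        rw [div_eq_inv_mul]
      rw [this, hc, smul_zero]
    have h2 : ∑ j ∈ s, ρ (d j) • w j = 0 := by
      have := congrArg σ h1
      rw [map_sum, map_zero] at this
      rw [← this]
      refine Finset.sum_congr rfl fun j _ => ?_
      rw [hσ, hf]
    have hdl : d l = 1 := div_self hne
    have h3 : ∑ j ∈ s.erase l, (ρ (d j) - d j) • w j = 0 := by
      have h4 : ∑ j ∈ s, (ρ (d j) - d j) • w j = 0 := by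
        have h5 : ∑ j ∈ s, (ρ (d j) - d j) • w j =
            ∑ j ∈ s, ρ (d j) • w j - ∑ j ∈ s, d j • w j := by
          rw [← Finset.sum_sub_distrib]
          exact Finset.sum_congr rfl fun j _ => sub_smul _ _ _
        rw [h5, h1, h2, sub_zero]
      rw [← Finset.add_sum_erase s _ hl, hdl, map_one, sub_self, zero_smul, zero_add] at h4
      exact h4
    have h5 := ih (s.erase l) (by rw [Finset.card_erase_of_mem hl, hs]; rfl) _ h3
    have h6 : ∀ j ∈ s, ∃ e : k, d j = algebraMap k E e := by
      intro j hj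
      by_cases hjl : j = l
      · exact ⟨1, by rw [hjl, hdl, map_one]⟩
      · exact hinv _ (sub_eq_zero.1 (h5 j (Finset.mem_erase.2 ⟨hjl, hj⟩)))
    choose! e he using h6
    have h7 : ∑ j ∈ s, e j • w j = 0 := by
      rw [← h1]
      refine Finset.sum_congr rfl fun j hj => ?_
      rw [he j hj, algebraMap_smul]
    have h8 := (linearIndependent_iff'.1 hw) s e h7 l hl
    have h9 := he l hl
    rw [h8, map_zero, hdl] at h9
    exact one_ne_zero h9

end F7M

theorem tF7 : S_F7 := by
  intro n k E _ _ _ ρ hinv σ hσ Q hQ ω hω hmem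
  classical
  set q := Module.finrank k Q with hq
  let L : (Fin (q + (n + 1)) → k) →ₗ[k] Q :=
    Fintype.linearCombination k (fun i : Fin (q + (n + 1)) => (⟨σ (ω i) - ω i, hmem i⟩ : Q))
  have h1 : n + 1 ≤ Module.finrank k (LinearMap.ker L) := by
    have h2 := LinearMap.finrank_range_add_finrank_ker L
    rw [Module.finrank_fin_fun] at h2
    have h3 : Module.finrank k (LinearMap.range L) ≤ q := Submodule.finrank_le _
    omega
  let b := Module.finBasis k (LinearMap.ker L)
  let c : Fin (n + 1) → Fin (q + (n + 1)) → k := fun j => (b (Fin.castLE h1 j) : Fin (q + (n + 1)) → k)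
  have hc : LinearIndependent k c := by
    have h2 : LinearIndependent k (fun j : Fin (n + 1) => b (Fin.castLE h1 j)) :=
      b.linearIndependent.comp _ (Fin.castLE_injective h1)
    exact h2.map' (LinearMap.ker L).subtype (LinearMap.ker_eq_bot.2 (Submodule.subtype_injective _))
  have hcL : ∀ j, L (c j) = 0 := fun j => (b (Fin.castLE h1 j)).2
  let W : (Fin (q + (n + 1)) → k) →ₗ[k] (Fin n → E) :=
    Fintype.linearCombination k (fun i : Fin (q + (n + 1)) => ω i)
  have hW : LinearMap.ker W = ⊥ := by
    have h2 : LinearIndependent k (fun i : Fin (q + (n + 1)) => ω i) :=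
      hω.comp (fun i : Fin (q + (n + 1)) => (i : ℕ)) Fin.val_injective
    exact LinearMap.ker_eq_bot.2 (linearIndependent_iff_injective_fintypeLinearCombination.1 h2)
  have hw : LinearIndependent k (fun j => W (c j)) := hc.map' W hW
  have hf : ∀ j, σ (W (c j)) = W (c j) := by
    intro j
    have h2 := congrArg (Submodule.subtype Q) (hcL j)
    rw [map_zero] at h2
    rw [← sub_eq_zero, ← h2]
    change σ (∑ i, c j i • ω i) - ∑ i, c j i • ω i = Submodule.subtype Q (∑ i, c j i • (⟨σ (ω i) - ω i, hmem i⟩ : Q))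
    rw [map_sum, map_sum, ← Finset.sum_sub_distrib]
    refine Finset.sum_congr rfl fun i _ => ?_
    rw [map_smul, map_smul, ← smul_sub]
    rfl
  have hE : LinearIndependent E (fun j => W (c j)) := by
    rw [Fintype.linearIndependent_iff]
    intro g hg j
    exact F7M.indep ρ hinv σ hσ _ hw hf (n + 1) Finset.univ (by simp) g hg j (Finset.mem_univ j)
  have h2 := hE.fintype_card_le_finrank
  rw [Module.finrank_fin_fun, Fintype.card_fin] at h2
  omega

end Pool.Agent.Lib.MP_16285c_agX.Cn
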