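import Pool.Agent.Lib.MP_16285c_agX.Can.Spec

/-!
# Graded Noether normalization (`S_GN`)
-/

set_option autoImplicit false

namespace Pool.Agent.Lib.MP_16285c_agX.Cn

namespace GNM

open Polynomial in
/-- The key step: `y = e / w` is integral over `C`. -/
theorem integ {k E : Type} [Field k] [Field E] [Algebra k E] {m : ℕ} (C : Subring E)
    (hk : ∀ c : k, algebraMap k E c ∈ C) (G : MvPolynomial (Fin m) k) (lam : Fin m → k)
    (hG : MvPolynomial.eval lam G ≠ 0) (b : Fin m → E) (hb : ∀ i, b i ∈ C) (y : E) (hy : y ≠ 0)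
    (h0 : MvPolynomial.aeval (fun i => algebraMap k E (lam i) + b i * y⁻¹) G = 0) :
    IsIntegral C y := by
  classical
  set κ : k →+* C := (algebraMap k E).codRestrict C hk with hκ
  have hκv : ∀ c, algebraMap C E (κ c) = algebraMap k E c := fun c => rfl
  set b' : Fin m → C := fun i => ⟨b i, hb i⟩ with hb'
  have hbv : ∀ i, algebraMap C E (b' i) = b i := fun i => rfl
  set q : Polynomial C := MvPolynomial.eval₂ (Polynomial.C.comp κ)
    (fun i => Polynomial.C (κ (lam i)) + Polynomial.C (b' i) * Polynomial.X) G with hq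
  have hev : Polynomial.eval₂ (algebraMap C E) y⁻¹ q = 0 := by
    have h1 : Polynomial.eval₂RingHom (algebraMap C E) y⁻¹ q = 0 := by
      rw [hq, MvPolynomial.hom_eval₂]
      rw [MvPolynomial.aeval_def] at h0
      rw [← h0]
      congr 1
      · ext c
        simp [hκv]
      · funext i
        simp [hκv, hbv]
    simpa using h1
  have hc0 : q.coeff 0 = κ (MvPolynomial.eval lam G) := by
    rw [Polynomial.coeff_zero_eq_eval_zero]
    have h1 : Polynomial.evalRingHom 0 q = κ (MvPolynomial.eval lam G) := by
      rw [hq, MvPolynomial.hom_eval₂, MvPolynomial.eval, MvPolynomial.coe_eval₂Hom,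
        MvPolynomial.hom_eval₂]
      congr 1
      · ext c
        simp
      · funext i
        simp
    simpa using h1
  have hne : q.coeff 0 ≠ 0 := by
    intro h
    rw [hc0] at h
    have := congrArg (algebraMap C E) h
    rw [hκv, map_zero] at this
    exact hG ((map_eq_zero (algebraMap k E)).1 this)
  have htr : q.trailingCoeff = κ (MvPolynomial.eval lam G) := by
    rw [Polynomial.trailingCoeff, Polynomial.natTrailingDegree_eq_zero_of_constantCoeff_ne_zero, hc0]
    simpa using hne
  have hrev : Polynomial.eval₂ (algebraMap C E) y q.reverse = 0 := by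
    have hinv : Invertible (y⁻¹) := invertibleOfNonzero (inv_ne_zero hy)
    have := (Polynomial.eval₂_reverse_eq_zero_iff (algebraMap C E) y⁻¹ q).2 hev
    have h2 : ⅟(y⁻¹) = y := by
      rw [invOf_eq_inv, inv_inv]
    rwa [h2] at this
  have hlc : q.reverse.leadingCoeff * κ (MvPolynomial.eval lam G)⁻¹ = 1 := by
    rw [Polynomial.reverse_leadingCoeff, htr, ← map_mul, mul_inv_cancel₀ hG, map_one]
  refine ⟨q.reverse * Polynomial.C (κ (MvPolynomial.eval lam G)⁻¹),
    Polynomial.monic_mul_C_of_leadingCoeff_mul_eq_one hlc, ?_⟩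
  rw [Polynomial.eval₂_mul, hrev, zero_mul]

theorem main {k E : Type} [Field k] [Infinite k] [Field E] [Algebra k E]
    {n : ℕ} (hind : ∀ y : Fin (n + 1) → E, ¬ AlgebraicIndependent k y) (M : ℕ) :
    ∀ u : Fin (n + 1 + M) → E, LinearIndependent k u →
      ∃ s : Fin (n + 1) → E, (∀ i, s i ∈ Submodule.span k (Set.range u)) ∧ LinearIndependent k s ∧
      ∀ C : Subring E, (∀ c : k, algebraMap k E c ∈ C) → (∀ a : E, IsIntegral C a → a ∈ C) →
        ∀ w ∈ Submodule.span k (Set.range s), w ≠ 0 → (∀ i, s i / w ∈ C) →
          ∀ i, u i / w ∈ C := by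
  classical
  induction M with
  | zero =>
    intro u hu
    refine ⟨u, fun i => Submodule.subset_span ⟨i, rfl⟩, hu, ?_⟩
    intro C _ _ w _ _ h i
    exact h i
  | succ M ih =>
    intro (u : Fin (n + 1 + M + 1) → E) (hu : LinearIndependent k u)
    set e : E := u (Fin.last (n + 1 + M)) with he
    have he0 : e ≠ 0 := hu.ne_zero _
    set J : Fin (n + 1) → Fin (n + 1 + M) := fun i => Fin.castLE (by omega) i with hJ
    have hJinj : Function.Injective J := Fin.castLE_injective _
    obtain ⟨G, hG0, hGev⟩ : ∃ G : MvPolynomial (Fin (n + 1)) k, G ≠ 0 ∧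
        MvPolynomial.aeval (fun i => u (J i).castSucc / e) G = 0 := by
      have := hind (fun i => u (J i).castSucc / e)
      rw [algebraicIndependent_iff] at this
      push Not at this
      obtain ⟨p, hp, hp0⟩ := this
      exact ⟨p, hp0, hp⟩
    obtain ⟨lam, hlam⟩ : ∃ lam : Fin (n + 1) → k, MvPolynomial.eval lam G ≠ 0 := by
      by_contra hcon
      push Not at hcon
      exact hG0 (MvPolynomial.funext fun x => by rw [hcon x, map_zero])
    set L : Fin (n + 1 + M) → k := fun j => if h : (j : ℕ) < n + 1 then lam ⟨j, h⟩ else 0 with hL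
    have hLJ : ∀ i, L (J i) = lam i := by
      intro i
      simp only [hL, hJ]
      rw [dif_pos (show ((Fin.castLE (Nat.le_add_right _ _) i : Fin (n + 1 + M)) : ℕ) < n + 1 from i.2)]
      congr 1
    set u' : Fin (n + 1 + M) → E := fun j => u j.castSucc - L j • e with hu'
    have hli : LinearIndependent k u' := by
      rw [Fintype.linearIndependent_iff]
      intro g hg
      rw [Fintype.linearIndependent_iff] at hu
      have h1 := hu (Fin.snoc (α := fun _ => k) g (-∑ j, g j * L j)) (by
        rw [Fin.sum_univ_castSucc]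
        simp only [Fin.snoc_castSucc, Fin.snoc_last]
        rw [← hg]
        simp only [hu', smul_sub, Finset.sum_sub_distrib, smul_smul, neg_smul, Finset.sum_smul]
        rw [sub_eq_add_neg])
      intro i
      have := h1 i.castSucc
      rwa [Fin.snoc_castSucc] at this
    obtain ⟨s, hs, hsli, hC⟩ := ih u' hli
    have hsub : ∀ j, u' j ∈ Submodule.span k (Set.range u) := fun j =>
      Submodule.sub_mem _ (Submodule.subset_span ⟨_, rfl⟩)
        (Submodule.smul_mem _ _ (Submodule.subset_span ⟨_, rfl⟩))
    have hle : Submodule.span k (Set.range u') ≤ Submodule.span k (Set.range u) := by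
      rw [Submodule.span_le]
      rintro _ ⟨j, rfl⟩
      exact hsub j
    refine ⟨s, fun i => hle (hs i), hsli, ?_⟩
    intro C hk hint w hw hw0 hsw
    have hu'w := hC C hk hint w hw hw0 hsw
    have hy : e / w ∈ C := by
      apply hint
      refine integ C hk G lam hlam (fun i => u' (J i) / w) (fun i => hu'w (J i)) (e / w)
        (div_ne_zero he0 hw0) ?_
      rw [← hGev]
      congr 2
      funext i
      simp only [hu']
      rw [hLJ, Algebra.smul_def]
      field_simp
      ring
    intro i
    refine Fin.lastCases ?_ (fun j => ?_) i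
    · exact hy
    · have h1 : u j.castSucc / w = u' j / w + algebraMap k E (L j) * (e / w) := by
        simp only [hu']
        rw [Algebra.smul_def]
        ring
      rw [h1]
      exact C.add_mem (hu'w j) (C.mul_mem (hk _) hy)

end GNM

/-- Graded Noether normalization. -/
theorem tGN : S_GN := by
  intro n k E _ _ _ _ hind U hU h3
  obtain ⟨M, hM⟩ : ∃ M, Module.finrank k U = n + 1 + M := ⟨Module.finrank k U - (n + 1), by omega⟩
  set B : Module.Basis (Fin (n + 1 + M)) k U := (Module.finBasisOfFinrankEq k U hM) with hB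
  set u : Fin (n + 1 + M) → E := fun i => (B i : E) with hu
  have hli : LinearIndependent k u := by
    have := B.linearIndependent.map' U.subtype (Submodule.ker_subtype U)
    exact this
  have hspan : Submodule.span k (Set.range u) = U := by
    have h1 : Set.range u = U.subtype '' Set.range B := by
      ext x
      constructor
      · rintro ⟨i, rfl⟩
        exact ⟨B i, ⟨i, rfl⟩, rfl⟩
      · rintro ⟨_, ⟨i, rfl⟩, rfl⟩
        exact ⟨i, rfl⟩
    rw [h1, Submodule.span_image, B.span_eq, Submodule.map_subtype_top]
  obtain ⟨s, hs, hsli, hC⟩ := GNM.main hind M u hli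
  refine ⟨s, fun i => hspan ▸ hs i, hsli, ?_⟩
  intro C hk hint w hw hw0 hsw v hv
  have h := hC C hk hint w hw hw0 hsw
  rw [← hspan] at hv
  induction hv using Submodule.span_induction with
  | mem x hx =>
    obtain ⟨i, rfl⟩ := hx
    exact h i
  | zero => rw [zero_div]; exact C.zero_mem
  | add x y _ _ hx hy => rw [add_div]; exact C.add_mem hx hy
  | smul c x _ hx =>
    rw [Algebra.smul_def, mul_div_assoc]
    exact C.mul_mem (hk c) hx

end Pool.Agent.Lib.MP_16285c_agX.Cn
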