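import Pool.Agent.Lib.MP_16285c_agX.Can.Spec

/-!
# Divisors at infinity: the valuation of a polynomial is its degree
-/

set_option autoImplicit false

namespace Pool.Agent.Lib.MP_16285c_agX.Cn

namespace InfM

variable {k E : Type} [Field k] [Field E] [Algebra k E] {d : ℕ}

/-- The degree of an exponent. -/
theorem deg_eq {n : ℕ} (α : Fin n →₀ ℕ) : (α.sum fun _ e => e) = ∑ i, α i :=
  Finsupp.sum_fintype _ _ (fun _ => rfl)

/-- The value of a polynomial as a sum. -/
theorem aeval_eq {n : ℕ} (t : Fin n → E) (G : MvPolynomial (Fin n) k) :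
    MvPolynomial.aeval t G =
      ∑ α ∈ G.support, algebraMap k E (G.coeff α) * ∏ i, t i ^ α i := by
  rw [MvPolynomial.aeval_def, MvPolynomial.eval₂_eq']

/-- One term. -/
theorem term_eq {n : ℕ} (t : Fin n → E) (w : E) (hw : w ≠ 0) (c : E) (α : Fin n →₀ ℕ) (D : ℕ)
    (h : ∑ i, α i ≤ D) :
    c * ∏ i, t i ^ α i =
      w ^ D * (c * (∏ i, (t i / w) ^ α i) * (w⁻¹) ^ (D - ∑ i, α i)) := by
  obtain ⟨e, he⟩ := Nat.exists_eq_add_of_le h
  have h1 : D - ∑ i, α i = e := by omega
  have h2 : ∏ i, (t i / w) ^ α i = (∏ i, t i ^ α i) / w ^ (∑ i, α i) := by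
    rw [← Finset.prod_pow_eq_pow_sum, ← Finset.prod_div_distrib]
    exact Finset.prod_congr rfl fun i _ => div_pow _ _ _
  rw [h1, h2, he, inv_pow, pow_add]
  field_simp

/-- The exponent without the coordinate `l`. -/
noncomputable def cpx (σ : Fin (d + 1) → Fin (d + 2)) (α : Fin (d + 2) →₀ ℕ) : Fin (d + 1) →₀ ℕ :=
  Finsupp.equivFunOnFinite.symm fun j => α (σ j)

theorem cpx_apply (σ : Fin (d + 1) → Fin (d + 2)) (α : Fin (d + 2) →₀ ℕ) (j : Fin (d + 1)) :
    cpx σ α j = α (σ j) := rfl

/-- products over all indices -/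
theorem prod_split (σ : Fin (d + 1) → Fin (d + 2)) (hσ : Function.Injective σ) (l : Fin (d + 2))
    (hl : ∀ j, σ j ≠ l) {M : Type} [CommMonoid M] (f : Fin (d + 2) → M) :
    ∏ i, f i = f l * ∏ j, f (σ j) := by
  classical
  have h1 : (Finset.univ.image σ : Finset (Fin (d + 2))) = Finset.univ.erase l := by
    apply Finset.eq_of_subset_of_card_le
    · intro i hi
      obtain ⟨j, _, rfl⟩ := Finset.mem_image.1 hi
      exact Finset.mem_erase.2 ⟨hl j, Finset.mem_univ _⟩
    · rw [Finset.card_image_of_injective _ hσ, Finset.card_erase_of_mem (Finset.mem_univ _),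
        Finset.card_univ, Finset.card_univ, Fintype.card_fin, Fintype.card_fin]
      omega
  rw [← Finset.mul_prod_erase Finset.univ f (Finset.mem_univ l), ← h1,
    Finset.prod_image fun a _ b _ h => hσ h]

/-- The leading form. -/
noncomputable def lead (σ : Fin (d + 1) → Fin (d + 2)) (G : Po d k) : MvPolynomial (Fin (d + 1)) k :=
  ∑ α ∈ G.support.filter (fun α => ∑ i, α i = G.totalDegree),
    MvPolynomial.monomial (cpx σ α) (G.coeff α)

/-- sums over all indices -/
theorem sum_split (σ : Fin (d + 1) → Fin (d + 2)) (hσ : Function.Injective σ) (l : Fin (d + 2))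
    (hl : ∀ j, σ j ≠ l) (f : Fin (d + 2) → ℕ) :
    ∑ i, f i = f l + ∑ j, f (σ j) := by
  have h := prod_split σ hσ l hl (fun i => Multiplicative.ofAdd (f i))
  rw [← ofAdd_sum, ← ofAdd_sum, ← ofAdd_add] at h
  exact Multiplicative.ofAdd.injective h

/-- The leading form is not zero. -/
theorem lead_ne (σ : Fin (d + 1) → Fin (d + 2)) (hσ : Function.Injective σ) (l : Fin (d + 2))
    (hl : ∀ j, σ j ≠ l) (G : Po d k) (hG : G ≠ 0) : lead σ G ≠ 0 := by
  classical
  have hne : G.support.Nonempty := by
    rw [Finset.nonempty_iff_ne_empty]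
    intro h
    exact hG (MvPolynomial.support_eq_empty.1 h)
  obtain ⟨β, hβ, hd⟩ := Finset.exists_mem_eq_sup G.support hne (fun s => s.sum fun _ e => e)
  have hd' : ∑ i, β i = G.totalDegree := by
    rw [← deg_eq]
    exact hd.symm
  intro h0
  have h1 : (lead σ G).coeff (cpx σ β) = G.coeff β := by
    rw [lead, MvPolynomial.coeff_sum,
      Finset.sum_eq_single_of_mem β (Finset.mem_filter.2 ⟨hβ, hd'⟩)]
    · rw [MvPolynomial.coeff_monomial, if_pos rfl]
    · intro α hα hne
      rw [MvPolynomial.coeff_monomial, if_neg]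
      intro hi
      apply hne
      have hα' := (Finset.mem_filter.1 hα).2
      have hj : ∀ j, α (σ j) = β (σ j) := by
        intro j
        have := DFunLike.congr_fun hi j
        rw [cpx_apply, cpx_apply] at this
        exact this
      have hsum : α l + ∑ j, α (σ j) = β l + ∑ j, β (σ j) := by
        rw [← sum_split σ hσ l hl (fun i => α i), ← sum_split σ hσ l hl (fun i => β i), hα', hd']
      have hl' : α l = β l := by
        rw [Finset.sum_congr rfl fun j _ => hj j] at hsum
        omega
      ext i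
      by_cases hil : i = l
      · rw [hil, hl']
      · have him : i ∈ (Finset.univ.image σ : Finset (Fin (d + 2))) := by
          have h1 : (Finset.univ.image σ : Finset (Fin (d + 2))) = Finset.univ.erase l := by
            apply Finset.eq_of_subset_of_card_le
            · intro i hi
              obtain ⟨j, _, rfl⟩ := Finset.mem_image.1 hi
              exact Finset.mem_erase.2 ⟨hl j, Finset.mem_univ _⟩
            · rw [Finset.card_image_of_injective _ hσ, Finset.card_erase_of_mem (Finset.mem_univ _),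
                Finset.card_univ, Finset.card_univ, Fintype.card_fin, Fintype.card_fin]
              omega
          rw [h1]
          exact Finset.mem_erase.2 ⟨hil, Finset.mem_univ _⟩
        obtain ⟨j, _, rfl⟩ := Finset.mem_image.1 him
        exact hj j
  rw [h0, MvPolynomial.coeff_zero] at h1
  exact (MvPolynomial.mem_support_iff.1 hβ) h1.symm

/-- The value of the leading form. -/
theorem lead_eval (σ : Fin (d + 1) → Fin (d + 2)) (hσ : Function.Injective σ) (l : Fin (d + 2))
    (hl : ∀ j, σ j ≠ l) (G : Po d k) (s : Fin (d + 2) → E) (hs : s l = 1) :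
    MvPolynomial.aeval (fun j => s (σ j)) (lead σ G) =
      ∑ α ∈ G.support.filter (fun α => ∑ i, α i = G.totalDegree),
        algebraMap k E (G.coeff α) * ∏ i, s i ^ α i := by
  rw [lead, map_sum]
  refine Finset.sum_congr rfl fun α _ => ?_
  rw [MvPolynomial.aeval_monomial, Finsupp.prod_fintype _ _ (fun _ => pow_zero _),
    prod_split σ hσ l hl (fun i => s i ^ α i), hs, one_pow, one_mul]
  rfl

/-- The valuation of a polynomial. -/
theorem key (O : ValuationSubring E) (hcon : ∀ c : k, algebraMap k E c ∈ O) (t : Fin (d + 2) → E)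
    (l : Fin (d + 2)) (hl : 1 < O.valuation (t l)) (hi : ∀ i, t i / t l ∈ O)
    (σ : Fin (d + 1) → Fin (d + 2)) (hσ : Function.Injective σ)
    (hs : Ind k O fun j => t (σ j) / t l) (G : Po d k) (hG : G ≠ 0) :
    O.valuation (MvPolynomial.aeval t G) = O.valuation (t l) ^ G.totalDegree := by
  classical
  have hw : t l ≠ 0 := by
    intro h
    rw [h, map_zero] at hl
    exact absurd hl (by simp)
  have hil : ∀ j, σ j ≠ l := by
    intro j hj
    refine hs (MvPolynomial.X j - MvPolynomial.C 1) ?_ ?_
    · intro h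
      have h1 := congrArg (MvPolynomial.eval (fun _ => (0 : k))) h
      rw [map_sub, MvPolynomial.eval_X, MvPolynomial.eval_C, map_zero, zero_sub] at h1
      exact one_ne_zero (neg_eq_zero.1 h1)
    · rw [map_sub, MvPolynomial.aeval_X, MvPolynomial.aeval_C, map_one, hj, div_self hw, sub_self,
        map_zero]
      exact zero_lt_one
  have hu : O.valuation (t l)⁻¹ < 1 := by
    rw [map_inv₀]
    exact inv_lt_one_of_one_lt₀ hl
  have hO : ∀ α : Fin (d + 2) →₀ ℕ,
      O.valuation (algebraMap k E (G.coeff α) * ∏ i, (t i / t l) ^ α i) ≤ 1 := by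
    intro α
    rw [ValuationSubring.valuation_le_one_iff]
    exact O.mul_mem _ _ (hcon _) (prod_mem fun i _ => pow_mem (hi i) _)
  set D := G.totalDegree with hD
  have hdeg : ∀ α ∈ G.support, ∑ i, α i ≤ D := by
    intro α hα
    rw [← deg_eq]
    exact MvPolynomial.le_totalDegree hα
  set H1 : E := ∑ α ∈ G.support.filter (fun α => ∑ i, α i = D),
    algebraMap k E (G.coeff α) * ∏ i, (t i / t l) ^ α i with hH1
  set H2 : E := ∑ α ∈ G.support.filter (fun α => ¬ ∑ i, α i = D),
    algebraMap k E (G.coeff α) * (∏ i, (t i / t l) ^ α i) *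
      ((t l)⁻¹) ^ (D - ∑ i, α i) with hH2
  have hsum : MvPolynomial.aeval t G = t l ^ D * (H1 + H2) := by
    have h1 : H1 = ∑ α ∈ G.support.filter (fun α => ∑ i, α i = D),
        algebraMap k E (G.coeff α) * (∏ i, (t i / t l) ^ α i) *
          ((t l)⁻¹) ^ (D - ∑ i, α i) := by
      rw [hH1]
      refine Finset.sum_congr rfl fun α hα => ?_
      rw [(Finset.mem_filter.1 hα).2, Nat.sub_self, pow_zero, mul_one]
    rw [h1, hH2, Finset.sum_filter_add_sum_filter_not, Finset.mul_sum, aeval_eq]
    exact Finset.sum_congr rfl fun α hα => term_eq t (t l) hw _ _ _ (hdeg α hα)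
  have hv2 : O.valuation H2 < 1 := by
    rw [hH2]
    refine Valuation.map_sum_lt _ one_ne_zero fun α hα => ?_
    rw [map_mul, map_pow]
    have h1 := hdeg α (Finset.mem_filter.1 hα).1
    have h2 := (Finset.mem_filter.1 hα).2
    have h3 : D - ∑ i, α i ≠ 0 := by omega
    refine lt_of_le_of_lt (mul_le_of_le_one_left zero_le (hO α)) ?_
    exact pow_lt_one₀ zero_le hu h3
  have hv1 : O.valuation H1 = 1 := by
    refine le_antisymm ?_ ?_
    · rw [hH1]
      exact Valuation.map_sum_le _ fun α _ => hO α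
    · refine not_lt.1 fun h => hs (lead σ G) (lead_ne σ hσ l hil G hG) ?_
      rw [lead_eval σ hσ l hil G (fun j => t j / t l) (div_self hw)]
      exact h
  rw [hsum, map_mul, map_pow, Valuation.map_add_eq_of_lt_left _ (by rw [hv1]; exact hv2), hv1,
    mul_one]

end InfM

/-- The valuation of a polynomial at a divisor at infinity. -/
theorem tInf : S_Dvc → S_Inf := by
  intro hD d k E _ _ _ _ t O hO hi
  obtain ⟨l, hl, h1, σ, hσ, h2⟩ := (hD d k E t O).2.2.1 hO hi
  exact ⟨l, hl, h1, fun G hG => InfM.key O hO.con t l hl h1 σ hσ h2 G hG⟩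

end Pool.Agent.Lib.MP_16285c_agX.Cn
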