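import Pool.Agent.Lib.MP_16285c_agX.Can.Spec

/-!
# Package CAN in every dimension: pullback of forms (`S_Pb`)
-/

set_option autoImplicit false

namespace Pool.Agent.Lib.MP_16285c_agX.Cn

open Pool.Agent.Lib.MP_16285c_agS.Cn (Plc cm)

namespace PbM

theorem pb_dd (hDer : S_Der) {d : ℕ} {k E : Type} [Field k] [CharZero k] [Field E] [Algebra k E]
    {x : Fin (d + 2) → E} (hx : Tb k x) {Δ : Fin (d + 2) → Derivation k E E} (hΔ : Dual x Δ)
    (ρ : E →ₐ[k] E) (h : E) : pb ρ x Δ (dd Δ h) = dd Δ (ρ h) := by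
  funext i
  have h0 := (hDer d k E x hx).2 (ρ : E →+* E)
    (fun h => Δ i (ρ h) - ∑ j, ρ (Δ j h) * Δ i (ρ (x j))) ?_ ?_ ?_ ?_ h
  · simp only [pb, dd]
    exact (sub_eq_zero.mp h0).symm
  · intro a b
    simp only [map_add, add_mul, Finset.sum_add_distrib]
    ring
  · intro a b
    have h1 : ∀ j, ρ (Δ j (a * b)) * Δ i (ρ (x j)) =
        ρ a * (ρ (Δ j b) * Δ i (ρ (x j))) + ρ b * (ρ (Δ j a) * Δ i (ρ (x j))) := by
      intro j
      simp only [Derivation.leibniz, smul_eq_mul, map_add, map_mul]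
      ring
    simp only [h1, Finset.sum_add_distrib, ← Finset.mul_sum]
    simp only [map_mul, Derivation.leibniz, smul_eq_mul, RingHom.coe_coe]
    ring
  · intro c
    simp
  · intro l
    have h1 : ∀ j, Δ j (x l) = if j = l then 1 else 0 := fun j => hΔ j l
    simp only [h1]
    simp

theorem pb_smul {d : ℕ} {k E : Type} [Field k] [Field E] [Algebra k E] (x : Fin (d + 2) → E)
    (Δ : Fin (d + 2) → Derivation k E E) (ρ : E →ₐ[k] E) (a : E) (w : Fin (d + 2) → E) :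
    pb ρ x Δ (a • w) = ρ a • pb ρ x Δ w := by
  funext i
  simp only [pb, Pi.smul_apply, smul_eq_mul, map_mul, Finset.mul_sum, mul_assoc]

theorem pb_add {d : ℕ} {k E : Type} [Field k] [Field E] [Algebra k E] (x : Fin (d + 2) → E)
    (Δ : Fin (d + 2) → Derivation k E E) (ρ : E →ₐ[k] E) (w w' : Fin (d + 2) → E) :
    pb ρ x Δ (w + w') = pb ρ x Δ w + pb ρ x Δ w' := by
  funext i
  simp only [pb, Pi.add_apply, map_add, add_mul, Finset.sum_add_distrib]

theorem pb_zero {d : ℕ} {k E : Type} [Field k] [Field E] [Algebra k E] (x : Fin (d + 2) → E)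
    (Δ : Fin (d + 2) → Derivation k E E) (ρ : E →ₐ[k] E) : pb ρ x Δ 0 = 0 := by
  funext i
  simp [pb]

end PbM

open PbM in
theorem tPb : S_Der → S_Pb := by
  intro hDer d k E _ _ _ _ x hx Δ hΔ ρ
  refine ⟨pb_dd hDer hx hΔ ρ, pb_smul x Δ ρ, pb_add x Δ ρ, ?_⟩
  intro O w hw
  refine Submodule.span_induction (p := fun w _ => pb ρ x Δ w ∈ Om Δ O) ?_ ?_ ?_ ?_ hw
  · rintro _ ⟨h, rfl⟩
    rw [pb_dd hDer hx hΔ ρ]
    exact Submodule.subset_span ⟨⟨ρ (h : E), h.2⟩, rfl⟩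
  · rw [pb_zero]
    exact (Om Δ O).zero_mem
  · intro u v _ _ hu hv
    rw [pb_add]
    exact (Om Δ O).add_mem hu hv
  · intro a u _ hu
    have h1 : a • u = (a : E) • u := rfl
    rw [h1, pb_smul]
    exact (Om Δ O).smul_mem (⟨ρ (a : E), a.2⟩ : O) hu

end Pool.Agent.Lib.MP_16285c_agX.Cn
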