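import Pool.Agent.Lib.MP_16285c_agX.Can.Spec

/-!
# Can/Q2: forms with bounded poles
-/

set_option autoImplicit false

namespace Pool.Agent.Lib.MP_16285c_agX.Cn

namespace Q2M

theorem aeval_mem {d : ℕ} {k E : Type} [Field k] [Field E] [Algebra k E] (O : ValuationSubring E)
    (hc : ∀ c : k, algebraMap k E c ∈ O) (x : Fin (d + 2) → E) (hx : ∀ i, x i ∈ O) (D : Po d k) :
    MvPolynomial.aeval x D ∈ O := by
  induction D using MvPolynomial.induction_on with
  | C a =>
    rw [MvPolynomial.algHom_C]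
    exact hc a
  | add p q hp hq =>
    rw [map_add]
    exact O.add_mem _ _ hp hq
  | mul_X p i hp =>
    rw [map_mul, MvPolynomial.aeval_X]
    exact O.mul_mem _ _ hp (hx i)

theorem om_mem {d : ℕ} {k E : Type} [Field k] [Field E] [Algebra k E] (O : ValuationSubring E)
    (Δ : Fin (d + 2) → Derivation k E E) (B : E) (h : ∀ h ∈ O, ∀ i, B * Δ i h ∈ O)
    (w : Fin (d + 2) → E) (hw : w ∈ Om Δ O) (i : Fin (d + 2)) : B * w i ∈ O := by
  unfold Om at hw
  induction hw using Submodule.span_induction with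
  | mem y hy =>
    obtain ⟨a, rfl⟩ := hy
    exact h a a.2 i
  | zero =>
    rw [Pi.zero_apply, mul_zero]
    exact O.zero_mem
  | add y z _ _ hy hz =>
    rw [Pi.add_apply, mul_add]
    exact O.add_mem _ _ hy hz
  | smul a y _ hy =>
    have e : B * (a • y) i = (a : E) * (B * y i) := by
      change B * ((a : E) * y i) = _
      ring
    rw [e]
    exact O.mul_mem _ _ a.2 hy

/-- The vectors with all coordinates in `Q` form a finite dimensional space. -/
theorem pi_fin {k E ι : Type} [Field k] [Field E] [Algebra k E] [Fintype ι] [DecidableEq ι]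
    (Q : Submodule k E) (hQ : Module.Finite k Q) :
    ∃ Q₂ : Submodule k (ι → E), Module.Finite k Q₂ ∧ ∀ w : ι → E, (∀ i, w i ∈ Q) → w ∈ Q₂ := by
  refine ⟨⨆ i : ι, Q.map (LinearMap.single k (fun _ : ι => E) i), ?_, ?_⟩
  · exact Submodule.finite_iSup _
  · intro w hw
    have e : w = ∑ i, LinearMap.single k (fun _ : ι => E) i (w i) := by
      funext j
      rw [Finset.sum_apply, Finset.sum_eq_single j]
      · simp
      · intro b _ hb
        simp [Ne.symm hb]
      · intro h
        exact absurd (Finset.mem_univ j) h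
    rw [e]
    exact Submodule.sum_mem _ fun i _ =>
      Submodule.mem_iSup_of_mem i (Submodule.mem_map_of_mem (hw i))

end Q2M

open Q2M in
theorem tQ2 : S_Q → S_Mdl → S_Exc → S_DO → S_DBd → S_Q2 := by
  intro hQ hM hE hDO hDBd d k E _ _ _ _ x hx Δ hΔ A hA hfin
  obtain ⟨z, P, m, D, hmod⟩ := hM d k E x hx
  have hExc := hE d k E x hx D hmod.ne
  have hB : ∀ O : ValuationSubring E, ∃ B : E, B ≠ 0 ∧
      (Dv k x O → ∀ h ∈ O, ∀ i, B * Δ i h ∈ O) ∧ (Dv k x O → O ∉ Exc k x D → B = 1) := by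
    intro O
    by_cases hd : Dv k x O
    · by_cases he : O ∈ Exc k x D
      · obtain ⟨B, hB0, hB⟩ := hDBd d k E x hx Δ hΔ O hd
        exact ⟨B, hB0, fun _ => hB, fun _ h => absurd he h⟩
      · have hfi : ∀ i, x i ∈ O := by
          intro i
          by_contra h
          exact he ⟨hd, Or.inl ⟨i, h⟩⟩
        have hle : O.valuation (MvPolynomial.aeval x D) ≤ 1 :=
          (O.valuation_le_one_iff _).2 (aeval_mem O hd.con x hfi D)
        have hg : Gd k x D O := ⟨hd, hfi, by
          refine le_antisymm hle (not_lt.1 fun h => he ⟨hd, Or.inr h⟩)⟩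
        refine ⟨1, one_ne_zero, fun _ h hh i => ?_, fun _ _ => rfl⟩
        rw [one_mul]
        exact hDO d k E x z P m D hx hmod Δ hΔ O hg h hh i
    · exact ⟨1, one_ne_zero, fun h => absurd h hd, fun h => absurd h hd⟩
  choose B hB0 hB1 hB2 using hB
  have hfin2 : {O | Dv k x O ∧ B O * A O ≠ 1}.Finite := by
    refine (hfin.union hExc).subset ?_
    rintro O ⟨h1, h2⟩
    by_cases he : O ∈ Exc k x D
    · exact Or.inr he
    · refine Or.inl ⟨h1, fun h3 => h2 ?_⟩
      rw [h3, hB2 O h1 he, one_mul]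
  obtain ⟨Q, hQf, hQm⟩ := hQ d k E x hx (fun O => B O * A O)
    (fun O => mul_ne_zero (hB0 O) (hA O)) hfin2
  obtain ⟨Q₂, hf, hm⟩ := pi_fin (ι := Fin (d + 2)) Q hQf
  refine ⟨Q₂, hf, fun w hw => hm w fun i => ?_⟩
  refine hQm _ fun O hO => ?_
  have h := om_mem O Δ (B O) (hB1 O hO) _ (hw O hO) i
  rw [mul_assoc]
  exact h

end Pool.Agent.Lib.MP_16285c_agX.Cn
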