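import Pool.Agent.Lib.MP_16285c_agX.Can.Spec

/-!
# Traces of functions with bounded poles are polynomials
-/

set_option autoImplicit false

namespace Pool.Agent.Lib.MP_16285c_agX.Cn

open Pool.Agent.Lib.MP_16285c_agS.Cn (Plc cm S_Dvr S_Fib S_Fbc S_Loc S_Int)

namespace QfM

open MvPolynomial

variable {k E : Type} [Field k] [Field E] [Algebra k E] {d : ℕ}

theorem quot (x : Fin (d + 2) → E) (f : E) (hf : f ∈ IntermediateField.adjoin k (Set.range x)) :
    ∃ a b : Po d k, aeval x b ≠ 0 ∧ f * aeval x b = aeval x a := by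
  rw [IntermediateField.mem_adjoin_range_iff] at hf
  obtain ⟨r, s, rfl⟩ := hf
  by_cases hs : aeval x s = 0
  · exact ⟨0, 1, by simp, by simp [hs]⟩
  · exact ⟨r, s, hs, div_mul_cancel₀ _ hs⟩

/-- Uniformizers have the largest value less than one. -/
theorem val_lt {O : ValuationSubring E} (hd : IsDiscreteValuationRing O) {x : E}
    (h : O.valuation x < 1) (ϖ : O) (hϖ : Irreducible ϖ) :
    O.valuation x ≤ O.valuation (ϖ : E) := by
  have hx : x ∈ O := (O.valuation_le_one_iff x).1 h.le
  have h1 : (⟨x, hx⟩ : O) ∈ IsLocalRing.maximalIdeal O := (O.valuation_lt_one_iff _).2 h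
  rw [hϖ.maximalIdeal_eq, Ideal.mem_span_singleton'] at h1
  obtain ⟨a, ha⟩ := h1
  rw [O.valuation_le_iff]
  exact ⟨a, congrArg Subtype.val ha⟩

theorem val_unif {O : ValuationSubring E} (hd : IsDiscreteValuationRing O) (ϖ : O)
    (hϖ : Irreducible ϖ) : O.valuation (ϖ : E) < 1 := by
  rw [← O.valuation_lt_one_iff, hϖ.maximalIdeal_eq]
  exact Ideal.mem_span_singleton_self ϖ

theorem pw {O : ValuationSubring E} (hd : IsDiscreteValuationRing O) {r A : E}
    (hr : O.valuation r < 1) (hA : A ≠ 0) : ∃ n : ℕ, O.valuation r ^ n ≤ O.valuation A := by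
  obtain ⟨ϖ, hϖ⟩ := IsDiscreteValuationRing.exists_irreducible O
  by_cases hAO : A ∈ O
  · have h0 : (⟨A, hAO⟩ : O) ≠ 0 := fun h => hA (congrArg Subtype.val h)
    obtain ⟨n, hn⟩ := IsDiscreteValuationRing.associated_pow_irreducible h0 hϖ
    obtain ⟨u, hu⟩ := hn
    have h1 : O.valuation A = O.valuation (ϖ : E) ^ n := by
      rw [← map_pow]
      have h2 : A * ((u : O) : E) = (ϖ : E) ^ n := by
        have := congrArg Subtype.val hu
        simpa using this
      rw [← h2, map_mul, O.valuation_unit, mul_one]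
    refine ⟨n, ?_⟩
    rw [h1]
    exact pow_le_pow_left' (val_lt hd hr ϖ hϖ) n
  · refine ⟨0, ?_⟩
    rw [← O.valuation_le_one_iff] at hAO
    rw [pow_zero]
    exact (not_le.1 hAO).le

theorem aeval_mem {O : ValuationSubring E} (hk : ∀ c : k, algebraMap k E c ∈ O) {x : Fin (d + 2) → E}
    (hx : ∀ i, x i ∈ O) (G : Po d k) : aeval x G ∈ O := by
  induction G using MvPolynomial.induction_on with
  | C a =>
    rw [aeval_C]
    exact hk a
  | add p q hp hq =>
    rw [map_add]
    exact add_mem hp hq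
  | mul_X p i hp =>
    rw [map_mul, aeval_X]
    exact mul_mem hp (hx i)

/-- Some polynomial does not vanish but its value is in the maximal ideal. -/
theorem exR {x : Fin (d + 2) → E} (hx : Tb k x) {O : ValuationSubring E} (hO : Plc k O)
    (hxO : ∀ i, x i ∈ O) : ∃ R : Po d k, R ≠ 0 ∧ O.valuation (aeval x R) < 1 := by
  by_contra hcon
  push Not at hcon
  have hd := hO.dvr
  have hfin := hx.fin
  obtain ⟨ϖ, hϖ⟩ := IsDiscreteValuationRing.exists_irreducible O
  have hϖ1 := val_unif hd ϖ hϖ
  have hϖ0 : (ϖ : E) ≠ 0 := fun h => hϖ.ne_zero (Subtype.ext h)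
  have hG : ∀ G : Po d k, G ≠ 0 → O.valuation (aeval x G) = 1 := fun G hG0 =>
    le_antisymm ((O.valuation_le_one_iff _).2 (aeval_mem hO.con hxO G)) (hcon G hG0)
  have hF : ∀ f : IntermediateField.adjoin k (Set.range x), f ≠ 0 → O.valuation (f : E) = 1 := by
    intro f hf
    obtain ⟨a, b, hb, hab⟩ := quot x (f : E) f.2
    have hb0 : b ≠ 0 := by
      rintro rfl
      exact hb (map_zero _)
    have ha0 : a ≠ 0 := by
      rintro rfl
      rw [map_zero] at hab
      rcases mul_eq_zero.1 hab with h | h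
      · exact hf (Subtype.ext h)
      · exact hb h
    have h1 := congrArg O.valuation hab
    rw [map_mul, hG b hb0, hG a ha0, mul_one] at h1
    exact h1
  have hint : IsIntegral (IntermediateField.adjoin k (Set.range x)) (ϖ : E) :=
    Algebra.IsIntegral.isIntegral _
  have h0 := minpoly.coeff_zero_ne_zero hint hϖ0
  set μ := minpoly (IntermediateField.adjoin k (Set.range x)) (ϖ : E) with hμ
  have h1 : Polynomial.aeval (ϖ : E) μ = 0 := minpoly.aeval _ _
  rw [← Polynomial.divX_mul_X_add μ, map_add, map_mul, Polynomial.aeval_X,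
    Polynomial.aeval_C] at h1
  have h2 : Polynomial.aeval (ϖ : E) μ.divX ∈ O := by
    rw [Polynomial.aeval_eq_sum_range]
    refine sum_mem fun i _ => ?_
    rw [Algebra.smul_def]
    refine mul_mem ?_ (pow_mem ϖ.2 i)
    by_cases hc : μ.divX.coeff i = 0
    · rw [hc, map_zero]
      exact O.zero_mem
    · rw [← O.valuation_le_one_iff]
      exact (hF _ hc).le
  have h3 : O.valuation (algebraMap (IntermediateField.adjoin k (Set.range x)) E (μ.coeff 0)) < 1 := by
    have h4 : algebraMap (IntermediateField.adjoin k (Set.range x)) E (μ.coeff 0) =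
        -(Polynomial.aeval (ϖ : E) μ.divX * (ϖ : E)) := by
      linear_combination h1
    rw [h4, Valuation.map_neg, map_mul]
    refine lt_of_le_of_lt (mul_le_of_le_one_left' ?_) hϖ1
    exact (O.valuation_le_one_iff _).2 h2
  exact absurd (hF _ h0) h3.ne

/-- The common denominator. -/
theorem exc {x : Fin (d + 2) → E} (hx : Tb k x) (A : ValuationSubring E → E) (hA : ∀ O, A O ≠ 0)
    (hfin : {O | Dv k x O ∧ A O ≠ 1}.Finite) :
    ∃ c : Po d k, c ≠ 0 ∧ ∀ O, Dv k x O → (∀ i, x i ∈ O) → aeval x c / A O ∈ O := by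
  classical
  have hex : ∀ O : ValuationSubring E, ∃ c : Po d k, c ≠ 0 ∧
      (Dv k x O → (∀ i, x i ∈ O) → O.valuation (aeval x c) ≤ O.valuation (A O)) := by
    intro O
    by_cases hO : Dv k x O ∧ ∀ i, x i ∈ O
    · obtain ⟨R, hR, hv⟩ := exR hx hO.1.toPlc hO.2
      obtain ⟨n, hn⟩ := pw hO.1.dvr hv (hA O)
      refine ⟨R ^ n, pow_ne_zero n hR, fun _ _ => ?_⟩
      rw [map_pow, map_pow]
      exact hn
    · exact ⟨1, one_ne_zero, fun h1 h2 => absurd ⟨h1, h2⟩ hO⟩
  choose c hc0 hc using hex
  refine ⟨∏ O ∈ hfin.toFinset, c O, Finset.prod_ne_zero_iff.2 fun O _ => hc0 O, ?_⟩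
  intro O hO hxO
  rw [← O.valuation_le_one_iff, map_div₀]
  by_cases h1 : A O = 1
  · rw [h1, map_one, div_one, O.valuation_le_one_iff]
    exact aeval_mem hO.con hxO _
  · refine div_le_one_of_le₀ ?_ zero_le
    have h2 : O ∈ hfin.toFinset := by
      rw [Set.Finite.mem_toFinset]
      exact ⟨hO, h1⟩
    rw [← Finset.mul_prod_erase _ _ h2, map_mul, map_mul]
    refine (mul_le_of_le_one_right' ?_).trans (hc O hO hxO)
    exact (O.valuation_le_one_iff _).2 (aeval_mem hO.con hxO _)

/-- Some variable occurs in an irreducible polynomial. -/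
theorem ex_var {R : Po d k} (hR : Irreducible R) : ∃ i, degreeOf i R ≠ 0 := by
  by_contra hcon
  push Not at hcon
  have h3 : R.vars = ∅ := by
    rw [Finset.eq_empty_iff_forall_notMem]
    intro j hj
    rw [mem_vars_iff_mem_support] at hj
    obtain ⟨e, he, hj'⟩ := hj
    have h4 := monomial_le_degreeOf j he
    rw [hcon j] at h4
    rw [Finsupp.mem_support_iff] at hj'
    exact hj' (Nat.le_zero.1 h4)
  obtain ⟨a, ha⟩ : ∃ a, R = C a := ⟨_, vars_eq_empty_iff_eq_C.1 h3⟩
  have ha0 : a ≠ 0 := by
    rintro rfl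
    rw [map_zero] at ha
    exact hR.ne_zero ha
  apply hR.not_isUnit
  rw [ha]
  exact (isUnit_iff_ne_zero.2 ha0).map C

/-- A polynomial in which the variable `i` occurs does not divide a nonzero polynomial in the
other variables. -/
theorem not_dvd {R : Po d k} {i : Fin (d + 2)} (hi : degreeOf i R ≠ 0)
    {G : MvPolynomial (Fin (d + 1)) k} (hG : G ≠ 0) (h : R ∣ rename i.succAbove G) : False := by
  have hG' : rename i.succAbove G ≠ 0 := by
    intro h0
    apply hG
    have hinj := rename_injective (R := k) _ (Fin.succAbove_right_injective (p := i))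
    apply hinj
    rw [h0, map_zero]
  have hdeg : degreeOf i (rename i.succAbove G) = 0 := by
    by_contra hne
    obtain ⟨j, -, hj⟩ := mem_vars_rename i.succAbove G (mem_vars_iff_degreeOf_ne_zero.2 hne)
    exact Fin.succAbove_ne i j hj
  obtain ⟨S, hS⟩ := h
  have hR0 : R ≠ 0 := by
    rintro rfl
    rw [zero_mul] at hS
    exact hG' hS
  have hS0 : S ≠ 0 := by
    rintro rfl
    rw [mul_zero] at hS
    exact hG' hS
  rw [hS, degreeOf_mul_eq hR0 hS0] at hdeg
  omega

/-- The coordinates as elements of the field they generate. -/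
noncomputable def xF (x : Fin (d + 2) → E) (i : Fin (d + 2)) : IntermediateField.adjoin k (Set.range x) :=
  ⟨x i, IntermediateField.subset_adjoin _ _ ⟨i, rfl⟩⟩

theorem coe_xF (x : Fin (d + 2) → E) (G : Po d k) :
    ((aeval (xF (k := k) x) G : IntermediateField.adjoin k (Set.range x)) : E) = aeval x G := by
  have h := comp_aeval_apply (xF (k := k) x) (IntermediateField.adjoin k (Set.range x)).val G
  exact h

theorem ind_xF {x : Fin (d + 2) → E} (hx : AlgebraicIndependent k x) :
    AlgebraicIndependent k (xF (k := k) x) := by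
  rw [algebraicIndependent_iff] at hx ⊢
  intro G hG
  refine hx G ?_
  rw [← coe_xF, hG]
  rfl

theorem quot_xF (x : Fin (d + 2) → E) (f : IntermediateField.adjoin k (Set.range x)) :
    ∃ a b : Po d k, b ≠ 0 ∧ f * aeval (xF (k := k) x) b = aeval (xF (k := k) x) a := by
  obtain ⟨a, b, hb, hab⟩ := quot x (f : E) f.2
  refine ⟨a, b, ?_, ?_⟩
  · rintro rfl
    exact hb (map_zero _)
  · apply Subtype.ext
    rw [← coe_xF x b, ← coe_xF x a] at hab
    exact hab

/-- The valuation rings over the ring of an irreducible polynomial. -/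
theorem dv_of [CharZero k] (hDvc : S_Dvc) {x : Fin (d + 2) → E} (hx : Tb k x) {R : Po d k}
    (hR : Irreducible R) (V : ValuationSubring (IntermediateField.adjoin k (Set.range x)))
    (hV : ∀ f, f ∈ V ↔ ∃ a b : Po d k, ¬ R ∣ b ∧
      f * aeval (xF (k := k) x) b = aeval (xF (k := k) x) a)
    (O : ValuationSubring E) (hd : IsDiscreteValuationRing O)
    (hO : ∀ f : IntermediateField.adjoin k (Set.range x),
      algebraMap (IntermediateField.adjoin k (Set.range x)) E f ∈ O ↔ f ∈ V) :
    Dv k x O ∧ ∀ i, x i ∈ O := by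
  have hR1 : ¬ R ∣ 1 := fun h => hR.not_isUnit (isUnit_of_dvd_one h)
  have hxO : ∀ i, x i ∈ O := by
    intro i
    have h1 : xF (k := k) x i ∈ V := by
      rw [hV]
      exact ⟨X i, 1, hR1, by rw [map_one, mul_one, aeval_X]⟩
    exact (hO _).2 h1
  have hcon : ∀ c : k, algebraMap k E c ∈ O := by
    intro c
    have h1 : algebraMap k (IntermediateField.adjoin k (Set.range x)) c ∈ V := by
      rw [hV]
      exact ⟨C c, 1, hR1, by rw [map_one, mul_one, aeval_C]⟩
    exact (hO _).2 h1
  obtain ⟨i, hi⟩ := ex_var hR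
  refine ⟨(hDvc d k E x O).2.1 ⟨hd, hcon⟩ hxO
    ⟨i.succAbove, Fin.succAbove_right_injective, fun G hG0 hG => ?_⟩, hxO⟩
  refine not_dvd hi hG0 ?_
  by_contra hdv
  have h1 : (aeval (xF (k := k) x) (rename i.succAbove G))⁻¹ ∈ V := by
    rw [hV]
    refine ⟨1, _, hdv, ?_⟩
    rw [map_one]
    refine inv_mul_cancel₀ fun h0 => hdv ?_
    have h2 := (algebraicIndependent_iff.1 (ind_xF hx.ind)) _ h0
    rw [h2]
    exact dvd_zero R
  have h2 := (hO _).2 h1
  rw [map_inv₀] at h2
  have h3 : algebraMap (IntermediateField.adjoin k (Set.range x)) E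
      (aeval (xF (k := k) x) (rename i.succAbove G)) =
      aeval (fun j => x (i.succAbove j)) G := by
    have h4 := coe_xF x (rename i.succAbove G)
    rw [aeval_rename i.succAbove x G] at h4
    exact h4
  rw [h3, ← O.valuation_le_one_iff, map_inv₀] at h2
  have h4 : O.valuation (aeval (fun j => x (i.succAbove j)) G) ≠ 0 := by
    rw [Valuation.ne_zero_iff, ← h3]
    intro h0
    have h5 := (map_eq_zero _).1 h0
    have h6 := (algebraicIndependent_iff.1 (ind_xF hx.ind)) _ h5
    apply hdv
    rw [h6]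
    exact dvd_zero R
  exact absurd h2 (not_le.2 ((one_lt_inv₀ (zero_lt_iff.2 h4)).2 hG))

/-- An element of all the valuation rings is a polynomial. -/
theorem poly_of {F : Type} [Field F] [Algebra k F] (y : Fin (d + 2) → F) (hy : AlgebraicIndependent k y)
    (tr : F) (hq : ∃ a b : Po d k, b ≠ 0 ∧ tr * aeval y b = aeval y a)
    (h : ∀ R : Po d k, Irreducible R → ∃ a b : Po d k, ¬ R ∣ b ∧ tr * aeval y b = aeval y a) :
    ∃ p : Po d k, tr = aeval y p := by
  have hinj : Function.Injective (aeval y : Po d k →ₐ[k] F) := hy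
  obtain ⟨a, b, hb, hab⟩ := hq
  obtain ⟨a', b', c', hrel, ha', hb'⟩ := UniqueFactorizationMonoid.exists_reduced_factors' a b hb
  have hc0 : c' ≠ 0 := by
    rintro rfl
    rw [zero_mul] at hb'
    exact hb hb'.symm
  have hb0 : b' ≠ 0 := by
    rintro rfl
    rw [mul_zero] at hb'
    exact hb hb'.symm
  have hab' : tr * aeval y b' = aeval y a' := by
    have h1 : aeval y c' ≠ 0 := fun h0 => hc0 (hinj (by rw [h0, map_zero]))
    apply mul_left_cancel₀ h1
    rw [← map_mul, ha', ← hab, ← hb', map_mul]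
    ring
  have hunit : IsUnit b' := by
    by_contra hnu
    obtain ⟨R, hR, hRb⟩ := WfDvdMonoid.exists_irreducible_factor hnu hb0
    obtain ⟨a₂, b₂, hRb₂, h₂⟩ := h R hR
    have h3 : a' * b₂ = a₂ * b' := by
      apply hinj
      rw [map_mul, map_mul, ← hab', ← h₂]
      ring
    have h4 : R ∣ a' * b₂ := by
      rw [h3]
      exact Dvd.dvd.mul_left hRb a₂
    rcases (UniqueFactorizationMonoid.irreducible_iff_prime.1 hR).dvd_or_dvd h4 with h5 | h5
    · exact hR.not_isUnit (hrel h5 hRb)
    · exact hRb₂ h5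
  obtain ⟨u, hu⟩ := hunit
  refine ⟨a' * ((u⁻¹ : (Po d k)ˣ) : Po d k), ?_⟩
  rw [map_mul, ← hab', ← hu, mul_assoc, ← map_mul, Units.mul_inv, map_one, mul_one]

end QfM

open QfM

/-- Traces of functions with bounded poles are polynomials. -/
theorem tQf (hVR : S_VR) (hInt : S_Int) (hDvc : S_Dvc) : S_Qf := by
  intro d k E _ _ _ _ x hx A hA hfin
  obtain ⟨c, hc0, hc⟩ := exc hx A hA hfin
  refine ⟨c, hc0, fun b hb e he => ?_⟩
  have hFD : Module.Finite (IntermediateField.adjoin k (Set.range x)) E := hx.fin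
  have hch : CharZero (IntermediateField.adjoin k (Set.range x)) :=
    charZero_of_injective_algebraMap
      (algebraMap k (IntermediateField.adjoin k (Set.range x))).injective
  obtain ⟨hV1, -⟩ := hVR (d + 1) k (IntermediateField.adjoin k (Set.range x)) (xF x) (ind_xF hx.ind)
    (quot_xF x)
  have key : ∀ R : Po d k, Irreducible R → ∃ a' b' : Po d k, ¬ R ∣ b' ∧
      Algebra.trace (IntermediateField.adjoin k (Set.range x)) E
        (MvPolynomial.aeval x c * b * e) * MvPolynomial.aeval (xF (k := k) x) b' =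
      MvPolynomial.aeval (xF (k := k) x) a' := by
    intro R hR
    obtain ⟨V, hVd, hVm⟩ := hV1 R hR
    rw [← hVm]
    have hside : ∀ O : ValuationSubring E, IsDiscreteValuationRing O →
        (∀ f : IntermediateField.adjoin k (Set.range x),
          algebraMap (IntermediateField.adjoin k (Set.range x)) E f ∈ O ↔ f ∈ V) →
        MvPolynomial.aeval x c * b * e ∈ O := by
      intro O hd hO
      obtain ⟨hDv, hxO⟩ := dv_of hDvc hx hR V hVm O hd hO
      have h1 := mul_mem (mul_mem (hc O hDv hxO) (hb O hDv)) (he O hDv hxO)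
      have h2 : MvPolynomial.aeval x c / A O * (A O * b) * e = MvPolynomial.aeval x c * b * e := by
        have := hA O
        field_simp
      rw [← h2]
      exact h1
    obtain ⟨G, hGm, hGc, hG0⟩ := hInt (IntermediateField.adjoin k (Set.range x)) E V hVd
      (MvPolynomial.aeval x c * b * e) hside
    · let _ : Algebra V E := ((algebraMap (IntermediateField.adjoin k (Set.range x)) E).comp
        (algebraMap V (IntermediateField.adjoin k (Set.range x)))).toAlgebra
      have : IsScalarTower V (IntermediateField.adjoin k (Set.range x)) E :=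
        IsScalarTower.of_algebraMap_eq fun _ => rfl
      have hint : IsIntegral V (MvPolynomial.aeval x c * b * e) := by
        have hl : G ∈ Polynomial.lifts
            (algebraMap V (IntermediateField.adjoin k (Set.range x))) := by
          rw [Polynomial.lifts_iff_coeff_lifts]
          exact fun n => ⟨⟨_, hGc n⟩, rfl⟩
        obtain ⟨G', hG', -, hG'm⟩ := Polynomial.lifts_and_natDegree_eq_and_monic hl hGm
        refine ⟨G', hG'm, ?_⟩
        rw [IsScalarTower.algebraMap_eq V (IntermediateField.adjoin k (Set.range x)) E,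
          ← Polynomial.eval₂_map, hG']
        exact hG0
      have h1 := Algebra.isIntegral_trace (L := IntermediateField.adjoin k (Set.range x)) hint
      obtain ⟨y, hy⟩ := IsIntegrallyClosed.isIntegral_iff.1 h1
      rw [← hy]
      exact y.2
  obtain ⟨p, hp⟩ := poly_of (xF x) (ind_xF hx.ind) _ (quot_xF x _) key
  refine ⟨p, ?_⟩
  rw [hp]
  exact coe_xF x p

end Pool.Agent.Lib.MP_16285c_agX.Cn

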