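import Pool.Agent.Lib.MP_16285c_agX.Can.Spec
import Mathlib.RingTheory.Trace.Basic
import Mathlib.RingTheory.Polynomial.Subring
import Mathlib.RingTheory.Polynomial.Basic
import Mathlib.RingTheory.DiscreteValuationRing.Basic
import Mathlib.RingTheory.Valuation.ValuationSubring
import Mathlib.FieldTheory.IntermediateField.Adjoin.Basic

/-!
# Degrees of the traces are bounded (Qi)
-/

set_option autoImplicit false

namespace Pool.Agent.Lib.MP_16285c_agX.Cn

open MvPolynomial
open Pool.Agent.Lib.MP_16285c_agS.Cn (Plc cm S_Dvr S_Fib S_Fbc S_Loc S_Int)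

namespace QiM

/-- Elements of positive value have large powers which cancel a given pole. -/
theorem pow_mul_mem {E : Type} [Field E] (O : ValuationSubring E) (hO : IsDiscreteValuationRing O) (y : E)
    (hy : O.valuation y < 1) (w : E) : ∃ n : ℕ, y ^ n * w ∈ O := by
  by_cases hw : w ∈ O
  · exact ⟨0, by simpa using hw⟩
  have hw' : w⁻¹ ∈ O := (O.mem_or_inv_mem w).resolve_left hw
  have hw0 : w ≠ 0 := fun h => hw (h ▸ O.zero_mem)
  have hyO : y ∈ O := (O.valuation_le_one_iff y).mp hy.le
  obtain ⟨ϖ, hϖ⟩ := IsDiscreteValuationRing.exists_irreducible O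
  have hu0 : (⟨w⁻¹, hw'⟩ : O) ≠ 0 := by
    intro h
    exact inv_ne_zero hw0 (congrArg Subtype.val h)
  obtain ⟨n, hn⟩ := IsDiscreteValuationRing.associated_pow_irreducible hu0 hϖ
  have hy1 : (⟨y, hyO⟩ : O) ∈ IsLocalRing.maximalIdeal O :=
    (O.valuation_lt_one_iff ⟨y, hyO⟩).mpr hy
  rw [hϖ.maximalIdeal_eq, Ideal.mem_span_singleton] at hy1
  have hd : (⟨w⁻¹, hw'⟩ : O) ∣ (⟨y, hyO⟩ : O) ^ n := hn.dvd.trans (pow_dvd_pow_of_dvd hy1 n)
  obtain ⟨r, hr⟩ := hd
  refine ⟨n, ?_⟩
  have hr' : y ^ n = w⁻¹ * (r : E) := congrArg Subtype.val hr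
  have hr2 : y ^ n * w = (r : E) := by
    rw [hr', mul_comm w⁻¹, mul_assoc, inv_mul_cancel₀ hw0, mul_one]
  rw [hr2]
  exact r.2

/-- Homogenization. -/
noncomputable def hom {k : Type} [Field k] {n : ℕ} (G : MvPolynomial (Fin n) k) :
    MvPolynomial (Fin (n + 1)) k :=
  ∑ α ∈ G.support, monomial (Finsupp.cons (G.totalDegree - ∑ i, α i) α) (coeff α G)

theorem sum_le {k : Type} [Field k] {n : ℕ} (G : MvPolynomial (Fin n) k) {α : Fin n →₀ ℕ}
    (hα : α ∈ G.support) : ∑ i, α i ≤ G.totalDegree := by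
  have h := le_totalDegree hα
  rwa [Finsupp.sum_fintype _ _ fun _ => rfl] at h

theorem hom_aeval {k F : Type} [Field k] [Field F] [Algebra k F] {n : ℕ} (x : Fin (n + 1) → F)
    (h0 : x 0 ≠ 0) (G : MvPolynomial (Fin n) k) :
    aeval x (hom G) = aeval (fun j : Fin n => x j.succ / x 0) G * x 0 ^ G.totalDegree := by
  rw [hom, map_sum, aeval_def, eval₂_eq', Finset.sum_mul]
  refine Finset.sum_congr rfl fun α hα => ?_
  have hle := sum_le G hα
  rw [aeval_monomial, Finsupp.prod_fintype _ _ fun _ => pow_zero _, Fin.prod_univ_succ,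
    Finsupp.cons_zero]
  simp only [Finsupp.cons_succ, div_pow]
  rw [Finset.prod_div_distrib, Finset.prod_pow_eq_pow_sum]
  have h : x 0 ^ G.totalDegree = x 0 ^ (∑ i, α i) * x 0 ^ (G.totalDegree - ∑ i, α i) := by
    rw [← pow_add, Nat.add_sub_cancel' hle]
  have h2 : x 0 ^ (∑ i, α i) ≠ 0 := pow_ne_zero _ h0
  rw [h]
  field_simp

theorem cons_inj {n : ℕ} {a b : ℕ} {α β : Fin n →₀ ℕ}
    (h : (Finsupp.cons a α : Fin (n + 1) →₀ ℕ) = Finsupp.cons b β) : α = β := by
  rw [← Finsupp.tail_cons a α, h, Finsupp.tail_cons]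

theorem hom_coeff {k : Type} [Field k] {n : ℕ} (G : MvPolynomial (Fin n) k) {α : Fin n →₀ ℕ}
    (hα : α ∈ G.support) :
    coeff (Finsupp.cons (G.totalDegree - ∑ i, α i) α) (hom G) = coeff α G := by
  classical
  rw [hom, coeff_sum, Finset.sum_eq_single α]
  · rw [coeff_monomial, if_pos rfl]
  · intro β _ hβ
    rw [coeff_monomial, if_neg]
    intro h
    exact hβ (cons_inj h)
  · intro h
    exact absurd hα h

theorem hom_supp {k : Type} [Field k] {n : ℕ} (G : MvPolynomial (Fin n) k) {α : Fin n →₀ ℕ}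
    (hα : α ∈ G.support) :
    Finsupp.cons (G.totalDegree - ∑ i, α i) α ∈ (hom G).support := by
  rw [mem_support_iff, hom_coeff G hα]
  exact mem_support_iff.1 hα

theorem hom_ne {k : Type} [Field k] {n : ℕ} (G : MvPolynomial (Fin n) k) (hG : G ≠ 0) :
    hom G ≠ 0 := by
  obtain ⟨α, hα⟩ := support_nonempty.2 hG
  exact support_nonempty.1 ⟨_, hom_supp G hα⟩

theorem hom_deg {k : Type} [Field k] {n : ℕ} (G : MvPolynomial (Fin n) k) (hG : G ≠ 0) :
    G.totalDegree ≤ (hom G).totalDegree := by
  obtain ⟨α, hα⟩ := support_nonempty.2 hG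
  have h1 := le_totalDegree (hom_supp G hα)
  rw [Finsupp.sum_fintype _ _ fun _ => rfl, Fin.sum_univ_succ, Finsupp.cons_zero] at h1
  simp only [Finsupp.cons_succ] at h1
  have hle := sum_le G hα
  omega

/-- Traces of integral elements are in the valuation ring. -/
theorem trace_mem {F E : Type} [Field F] [Field E] [Algebra F E] [FiniteDimensional F E]
    (V : ValuationSubring F) (z : E)
    (h : ∃ G : Polynomial F, G.Monic ∧ (∀ i, G.coeff i ∈ V) ∧ Polynomial.aeval z G = 0) :
    Algebra.trace F E z ∈ V := by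
  obtain ⟨G, hG1, hG2, hG3⟩ := h
  letI : Algebra V E := ((algebraMap F E).comp (algebraMap V F)).toAlgebra
  haveI : IsScalarTower V F E := IsScalarTower.of_algebraMap_eq fun _ => rfl
  have hint : IsIntegral V z := by
    have hc : (↑G.coeffs : Set F) ⊆ V.toSubring := by
      intro c hc
      obtain ⟨i, _, hi⟩ := Polynomial.mem_coeffs_iff.mp (Finset.mem_coe.mp hc)
      rw [hi]
      exact hG2 i
    refine ⟨G.toSubring V.toSubring hc, ?_, ?_⟩
    · exact (Polynomial.monic_toSubring G V.toSubring hc).mpr hG1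
    · have h1 : (G.toSubring V.toSubring hc).map (algebraMap V F) = G :=
        Polynomial.map_toSubring G V.toSubring hc
      have h2 : Polynomial.eval₂ (algebraMap V E) z (G.toSubring V.toSubring hc) =
          Polynomial.aeval z G := by
        rw [Polynomial.aeval_def]
        conv_rhs => rw [← h1, Polynomial.eval₂_map]
        rfl
      exact h2.trans hG3
  have h3 : IsIntegral V (Algebra.trace F E z) := Algebra.isIntegral_trace hint
  obtain ⟨y, hy⟩ := IsIntegrallyClosed.isIntegral_iff.mp h3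
  rw [← hy]
  exact y.2

theorem key (hVR : S_VR) (hInt : S_Int) (hDvc : S_Dvc) (hFib : S_Fib) (k F E : Type) [Field k]
    [CharZero k] [Field F] [Field E] [Algebra k F] [Algebra F E] [Algebra k E] [IsScalarTower k F E]
    [FiniteDimensional F E] {d : ℕ} (x : Fin (d + 2) → F) (hind : AlgebraicIndependent k x)
    (hgen : ∀ f : F, ∃ a b : Po d k, b ≠ 0 ∧ f * aeval x b = aeval x a)
    (A : ValuationSubring E → E) (hA : ∀ O, A O ≠ 0) (e : E) :
    ∃ n : ℕ, ∀ b : E, (∀ O, Dv k (fun i => algebraMap F E (x i)) O → A O * b ∈ O) →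
      ∀ a c : Po d k, c ≠ 0 → Algebra.trace F E (b * e) * aeval x c = aeval x a →
        a.totalDegree ≤ c.totalDegree + n := by
  classical
  haveI : CharZero F := charZero_of_injective_algebraMap (algebraMap k F).injective
  obtain ⟨-, V, hV1, hV2⟩ := hVR (d + 1) k F x hind hgen
  have hinj : Function.Injective (aeval x : Po d k → F) := hind
  have hne : ∀ G : Po d k, G ≠ 0 → aeval x G ≠ 0 := by
    intro G hG h
    exact hG (hinj (h.trans (map_zero _).symm))
  have hx0 : x 0 ≠ 0 := by
    have h := hne (X 0) (X_ne_zero 0)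
    rwa [aeval_X] at h
  -- the point at infinity
  have h1 : ∀ c : k, algebraMap k F c ∈ V := by
    intro c
    rw [hV2]
    exact ⟨C c, 1, one_ne_zero, by simp, by rw [map_one, mul_one, aeval_C]⟩
  have h2 : x 0 ∉ V := by
    intro h
    obtain ⟨a, b, hb, hab, he⟩ := (hV2 _).mp h
    have h3 : X 0 * b = a := by
      apply hinj
      change aeval x (X 0 * b) = aeval x a
      rw [map_mul, aeval_X, he]
    have h4 : a.totalDegree = 1 + b.totalDegree := by
      rw [← h3, totalDegree_mul_of_isDomain (X_ne_zero 0) hb, totalDegree_X]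
    omega
  have h3 : ∀ i, x i / x 0 ∈ V := by
    intro i
    rw [hV2]
    exact ⟨X i, X 0, X_ne_zero 0, by rw [totalDegree_X, totalDegree_X],
      by rw [aeval_X, aeval_X, div_mul_cancel₀ _ hx0]⟩
  have h4 : (x 0)⁻¹ ∈ V := (V.mem_or_inv_mem (x 0)).resolve_left h2
  have h5 : ∀ G : MvPolynomial (Fin (d + 1)) k, G ≠ 0 →
      aeval (fun j : Fin (d + 1) => x j.succ / x 0) G ≠ 0 ∧
      (aeval (fun j : Fin (d + 1) => x j.succ / x 0) G)⁻¹ ∈ V := by
    intro G hG
    have h6 := hom_aeval x hx0 G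
    have h7 := hne _ (hom_ne G hG)
    have h8 : aeval (fun j : Fin (d + 1) => x j.succ / x 0) G ≠ 0 := by
      intro h
      rw [h, zero_mul] at h6
      exact h7 h6
    refine ⟨h8, ?_⟩
    rw [hV2]
    refine ⟨X 0 ^ G.totalDegree, hom G, hom_ne G hG, ?_, ?_⟩
    · rw [totalDegree_X_pow]
      exact hom_deg G hG
    · rw [h6, map_pow, aeval_X, inv_mul_cancel_left₀ h8]
  -- the discrete valuation rings over infinity
  have hS := hFib F E (V : Set F)
  have hDv : ∀ O : ValuationSubring E, IsDiscreteValuationRing O →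
      (∀ f : F, algebraMap F E f ∈ O ↔ f ∈ V) → Dv k (fun i => algebraMap F E (x i)) O ∧
        O.valuation ((algebraMap F E (x 0))⁻¹) < 1 := by
    intro O hO1 hO2
    have hy : 1 < O.valuation (algebraMap F E (x 0)) := by
      rw [← not_le, O.valuation_le_one_iff, hO2]
      exact h2
    have hpl : Plc k O := ⟨hO1, fun c => by
      rw [IsScalarTower.algebraMap_apply k F E, hO2]
      exact h1 c⟩
    refine ⟨?_, ?_⟩
    · refine (hDvc d k E (fun i => algebraMap F E (x i)) O).2.2.2.1 hpl 0 hy ?_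
        ⟨Fin.succ, Fin.succ_injective _, ?_⟩
      · intro i
        have h := (hO2 (x i / x 0)).mpr (h3 i)
        rwa [map_div₀] at h
      · intro G hG hG2
        have h6 : aeval (fun j : Fin (d + 1) => algebraMap F E (x j.succ) / algebraMap F E (x 0)) G =
            algebraMap F E (aeval (fun j : Fin (d + 1) => x j.succ / x 0) G) := by
          rw [← aeval_algebraMap_apply]
          have e1 : (fun j : Fin (d + 1) => algebraMap F E (x j.succ) / algebraMap F E (x 0)) =
              algebraMap F E ∘ fun j : Fin (d + 1) => x j.succ / x 0 := by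
            funext j
            exact (map_div₀ (algebraMap F E) _ _).symm
          rw [e1]
        have h7 := h5 G hG
        have h8 := (hO2 _).mpr h7.2
        rw [map_inv₀, ← O.valuation_le_one_iff, map_inv₀] at h8
        change O.valuation (aeval (fun j : Fin (d + 1) =>
          algebraMap F E (x j.succ) / algebraMap F E (x 0)) G) < 1 at hG2
        rw [h6] at hG2
        have h9 : O.valuation (algebraMap F E
            (aeval (fun j : Fin (d + 1) => x j.succ / x 0) G)) ≠ 0 := by
          rw [Ne, map_eq_zero, map_eq_zero]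
          exact h7.1
        have h10 := (inv_le_one₀ (zero_lt_iff.mpr h9)).mp h8
        exact absurd hG2 (not_lt.mpr h10)
    · rw [map_inv₀]
      exact inv_lt_one_of_one_lt₀ hy
  -- the bound
  have hn : ∀ O : ValuationSubring E, ∃ n : ℕ, IsDiscreteValuationRing O →
      (∀ f : F, algebraMap F E f ∈ O ↔ f ∈ V) →
        ((algebraMap F E (x 0))⁻¹) ^ n * (e / A O) ∈ O := by
    intro O
    by_cases hO : IsDiscreteValuationRing O ∧ ∀ f : F, algebraMap F E f ∈ O ↔ f ∈ V
    · obtain ⟨n, hn⟩ := pow_mul_mem O hO.1 _ (hDv O hO.1 hO.2).2 (e / A O)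
      exact ⟨n, fun _ _ => hn⟩
    · exact ⟨0, fun h h' => absurd ⟨h, h'⟩ hO⟩
  choose N hN using hn
  refine ⟨hS.toFinset.sup N, ?_⟩
  set n := hS.toFinset.sup N with hndef
  intro b hb a c hc hac
  have hmem : ∀ O : ValuationSubring E, IsDiscreteValuationRing O →
      (∀ f : F, algebraMap F E f ∈ O ↔ f ∈ V) →
        ((algebraMap F E (x 0))⁻¹) ^ n * (b * e) ∈ O := by
    intro O hO1 hO2
    have hD := hDv O hO1 hO2
    have hle : N O ≤ n := by
      apply Finset.le_sup (f := N)
      rw [Set.Finite.mem_toFinset]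
      exact ⟨hO1, hO2⟩
    have e1 : ((algebraMap F E (x 0))⁻¹) ^ n * (b * e) =
        ((algebraMap F E (x 0))⁻¹) ^ (n - N O) * ((A O * b) *
          (((algebraMap F E (x 0))⁻¹) ^ N O * (e / A O))) := by
      have e2 : ((algebraMap F E (x 0))⁻¹) ^ n =
          ((algebraMap F E (x 0))⁻¹) ^ (n - N O) * ((algebraMap F E (x 0))⁻¹) ^ N O := by
        rw [← pow_add, Nat.sub_add_cancel hle]
      have e3 : A O * (e / A O) = e := mul_div_cancel₀ _ (hA O)
      rw [e2]
      calc ((algebraMap F E (x 0))⁻¹) ^ (n - N O) * ((algebraMap F E (x 0))⁻¹) ^ N O * (b * e)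
          = ((algebraMap F E (x 0))⁻¹) ^ (n - N O) * ((algebraMap F E (x 0))⁻¹) ^ N O *
              (b * (A O * (e / A O))) := by rw [e3]
        _ = _ := by ring
    rw [e1]
    have hyO : (algebraMap F E (x 0))⁻¹ ∈ O := (O.valuation_le_one_iff _).mp hD.2.le
    exact mul_mem (pow_mem hyO _) (mul_mem (hb O hD.1) (hN O hO1 hO2))
  have htr := trace_mem V _ (hInt F E V hV1 _ hmem)
  have htr2 : Algebra.trace F E (((algebraMap F E (x 0))⁻¹) ^ n * (b * e)) =
      ((x 0)⁻¹) ^ n * Algebra.trace F E (b * e) := by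
    rw [← map_inv₀, ← map_pow, ← Algebra.smul_def, map_smul, smul_eq_mul]
  rw [htr2, hV2] at htr
  obtain ⟨p, q, hq, hpq, hpq2⟩ := htr
  have hfin : a * q = X 0 ^ n * p * c := by
    apply hinj
    change aeval x (a * q) = aeval x (X 0 ^ n * p * c)
    rw [map_mul, map_mul, map_mul, map_pow, aeval_X, ← hac, ← hpq2]
    have hp0 : x 0 ^ n * ((x 0)⁻¹) ^ n = 1 := by
      rw [← mul_pow, mul_inv_cancel₀ hx0, one_pow]
    calc Algebra.trace F E (b * e) * aeval x c * aeval x q
        = (x 0 ^ n * ((x 0)⁻¹) ^ n) * (Algebra.trace F E (b * e) * aeval x c * aeval x q) := by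
          rw [hp0, one_mul]
      _ = _ := by ring
  by_cases ha : a = 0
  · rw [ha, totalDegree_zero]
    exact Nat.zero_le _
  · have h6 : X 0 ^ n * p * c ≠ 0 := by
      rw [← hfin]
      exact mul_ne_zero ha hq
    have h7 : X 0 ^ n * p ≠ 0 := left_ne_zero_of_mul h6
    have h8 : (X 0 ^ n : Po d k) ≠ 0 := left_ne_zero_of_mul h7
    have h9 : p ≠ 0 := right_ne_zero_of_mul h7
    have h10 := congrArg totalDegree hfin
    rw [totalDegree_mul_of_isDomain ha hq, totalDegree_mul_of_isDomain h7 hc,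
      totalDegree_mul_of_isDomain h8 h9, totalDegree_X_pow] at h10
    omega

end QiM

open QiM in
/-- (Qi) The degrees of the traces are bounded. -/
theorem tQi : S_VR → S_Int → S_Dvc → S_Fib → S_Qi := by
  intro hVR hInt hDvc hFib d k E _ _ _ _ x hx A hA e
  haveI := hx.fin
  have hmem : ∀ i, x i ∈ IntermediateField.adjoin k (Set.range x) := fun i =>
    IntermediateField.subset_adjoin k _ ⟨i, rfl⟩
  let x' : Fin (d + 2) → IntermediateField.adjoin k (Set.range x) := fun i => ⟨x i, hmem i⟩
  have hcoe : ∀ G : Po d k, algebraMap (IntermediateField.adjoin k (Set.range x)) E (aeval x' G) =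
      aeval x G := by
    intro G
    exact comp_aeval_apply x' (IsScalarTower.toAlgHom k (IntermediateField.adjoin k (Set.range x)) E) G
  have hind : AlgebraicIndependent k x' := by
    intro G G' h
    apply hx.ind
    change aeval x G = aeval x G'
    rw [← hcoe, ← hcoe]
    exact congrArg _ h
  have hinj : Function.Injective (algebraMap (IntermediateField.adjoin k (Set.range x)) E) :=
    (algebraMap (IntermediateField.adjoin k (Set.range x)) E).injective
  have hgen : ∀ f : IntermediateField.adjoin k (Set.range x), ∃ a b : Po d k, b ≠ 0 ∧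
      f * aeval x' b = aeval x' a := by
    intro f
    obtain ⟨r, s, hrs⟩ := (IntermediateField.mem_adjoin_range_iff k x (f : E)).mp f.2
    by_cases hs : aeval x s = 0
    · rw [hs, div_zero] at hrs
      refine ⟨0, 1, one_ne_zero, ?_⟩
      have hf : f = 0 := Subtype.ext hrs
      rw [hf, zero_mul, map_zero]
    · refine ⟨r, s, fun h => hs (by rw [h, map_zero]), ?_⟩
      apply hinj
      rw [map_mul, hcoe, hcoe]
      change (f : E) * aeval x s = aeval x r
      rw [hrs, div_mul_cancel₀ _ hs]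
  obtain ⟨n, hn⟩ := key hVR hInt hDvc hFib k (IntermediateField.adjoin k (Set.range x)) E x' hind
    hgen A hA e
  refine ⟨n, fun b hb a c hc hac => hn b hb a c hc ?_⟩
  apply hinj
  rw [map_mul, hcoe, hcoe]
  exact hac

end Pool.Agent.Lib.MP_16285c_agX.Cn
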