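import Pool.Agent.Lib.MP_16285c_agX.Can.Spec

/-!
# Package CAN in every dimension, module Res: the prime of a divisor over affine space is principal
-/

set_option autoImplicit false

namespace Pool.Agent.Lib.MP_16285c_agX.Cn

open Pool.Agent.Lib.MP_16285c_agS.Cn (Plc cm)

namespace ResM

section

variable {k E : Type} [Field k] [Field E] [Algebra k E] {d : ℕ}

lemma aeval_mem (t : Fin (d + 2) → E) (O : ValuationSubring E) (hk : ∀ c : k, algebraMap k E c ∈ O)
    (hO : ∀ i, t i ∈ O) (G : Po d k) : MvPolynomial.aeval t G ∈ O := by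
  induction G using MvPolynomial.induction_on with
  | C a =>
    rw [MvPolynomial.aeval_C]
    exact hk a
  | add p q hp hq =>
    rw [map_add]
    exact O.add_mem _ _ hp hq
  | mul_X p n hp =>
    rw [map_mul, MvPolynomial.aeval_X]
    exact O.mul_mem _ _ hp (hO n)

/-- The evaluation at `t` with values in `O`. -/
noncomputable def psi (t : Fin (d + 2) → E) (O : ValuationSubring E)
    (hk : ∀ c : k, algebraMap k E c ∈ O) (hO : ∀ i, t i ∈ O) : Po d k →+* O :=
  (MvPolynomial.aeval t : Po d k →ₐ[k] E).toRingHom.codRestrict O.toSubring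
    (fun G => aeval_mem t O hk hO G)

lemma psi_coe (t : Fin (d + 2) → E) (O : ValuationSubring E)
    (hk : ∀ c : k, algebraMap k E c ∈ O) (hO : ∀ i, t i ∈ O) (G : Po d k) :
    ((psi t O hk hO G : O) : E) = MvPolynomial.aeval t G := rfl

/-- The prime ideal of `O` on affine space. -/
noncomputable def pp (t : Fin (d + 2) → E) (O : ValuationSubring E)
    (hk : ∀ c : k, algebraMap k E c ∈ O) (hO : ∀ i, t i ∈ O) : Ideal (Po d k) :=
  (IsLocalRing.maximalIdeal O).comap (psi t O hk hO)

lemma mem_pp (t : Fin (d + 2) → E) (O : ValuationSubring E)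
    (hk : ∀ c : k, algebraMap k E c ∈ O) (hO : ∀ i, t i ∈ O) (G : Po d k) :
    G ∈ pp t O hk hO ↔ O.valuation (MvPolynomial.aeval t G) < 1 := by
  rw [pp, Ideal.mem_comap, ValuationSubring.valuation_lt_one_iff, psi_coe]

lemma pp_prime (t : Fin (d + 2) → E) (O : ValuationSubring E)
    (hk : ∀ c : k, algebraMap k E c ∈ O) (hO : ∀ i, t i ∈ O) : (pp t O hk hO).IsPrime :=
  Ideal.comap_isPrime _ _

lemma exists_poly (t : Fin (d + 2) → E) (x : E) (hx : x ∈ Algebra.adjoin k (Set.range t)) :
    ∃ G : Po d k, MvPolynomial.aeval t G = x := by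
  rw [Algebra.adjoin_range_eq_range_aeval] at hx
  exact hx

open scoped IntermediateField.algebraAdjoinAdjoin in
lemma pp_ne_bot (t : Fin (d + 2) → E) (htb : Tb k t) (O : ValuationSubring E)
    (hd : IsDiscreteValuationRing O) (hk : ∀ c : k, algebraMap k E c ∈ O)
    (hO : ∀ i, t i ∈ O) : pp t O hk hO ≠ ⊥ := by
  obtain ⟨π, hπ⟩ := IsDiscreteValuationRing.exists_irreducible O
  have hπ0 : (π : E) ≠ 0 := fun h => hπ.ne_zero (Subtype.ext h)
  have hπ1 : O.valuation (π : E) < 1 := by
    rw [← ValuationSubring.valuation_lt_one_iff]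
    exact (IsLocalRing.mem_maximalIdeal _).mpr hπ.not_isUnit
  have := htb.fin
  have h1 : IsAlgebraic (IntermediateField.adjoin k (Set.range t)) (π : E) :=
    Algebra.IsAlgebraic.isAlgebraic _
  have h2 : IsAlgebraic (Algebra.adjoin k (Set.range t)) (π : E) :=
    (IsFractionRing.isAlgebraic_iff (Algebra.adjoin k (Set.range t))
      (IntermediateField.adjoin k (Set.range t)) E).mpr h1
  obtain ⟨q, hq0, hq⟩ := h2.exists_nonzero_coeff_and_aeval_eq_zero
    (mem_nonZeroDivisors_of_ne_zero hπ0)
  have hA : ∀ a : Algebra.adjoin k (Set.range t), (a : E) ∈ O := by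
    intro a
    obtain ⟨G, hG⟩ := exists_poly t _ a.2
    rw [← hG]
    exact aeval_mem t O hk hO G
  have hqm : ∀ p : Polynomial (Algebra.adjoin k (Set.range t)), Polynomial.aeval (π : E) p ∈ O := by
    intro p
    rw [Polynomial.aeval_eq_sum_range]
    refine sum_mem (fun i _ => ?_)
    rw [Algebra.smul_def]
    exact O.mul_mem _ _ (hA _) (pow_mem π.2 i)
  have e : (q.coeff 0 : E) = -(Polynomial.aeval (π : E) q.divX) * π := by
    have h3 := congrArg (Polynomial.aeval (π : E)) (Polynomial.divX_mul_X_add q)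
    rw [hq, map_add, map_mul, Polynomial.aeval_X, Polynomial.aeval_C] at h3
    have h4 : algebraMap (Algebra.adjoin k (Set.range t)) E (q.coeff 0) = (q.coeff 0 : E) := rfl
    rw [h4] at h3
    linear_combination h3
  have hv : O.valuation (q.coeff 0 : E) < 1 := by
    rw [e, map_mul, Valuation.map_neg]
    have h5 : O.valuation (Polynomial.aeval (π : E) q.divX) ≤ 1 :=
      (O.valuation_le_one_iff _).mpr (hqm _)
    calc O.valuation (Polynomial.aeval (π : E) q.divX) * O.valuation (π : E)
        ≤ 1 * O.valuation (π : E) := mul_le_mul_left h5 _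
      _ = O.valuation (π : E) := one_mul _
      _ < 1 := hπ1
  obtain ⟨G, hG⟩ := exists_poly t _ (q.coeff 0).2
  have hGm : G ∈ pp t O hk hO := by
    rw [mem_pp]
    rw [hG]
    exact hv
  intro hbot
  rw [hbot, Ideal.mem_bot] at hGm
  apply hq0
  apply Subtype.ext
  rw [← hG, hGm, map_zero]
  rfl

/-- An irreducible polynomial and a polynomial which is not a multiple of it have a combination
which is a nonzero constant. -/
lemma exists_const {A : Type} [CommRing A] [IsDomain A] [UniqueFactorizationMonoid A]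
    (R G : Polynomial A) (hR : Irreducible R) (hG : ¬ R ∣ G) :
    ∃ c : A, c ≠ 0 ∧ ∃ U W : Polynomial A, Polynomial.C c = U * R + W * G := by
  by_cases h0 : R.natDegree = 0
  · have hC := Polynomial.eq_C_of_natDegree_eq_zero h0
    refine ⟨R.coeff 0, ?_, 1, 0, ?_⟩
    · intro h
      apply hR.ne_zero
      rw [hC, h, Polynomial.C_0]
    · rw [one_mul, zero_mul, add_zero]
      exact hC.symm
  · have hp : R.IsPrimitive := hR.isPrimitive h0
    have hinj : Function.Injective (algebraMap A (FractionRing A)) := IsFractionRing.injective A _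
    have hi : Irreducible (R.map (algebraMap A (FractionRing A))) :=
      (hp.irreducible_iff_irreducible_map_fraction_map (K := FractionRing A)).1 hR
    rcases EuclideanDomain.dvd_or_coprime _ (G.map (algebraMap A (FractionRing A))) hi with h | h
    · exfalso
      apply hG
      obtain ⟨u, hu⟩ := h
      have h1 : R.map (algebraMap A (FractionRing A)) * u ∈
          Polynomial.lifts (algebraMap A (FractionRing A)) := by
        rw [← hu]
        exact (Polynomial.mem_lifts _).2 ⟨G, rfl⟩
      obtain ⟨U, hU⟩ := (Polynomial.mem_lifts _).1 (hp.map_mul_mem_lifts_iff.1 h1)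
      refine ⟨U, ?_⟩
      apply Polynomial.map_injective _ hinj
      rw [Polynomial.map_mul, hU, hu]
    · obtain ⟨a, b, hab⟩ := h
      obtain ⟨s, hs, hsa⟩ := IsLocalization.integerNormalization_spec (nonZeroDivisors A) a
      obtain ⟨r, hr, hrb⟩ := IsLocalization.integerNormalization_spec (nonZeroDivisors A) b
      refine ⟨s * r, mul_ne_zero (nonZeroDivisors.ne_zero hs) (nonZeroDivisors.ne_zero hr),
        Polynomial.C r * IsLocalization.integerNormalization (nonZeroDivisors A) a,
        Polynomial.C s * IsLocalization.integerNormalization (nonZeroDivisors A) b, ?_⟩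
      apply Polynomial.map_injective _ hinj
      rw [Polynomial.map_add, Polynomial.map_mul, Polynomial.map_mul, Polynomial.map_mul,
        Polynomial.map_mul, hsa, hrb, Polynomial.map_C, Polynomial.map_C, Polynomial.map_C, map_mul,
        Algebra.smul_def, Algebra.smul_def, Polynomial.algebraMap_apply,
        Polynomial.algebraMap_apply, Polynomial.C_mul]
      linear_combination (-(Polynomial.C (algebraMap A (FractionRing A) s) *
        Polynomial.C (algebraMap A (FractionRing A) r))) * hab

lemma finSucc_rename (n : ℕ) (c : MvPolynomial (Fin n) k) :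
    MvPolynomial.finSuccEquiv k n (MvPolynomial.rename Fin.succ c) = Polynomial.C c := by
  induction c using MvPolynomial.induction_on with
  | C a =>
    rw [MvPolynomial.rename_C]
    have h : (MvPolynomial.finSuccEquiv k n).symm (Polynomial.C (MvPolynomial.C a)) =
        MvPolynomial.C a := RingHom.congr_fun (MvPolynomial.finSuccEquiv_comp_C_eq_C n) a
    exact ((AlgEquiv.symm_apply_eq _).1 h).symm
  | add p q hp hq => rw [map_add, map_add, hp, hq, map_add]
  | mul_X p i hp =>
    rw [map_mul, map_mul, hp, MvPolynomial.rename_X, MvPolynomial.finSuccEquiv_X_succ, ← map_mul]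

/-- Elimination of one variable. -/
lemma exists_rename (σ : Fin (d + 1) → Fin (d + 2)) (hσ : Function.Injective σ) (R G : Po d k)
    (hR : Irreducible R) (hG : ¬ R ∣ G) :
    ∃ c : MvPolynomial (Fin (d + 1)) k, c ≠ 0 ∧
      MvPolynomial.rename σ c ∈ Ideal.span ({R, G} : Set (Po d k)) := by
  have hns : ¬ Function.Surjective σ := by
    intro h
    have h1 := Fintype.card_le_of_surjective σ h
    rw [Fintype.card_fin, Fintype.card_fin] at h1
    omega
  rw [Function.Surjective] at hns
  push Not at hns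
  obtain ⟨i₀, hi₀⟩ := hns
  have hinj : Function.Injective (Fin.cons i₀ σ : Fin (d + 2) → Fin (d + 2)) := by
    rw [Fin.cons_injective_iff]
    refine ⟨?_, hσ⟩
    rintro ⟨j, hj⟩
    exact hi₀ j hj
  let e : Fin (d + 2) ≃ Fin (d + 2) := Equiv.ofBijective _ (Finite.injective_iff_bijective.1 hinj)
  have he : ∀ j : Fin (d + 1), e j.succ = σ j := fun j => rfl
  let Φ : Po d k ≃ₐ[k] Polynomial (MvPolynomial (Fin (d + 1)) k) :=
    (MvPolynomial.renameEquiv k e.symm).trans (MvPolynomial.finSuccEquiv k (d + 1))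
  have hΦ : ∀ c : MvPolynomial (Fin (d + 1)) k, Φ (MvPolynomial.rename σ c) = Polynomial.C c := by
    intro c
    have h1 : Φ (MvPolynomial.rename σ c) =
        MvPolynomial.finSuccEquiv k (d + 1) (MvPolynomial.rename e.symm (MvPolynomial.rename σ c)) :=
      rfl
    have h2 : (e.symm ∘ σ : Fin (d + 1) → Fin (d + 2)) = Fin.succ := by
      funext j
      rw [Function.comp_apply, ← he j, Equiv.symm_apply_apply]
    rw [h1, MvPolynomial.rename_rename, h2, finSucc_rename]
  have hR' : Irreducible (Φ R) := (MulEquiv.irreducible_iff Φ).2 hR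
  have hG' : ¬ Φ R ∣ Φ G := fun h => hG ((map_dvd_iff Φ).1 h)
  obtain ⟨c, hc0, U, W, hUW⟩ := exists_const (Φ R) (Φ G) hR' hG'
  refine ⟨c, hc0, ?_⟩
  rw [Ideal.mem_span_pair]
  refine ⟨Φ.symm U, Φ.symm W, ?_⟩
  apply Φ.injective
  rw [map_add, map_mul, map_mul, AlgEquiv.apply_symm_apply, AlgEquiv.apply_symm_apply, hΦ, hUW]

end

end ResM

open ResM in
/-- (Res) -/
theorem tRes : S_Dvc → S_Res := by
  intro hDvc d k E _ _ _ _ t htb O hDv hO
  have hk := hDv.con
  obtain ⟨R, hRm, hRp⟩ := (pp_prime t O hk hO).exists_mem_prime_of_ne_bot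
    (pp_ne_bot t htb O hDv.dvr hk hO)
  refine ⟨R, hRp.irreducible, fun G => ?_⟩
  rw [← mem_pp t O hk hO]
  constructor
  · intro hG
    by_contra hRG
    obtain ⟨σ, hσ, hI⟩ := (hDvc d k E t O).1 hDv hO
    obtain ⟨c, hc0, hc⟩ := exists_rename σ hσ R G hRp.irreducible hRG
    apply hI c hc0
    have hle : Ideal.span ({R, G} : Set (Po d k)) ≤ pp t O hk hO := by
      rw [Ideal.span_le]
      rintro x (rfl | rfl)
      · exact hRm
      · exact hG
    have h1 := hle hc
    rw [mem_pp, MvPolynomial.aeval_rename] at h1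
    exact h1
  · rintro ⟨H, rfl⟩
    exact Ideal.mul_mem_right _ _ hRm

end Pool.Agent.Lib.MP_16285c_agX.Cn
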