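import Pool.Agent.Lib.MP_16285c_agX.Can.Spec
import Mathlib

/-!
# Package CAN in every dimension: selection of independent residues (`S_Sel`)
-/

set_option autoImplicit false

namespace Pool.Agent.Lib.MP_16285c_agX.Cn

namespace SelM

lemma exmax (P : ℕ → Prop) (h0 : P 0) :
    ∀ r : ℕ, ¬ P (r + 1) → ∃ m, m ≤ r ∧ P m ∧ ¬ P (m + 1) := by
  intro r
  induction r with
  | zero => intro h; exact ⟨0, le_rfl, h0, h⟩
  | succ r ih =>
    intro h
    by_cases hr : P (r + 1)
    · exact ⟨r + 1, le_rfl, hr, h⟩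
    · obtain ⟨m, hm, h1, h2⟩ := ih hr
      exact ⟨m, by omega, h1, h2⟩

variable {k E : Type} [Field k] [Field E] [Algebra k E]

lemma aeval_mem (O : ValuationSubring E) (hk : ∀ c : k, algebraMap k E c ∈ O) {m : ℕ}
    (s : Fin m → E) (hs : ∀ i, s i ∈ O) (G : MvPolynomial (Fin m) k) :
    MvPolynomial.aeval s G ∈ O := by
  induction G using MvPolynomial.induction_on with
  | C a => rw [MvPolynomial.aeval_C]; exact hk a
  | add p q hp hq => rw [map_add]; exact O.add_mem _ _ hp hq
  | mul_X p i hp => rw [map_mul, MvPolynomial.aeval_X]; exact O.mul_mem _ _ hp (hs i)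

lemma val_const (O : ValuationSubring E) (hk : ∀ c : k, algebraMap k E c ∈ O) (c : k) (hc : c ≠ 0) :
    O.valuation (algebraMap k E c) = 1 := by
  have h1 : O.valuation (algebraMap k E c) ≤ 1 := (O.valuation_le_one_iff _).2 (hk c)
  have h2 : O.valuation (algebraMap k E c⁻¹) ≤ 1 := (O.valuation_le_one_iff _).2 (hk _)
  have h3 : O.valuation (algebraMap k E c) * O.valuation (algebraMap k E c⁻¹) = 1 := by
    rw [← map_mul, ← map_mul, mul_inv_cancel₀ hc, map_one, map_one]
  rcases lt_or_eq_of_le h1 with h | h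
  · exfalso
    have : O.valuation (algebraMap k E c) * O.valuation (algebraMap k E c⁻¹) < 1 :=
      mul_lt_one_of_lt_of_le h h2
    exact absurd h3 this.ne
  · exact h

lemma ind_zero (O : ValuationSubring E) (hk : ∀ c : k, algebraMap k E c ∈ O) (s : Fin 0 → E) :
    Ind k O s := by
  intro G hG hlt
  obtain ⟨c, hc⟩ := MvPolynomial.C_surjective (R := k) (Fin 0) G
  have hc0 : c ≠ 0 := by
    rintro rfl
    apply hG
    rw [← hc, map_zero]
  rw [← hc, MvPolynomial.aeval_C, val_const O hk c hc0] at hlt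
  exact lt_irrefl _ hlt

lemma ev_finSucc {m' m : ℕ} (t : Fin m → E) (i : Fin m) (σ : Fin m' → Fin m)
    (G : MvPolynomial (Fin (m' + 1)) k) :
    ev (fun j => t (σ j)) (t i) (MvPolynomial.finSuccEquiv k m' G) =
      MvPolynomial.aeval (fun j => t ((Fin.cons i σ : Fin (m' + 1) → Fin m) j)) G := by
  induction G using MvPolynomial.induction_on with
  | C a =>
    rw [MvPolynomial.finSuccEquiv_apply, MvPolynomial.eval₂Hom_C, MvPolynomial.aeval_C]
    unfold ev
    simp
  | add p q hp hq => rw [map_add, map_add, map_add, hp, hq]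
  | mul_X p j hp =>
    rw [map_mul, map_mul, map_mul, hp, MvPolynomial.aeval_X]
    congr 1
    refine Fin.cases ?_ (fun l => ?_) j
    · rw [MvPolynomial.finSuccEquiv_X_zero, Fin.cons_zero]
      unfold ev
      simp
    · rw [MvPolynomial.finSuccEquiv_X_succ, Fin.cons_succ]
      unfold ev
      simp

lemma sb_mono (O : ValuationSubring E) (C : Subring E) {m' r : ℕ} (h : m' ≤ r) (hC : Sb k m' O C) :
    Sb k r O C where
  con := hC.con
  ic := hC.ic
  le := hC.le
  mx := hC.mx
  inv := hC.inv
  dep := by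
    intro c hc
    obtain ⟨G, hG, hlt⟩ := hC.dep (fun i => c (Fin.castLE (by omega) i)) (fun i => hc _)
    refine ⟨MvPolynomial.rename (Fin.castLE (by omega)) G, ?_, ?_⟩
    · intro h0
      apply hG
      apply MvPolynomial.rename_injective _ (Fin.castLE_injective (by omega : m' + 1 ≤ r + 1))
      rw [h0, map_zero]
    · rw [MvPolynomial.aeval_rename]
      exact hlt

end SelM

open SelM in
theorem tSel (hCl : S_Cl) : S_Sel := by
  intro k E _ _ _ _ O hk m t ht r hr
  obtain ⟨m', hm', ⟨σ, hσ, hI⟩, hmax⟩ := exmax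
    (fun n => ∃ σ : Fin n → Fin m, Function.Injective σ ∧ Ind k O fun j => t (σ j))
    ⟨Fin.elim0, fun a => a.elim0, ind_zero O hk _⟩ r hr
  obtain ⟨C, hSb, hs, h3, h4⟩ := hCl k E O hk m' (fun j => t (σ j)) (fun i => ht _)
  have hC : ∀ i, t i ∈ C := by
    intro i
    by_cases hi : i ∈ Set.range σ
    · obtain ⟨j, rfl⟩ := hi
      exact hs j
    · have hinj : Function.Injective (Fin.cons i σ : Fin (m' + 1) → Fin m) :=
        Fin.cons_injective_iff.2 ⟨hi, hσ⟩
      have hn : ¬ Ind k O fun j => t ((Fin.cons i σ : Fin (m' + 1) → Fin m) j) := by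
        intro h
        exact hmax ⟨_, hinj, h⟩
      unfold Ind at hn
      push Not at hn
      obtain ⟨G, hG, hlt⟩ := hn
      refine h3 (t i) (ht i) ⟨MvPolynomial.finSuccEquiv k m' G, ?_, ?_⟩
      · have hG' : MvPolynomial.finSuccEquiv k m' G ≠ 0 := by
          intro h0
          apply hG
          apply (MvPolynomial.finSuccEquiv k m').injective
          rw [h0, map_zero]
        obtain ⟨j, hj⟩ : ∃ j, (MvPolynomial.finSuccEquiv k m' G).coeff j ≠ 0 := by
          by_contra hcon
          push Not at hcon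
          exact hG' (Polynomial.ext (by simpa using hcon))
        refine ⟨j, ?_⟩
        have h1 := hI _ hj
        have h2 : O.valuation (MvPolynomial.aeval (fun j => t (σ j))
            ((MvPolynomial.finSuccEquiv k m' G).coeff j)) ≤ 1 :=
          (O.valuation_le_one_iff _).2 (aeval_mem O hk _ (fun i => ht _) _)
        exact le_antisymm h2 (not_lt.1 h1)
      · rw [ev_finSucc]
        exact hlt
  exact ⟨m', σ, C, hm', hσ, sb_mono O C hm' hSb, hC, fun i => h4 _ (hC i)⟩

end Pool.Agent.Lib.MP_16285c_agX.Cn
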