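import Pool.Agent.Lib.MP_16285c_agX.Can.Spec

/-!
# ZDX Can/TbC: a criterion for a transcendence basis, every dimension
-/

set_option autoImplicit false

namespace Pool.Agent.Lib.MP_16285c_agX.Cn

open IntermediateField.algebraAdjoinAdjoin in
theorem TbCM.isAlg_adjoin {k E ι : Type} [Field k] [Field E] [Algebra k E] (t : ι → E)
    [h : Algebra.IsAlgebraic (IntermediateField.adjoin k (Set.range t)) E] :
    Algebra.IsAlgebraic (Algebra.adjoin k (Set.range t)) E :=
  (IsFractionRing.comap_isAlgebraic_iff (A := Algebra.adjoin k (Set.range t))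
    (K := IntermediateField.adjoin k (Set.range t)) (C := E)).2 h

theorem tTbC : S_TbC := by
  intro d k E _ _ _ _ x hx t hC
  set F := IntermediateField.adjoin k (Set.range t) with hF
  set Kx := IntermediateField.adjoin k (Set.range x) with hKx
  have hfin := hx.fin
  set K' := algebraicClosure F E with hK'
  have hmem : ∀ a : E, a ∈ K' ↔ IsAlgebraic F a := fun a => mem_algebraicClosure_iff
  have hcl : ∀ a : E, IsAlgebraic K' a → a ∈ K' := by
    intro a ha
    rw [hmem]
    exact ha.restrictScalars F
  have hxC : ∀ i, x i ∈ K' := by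
    refine hC K'.toSubfield.toSubring ?_ ?_ ?_ ?_
    · intro c
      exact K'.algebraMap_mem (algebraMap k F c)
    · intro a ha
      exact hcl a (IsIntegral.isAlgebraic ha)
    · intro a ha
      exact K'.inv_mem ha
    · intro i
      exact K'.algebraMap_mem ⟨t i, IntermediateField.subset_adjoin k _ ⟨i, rfl⟩⟩
  have hle : Kx ≤ K'.restrictScalars k := by
    rw [hKx, IntermediateField.adjoin_le_iff]
    rintro _ ⟨i, rfl⟩
    exact hxC i
  have halg : Algebra.IsAlgebraic F E := by
    refine ⟨fun a => ?_⟩
    rw [← hmem]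
    refine hcl a ?_
    have h1 : IsAlgebraic Kx a := (IsIntegral.of_finite Kx a).isAlgebraic
    obtain ⟨f, hf, hf0⟩ := h1
    refine ⟨f.map (IntermediateField.inclusion hle).toRingHom, ?_, ?_⟩
    · rw [Ne, Polynomial.map_eq_zero]
      exact hf
    · rw [Polynomial.aeval_def, Polynomial.eval₂_map]
      rw [Polynomial.aeval_def] at hf0
      exact hf0
  have halg2 : Algebra.IsAlgebraic (Algebra.adjoin k (Set.range t)) E := TbCM.isAlg_adjoin t
  have halgx : Algebra.IsAlgebraic (IntermediateField.adjoin k (Set.range x)) E :=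
    ⟨fun a => (IsIntegral.of_finite Kx a).isAlgebraic⟩
  have halgx2 : Algebra.IsAlgebraic (Algebra.adjoin k (Set.range x)) E := TbCM.isAlg_adjoin x
  have hbx : IsTranscendenceBasis k x := by
    rw [hx.ind.isTranscendenceBasis_iff_isAlgebraic]
    exact halgx2
  have htr : Cardinal.mk (Fin (d + 2)) ≤ Algebra.trdeg k E := hbx.cardinalMk_eq_trdeg.le
  have hbt : IsTranscendenceBasis k t :=
    Algebra.IsAlgebraic.isTranscendenceBasis_of_le_trdeg_of_finite k t htr
  refine ⟨hbt.1, ?_⟩
  obtain ⟨S, hS⟩ := hfin
  have hfs : Finite (Set.range x ∪ (S : Set E) : Set E) :=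
    ((Set.finite_range x).union S.finite_toSet).to_subtype
  have hfd : FiniteDimensional F (IntermediateField.adjoin F (Set.range x ∪ (S : Set E))) :=
    IntermediateField.finiteDimensional_adjoin fun a _ =>
      (Algebra.IsAlgebraic.isAlgebraic a).isIntegral
  have htop : IntermediateField.adjoin F (Set.range x ∪ (S : Set E)) = ⊤ := by
    rw [eq_top_iff]
    intro a _
    have hle2 : Kx ≤ (IntermediateField.adjoin F (Set.range x ∪ (S : Set E))).restrictScalars k := by
      rw [hKx, IntermediateField.adjoin_le_iff]
      rintro _ ⟨i, rfl⟩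
      exact IntermediateField.subset_adjoin F _ (Or.inl ⟨i, rfl⟩)
    have ha : a ∈ Submodule.span Kx (S : Set E) := by
      rw [hS]
      exact Submodule.mem_top
    induction ha using Submodule.span_induction with
    | mem y hy => exact IntermediateField.subset_adjoin F _ (Or.inr hy)
    | zero => exact zero_mem _
    | add y z _ _ hy hz => exact add_mem (hy trivial) (hz trivial)
    | smul c y _ hy => exact mul_mem (hle2 c.2) (hy trivial)
  rw [htop] at hfd
  exact Module.Finite.equiv (IntermediateField.topEquiv (F := F) (E := E)).toLinearEquiv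

end Pool.Agent.Lib.MP_16285c_agX.Cn
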