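import Pool.Agent.Lib.MP_16285c_agX.Can.Spec

/-!
# The trace formula in every dimension
-/

set_option autoImplicit false

namespace Pool.Agent.Lib.MP_16285c_agX.Cn

namespace TrBM

variable {d : ℕ} {k : Type} [Field k]

theorem ev_C {m : ℕ} {E : Type} [Field E] [Algebra k E] (t : Fin m → E) (z : E)
    (g : MvPolynomial (Fin m) k) :
    ev t z (Polynomial.C g) = MvPolynomial.aeval t g := by
  unfold ev
  rw [Polynomial.coe_eval₂RingHom, Polynomial.eval₂_C]
  rfl

theorem ev_X {m : ℕ} {E : Type} [Field E] [Algebra k E] (t : Fin m → E) (z : E) :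
    ev (k := k) t z Polynomial.X = z := by
  unfold ev
  rw [Polynomial.coe_eval₂RingHom, Polynomial.eval₂_X]

theorem ev_hom {m : ℕ} {E E' : Type} [Field E] [Field E'] [Algebra k E] [Algebra k E']
    (g : E →ₐ[k] E') (t : Fin m → E) (z : E) (N : Polynomial (MvPolynomial (Fin m) k)) :
    g (ev t z N) = ev (fun i => g (t i)) (g z) N := by
  induction N using Polynomial.induction_on' with
  | add p q hp hq => rw [map_add, map_add, map_add, hp, hq]
  | monomial n a =>
    rw [← Polynomial.C_mul_X_pow_eq_monomial, map_mul, map_mul, map_mul, map_pow, map_pow, map_pow,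
      ev_C, ev_C, ev_X, ev_X]
    congr 1
    exact MvPolynomial.comp_aeval_apply t g a

theorem ev_sum {E : Type} [Field E] [Algebra k E] (t : Fin (d + 2) → E) (z : E) (P : PZ d k) :
    ev t z P = ∑ l ∈ P.support, MvPolynomial.aeval t (P.coeff l) * z ^ l := by
  unfold ev
  rw [Polynomial.coe_eval₂RingHom, Polynomial.eval₂_eq_sum, Polynomial.sum_def]
  rfl

theorem aeval_spl {S : Type} [CommRing S] [Algebra k S] (y : Fin (d + 2) → S) (R : Po d k) :
    MvPolynomial.aeval y R = ∑ e ∈ R.support,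
      algebraMap k S (R.coeff e) * ((∏ i : Fin (d + 1), y i.castSucc ^ e i.castSucc) *
        y (Fin.last (d + 1)) ^ e (Fin.last (d + 1))) := by
  rw [MvPolynomial.aeval_def, MvPolynomial.eval₂_eq']
  refine Finset.sum_congr rfl fun e _ => ?_
  rw [Fin.prod_univ_castSucc]

/-- The divided difference of `R`. -/
noncomputable def AA {S : Type} [CommRing S] [Algebra k S] (R : Po d k) (u : Fin (d + 1) → S)
    (t s : S) : S :=
  ∑ e ∈ R.support, algebraMap k S (R.coeff e) * (∏ i : Fin (d + 1), u i ^ e i.castSucc) *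
    ∑ a ∈ Finset.range (e (Fin.last (d + 1))), t ^ a * s ^ (e (Fin.last (d + 1)) - 1 - a)

/-- The divided difference of `P`. -/
noncomputable def BB {S : Type} [CommRing S] [Algebra k S] (P : PZ d k) (y : Fin (d + 2) → S)
    (z v : S) : S :=
  ∑ l ∈ P.support, MvPolynomial.aeval y (P.coeff l) *
    ∑ c ∈ Finset.range l, z ^ c * v ^ (l - 1 - c)

theorem AA_mul {S : Type} [CommRing S] [Algebra k S] (R : Po d k) (y y' : Fin (d + 2) → S)
    (h : ∀ i : Fin (d + 1), y i.castSucc = y' i.castSucc) :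
    AA R (fun i => y i.castSucc) (y (Fin.last (d + 1))) (y' (Fin.last (d + 1))) *
      (y (Fin.last (d + 1)) - y' (Fin.last (d + 1))) =
      MvPolynomial.aeval y R - MvPolynomial.aeval y' R := by
  rw [aeval_spl, aeval_spl, AA, Finset.sum_mul, ← Finset.sum_sub_distrib]
  refine Finset.sum_congr rfl fun e _ => ?_
  rw [mul_assoc, geom_sum₂_mul, Finset.prod_congr rfl fun i _ => by rw [h i]]
  ring

theorem BB_mul {S : Type} [Field S] [Algebra k S] (P : PZ d k) (y : Fin (d + 2) → S) (z v : S) :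
    BB P y z v * (z - v) = ev y z P - ev y v P := by
  rw [ev_sum, ev_sum, BB, Finset.sum_mul, ← Finset.sum_sub_distrib]
  refine Finset.sum_congr rfl fun e _ => ?_
  rw [mul_assoc, geom_sum₂_mul]
  ring

/-- The polynomial of the trace formula. -/
noncomputable def HH (R : Po d k) (P : PZ d k) (Θ : ℕ → ℕ → MvPolynomial (Fin (d + 1)) k) :
    PZ d k :=
  ∑ e ∈ R.support, ∑ a ∈ Finset.range (e (Fin.last (d + 1))), ∑ l ∈ P.support,
    ∑ c ∈ Finset.range l,
    Polynomial.C (MvPolynomial.C (R.coeff e) *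
      (∏ i : Fin (d + 1), MvPolynomial.X i.castSucc ^ e i.castSucc) *
      MvPolynomial.X (Fin.last (d + 1)) ^ a * P.coeff l *
      MvPolynomial.rename Fin.castSucc (Θ (e (Fin.last (d + 1)) - 1 - a) (l - 1 - c))) *
      Polynomial.X ^ c

theorem ev_HH {S : Type} [Field S] [Algebra k S] (R : Po d k) (P : PZ d k)
    (Θ : ℕ → ℕ → MvPolynomial (Fin (d + 1)) k) (Y : Fin (d + 2) → S) (W : S) (T : Type)
    [Fintype T] (sy sw : T → S)
    (hΘ : ∀ b c, MvPolynomial.aeval (fun i : Fin (d + 1) => Y i.castSucc) (Θ b c) =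
      ∑ τ, sy τ ^ b * sw τ ^ c) :
    ev Y W (HH R P Θ) = ∑ τ, AA R (fun i => Y i.castSucc) (Y (Fin.last (d + 1))) (sy τ) *
      BB P Y W (sw τ) := by
  have h1 : ∀ τ, AA R (fun i => Y i.castSucc) (Y (Fin.last (d + 1))) (sy τ) * BB P Y W (sw τ) =
      ∑ e ∈ R.support, ∑ a ∈ Finset.range (e (Fin.last (d + 1))), ∑ l ∈ P.support,
        ∑ c ∈ Finset.range l,
        (algebraMap k S (R.coeff e) * (∏ i : Fin (d + 1), Y i.castSucc ^ e i.castSucc) *
          Y (Fin.last (d + 1)) ^ a * MvPolynomial.aeval Y (P.coeff l) *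
          W ^ c) * (sy τ ^ (e (Fin.last (d + 1)) - 1 - a) * sw τ ^ (l - 1 - c)) := by
    intro τ
    rw [AA, Finset.sum_mul]
    refine Finset.sum_congr rfl fun e _ => ?_
    rw [Finset.mul_sum, Finset.sum_mul]
    refine Finset.sum_congr rfl fun a _ => ?_
    rw [BB, Finset.mul_sum]
    refine Finset.sum_congr rfl fun l _ => ?_
    rw [Finset.mul_sum, Finset.mul_sum]
    refine Finset.sum_congr rfl fun c _ => ?_
    ring
  rw [Finset.sum_congr rfl fun τ _ => h1 τ, HH, map_sum, Finset.sum_comm]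
  refine Finset.sum_congr rfl fun e _ => ?_
  rw [map_sum, Finset.sum_comm]
  refine Finset.sum_congr rfl fun a _ => ?_
  rw [map_sum, Finset.sum_comm]
  refine Finset.sum_congr rfl fun l _ => ?_
  rw [map_sum, Finset.sum_comm]
  refine Finset.sum_congr rfl fun c _ => ?_
  rw [← Finset.mul_sum, ← hΘ, map_mul, map_pow, ev_X, ev_C, map_mul, map_mul, map_mul, map_mul,
    map_pow, map_prod, MvPolynomial.aeval_C, MvPolynomial.aeval_X]
  have h2 : MvPolynomial.aeval Y (MvPolynomial.rename Fin.castSucc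
      (Θ (e (Fin.last (d + 1)) - 1 - a) (l - 1 - c))) =
      MvPolynomial.aeval (fun i : Fin (d + 1) => Y i.castSucc)
        (Θ (e (Fin.last (d + 1)) - 1 - a) (l - 1 - c)) := by
    rw [MvPolynomial.aeval_rename]
    rfl
  have h3 : ∏ i : Fin (d + 1), MvPolynomial.aeval Y
      (MvPolynomial.X i.castSucc ^ e i.castSucc : Po d k) =
      ∏ i : Fin (d + 1), Y i.castSucc ^ e i.castSucc := by
    refine Finset.prod_congr rfl fun i _ => ?_
    rw [map_pow, MvPolynomial.aeval_X]
  rw [h2, h3]
  ring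

/-! ## Weights -/

theorem wle_zero (m N : ℕ) : Wle m N (0 : PZ d k) := by
  intro c hc
  simp at hc

theorem wle_add {m N : ℕ} {A B : PZ d k} (hA : Wle m N A) (hB : Wle m N B) :
    Wle m N (A + B) := by
  intro c hc
  rw [Polynomial.mem_support_iff, Polynomial.coeff_add] at hc
  rw [Polynomial.coeff_add]
  by_cases h1 : A.coeff c = 0
  · rw [h1, zero_add] at hc ⊢
    exact hB c (Polynomial.mem_support_iff.2 hc)
  · by_cases h2 : B.coeff c = 0
    · rw [h2, add_zero]
      exact hA c (Polynomial.mem_support_iff.2 h1)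
    · have h3 := hA c (Polynomial.mem_support_iff.2 h1)
      have h4 := hB c (Polynomial.mem_support_iff.2 h2)
      have h5 := MvPolynomial.totalDegree_add (A.coeff c) (B.coeff c)
      rcases le_max_iff.1 h5 with h6 | h6 <;> omega

theorem wle_sum {m N : ℕ} {ι : Type} (s : Finset ι) (f : ι → PZ d k)
    (h : ∀ i ∈ s, Wle m N (f i)) : Wle m N (∑ i ∈ s, f i) := by
  classical
  induction s using Finset.induction_on with
  | empty =>
    rw [Finset.sum_empty]
    exact wle_zero m N
  | insert a s ha ih =>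
    rw [Finset.sum_insert ha]
    exact wle_add (h a (Finset.mem_insert_self a s))
      (ih fun i hi => h i (Finset.mem_insert_of_mem hi))

theorem wle_mono {m N c : ℕ} (g : Po d k) (h : g.totalDegree + m * c ≤ N) :
    Wle m N (Polynomial.C g * Polynomial.X ^ c) := by
  intro c' hc
  rw [Polynomial.mem_support_iff, Polynomial.coeff_C_mul_X_pow] at hc
  rw [Polynomial.coeff_C_mul_X_pow]
  split_ifs at hc ⊢ with h1
  · rw [h1]
    exact h
  · exact absurd rfl hc

theorem deg_rename (Q : MvPolynomial (Fin (d + 1)) k) :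
    (MvPolynomial.rename Fin.castSucc Q : Po d k).totalDegree ≤ Q.totalDegree :=
  MvPolynomial.totalDegree_rename_le _ _

theorem deg_prod (e : Fin (d + 2) →₀ ℕ) :
    (∏ i : Fin (d + 1), MvPolynomial.X i.castSucc ^ e i.castSucc : Po d k).totalDegree ≤
      ∑ i : Fin (d + 1), e i.castSucc := by
  refine (MvPolynomial.totalDegree_finsetProd _ _).trans ?_
  refine Finset.sum_le_sum fun i _ => ?_
  rw [MvPolynomial.totalDegree_X_pow]

theorem wle_HH {m : ℕ} (R : Po d k) (P : PZ d k) (Θ : ℕ → ℕ → MvPolynomial (Fin (d + 1)) k)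
    (hP : Wle m (m * P.natDegree) P) (hΘ : ∀ b c, (Θ b c).totalDegree ≤ b + m * c) :
    Wle m (R.totalDegree + m * P.natDegree) (HH R P Θ) := by
  refine wle_sum _ _ fun e he => wle_sum _ _ fun a ha => wle_sum _ _ fun l hl =>
    wle_sum _ _ fun c hc => wle_mono _ ?_
  have ha' := Finset.mem_range.1 ha
  have hc' := Finset.mem_range.1 hc
  have h1 : (∑ i : Fin (d + 1), e i.castSucc) + e (Fin.last (d + 1)) ≤ R.totalDegree := by
    have h2 := MvPolynomial.le_totalDegree he
    have h3 : (e.sum fun _ n => n) =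
        (∑ i : Fin (d + 1), e i.castSucc) + e (Fin.last (d + 1)) := by
      rw [Finsupp.sum_fintype _ _ (fun _ => rfl), Fin.sum_univ_castSucc]
    rwa [h3] at h2
  have h2 := hP l hl
  have h3 := hΘ (e (Fin.last (d + 1)) - 1 - a) (l - 1 - c)
  have h4 := deg_rename (Θ (e (Fin.last (d + 1)) - 1 - a) (l - 1 - c))
  have h5 : (MvPolynomial.C (R.coeff e) *
      (∏ i : Fin (d + 1), MvPolynomial.X i.castSucc ^ e i.castSucc) *
      MvPolynomial.X (Fin.last (d + 1)) ^ a * P.coeff l *
      MvPolynomial.rename Fin.castSucc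
        (Θ (e (Fin.last (d + 1)) - 1 - a) (l - 1 - c)) : Po d k).totalDegree ≤
      (∑ i : Fin (d + 1), e i.castSucc) + a + (P.coeff l).totalDegree +
        (Θ (e (Fin.last (d + 1)) - 1 - a) (l - 1 - c)).totalDegree := by
    refine (MvPolynomial.totalDegree_mul _ _).trans (add_le_add ?_ h4)
    refine (MvPolynomial.totalDegree_mul _ _).trans (add_le_add ?_ le_rfl)
    refine (MvPolynomial.totalDegree_mul _ _).trans (add_le_add ?_ ?_)
    · refine (MvPolynomial.totalDegree_mul _ _).trans ?_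
      rw [MvPolynomial.totalDegree_C, zero_add]
      exact deg_prod e
    · rw [MvPolynomial.totalDegree_X_pow]
  have h6 : m * (l - 1 - c) + m * c ≤ m * l := by
    rw [← mul_add]
    exact Nat.mul_le_mul_left m (by omega)
  omega

/-! ## Derivatives -/

theorem AA_diag {S : Type} [CommRing S] [Algebra k S] (R : Po d k) (y : Fin (d + 2) → S) :
    AA R (fun i => y i.castSucc) (y (Fin.last (d + 1))) (y (Fin.last (d + 1))) =
      MvPolynomial.aeval y (MvPolynomial.pderiv (Fin.last (d + 1)) R) := by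
  have h1 : MvPolynomial.pderiv (Fin.last (d + 1)) R = ∑ e ∈ R.support,
      MvPolynomial.monomial (e - Finsupp.single (Fin.last (d + 1)) 1)
        (R.coeff e * (e (Fin.last (d + 1)) : k)) := by
    conv_lhs => rw [MvPolynomial.as_sum R]
    rw [map_sum]
    refine Finset.sum_congr rfl fun e _ => ?_
    rw [MvPolynomial.pderiv_monomial]
  rw [h1, map_sum, AA]
  refine Finset.sum_congr rfl fun e _ => ?_
  rw [MvPolynomial.aeval_monomial]
  have h2 : ∑ a ∈ Finset.range (e (Fin.last (d + 1))),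
      y (Fin.last (d + 1)) ^ a * y (Fin.last (d + 1)) ^ (e (Fin.last (d + 1)) - 1 - a) =
      (e (Fin.last (d + 1)) : S) * y (Fin.last (d + 1)) ^ (e (Fin.last (d + 1)) - 1) := by
    rw [Finset.sum_congr rfl
      (g := fun _ => y (Fin.last (d + 1)) ^ (e (Fin.last (d + 1)) - 1)), Finset.sum_const,
      Finset.card_range, nsmul_eq_mul]
    intro a ha
    have := Finset.mem_range.1 ha
    rw [← pow_add]
    congr 1
    omega
  have h3 : ((e - Finsupp.single (Fin.last (d + 1)) 1).prod fun i n => y i ^ n) =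
      (∏ i : Fin (d + 1), y i.castSucc ^ e i.castSucc) *
        y (Fin.last (d + 1)) ^ (e (Fin.last (d + 1)) - 1) := by
    rw [Finsupp.prod_fintype _ _ (fun i => pow_zero _), Fin.prod_univ_castSucc]
    congr 1
    · refine Finset.prod_congr rfl fun i _ => ?_
      rw [Finsupp.tsub_apply, Finsupp.single_eq_of_ne (Fin.castSucc_lt_last i).ne, tsub_zero]
    · rw [Finsupp.tsub_apply, Finsupp.single_eq_same]
  rw [h2, h3, map_mul, map_natCast]
  ring

theorem BB_diag {S : Type} [Field S] [Algebra k S] (P : PZ d k) (y : Fin (d + 2) → S) (z : S) :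
    BB P y z z = ev y z P.derivative := by
  rw [Polynomial.derivative_apply, Polynomial.sum_def, map_sum, BB]
  refine Finset.sum_congr rfl fun l _ => ?_
  rw [map_mul, map_pow, ev_C, ev_X, map_mul, map_natCast]
  have h2 : ∑ a ∈ Finset.range l, z ^ a * z ^ (l - 1 - a) = (l : S) * z ^ (l - 1) := by
    rw [Finset.sum_congr rfl (g := fun _ => z ^ (l - 1)), Finset.sum_const,
      Finset.card_range, nsmul_eq_mul]
    intro a ha
    have := Finset.mem_range.1 ha
    rw [← pow_add]
    congr 1
    omega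
  rw [h2]
  ring

/-! ## Embeddings -/

/-- The generators. -/
def gn {κ : Type} [Field κ] [Algebra k κ] {n : ℕ} (x : Fin n → κ) (i : Fin n) :
    IntermediateField.adjoin k (Set.range x) :=
  ⟨x i, IntermediateField.subset_adjoin k _ ⟨i, rfl⟩⟩

theorem gn_map {κ : Type} [Field κ] [Algebra k κ] {n : ℕ} (x : Fin n → κ) (i : Fin n) :
    algebraMap (IntermediateField.adjoin k (Set.range x)) κ (gn x i) = x i := rfl

theorem emb {κ : Type} [CharZero k] [Field κ] [Algebra k κ] {n : ℕ} (x : Fin n → κ) (b₀ w : κ)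
    (Θ : ℕ → ℕ → MvPolynomial (Fin n) k)
    (hfin : FiniteDimensional (IntermediateField.adjoin k (Set.range x)) κ)
    (hΘ : ∀ b c, MvPolynomial.aeval x (Θ b c) =
      algebraMap (IntermediateField.adjoin k (Set.range x)) κ
        (Algebra.trace (IntermediateField.adjoin k (Set.range x)) κ (b₀ ^ b * w ^ c)))
    (Ω : Type) [Field Ω] [Algebra k Ω] [IsAlgClosed Ω]
    (φ : IntermediateField.adjoin k (Set.range x) →ₐ[k] Ω) :
    ∃ (T : Type) (_ : Fintype T) (g : T → (κ →ₐ[k] Ω)),
      (∀ τ, ∀ a : IntermediateField.adjoin k (Set.range x),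
        g τ (algebraMap (IntermediateField.adjoin k (Set.range x)) κ a) = φ a) ∧
      (∀ g₀ : κ →ₐ[k] Ω, (∀ a : IntermediateField.adjoin k (Set.range x),
        g₀ (algebraMap (IntermediateField.adjoin k (Set.range x)) κ a) = φ a) →
        ∃ τ, g τ = g₀) ∧
      Function.Injective g ∧
      ∀ b c, MvPolynomial.aeval (fun i => φ (gn x i)) (Θ b c) =
        ∑ τ, g τ b₀ ^ b * g τ w ^ c := by
  let : Algebra (IntermediateField.adjoin k (Set.range x)) Ω := φ.toRingHom.toAlgebra
  have : IsScalarTower k (IntermediateField.adjoin k (Set.range x)) Ω :=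
    IsScalarTower.of_algebraMap_eq fun c => (φ.commutes c).symm
  have hφ : ∀ a : IntermediateField.adjoin k (Set.range x),
    algebraMap (IntermediateField.adjoin k (Set.range x)) Ω a = φ a := fun a => rfl
  refine ⟨κ →ₐ[IntermediateField.adjoin k (Set.range x)] Ω, inferInstance,
    fun τ => τ.restrictScalars k, ?_, ?_, ?_, ?_⟩
  · intro τ a
    exact τ.commutes a
  · intro g₀ h
    exact ⟨{ g₀ with commutes' := h }, by ext a; rfl⟩
  · intro τ τ' h
    ext a
    exact congrArg (fun g : κ →ₐ[k] Ω => g a) h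
  · intro b c
    have h1 : MvPolynomial.aeval (gn x) (Θ b c) =
        Algebra.trace (IntermediateField.adjoin k (Set.range x)) κ (b₀ ^ b * w ^ c) := by
      apply (algebraMap (IntermediateField.adjoin k (Set.range x)) κ).injective
      rw [← hΘ b c]
      exact (MvPolynomial.aeval_algebraMap_apply κ (gn x) (Θ b c)).symm
    have h3 : MvPolynomial.aeval (fun i => φ (gn x i)) (Θ b c) =
        φ (MvPolynomial.aeval (gn x) (Θ b c)) :=
      (MvPolynomial.comp_aeval_apply (gn x) φ (Θ b c)).symm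
    rw [h3, h1, ← hφ, trace_eq_sum_embeddings Ω]
    refine Finset.sum_congr rfl fun τ _ => ?_
    rw [map_mul, map_pow, map_pow]
    rfl

theorem phi {κ κ' : Type} [Field κ] [Algebra k κ] [Field κ'] [Algebra k κ'] {n : ℕ}
    (x : Fin n → κ) (x' : Fin n → κ') (hx : AlgebraicIndependent k x)
    (hx' : AlgebraicIndependent k x') :
    ∃ φ₀ : IntermediateField.adjoin k (Set.range x) →ₐ[k] κ', ∀ i, φ₀ (gn x i) = x' i := by
  refine ⟨((IntermediateField.adjoin k (Set.range x')).val.comp
    (hx'.aevalEquivField).toAlgHom).comp hx.aevalEquivField.symm.toAlgHom, fun i => ?_⟩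
  have h1 : hx.aevalEquivField.symm (gn x i) =
      algebraMap (MvPolynomial (Fin n) k) (FractionRing (MvPolynomial (Fin n) k))
        (MvPolynomial.X i) := by
    rw [AlgEquiv.symm_apply_eq]
    apply Subtype.ext
    rw [hx.aevalEquivField_algebraMap_apply_coe, MvPolynomial.aeval_X]
    rfl
  show ((hx'.aevalEquivField (hx.aevalEquivField.symm (gn x i)) :
    IntermediateField.adjoin k (Set.range x')) : κ') = x' i
  rw [h1, hx'.aevalEquivField_algebraMap_apply_coe, MvPolynomial.aeval_X]

end TrBM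

open TrBM in
theorem tTrB : S_TrA → S_TrB := by
  intro hTrA d k κ _ _ _ _ y w R P m hy hgen hR hR0 hRc hPm hPw hPW
  obtain ⟨hfin, Θ, hΘ⟩ := hTrA d k κ y w R P m hy hgen hR hR0 hRc hPm hPw hPW
  -- the terms
  have hterm : ∀ (Ω : Type) [Field Ω] [Algebra k Ω] (g : κ →ₐ[k] Ω) (Y : Fin (d + 2) → Ω)
      (W : Ω), (∀ i : Fin (d + 1), g (y i.castSucc) = Y i.castSucc) →
      MvPolynomial.aeval Y R = 0 → ev Y W P = 0 →
      AA R (fun i => Y i.castSucc) (Y (Fin.last (d + 1))) (g (y (Fin.last (d + 1)))) *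
        BB P Y W (g w) ≠ 0 → (∀ i, g (y i) = Y i) ∧ g w = W := by
    intro Ω _ _ g Y W h0 hY hW hne
    have h1 := AA_mul R Y (fun i => g (y i)) fun i => (h0 i).symm
    have h2 : MvPolynomial.aeval (fun i => g (y i)) R = 0 := by
      rw [← MvPolynomial.comp_aeval_apply y g R, hR, map_zero]
    rw [hY, h2, sub_zero] at h1
    have h3 : Y (Fin.last (d + 1)) - g (y (Fin.last (d + 1))) = 0 := by
      rcases mul_eq_zero.1 h1 with h | h
      · exact absurd h (left_ne_zero_of_mul hne)
      · exact h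
    have h4 : ∀ i, g (y i) = Y i := by
      intro i
      induction i using Fin.lastCases with
      | last => exact (sub_eq_zero.1 h3).symm
      | cast i => exact h0 i
    refine ⟨h4, ?_⟩
    have h5 := BB_mul P Y W (g w)
    have h6 : ev Y (g w) P = 0 := by
      have h7 := ev_hom g y w P
      rw [hPw, map_zero, funext h4] at h7
      exact h7.symm
    rw [hW, h6, sub_zero] at h5
    rcases mul_eq_zero.1 h5 with h | h
    · exact absurd h (right_ne_zero_of_mul hne)
    · exact (sub_eq_zero.1 h).symm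
  refine ⟨HH R P Θ, wle_HH R P Θ hPW fun b c => (hΘ b c).1, ?_, ?_⟩
  · -- the value at `(y, w)`
    obtain ⟨ι, hι⟩ : ∃ ι, ι = IsScalarTower.toAlgHom k κ (AlgebraicClosure κ) := ⟨_, rfl⟩
    obtain ⟨T, hT, g, hg1, hg2, hg3, hg4⟩ := emb (fun i : Fin (d + 1) => y i.castSucc)
      (y (Fin.last (d + 1))) w Θ hfin (fun b c => (hΘ b c).2) (AlgebraicClosure κ)
      (ι.comp (IntermediateField.adjoin k (Set.range fun i : Fin (d + 1) => y i.castSucc)).val)
    obtain ⟨τ₀, hτ₀⟩ := hg2 ι (fun a => rfl)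
    have hY0 : ∀ τ, ∀ i : Fin (d + 1), g τ (y i.castSucc) = ι (y i.castSucc) := by
      intro τ i
      exact hg1 τ (gn (fun i : Fin (d + 1) => y i.castSucc) i)
    have e1 := ev_HH R P Θ (fun i => ι (y i)) (ι w) T (fun τ => g τ (y (Fin.last (d + 1))))
      (fun τ => g τ w) (by
      intro b c
      rw [← hg4 b c]
      rfl)
    rw [← ev_hom, Finset.sum_eq_single τ₀] at e1
    · rw [hτ₀] at e1
      have e2 := AA_diag R (fun i => ι (y i))
      have e3 := BB_diag P (fun i => ι (y i)) (ι w)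
      rw [← ev_hom] at e3
      rw [← MvPolynomial.comp_aeval_apply] at e2
      rw [e2, e3, ← map_mul] at e1
      exact ι.toRingHom.injective e1
    · intro τ _ hne
      by_contra hcon
      apply hne
      apply hg3
      obtain ⟨h1, h2⟩ := hterm _ (g τ) (fun i => ι (y i)) (ι w) (hY0 τ) (by
        rw [← MvPolynomial.comp_aeval_apply y ι R, hR, map_zero]) (by
        rw [← ev_hom, hPw, map_zero]) hcon
      rw [hτ₀]
      ext a
      obtain ⟨N, C, hC, ha⟩ := hgen a
      have h3 : ∀ F : PZ d k, g τ (ev y w F) = ι (ev y w F) := by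
        intro F
        rw [ev_hom, ev_hom, h2, funext h1]
      have h4 := congrArg (g τ) ha
      have h5 := congrArg ι ha
      rw [map_mul, h3, h3, ← h5, map_mul] at h4
      refine mul_right_cancel₀ ?_ h4
      intro h6
      exact hC (ι.toRingHom.injective (by simpa using h6))
    · intro h
      exact absurd (Finset.mem_univ _) h
  · intro κ' _ _ y' w' hy' hR' hP'
    by_cases hH : ev y' w' (HH R P Θ) = 0
    · exact Or.inl hH
    right
    obtain ⟨φ₀, hφ₀⟩ := phi (fun i : Fin (d + 1) => y i.castSucc)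
      (fun i : Fin (d + 1) => y' i.castSucc) hy hy'
    obtain ⟨ι, hι⟩ : ∃ ι, ι = IsScalarTower.toAlgHom k κ' (AlgebraicClosure κ') := ⟨_, rfl⟩
    obtain ⟨T, hT, g, hg1, hg2, hg3, hg4⟩ := emb (fun i : Fin (d + 1) => y i.castSucc)
      (y (Fin.last (d + 1))) w Θ hfin (fun b c => (hΘ b c).2) (AlgebraicClosure κ')
      (ι.comp φ₀)
    have hY0 : ∀ τ, ∀ i : Fin (d + 1), g τ (y i.castSucc) = ι (y' i.castSucc) := by
      intro τ i
      have h1 := hg1 τ (gn (fun i : Fin (d + 1) => y i.castSucc) i)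
      rw [AlgHom.comp_apply, hφ₀] at h1
      exact h1
    have e1 := ev_HH R P Θ (fun i => ι (y' i)) (ι w') T (fun τ => g τ (y (Fin.last (d + 1))))
      (fun τ => g τ w) (by
      intro b c
      rw [← hg4 b c]
      congr 2
      funext i
      rw [AlgHom.comp_apply, hφ₀])
    rw [← ev_hom] at e1
    have e2 : ∑ τ, AA R (fun i => ι (y' i.castSucc)) (ι (y' (Fin.last (d + 1))))
        (g τ (y (Fin.last (d + 1)))) * BB P (fun i => ι (y' i)) (ι w') (g τ w) ≠ 0 := by
      rw [← e1]
      intro h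
      exact hH (ι.toRingHom.injective (by simpa using h))
    obtain ⟨τ, -, hτ⟩ := Finset.exists_ne_zero_of_sum_ne_zero e2
    obtain ⟨h1, h2⟩ := hterm _ (g τ) (fun i => ι (y' i)) (ι w') (hY0 τ) (by
        rw [← MvPolynomial.comp_aeval_apply y' ι R, hR', map_zero]) (by
        rw [← ev_hom, hP', map_zero]) hτ
    intro N
    have h3 : g τ (ev y w N) = ι (ev y' w' N) := by
      rw [ev_hom, ev_hom, h2, funext h1]
    constructor
    · intro h
      rw [h, map_zero] at h3
      exact ι.toRingHom.injective (by simpa using h3.symm)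
    · intro h
      rw [h, map_zero] at h3
      exact (g τ).toRingHom.injective (by simpa using h3)

end Pool.Agent.Lib.MP_16285c_agX.Cn
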