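import Pool.Agent.Lib.MP_16285c_agX.Can.AllA
import Pool.Agent.Lib.MP_16285c_agX.Can.Cl
import Pool.Agent.Lib.MP_16285c_agX.Can.Cmp
import Pool.Agent.Lib.MP_16285c_agX.Can.DBd
import Pool.Agent.Lib.MP_16285c_agX.Can.DO
import Pool.Agent.Lib.MP_16285c_agX.Can.DV
import Pool.Agent.Lib.MP_16285c_agX.Can.Der
import Pool.Agent.Lib.MP_16285c_agX.Can.Dir
import Pool.Agent.Lib.MP_16285c_agX.Can.Dvc
import Pool.Agent.Lib.MP_16285c_agX.Can.Exc
import Pool.Agent.Lib.MP_16285c_agX.Can.F1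
import Pool.Agent.Lib.MP_16285c_agX.Can.F1a
import Pool.Agent.Lib.MP_16285c_agX.Can.F3
import Pool.Agent.Lib.MP_16285c_agX.Can.F3v
import Pool.Agent.Lib.MP_16285c_agX.Can.F4
import Pool.Agent.Lib.MP_16285c_agX.Can.F4e
import Pool.Agent.Lib.MP_16285c_agX.Can.F5
import Pool.Agent.Lib.MP_16285c_agX.Can.F7
import Pool.Agent.Lib.MP_16285c_agX.Can.GN
import Pool.Agent.Lib.MP_16285c_agX.Can.Inf
import Pool.Agent.Lib.MP_16285c_agX.Can.Inz
import Pool.Agent.Lib.MP_16285c_agX.Can.Jac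
import Pool.Agent.Lib.MP_16285c_agX.Can.Mdl
import Pool.Agent.Lib.MP_16285c_agX.Can.Pb
import Pool.Agent.Lib.MP_16285c_agX.Can.Pr
import Pool.Agent.Lib.MP_16285c_agX.Can.Q
import Pool.Agent.Lib.MP_16285c_agX.Can.Q2
import Pool.Agent.Lib.MP_16285c_agX.Can.Qf
import Pool.Agent.Lib.MP_16285c_agX.Can.Qi
import Pool.Agent.Lib.MP_16285c_agX.Can.Res
import Pool.Agent.Lib.MP_16285c_agX.Can.Sel
import Pool.Agent.Lib.MP_16285c_agX.Can.TbC
import Pool.Agent.Lib.MP_16285c_agX.Can.TrA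
import Pool.Agent.Lib.MP_16285c_agX.Can.TrB
import Pool.Agent.Lib.MP_16285c_agX.Can.Unr
import Pool.Agent.Lib.MP_16285c_agX.Can.VR
import Pool.Agent.Lib.MP_16285c_agS.Can.Apx
import Pool.Agent.Lib.MP_16285c_agS.Can.Dvr
import Pool.Agent.Lib.MP_16285c_agS.Can.Fbc
import Pool.Agent.Lib.MP_16285c_agS.Can.Fib
import Pool.Agent.Lib.MP_16285c_agS.Can.Int
import Pool.Agent.Lib.MP_16285c_agS.Can.Loc

/-!
# Section F in every dimension: `StmtCan` without hypotheses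
-/

set_option autoImplicit false

namespace Pool.Agent.Lib.MP_16285c_agX.Cn

open Pool.Agent.Lib.MP_16285c_agS.Cn (S_Dvr S_Apx S_Fib S_Fbc S_Loc S_Int tDvr tApx tFib tFbc tLoc tInt)

theorem cFib : S_Fib := tFib tApx

theorem cFbc : S_Fbc := tFbc cFib

theorem cLoc : S_Loc := tLoc tApx cFib

theorem cSel : S_Sel := tSel tCl

theorem cDvc : S_Dvc := tDvc cSel

theorem cCmp : S_Cmp := tCmp tDvr

theorem cRes : S_Res := tRes cDvc

theorem cInf : S_Inf := tInf cDvc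

theorem cExc : S_Exc := tExc cRes cInf cFib

theorem cDO : S_DO := tDO cRes tUnr

theorem cDBd : S_DBd := tDBd tDvr cLoc tInt (tDV cRes cInf)

theorem cF1 : S_F1 :=
  tF1 cDvc tPr tGN cCmp (tF1a cSel cCmp cDvc tMdl cExc tDer cDO (tJac tDer)) tTbC

theorem cF3 : S_F3 := tF3 (tF3v (tTrB (tTrA tVR)) tUnr cDvc) tDir

theorem cF4 : S_F4 := tF4 cRes cInf tInz tUnr cF3 (tF4e tDer cDO)

theorem cPb : S_Pb := tPb tDer

theorem cQ2 : S_Q2 :=
  tQ2 (tQ (tQf tVR tInt cDvc) (tQi tVR tInt cDvc cFib)) tMdl cExc cDO cDBd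

/-- An endomorphism of a field of transcendence degree at least two without invariants has only finitely many
totally invariant divisors. -/
theorem tCan : Pool.Agent.Lib.MP_16285c_agX.StmtCan :=
  tCanA cDvc tDer tMdl cExc cF1 cF4 cPb (tF5 cPb) cFbc cQ2 tF7

end Pool.Agent.Lib.MP_16285c_agX.Cn
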