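import Pool.Agent.Lib.MP_16285c_agX.Can.Spec

/-!
# Package CAN in every dimension: coordinates for which no divisor is contracted (`tF1`)
-/

set_option autoImplicit false

namespace Pool.Agent.Lib.MP_16285c_agX.Cn

open Pool.Agent.Lib.MP_16285c_agS.Cn (Plc cm)

namespace F1M

/-- the span of elements of `O` is in `O` -/
theorem span_mem {k E : Type} [Field k] [Field E] [Algebra k E]
    (O : ValuationSubring E) (hk : ∀ c : k, algebraMap k E c ∈ O) (S : Set E) (hS : ∀ a ∈ S, a ∈ O)
    (w : E) (hw : w ∈ Submodule.span k S) : w ∈ O := by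
  induction hw using Submodule.span_induction with
  | mem a ha => exact hS a ha
  | zero => exact O.zero_mem
  | add a b _ _ ha hb => exact O.add_mem _ _ ha hb
  | smul c a _ ha =>
    rw [Algebra.smul_def]
    exact O.mul_mem _ _ (hk c) ha

/-- A system with independent residues is not contracted. -/
theorem notCt {d : ℕ} {k E : Type} [Field k] [CharZero k] [Field E] [Algebra k E]
    (O : ValuationSubring E) (hk : ∀ c : k, algebraMap k E c ∈ O) (f : Fin (d + 1) → E)
    (hf : ∀ i, f i ∈ O) (hc : Ind k O f) :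
    ¬ Ct k d O (Submodule.span k (insert 1 (Set.range f))) := by
  rintro ⟨w, hw, hw0, C, hC, hq⟩
  have h1 : 1 / w ∈ C := hq 1 (Submodule.subset_span (Set.mem_insert _ _))
  have h2 : ∀ i, f i / w ∈ C := fun i =>
    hq (f i) (Submodule.subset_span (Set.mem_insert_of_mem _ ⟨i, rfl⟩))
  have hwO : w ∈ O := by
    refine span_mem O hk _ ?_ w hw
    intro a ha
    rcases Set.mem_insert_iff.1 ha with rfl | ⟨i, rfl⟩
    · exact O.one_mem
    · exact hf i
  have hv1 : O.valuation w ≤ 1 := (O.valuation_le_one_iff w).2 hwO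
  have hv2 : O.valuation (1 / w) ≤ 1 := (O.valuation_le_one_iff _).2 (hC.le _ h1)
  have hv3 : O.valuation (1 / w) = 1 := by
    refine le_antisymm hv2 ?_
    rw [one_div, map_inv₀]
    have h0 : O.valuation w ≠ 0 := (Valuation.ne_zero_iff _).2 hw0
    exact (one_le_inv₀ (zero_lt_iff.2 h0)).2 hv1
  have h3 : w ∈ C := by
    have := hC.inv _ h1 hv3
    rwa [one_div, inv_inv] at this
  obtain ⟨G, hG, hG1⟩ := hC.dep f fun i => by
    have h4 : f i = (f i / w) * w := by field_simp
    rw [h4]
    exact C.mul_mem (h2 i) h3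
  exact hc G hG hG1

theorem span_fin {k E : Type} [Field k] [Field E] [Algebra k E] {m : ℕ} (f : Fin m → E) :
    Module.Finite k (Submodule.span k (insert 1 (Set.range f))) :=
  Module.Finite.iff_fg.2 (Submodule.fg_span ((Set.finite_range f).insert 1))

/-- The linear system `U`. -/
theorem exU (hPr : S_Pr) {d : ℕ} {k E : Type} [Field k] [CharZero k] [Field E] [Algebra k E]
    (x : Fin (d + 2) → E) (X : Set (ValuationSubring E)) (hX : X.Finite) :
    (∀ O ∈ X, (∀ c : k, algebraMap k E c ∈ O) ∧ ∃ f : Fin (d + 1) → E, (∀ i, f i ∈ O) ∧ Ind k O f) →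
    ∃ U : Submodule k E, Module.Finite k U ∧ UU k x ≤ U ∧
      (∀ O : ValuationSubring E, (∀ c : k, algebraMap k E c ∈ O) → ¬ Ct k d O (UU k x) → ¬ Ct k d O U) ∧
      ∀ O ∈ X, ¬ Ct k d O U := by
  classical
  induction X, hX using Set.Finite.induction_on with
  | empty =>
    intro _
    exact ⟨UU k x, span_fin x, le_rfl, fun O _ h => h, fun O hO => hO.elim⟩
  | @insert O₀ X' hne hfin ih =>
    intro h
    obtain ⟨U, hUf, hU3, hU1, hU2⟩ := ih (fun O hO => h O (Set.mem_insert_of_mem _ hO))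
    obtain ⟨hk0, f, hfO, hfC⟩ := h O₀ (Set.mem_insert _ _)
    have hW : Module.Finite k (Submodule.span k (insert 1 (Set.range f))) := span_fin f
    have h1W : (1 : E) ∈ Submodule.span k (insert 1 (Set.range f)) :=
      Submodule.subset_span (Set.mem_insert _ _)
    refine ⟨U * Submodule.span k (insert 1 (Set.range f)), ?_, ?_, ?_, ?_⟩
    · exact Module.Finite.iff_fg.2 (Submodule.FG.mul (Module.Finite.iff_fg.1 hUf)
        (Module.Finite.iff_fg.1 hW))
    · intro u hu
      have := Submodule.mul_mem_mul (hU3 hu) h1W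
      rwa [mul_one] at this
    · intro O hk hn hct
      exact hU1 O hk hn (hPr d k E O hk U _ hUf hW hct).1
    · intro O hO hct
      rcases Set.mem_insert_iff.1 hO with rfl | hO'
      · exact notCt O hk0 f hfO hfC (hPr d k E O hk0 U _ hUf hW hct).2
      · exact hU2 O hO' (hPr d k E O (h O hO).1 U _ hUf hW hct).1

open scoped IntermediateField.algebraAdjoinAdjoin in
/-- `d + 3` elements are algebraically dependent. -/
theorem dep {d : ℕ} {k E : Type} [Field k] [Field E] [Algebra k E] (x : Fin (d + 2) → E) (hx : Tb k x)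
    (y : Fin (d + 2 + 1) → E) : ¬ AlgebraicIndependent k y := by
  intro hy
  have := hx.fin
  have halg : Algebra.IsAlgebraic (IntermediateField.adjoin k (Set.range x)) E := inferInstance
  have halg2 : Algebra.IsAlgebraic (Algebra.adjoin k (Set.range x)) E :=
    (IsFractionRing.comap_isAlgebraic_iff (K := IntermediateField.adjoin k (Set.range x))).2 halg
  have hb : IsTranscendenceBasis k x := hx.ind.isTranscendenceBasis_iff_isAlgebraic.2 halg2
  have h1 := hy.cardinalMk_le_trdeg
  rw [← hb.cardinalMk_eq_trdeg] at h1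
  simp only [Cardinal.mk_fin] at h1
  have h2 : (d + 2 + 1 : ℕ) ≤ d + 2 := by exact_mod_cast h1
  omega

/-- `1` and the `x i` are independent. -/
theorem li {n : ℕ} {k E : Type} [Field k] [Field E] [Algebra k E] (x : Fin n → E)
    (hx : AlgebraicIndependent k x) : LinearIndependent k (Fin.cons 1 x : Fin (n + 1) → E) := by
  classical
  rw [Fintype.linearIndependent_iff]
  intro g hg
  rw [Fin.sum_univ_succ] at hg
  simp only [Fin.cons_zero, Fin.cons_succ] at hg
  have h1 : (MvPolynomial.aeval x : MvPolynomial (Fin n) k →ₐ[k] E)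
      (MvPolynomial.C (g 0) + ∑ i : Fin n, MvPolynomial.C (g i.succ) * MvPolynomial.X i) = 0 := by
    simp only [map_add, map_sum, map_mul, MvPolynomial.aeval_C, MvPolynomial.aeval_X]
    rw [← hg]
    simp only [Algebra.smul_def, mul_one]
  have h2 := hx.eq_zero_of_aeval_eq_zero _ h1
  have h0i : ∀ i : Fin n, (Finsupp.single i 1 : Fin n →₀ ℕ) ≠ 0 := by
    intro i h; have := DFunLike.congr_fun h i; simp at this
  have e0 := congrArg (MvPolynomial.coeff 0) h2
  rw [MvPolynomial.coeff_add, MvPolynomial.coeff_sum, MvPolynomial.coeff_zero] at e0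
  have e1 : ∑ i : Fin n, MvPolynomial.coeff 0 (MvPolynomial.C (g i.succ) * MvPolynomial.X i) = 0 := by
    refine Finset.sum_eq_zero fun i _ => ?_
    rw [MvPolynomial.coeff_C_mul, MvPolynomial.coeff_X, if_neg (h0i i), mul_zero]
  rw [e1, add_zero, MvPolynomial.coeff_C, if_pos rfl] at e0
  intro i
  refine Fin.cases e0 (fun j => ?_) i
  have ej := congrArg (MvPolynomial.coeff (Finsupp.single j 1)) h2
  rw [MvPolynomial.coeff_add, MvPolynomial.coeff_sum, MvPolynomial.coeff_zero,
    MvPolynomial.coeff_C, if_neg (h0i j).symm, zero_add, Finset.sum_eq_single j] at ej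
  · rw [MvPolynomial.coeff_C_mul, MvPolynomial.coeff_X, if_pos rfl, mul_one] at ej
    exact ej
  · intro b _ hb
    have hne : (Finsupp.single b 1 : Fin n →₀ ℕ) ≠ Finsupp.single j 1 := by
      intro h
      exact hb (Finsupp.single_left_injective one_ne_zero h)
    rw [MvPolynomial.coeff_C_mul, MvPolynomial.coeff_X, if_neg hne, mul_zero]
  · intro h
    exact absurd (Finset.mem_univ j) h

end F1M

open F1M in
theorem tF1 : S_Dvc → S_Pr → S_GN → S_Cmp → S_F1a → S_TbC → S_F1 := by
  intro hDvc hPr hGN hCmp hF1a hTbC d k E _ _ _ _ x hx ρ hρ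
  have hfin := (hF1a d k E x hx ρ hρ).image (cm ρ)
  obtain ⟨U, hUf, hU3, hU1, hU2⟩ := exU (k := k) hPr x _ hfin (by
    rintro O' ⟨O, ⟨hO, hO'⟩, rfl⟩
    obtain ⟨c1, -, -, c4⟩ := hCmp k E ρ hρ O hO.toPlc
    exact ⟨c1.con, c4 (d + 1) ((hDvc d k E x O).2.2.2.2 hO)⟩)
  have h1U : (1 : E) ∈ U := hU3 (Submodule.subset_span (Set.mem_insert _ _))
  have hxU : ∀ i, x i ∈ U := fun i =>
    hU3 (Submodule.subset_span (Set.mem_insert_of_mem _ ⟨i, rfl⟩))
  have hrank : d + 2 + 1 ≤ Module.finrank k U := by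
    have h1 := li x hx.ind
    have h2 : ∀ i, (Fin.cons 1 x : Fin (d + 2 + 1) → E) i ∈ U := by
      intro i
      refine Fin.cases ?_ (fun j => ?_) i
      · rw [Fin.cons_zero]; exact h1U
      · rw [Fin.cons_succ]; exact hxU j
    have h3 : LinearIndependent k (fun i => (⟨(Fin.cons 1 x : Fin (d + 2 + 1) → E) i, h2 i⟩ : U)) := by
      apply LinearIndependent.of_comp U.subtype
      exact h1
    simpa using h3.fintype_card_le_finrank
  obtain ⟨s, hsU, hsli, hsC⟩ := hGN (d + 2) k E (dep x hx) U hUf hrank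
  have hs0 : s 0 ≠ 0 := hsli.ne_zero 0
  have hspan : Submodule.span k (Set.range s) ≤ U := by
    rw [Submodule.span_le]
    rintro _ ⟨i, rfl⟩
    exact hsU i
  have hmem : ∀ i, s i / s 0 ∈ (insert 1 (Set.range fun j : Fin (d + 2) => s j.succ / s 0) : Set E) := by
    intro i
    refine Fin.cases ?_ (fun j => ?_) i
    · rw [div_self hs0]; exact Set.mem_insert _ _
    · exact Set.mem_insert_of_mem _ ⟨j, rfl⟩
  have hCtU : ∀ O' : ValuationSubring E, Plc k O' →
      Ct k d O' (UU k fun j : Fin (d + 2) => s j.succ / s 0) → Ct k d O' U := by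
    rintro O' hP ⟨w', hw', hw0, C, hC, hq⟩
    have h1 : s 0 * w' ∈ Submodule.span k (Set.range s) := by
      have h2 : UU k (fun j : Fin (d + 2) => s j.succ / s 0) ≤
          (Submodule.span k (Set.range s)).comap (LinearMap.mulLeft k (s 0)) := by
        rw [UU, Submodule.span_le]
        intro a ha
        rw [SetLike.mem_coe, Submodule.mem_comap, LinearMap.mulLeft_apply]
        rcases Set.mem_insert_iff.1 ha with rfl | ⟨j, rfl⟩
        · rw [mul_one]; exact Submodule.subset_span ⟨0, rfl⟩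
        · rw [mul_div_cancel₀ _ hs0]; exact Submodule.subset_span ⟨j.succ, rfl⟩
      exact h2 hw'
    have hne : s 0 * w' ≠ 0 := mul_ne_zero hs0 hw0
    refine ⟨s 0 * w', hspan h1, hne, C, hC, fun u hu => ?_⟩
    refine hsC C hC.con hC.ic _ h1 hne ?_ u hu
    intro i
    have hi : s i / (s 0 * w') = (s i / s 0) / w' := by rw [div_div]
    rw [hi]
    exact hq _ (Submodule.subset_span (hmem i))
  refine ⟨fun j : Fin (d + 2) => s j.succ / s 0, ?_, ?_⟩
  · refine hTbC d k E x hx _ ?_
    intro C hkC hint hinv ht i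
    have hsi : ∀ j, s j / s 0 ∈ C := by
      intro j
      refine Fin.cases ?_ (fun l => ?_) j
      · rw [div_self hs0]; exact C.one_mem
      · exact ht l
    have hU := hsC C hkC hint (s 0) (Submodule.subset_span ⟨0, rfl⟩) hs0 hsi
    have h1 : (1 : E) / s 0 ∈ C := hU 1 h1U
    have h2 : x i / s 0 ∈ C := hU _ (hxU i)
    have h3 := hinv _ h1
    have h4 : x i = (x i / s 0) * (1 / s 0)⁻¹ := by field_simp
    rw [h4]
    exact C.mul_mem h2 h3
  · intro O hO
    obtain ⟨c1, -, -, -⟩ := hCmp k E ρ hρ O hO.toPlc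
    refine ⟨⟨hO.toPlc, fun h => hU1 O hO.con hO.nc (hCtU O hO.toPlc h)⟩,
      ⟨c1, fun h => ?_⟩⟩
    have h1 := hCtU _ c1 h
    by_cases hO' : Dv k x (cm ρ O)
    · exact hU1 _ c1.con hO'.nc h1
    · exact hU2 _ ⟨O, ⟨hO, hO'⟩, rfl⟩ h1

end Pool.Agent.Lib.MP_16285c_agX.Cn
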