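import Pool.Agent.Lib.MP_16285c_agX.Can.Spec

/-!
# CAN in every dimension: the Jacobian of a transcendence basis does not vanish (`S_Jac`)
-/

set_option autoImplicit false

namespace Pool.Agent.Lib.MP_16285c_agX.Cn.JacM

open Pool.Agent.Lib.MP_16285c_agX.Cn
open scoped IntermediateField.algebraAdjoinAdjoin

variable {k E : Type} [Field k] [Field E] [Algebra k E] {d : ℕ}

theorem trdeg_eq {x : Fin (d + 2) → E} (hx : Tb k x) : Algebra.trdeg k E = (d + 2 : ℕ) := by
  have := hx.fin
  have h1 : Algebra.IsAlgebraic (IntermediateField.adjoin k (Set.range x)) E :=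
    Algebra.IsAlgebraic.of_finite _ _
  have h2 : Algebra.IsAlgebraic (Algebra.adjoin k (Set.range x)) E :=
    Algebra.IsAlgebraic.trans (Algebra.adjoin k (Set.range x))
      (IntermediateField.adjoin k (Set.range x)) E
  have hb : IsTranscendenceBasis k x :=
    isTranscendenceBasis_iff_algebraicIndependent_isAlgebraic.2 ⟨hx.ind, h2⟩
  rw [← hb.cardinalMk_eq_trdeg]
  simp

/-- A subfield over which `E` is algebraic: `E` is finite over it. -/
theorem fin_of_alg {x : Fin (d + 2) → E} (hx : Tb k x) (F : IntermediateField k E)
    (h : Algebra.IsAlgebraic F E) : Module.Finite F E := by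
  have := hx.fin
  let b := Module.finBasis (IntermediateField.adjoin k (Set.range x)) E
  let S : Set E := Set.range x ∪ Set.range b
  have hSf : S.Finite := (Set.finite_range x).union (Set.finite_range b)
  have : Finite S := hSf
  have h1 : FiniteDimensional F (IntermediateField.adjoin F S) :=
    IntermediateField.finiteDimensional_adjoin fun a _ => (h.isAlgebraic a).isIntegral
  have hle : IntermediateField.adjoin k (Set.range x) ≤
      (IntermediateField.adjoin F S).restrictScalars k := by
    rw [IntermediateField.adjoin_le_iff]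
    intro a ha
    exact IntermediateField.subset_adjoin F S (Or.inl ha)
  have htop : IntermediateField.adjoin F S = ⊤ := by
    rw [eq_top_iff]
    rintro e -
    rw [← b.sum_repr e]
    refine sum_mem fun i _ => ?_
    rw [Algebra.smul_def]
    refine mul_mem ?_ ?_
    · exact hle (b.repr e i).2
    · exact IntermediateField.subset_adjoin F S (Or.inr ⟨i, rfl⟩)
  rw [htop] at h1
  exact Module.Finite.equiv (IntermediateField.topEquiv (F := F) (E := E)).toLinearEquiv

end Pool.Agent.Lib.MP_16285c_agX.Cn.JacM

namespace Pool.Agent.Lib.MP_16285c_agX.Cn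

open JacM in
theorem tJac (h_Der : S_Der) : S_Jac := by
  intro d k E _ _ _ _ x hx
  refine ⟨?_, ?_⟩
  · intro ρ _
    have hi : AlgebraicIndependent k (fun i => ρ (x i)) :=
      hx.ind.map' (f := ρ) ρ.toRingHom.injective
    refine ⟨hi, fin_of_alg hx _ ?_⟩
    have hr : IsTranscendenceBasis k (fun i => ρ (x i)) := by
      apply hi.isTranscendenceBasis_of_trdeg_le_of_finite
      rw [trdeg_eq hx]
      simp
    exact hr.isAlgebraic_field
  · intro Δ hΔ y hy hdet
    obtain ⟨e, he0, he⟩ := Matrix.exists_vecMul_eq_zero_iff.2 hdet
    have he' : ∀ j, ∑ i, e i * Δ i (y j) = 0 := by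
      intro j
      have h1 := congrFun he j
      simpa [Matrix.vecMul, dotProduct] using h1
    have h0 := (h_Der d k E y hy).2 (RingHom.id E) (fun a => ∑ i, e i * Δ i a)
      (by
        intro a b
        simp only [map_add, mul_add, Finset.sum_add_distrib])
      (by
        intro a b
        simp only [Derivation.leibniz, smul_eq_mul, RingHom.id_apply, mul_add,
          Finset.sum_add_distrib, Finset.mul_sum]
        congr 1 <;> exact Finset.sum_congr rfl fun i _ => by ring)
      (by intro c; simp)
      he'
    apply he0
    funext i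
    have h1 := h0 (x i)
    simp only [hΔ _ i, mul_ite, mul_one, mul_zero, Finset.sum_ite_eq', Finset.mem_univ,
      if_true] at h1
    exact h1

end Pool.Agent.Lib.MP_16285c_agX.Cn
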