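import Pool.Agent.Lib.MP_16285c_agX.Dgv.Spec
import Pool.Agent.Lib.MP_16285c_agS.Can.Spec

/-!
# Package CAN in every dimension: totally invariant discrete valuation rings of a function field of `d + 2` variables

Goal: `StmtCan` of `Dgv/Spec.lean` (section F of notes 4871, 4936 on MP_16285c_ag): an endomorphism `ρ` of a field `E` of transcendence
degree `d + 2` over a field `k` of characteristic zero with `E^ρ = k` has only finitely many totally invariant divisors.

This is the landed package `Lib/MP_16285c_agS/Can` (`d = 0`) with `Fin 2` replaced by `Fin (d + 2)` and the following changes: a divisor has a residue field of transcendence degree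
`d + 1`, so the set `Cst k O` (residue algebraic over `k`) is replaced by subrings `C` of dimension at most `d` (`Sb k d O C`), and `a ∉ Cst k O` by the algebraic independence of `d + 1` residues (`Ind k O s`).

* `Sb k d O C` : `C` is an integrally closed subring of `O` (in `E`) containing `k` and the maximal ideal, of dimension `≤ d` over `k`.
* `Ct k d O U` : the linear system `U` is contracted by `O`: all quotients `u / w`, `u ∈ U`, of some `w ∈ U` are in such a ring.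
* `Dv k t O` : `O` is a discrete valuation ring, contains `k` and does not contract `⟨1, t_i⟩`. FINITE if all `t i ∈ O`, and INFINITE otherwise.
* `Mdl`, `Exc`, `Gd`, `Dual`, `dd`, `Om`, `pb`, `ev`, `Wle`, `Tb` : as in `agS/Can/Spec.lean`; `Plc`, `cm` are taken from there, and so are the general statements
  `S_Dvr`, `S_Apx`, `S_Fib`, `S_Fbc`, `S_Loc`, `S_Int` (theorems `tDvr`, `tFib`, … in `Lib/MP_16285c_agS/Can`; `S_Fbc`, `S_Loc` have hypotheses).

Every lemma is a `Prop` with its proof in the docstring; ADAPT names the landed file of `Lib/MP_16285c_agS/Can` to start from. The files proving them are independent: used statements are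
hypotheses (name of the theorem for `S_Abc`: `tAbc`, in `Can/Abc.lean`, namespace `Pool.Agent.Lib.MP_16285c_agX.Cn`, with the used statements as hypotheses, in the order in which they are named). Helper lemmas in a namespace `AbcM`. `O.valuation a < 1` means `a ∈ 𝔪_O`.
-/

set_option autoImplicit false

namespace Pool.Agent.Lib.MP_16285c_agX.Cn

open Pool.Agent.Lib.MP_16285c_agS (InTI)
open Pool.Agent.Lib.MP_16285c_agS.Cn (Plc cm S_Dvr S_Apx S_Fib S_Fbc S_Loc S_Int)

section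

variable (k : Type) {E : Type} [Field k] [Field E] [Algebra k E]

/-- Polynomials in `d + 2` variables. -/
abbrev Po (d : ℕ) (k : Type) [Field k] : Type := MvPolynomial (Fin (d + 2)) k

/-- Polynomials in `Z` over the polynomials in `d + 2` variables. -/
abbrev PZ (d : ℕ) (k : Type) [Field k] : Type := Polynomial (MvPolynomial (Fin (d + 2)) k)

/-- `C` is an integrally closed subring of `O`, contains `k` and the maximal ideal, and its residues have transcendence degree at most `d` over `k`. -/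
structure Sb (d : ℕ) (O : ValuationSubring E) (C : Subring E) : Prop where
  con : ∀ c : k, algebraMap k E c ∈ C
  ic : ∀ a : E, IsIntegral C a → a ∈ C
  le : ∀ a ∈ C, a ∈ O
  mx : ∀ a, O.valuation a < 1 → a ∈ C
  inv : ∀ a ∈ C, O.valuation a = 1 → a⁻¹ ∈ C
  dep : ∀ c : Fin (d + 1) → E, (∀ i, c i ∈ C) →
    ∃ G : MvPolynomial (Fin (d + 1)) k, G ≠ 0 ∧ O.valuation (MvPolynomial.aeval c G) < 1

/-- The linear system `U` is contracted by `O`. -/
def Ct (d : ℕ) (O : ValuationSubring E) (U : Submodule k E) : Prop :=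
  ∃ w ∈ U, w ≠ 0 ∧ ∃ C : Subring E, Sb k d O C ∧ ∀ u ∈ U, u / w ∈ C

/-- The residues of the `s i` are algebraically independent over `k` (for `s i ∈ O`). -/
def Ind {m : ℕ} (O : ValuationSubring E) (s : Fin m → E) : Prop :=
  ∀ G : MvPolynomial (Fin m) k, G ≠ 0 → ¬ O.valuation (MvPolynomial.aeval s G) < 1

/-- The linear system spanned by `1` and the `t i`. -/
def UU {d : ℕ} (t : Fin (d + 2) → E) : Submodule k E := Submodule.span k (insert 1 (Set.range t))

/-- `O` is a divisor on the affine space with coordinates `t i` (or over it). -/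
structure Dv {d : ℕ} (t : Fin (d + 2) → E) (O : ValuationSubring E) : Prop extends Plc k O where
  nc : ¬ Ct k d O (UU k t)

/-- `t` is a transcendence basis. -/
structure Tb {d : ℕ} (t : Fin (d + 2) → E) : Prop where
  ind : AlgebraicIndependent k t
  fin : Module.Finite (IntermediateField.adjoin k (Set.range t)) E

variable {k} in
/-- The value at `(t, z)`. -/
noncomputable def ev {m : ℕ} (t : Fin m → E) (z : E) : Polynomial (MvPolynomial (Fin m) k) →+* E :=
  Polynomial.eval₂RingHom (MvPolynomial.aeval t : MvPolynomial (Fin m) k →ₐ[k] E).toRingHom z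

variable {k} in
/-- The weight of `H` is at most `N` (the variables `t i` have weight one, `Z` has weight `m`). -/
def Wle {d : ℕ} (m N : ℕ) (H : PZ d k) : Prop := ∀ c ∈ H.support, (H.coeff c).totalDegree + m * c ≤ N

/-- `E = k(t)(z)`. -/
structure Mdl {d : ℕ} (t : Fin (d + 2) → E) (z : E) (P : PZ d k) (m : ℕ) (D : Po d k) : Prop where
  mon : P.Monic
  rt : ev t z P = 0
  wt : Wle m (m * P.natDegree) P
  gen : ∀ e : E, ∃ (N : PZ d k) (c : Po d k), c ≠ 0 ∧ e * MvPolynomial.aeval t c = ev t z N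
  ne : D ≠ 0
  dis : ∃ V : PZ d k, ev t z V * ev t z P.derivative = MvPolynomial.aeval t D

/-- The exceptional divisors. -/
def Exc {d : ℕ} (t : Fin (d + 2) → E) (D : Po d k) : Set (ValuationSubring E) :=
  {O | Dv k t O ∧ ((∃ i, t i ∉ O) ∨ O.valuation (MvPolynomial.aeval t D) < 1)}

/-- The divisors which are not exceptional. -/
structure Gd {d : ℕ} (t : Fin (d + 2) → E) (D : Po d k) (O : ValuationSubring E) : Prop extends Dv k t O where
  fin : ∀ i, t i ∈ O
  unit : O.valuation (MvPolynomial.aeval t D) = 1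

variable {k} in
/-- The derivations `∂/∂t_i`. -/
def Dual {d : ℕ} (t : Fin (d + 2) → E) (Δ : Fin (d + 2) → Derivation k E E) : Prop :=
  ∀ i j, Δ i (t j) = if i = j then 1 else 0

variable {k} in
/-- The differential of `h`. -/
def dd {d : ℕ} (Δ : Fin (d + 2) → Derivation k E E) (h : E) : Fin (d + 2) → E := fun i => Δ i h

variable {k} in
/-- The forms which are regular at `O`. -/
def Om {d : ℕ} (Δ : Fin (d + 2) → Derivation k E E) (O : ValuationSubring E) : Submodule O (Fin (d + 2) → E) :=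
  Submodule.span O (Set.range fun h : O => dd Δ (h : E))

variable {k} in
/-- The pullback of forms. -/
def pb {d : ℕ} (ρ : E →ₐ[k] E) (x : Fin (d + 2) → E) (Δ : Fin (d + 2) → Derivation k E E) (w : Fin (d + 2) → E) :
    Fin (d + 2) → E :=
  fun i => ∑ j, ρ (w j) * Δ i (ρ (x j))

end

/-! ## Places -/

/-- (Cl) NEW; start from `Cst`. PROOF. Let `κ` be the residue field of `O`, a field over `k`, `s̄ i` the residues, and `κ'` the relative algebraic closure in `κ` of `k(s̄)` (`IntermediateField.adjoin k (Set.range s̄)`). `C` = the inverse image of `κ'` in `O`. `con`, `ic` (a valuation ring is integrally closed; the residue of an element integral over `C` is integral over `κ'`),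
`le`, `mx`, `inv` as in `Cst`. `dep`: `κ'` is algebraic over `k(s̄)`, so its transcendence degree over `k` is at most `d` (`Algebra.IsAlgebraic.trdeg_le_cardinalMk`), and the residues of `d + 1` elements are algebraically dependent. If `a ∈ O` and `G` is as in the third clause then the image `Ḡ ∈ k(s̄)[Z]` is not `0` and `Ḡ(ā) = 0`: `ā ∈ κ'`.
Last clause: `ā` is algebraic over `k(s̄)`; its minimal polynomial `μ` is separable (characteristic zero), `μ'(ā) ≠ 0`; a common denominator `b(s̄) ≠ 0` of its coefficients: `b(s̄) μ` is the image of some `G`, `G(s, a)` has residue `b(s̄) μ(ā) = 0` and `G'(s, a)` has residue `b(s̄) μ'(ā) ≠ 0`. -/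
def S_Cl : Prop :=
  ∀ (k E : Type) [Field k] [CharZero k] [Field E] [Algebra k E] (O : ValuationSubring E),
    (∀ c : k, algebraMap k E c ∈ O) → ∀ (d : ℕ) (s : Fin d → E), (∀ i, s i ∈ O) →
    ∃ C : Subring E, Sb k d O C ∧ (∀ i, s i ∈ C) ∧
      (∀ a ∈ O, (∃ G : Polynomial (MvPolynomial (Fin d) k),
        (∃ i, O.valuation (MvPolynomial.aeval s (G.coeff i)) = 1) ∧ O.valuation (ev s a G) < 1) → a ∈ C) ∧
      ∀ a ∈ C, ∃ G : Polynomial (MvPolynomial (Fin d) k), O.valuation (ev s a G) < 1 ∧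
        O.valuation (ev s a G.derivative) = 1

/-- (Sel) NEW. PROOF (uses `S_Cl`). Let `m' ≤ r` be maximal such that there is an injective `σ : Fin m' → Fin m` with `Ind k O (t ∘ σ)` (`m' = 0` is possible: nonzero constants have valuation one; `Nat.findGreatest` or strong induction). `C` from `S_Cl` for `s = t ∘ σ`. CLAIM: `t i ∈ C` for all `i`. Clear if `i ∈ range σ`. Otherwise
`Fin.cons i σ : Fin (m' + 1) → Fin m` is injective, so `Ind` fails for `t ∘ Fin.cons i σ = Fin.cons (t i) s` (by the choice of `m'`, or by the hypothesis if `m' = r`): there is `G ≠ 0` in `MvPolynomial (Fin (m' + 1)) k` with `v(G(t i, s)) < 1`. `G' = finSuccEquiv k m' G ≠ 0`, `ev s (t i) G' = aeval (Fin.cons (t i) s) G`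
(`MvPolynomial.induction_on`), some coefficient `c ≠ 0` of `G'` has `v(c(s)) = 1` by `Ind k O s` (`≤ 1` since `s i ∈ O`). So `t i ∈ C` by the third clause. `Sb k m' O C` implies `Sb k r O C` for `m' ≤ r` (a relation between the first `m' + 1` elements: `rename (Fin.castLE _)`). The polynomials of the last clause are those of `S_Cl`. -/
def S_Sel : Prop :=
  ∀ (k E : Type) [Field k] [CharZero k] [Field E] [Algebra k E] (O : ValuationSubring E),
    (∀ c : k, algebraMap k E c ∈ O) → ∀ (m : ℕ) (t : Fin m → E), (∀ i, t i ∈ O) → ∀ r : ℕ,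
    (¬ ∃ σ : Fin (r + 1) → Fin m, Function.Injective σ ∧ Ind k O fun j => t (σ j)) →
    ∃ (m' : ℕ) (σ : Fin m' → Fin m) (C : Subring E), m' ≤ r ∧ Function.Injective σ ∧ Sb k r O C ∧ (∀ i, t i ∈ C) ∧
      ∀ i, ∃ G : Polynomial (MvPolynomial (Fin m') k), O.valuation (ev (fun j => t (σ j)) (t i) G) < 1 ∧
        O.valuation (ev (fun j => t (σ j)) (t i) G.derivative) = 1

/-- (Dvc) ADAPT Dvc. PROOF (uses `S_Sel`). (1) Otherwise `S_Sel` (`m = d + 2`, `r = d`) gives `C` with all `t i ∈ C`; so `UU k t ⊆ C` and `w = 1` contracts. (2) Suppose `w` contracts, `1 / w, t i / w ∈ C`. `w ∈ O` (a `k`-combination of `1, t i`) and `1 / w ∈ C ⊆ O`: `w` is a unit, `w = (1 / w)⁻¹ ∈ C`,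
`t i = (t i / w) * w ∈ C` for all `i`: the `t (σ j)` contradict `dep`. (3) Let `v(t l)` be the largest one of the `v(t i)`; it is `> 1`; `t i / t l ∈ O`. If there is no `σ` then `S_Sel` for the family `t i / t l` gives `C` with all `t i / t l ∈ C`, and `1 / t l ∈ C` (`v < 1`): `w = t l` contracts. (4) Suppose `w` contracts.
`w / t l ∈ O` (combination of `1 / t l`, `t i / t l`) and `t l / w ∈ C ⊆ O`, so `t l / w` is a unit and `w / t l ∈ C`, `t i / t l = (t i / w) * (w / t l) ∈ C` for all `i`: a contradiction to `dep`. (5) from (1) and (3). -/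
def S_Dvc : Prop :=
  ∀ (d : ℕ) (k E : Type) [Field k] [CharZero k] [Field E] [Algebra k E] (t : Fin (d + 2) → E) (O : ValuationSubring E),
    (Dv k t O → (∀ i, t i ∈ O) → ∃ σ : Fin (d + 1) → Fin (d + 2), Function.Injective σ ∧ Ind k O fun j => t (σ j)) ∧
    (Plc k O → (∀ i, t i ∈ O) → (∃ σ : Fin (d + 1) → Fin (d + 2), Function.Injective σ ∧ Ind k O fun j => t (σ j)) →
      Dv k t O) ∧
    (Dv k t O → (∃ i, t i ∉ O) → ∃ l, 1 < O.valuation (t l) ∧ (∀ i, t i / t l ∈ O) ∧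
      ∃ σ : Fin (d + 1) → Fin (d + 2), Function.Injective σ ∧ Ind k O fun j => t (σ j) / t l) ∧
    (Plc k O → ∀ l, 1 < O.valuation (t l) → (∀ i, t i / t l ∈ O) →
      (∃ σ : Fin (d + 1) → Fin (d + 2), Function.Injective σ ∧ Ind k O fun j => t (σ j) / t l) → Dv k t O) ∧
    (Dv k t O → ∃ s : Fin (d + 1) → E, (∀ i, s i ∈ O) ∧ Ind k O s)

/-- (Pr) The product of linear systems. ADAPT Pr. PROOF. Let `e ∈ U * W`, `e ≠ 0`, `(u * w) / e ∈ C` for all `u ∈ U`, `w ∈ W`, `Sb k d O C`. `U`, `W` are finite dimensional and not zero: there is `u₀ ∈ U`, `u₀ ≠ 0`, with `u / u₀ ∈ O` for all `u ∈ U` (an element of a basis with the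
largest valuation), and `w₀ ∈ W` in the same way. `e / (u₀ * w₀) ∈ O`, `c := (u₀ * w₀) / e ∈ C ⊆ O`: so `c` is a unit of `O` and `c⁻¹ ∈ C`. For `u ∈ U`: `u / u₀ = ((u * w₀) / e) * c⁻¹ ∈ C`; for `w ∈ W`: `w / w₀ = ((u₀ * w) / e) * c⁻¹ ∈ C`. -/
def S_Pr : Prop :=
  ∀ (d : ℕ) (k E : Type) [Field k] [CharZero k] [Field E] [Algebra k E] (O : ValuationSubring E),
    (∀ c : k, algebraMap k E c ∈ O) → ∀ U W : Submodule k E, Module.Finite k U → Module.Finite k W →
    Ct k d O (U * W) → Ct k d O U ∧ Ct k d O W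

/-- (GN) Graded Noether normalization. ADAPT GN (`3` becomes `n + 1`). PROOF. Induction on `finrank k U`. If it is `n + 1`, take a basis. Let it be `M + 1 ≥ n + 2`, `u_0, …, u_M` a basis. The elements `y_i = u_i / u_M`, `i : Fin (n + 1)`, are algebraically dependent: `G(y) = 0`, `G ≠ 0`, `N` = total degree of `G`.
`k` is infinite: there is `λ ∈ k ^ (n + 1)` with `G(λ) ≠ 0`. Let `u'_i = u_i - λ_i u_M` for `i ≤ n` and `u'_i = u_i` for `n < i < M`, `U' = ⟨u'_0, …, u'_(M-1)⟩`. `G(λ + Y) = G(λ) + ∑_(1 ≤ |α| ≤ N) g_α Y ^ α`. So for `w ∈ U'`, `w ≠ 0`, with `U' / w ⊆ C`, and `y = u_M / w`: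
`0 = G(λ) y ^ N + ∑_(1 ≤ |α| ≤ N) g_α (u' / w) ^ α y ^ (N - |α|)`: `y` is integral over `C`, so `y ∈ C` and `U / w ⊆ C`. Apply the induction hypothesis to `U'`. -/
def S_GN : Prop :=
  ∀ (n : ℕ) (k E : Type) [Field k] [Infinite k] [Field E] [Algebra k E],
    (∀ y : Fin (n + 1) → E, ¬ AlgebraicIndependent k y) → ∀ U : Submodule k E, Module.Finite k U →
    n + 1 ≤ Module.finrank k U → ∃ s : Fin (n + 1) → E, (∀ i, s i ∈ U) ∧ LinearIndependent k s ∧
      ∀ C : Subring E, (∀ c : k, algebraMap k E c ∈ C) → (∀ a : E, IsIntegral C a → a ∈ C) →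
        ∀ w ∈ Submodule.span k (Set.range s), w ≠ 0 → (∀ i, s i / w ∈ C) → ∀ u ∈ U, u / w ∈ C

/-- (Cmp) ADAPT Cmp. PROOF (uses `S_Dvr`, with `E` as an algebra over `E` by `ρ`). Second statement: for `a ≠ 0`, `v(a) < 1` iff `a⁻¹` is not in the ring. Third: `aeval (ρ ∘ s) G = ρ (aeval s G)`. Last statement: the residue field `κ` of `O` is algebraic over the residue field `κ'` of `cm ρ O` (embedded by `ρ`): for `a ∈ O`
`∑ ρ(b_i) a ^ i = 0`, divide by the `ρ(b_i)` of largest valuation: all `ρ(b_i) ∈ O`, so `b_i ∈ cm ρ O`, and one of them is `1`. So `trdeg_k κ = trdeg_k κ'` (`Algebra.trdeg_add_eq`, or: if `κ'` had transcendence degree `< m` then so had `κ`), and `m ≤ trdeg_k κ` gives `m` independent elements of `κ'`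
(part of a transcendence basis of `κ'`); lift them to `cm ρ O`. -/
def S_Cmp : Prop :=
  ∀ (k E : Type) [Field k] [CharZero k] [Field E] [Algebra k E] (ρ : E →ₐ[k] E),
    Module.Finite ρ.fieldRange E → ∀ O : ValuationSubring E, Plc k O →
    Plc k (cm ρ O) ∧ (∀ a, (cm ρ O).valuation a < 1 ↔ O.valuation (ρ a) < 1) ∧
    (∀ (m : ℕ) (s : Fin m → E), Ind k (cm ρ O) s ↔ Ind k O fun i => ρ (s i)) ∧
    ∀ m : ℕ, (∃ s : Fin m → E, (∀ i, s i ∈ O) ∧ Ind k O s) → ∃ s : Fin m → E, (∀ i, s i ∈ cm ρ O) ∧ Ind k (cm ρ O) s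

/-! ## Divisors over affine space -/

/-- (Res) ADAPT Res. PROOF (uses `S_Dvc` (1)). `𝔭 = {G : v(G(t)) < 1}` is a prime ideal of `k[T]` (`k[t] ⊆ O`). `𝔭 ≠ 0`: a uniformizer `π` of `O` is algebraic over `k(t)`: `∑ c_i(t) π ^ i = 0`, `c_i ∈ k[T]`, `c_0 ≠ 0`; `c_0(t) ∈ 𝔪_O`. So `𝔭` contains an irreducible `R` (prime ideal, factorial ring). Let `σ` be as in `S_Dvc` (1), and `i₀` the index
which is not in the range of `σ`. Suppose `G ∈ 𝔭`, `R ∤ G`. `R` involves `T_{i₀}`: otherwise `R = rename σ R'`, `R' ≠ 0` and `v(R'(t ∘ σ)) < 1`, against `Ind`. So `R` is irreducible as a polynomial in `T_{i₀}` over the field `k(T_j : j ≠ i₀)` (Gauss) and does not divide `G` there: `A R + B G = c`, `c ∈ k[T_j : j ≠ i₀]`, `c ≠ 0`, and `v(c(t)) < 1`: a contradiction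
to `Ind`. [Or: `StmtRk3` (b) of `agN`: the quotient `k[T] / 𝔭` has transcendence degree `d + 1`, so `𝔭` is principal.] -/
def S_Res : Prop :=
  ∀ (d : ℕ) (k E : Type) [Field k] [CharZero k] [Field E] [Algebra k E] (t : Fin (d + 2) → E), Tb k t →
    ∀ O : ValuationSubring E, Dv k t O → (∀ i, t i ∈ O) →
    ∃ R : Po d k, Irreducible R ∧ ∀ G : Po d k, O.valuation (MvPolynomial.aeval t G) < 1 ↔ R ∣ G

/-- (Inf) ADAPT Inf. PROOF (uses `S_Dvc` (3)). `l`, `σ` from `S_Dvc` (3). `l ∉ range σ`, since `t l / t l - 1 = 0` is a relation: so the range of `σ` is the set of the indices `≠ l`. Let `D` be the total degree of `G = ∑ g_α T ^ α`. `G(t) / (t l) ^ D = ∑ g_α ∏_(i ≠ l) (t i / t l) ^ (α i) (1 / t l) ^ (D - |α|)`; the terms with `|α| < D` have valuation `< 1`.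
The terms with `|α| = D` have the sum `g(t (σ j) / t l)`, `g = ∑_(|α| = D) g_α S ^ (α ∘ σ)`, a nonzero polynomial (the exponents `α ∘ σ` are different). So `v(G(t) / (t l) ^ D) = 1`. -/
def S_Inf : Prop :=
  ∀ (d : ℕ) (k E : Type) [Field k] [CharZero k] [Field E] [Algebra k E] (t : Fin (d + 2) → E)
    (O : ValuationSubring E), Dv k t O → (∃ i, t i ∉ O) →
    ∃ l : Fin (d + 2), 1 < O.valuation (t l) ∧ (∀ i, t i / t l ∈ O) ∧
      ∀ G : Po d k, G ≠ 0 → O.valuation (MvPolynomial.aeval t G) = O.valuation (t l) ^ G.totalDegree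

/-- (Exc) ADAPT Exc. PROOF (uses `S_Res`, `S_Inf`, `S_Fib`). `F = k(t)` = `IntermediateField.adjoin k (Set.range t)`, every `f ∈ F` is `a(t) / b(t)`, `b ≠ 0`. For the infinite `O` all restrictions to `F` are the same set: `a(t) / b(t) ∈ O` iff `a.totalDegree ≤ b.totalDegree` (or `a = 0`) by `S_Inf` (`v(t l) > 1`). For the finite `O` with
`v(D(t)) < 1` let `R` be as in `S_Res`: `R ∣ D`, and `R` determines the restriction: for relatively prime `a, b`: `a(t) / b(t) ∈ O` iff `R ∤ b`. There are finitely many `R` up to units. So `Exc` is contained in a finite union of sets which are finite by `S_Fib`. -/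
def S_Exc : Prop :=
  ∀ (d : ℕ) (k E : Type) [Field k] [CharZero k] [Field E] [Algebra k E] (t : Fin (d + 2) → E), Tb k t →
    ∀ D : Po d k, D ≠ 0 → (Exc k t D).Finite

/-- (Mdl) ADAPT Mdl (same proof). -/
def S_Mdl : Prop :=
  ∀ (d : ℕ) (k E : Type) [Field k] [CharZero k] [Field E] [Algebra k E] (t : Fin (d + 2) → E), Tb k t →
    ∃ (z : E) (P : PZ d k) (m : ℕ) (D : Po d k), Mdl k t z P m D

/-- (Unr) Divisors with `D(t) ∉ 𝔪_O` are not ramified. ADAPT Unr (same proof; the docstring there is complete and does not use the number of variables). -/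
def S_Unr : Prop :=
  ∀ (d : ℕ) (k E : Type) [Field k] [CharZero k] [Field E] [Algebra k E] (t : Fin (d + 2) → E) (z : E) (P : PZ d k)
    (m : ℕ) (D : Po d k), Tb k t → Mdl k t z P m D → ∀ O : ValuationSubring E, Gd k t D O →
    ∀ R : Po d k, Irreducible R → (∀ G : Po d k, O.valuation (MvPolynomial.aeval t G) < 1 ↔ R ∣ G) →
    (∀ e ∈ O, ∃ N C : PZ d k, O.valuation (ev t z C) = 1 ∧ e * ev t z C = ev t z N) ∧
    (∀ e : E, O.valuation e < 1 → e / MvPolynomial.aeval t R ∈ O) ∧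
    ∀ O₁ : ValuationSubring E, Plc k O₁ → (∀ i, t i ∈ O₁) →
      (∀ N : PZ d k, O.valuation (ev t z N) < 1 ↔ O₁.valuation (ev t z N) < 1) → O₁ = O

/-- (VR) The valuation rings of `k(x)`, `x` a family of `n + 1` independent elements. ADAPT VR (same proof; at infinity `(x 0)⁻¹` is the uniformizer). -/
def S_VR : Prop :=
  ∀ (n : ℕ) (k F : Type) [Field k] [Field F] [Algebra k F] (x : Fin (n + 1) → F), AlgebraicIndependent k x →
    (∀ f : F, ∃ a b : MvPolynomial (Fin (n + 1)) k, b ≠ 0 ∧ f * MvPolynomial.aeval x b = MvPolynomial.aeval x a) →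
    (∀ R : MvPolynomial (Fin (n + 1)) k, Irreducible R → ∃ V : ValuationSubring F, IsDiscreteValuationRing V ∧ ∀ f : F, f ∈ V ↔
      ∃ a b : MvPolynomial (Fin (n + 1)) k, ¬ R ∣ b ∧ f * MvPolynomial.aeval x b = MvPolynomial.aeval x a) ∧
    ∃ V : ValuationSubring F, IsDiscreteValuationRing V ∧ ∀ f : F, f ∈ V ↔
      ∃ a b : MvPolynomial (Fin (n + 1)) k, b ≠ 0 ∧ a.totalDegree ≤ b.totalDegree ∧
        f * MvPolynomial.aeval x b = MvPolynomial.aeval x a

/-! ## Derivations -/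

/-- (Der) ADAPT Der (same proof: existence and uniqueness for the transcendence basis `t` of `d + 2` elements). -/
def S_Der : Prop :=
  ∀ (d : ℕ) (k E : Type) [Field k] [CharZero k] [Field E] [Algebra k E] (t : Fin (d + 2) → E), Tb k t →
    (∃ Δ : Fin (d + 2) → Derivation k E E, Dual t Δ) ∧
    ∀ (φ : E →+* E) (δ : E → E), (∀ a b, δ (a + b) = δ a + δ b) →
      (∀ a b, δ (a * b) = φ a * δ b + φ b * δ a) → (∀ c : k, δ (algebraMap k E c) = 0) →
      (∀ j, δ (t j) = 0) → ∀ a, δ a = 0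

/-- (DO) ADAPT DO (uses `S_Res`, `S_Unr` (i); same proof). -/
def S_DO : Prop :=
  ∀ (d : ℕ) (k E : Type) [Field k] [CharZero k] [Field E] [Algebra k E] (t : Fin (d + 2) → E) (z : E) (P : PZ d k)
    (m : ℕ) (D : Po d k), Tb k t → Mdl k t z P m D → ∀ Δ : Fin (d + 2) → Derivation k E E, Dual t Δ →
    ∀ O : ValuationSubring E, Gd k t D O → ∀ e ∈ O, ∀ i, Δ i e ∈ O

/-- (DV) ADAPT DV (uses `S_Res`, `S_Inf`; same proof). -/
def S_DV : Prop :=
  ∀ (d : ℕ) (k E : Type) [Field k] [CharZero k] [Field E] [Algebra k E] (t : Fin (d + 2) → E), Tb k t →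
    ∀ Δ : Fin (d + 2) → Derivation k E E, Dual t Δ → ∀ O : ValuationSubring E, Dv k t O →
    ∀ f ∈ IntermediateField.adjoin k (Set.range t), f ∈ O → ∀ i, Δ i f ∈ O

/-- (DBd) ADAPT DBd (uses `S_Dvr`, `S_Loc`, `S_Int`, `S_DV`; same proof). -/
def S_DBd : Prop :=
  ∀ (d : ℕ) (k E : Type) [Field k] [CharZero k] [Field E] [Algebra k E] (t : Fin (d + 2) → E), Tb k t →
    ∀ Δ : Fin (d + 2) → Derivation k E E, Dual t Δ → ∀ O : ValuationSubring E, Dv k t O →
    ∃ B : E, B ≠ 0 ∧ ∀ h ∈ O, ∀ i, B * Δ i h ∈ O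

/-! ## No contraction -/

/-- (Jac) ADAPT Jac. PROOF (uses `S_Der`). First: `ρ` is injective, so the `y_j = ρ(x_j)` are algebraically independent, `trdeg_k E = d + 2`, so `E` is algebraic over `k(y)`, and finitely generated over `k`, so finite over `k(y)`. Second: if the determinant is `0` then there is `e ≠ 0` with `∑ i, e_i Δ_i(y_j) = 0` for all `j`
(`Matrix.exists_vecMul_eq_zero_iff`); the derivation `∑ e_i Δ_i` vanishes on the `y_j`, so it is `0` (uniqueness in `S_Der` for `y`, `φ = id`), and `e_i = (∑ e Δ)(x_i) = 0`. -/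
def S_Jac : Prop :=
  ∀ (d : ℕ) (k E : Type) [Field k] [CharZero k] [Field E] [Algebra k E] (x : Fin (d + 2) → E), Tb k x →
    (∀ ρ : E →ₐ[k] E, Module.Finite ρ.fieldRange E → Tb k fun i => ρ (x i)) ∧
    ∀ Δ : Fin (d + 2) → Derivation k E E, Dual x Δ → ∀ y : Fin (d + 2) → E, Tb k y →
      (Matrix.of fun i j => Δ i (y j)).det ≠ 0

/-- (TbC) ADAPT TbC (same proof). -/
def S_TbC : Prop :=
  ∀ (d : ℕ) (k E : Type) [Field k] [CharZero k] [Field E] [Algebra k E] (x : Fin (d + 2) → E), Tb k x →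
    ∀ t : Fin (d + 2) → E, (∀ C : Subring E, (∀ c : k, algebraMap k E c ∈ C) → (∀ a : E, IsIntegral C a → a ∈ C) →
      (∀ a ∈ C, a⁻¹ ∈ C) → (∀ i, t i ∈ C) → ∀ i, x i ∈ C) → Tb k t

/-- (F1a) ADAPT F1a (new determinant argument). PROOF (uses `S_Sel`, `S_Cmp`, `S_Dvc`, `S_Mdl`, `S_Exc`, `S_Der`, `S_DO`, `S_Jac`). `z, P, m, D` from `S_Mdl`, `Δ` from `S_Der`, `y_j = ρ(x_j)`, `J = det (Δ_i(y_j)) ≠ 0` (`S_Jac`). By `gen` there is `c ∈ k[T]`, `c ≠ 0`, with `c(x) y_j`, `c(x) J⁻¹` in the image of `PZ d k`. `O` in `Dv k x`,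
not in `Exc k x (D * c)` (finitely many are in it): finite, `Gd k x D O`, `v(c(x)) = 1`, `y_j ∈ O`, `J⁻¹ ∈ O`, `Δ_i(O) ⊆ O` (`S_DO`). Claim: `Dv k x (cm ρ O)`. `Plc` by `S_Cmp`. `x_j ∈ cm ρ O`. By `S_Dvc` (2) it is enough that there is an injective `σ` with `Ind k (cm ρ O) (x ∘ σ)`, i.e. (`S_Cmp`) `Ind k O (y ∘ σ)`. Otherwise `S_Sel` (`t = y`, `r = d`)
gives `m' ≤ d`, `σ : Fin m' → Fin (d + 2)`, `s = y ∘ σ`, and for every `j` a polynomial `G_j` with `v(G_j(s, y_j)) < 1`, `v(G_j'(s, y_j)) = 1`. Let `π` be a uniformizer, `G_j(s, y_j) = π h_j`, `h_j ∈ O`. Apply `Δ_i`: `G_j'(s, y_j) Δ_i(y_j) + ∑_l (∂_l G_j)(s, y_j) Δ_i(y_(σ l)) = h_j Δ_i(π) + π Δ_i(h_j)`. So in the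
residue field `κ` every column `(Δ_i(y_j))_i` of the matrix is in the span of the `m'` columns `(Δ_i(y_(σ l)))_i` and of the vector `(Δ_i(π))_i`: at most `d + 1` vectors in `κ ^ (d + 2)`. So `det = 0` in `κ`, `v(J) < 1`: a contradiction to `J⁻¹ ∈ O`. -/
def S_F1a : Prop :=
  ∀ (d : ℕ) (k E : Type) [Field k] [CharZero k] [Field E] [Algebra k E] (x : Fin (d + 2) → E), Tb k x →
    ∀ ρ : E →ₐ[k] E, Module.Finite ρ.fieldRange E →
    {O : ValuationSubring E | Dv k x O ∧ ¬ Dv k x (cm ρ O)}.Finite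

/-- (F1) ADAPT F1. PROOF (uses `S_Dvc` (5), `S_Pr`, `S_GN`, `S_Cmp`, `S_F1a`, `S_TbC`). Let `X` = the finite set of the rings `cm ρ O`, `Dv k x O`, `¬ Dv k x (cm ρ O)` (`S_F1a`). For `O' = cm ρ O ∈ X` there is `f : Fin (d + 1) → O'` with `Ind k O' f` (`S_Dvc` (5) for `O`, `S_Cmp`); `¬ Ct k d O' ⟨1, f_j⟩`: if `w` in it contracts, `1 / w, f_j / w ∈ C'`,
then `w ∈ O'`, `1 / w ∈ O'`, `w` is a unit, `w ∈ C'` and `f_j = (f_j / w) * w ∈ C'`, against `dep`. Let `U = ⟨1, x_i⟩ * ∏_(O' ∈ X) ⟨1, f_j⟩` (finite dimensional, it contains `1` and the `x_i`, which are independent, so `finrank ≥ d + 3`). By `S_Pr` (and induction): `¬ Ct k d O U` for all `O` with `Dv k x O`, and `¬ Ct k d (cm ρ O) U` for those `O`: if `Dv k x (cm ρ O)`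
because of the factor `⟨1, x_i⟩`, otherwise because of `⟨1, f_j⟩`. `d + 3` elements of `E` are algebraically dependent. `s : Fin (d + 3) → E` from `S_GN` (`n = d + 2`; `k` is infinite), `t i = s (i.succ) / s 0`. If `O'` is a place over `k` (`Plc`) and `Ct k d O' (UU k t)` then there are `C'` and `w' ≠ 0` with `1 / w', t_i / w' ∈ C'`, `w = s 0 * w' ∈ span s`,
`s i / w ∈ C'`, so `U / w ⊆ C'` by `S_GN` (`Sb.con`, `Sb.ic`), and `w ∈ span s ⊆ U`: `Ct k d O' U`. So `Dv k t O` and `Dv k t (cm ρ O)` for all `O` with `Dv k x O`. `Tb k t` by `S_TbC`: let `C` be as there; `w = s 0`: `s i / s 0 ∈ C`, so `U / s 0 ⊆ C` by `S_GN`, so `x_i = (x_i / s 0) / (1 / s 0) ∈ C`. -/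
def S_F1 : Prop :=
  ∀ (d : ℕ) (k E : Type) [Field k] [CharZero k] [Field E] [Algebra k E] (x : Fin (d + 2) → E), Tb k x →
    ∀ ρ : E →ₐ[k] E, Module.Finite ρ.fieldRange E →
    ∃ t : Fin (d + 2) → E, Tb k t ∧ ∀ O : ValuationSubring E, Dv k x O → Dv k t O ∧ Dv k t (cm ρ O)

/-! ## The trace formula. The coordinates of `y : Fin (d + 2) → κ` are `y i.castSucc`, `i : Fin (d + 1)` (independent), and `y (Fin.last (d + 1))`. -/

/-- (TrA) ADAPT TrA. PROOF (uses `S_VR`). `y' i = y i.castSucc`, `K₁ = k(y')`, `D` = total degree of `R`, `δ = P.natDegree`, `b'` = `y (Fin.last (d + 1))`. (1) `b'` is integral over `k[y']`: `R(y) = 0`; as a polynomial in `b'` its leading term is `r b' ^ D` with the constant `r ≠ 0`. `w` is integral over `k[y]` (`P` monic). Every `a ∈ κ` is a quotient of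
polynomials in `y, w`: `κ = K₁(b', w)` is finite over `K₁`. (2) `b' ^ b w ^ c` is integral over `k[y']`, so its trace is (`Algebra.isIntegral_trace`), and it is in `K₁`; `k[y'] ≅ MvPolynomial (Fin (d + 1)) k` is factorial, so integrally closed in its field of fractions `K₁`: the trace is `Θ(y')`. (3) Let `V` be the valuation ring at infinity of `K₁` (`S_VR`, `n = d`,
`x = y'`): `1 / y' 0, y' i / y' 0 ∈ V`. `b' / y' 0` is integral over `V`: divide `R(y) = 0` by `(y' 0) ^ D`. `w / (y' 0) ^ m` is integral over `V[b' / y' 0]`: divide `∑ P_l(y) w ^ l = 0` by `(y' 0) ^ (m δ)`, `deg P_l ≤ m (δ - l)`. So `b' ^ b w ^ c / (y' 0) ^ (b + m c)` is integral over `V` and so is its trace `Θ(y') / (y' 0) ^ (b + m c)`; `V` is integrally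
closed: it is in `V`, `Θ(y') q(y') = (y' 0) ^ (b + m c) p(y')`, `deg p ≤ deg q`, `q ≠ 0`, and `deg Θ ≤ b + m c` (independence; `totalDegree` of products over a field; `Θ = 0` is clear). -/
def S_TrA : Prop :=
  ∀ (d : ℕ) (k κ : Type) [Field k] [CharZero k] [Field κ] [Algebra k κ] (y : Fin (d + 2) → κ) (w : κ) (R : Po d k)
    (P : PZ d k) (m : ℕ), AlgebraicIndependent k (fun i : Fin (d + 1) => y i.castSucc) →
    (∀ a : κ, ∃ N C : PZ d k, ev y w C ≠ 0 ∧ a * ev y w C = ev y w N) →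
    MvPolynomial.aeval y R = 0 → R ≠ 0 → MvPolynomial.coeff (Finsupp.single (Fin.last (d + 1)) R.totalDegree) R ≠ 0 →
    P.Monic → ev y w P = 0 → Wle m (m * P.natDegree) P →
    FiniteDimensional (IntermediateField.adjoin k (Set.range fun i : Fin (d + 1) => y i.castSucc)) κ ∧
    ∃ Θ : ℕ → ℕ → MvPolynomial (Fin (d + 1)) k, ∀ b c, (Θ b c).totalDegree ≤ b + m * c ∧
      MvPolynomial.aeval (fun i : Fin (d + 1) => y i.castSucc) (Θ b c) =
        algebraMap (IntermediateField.adjoin k (Set.range fun i : Fin (d + 1) => y i.castSucc)) κ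
          (Algebra.trace (IntermediateField.adjoin k (Set.range fun i : Fin (d + 1) => y i.castSucc)) κ
            (y (Fin.last (d + 1)) ^ b * w ^ c))

/-- (TrB) ADAPT TrB. PROOF (uses `S_TrA`). Notation of `S_TrA`; `R = ∑ r_(α, j) T' ^ α T_last ^ j` (`T'` = the first `d + 1` variables), `P = ∑_l P_l Z ^ l`, `D` = total degree of `R`, `δ = P.natDegree`. Put
`H = ∑_(α, j) ∑_(a < j) ∑_l ∑_(c < l) r_(α, j) T' ^ α T_last ^ a P_l Z ^ c Θ_(j-1-a, l-1-c)(T')`. Weights: `|α| + a + (j - 1 - a) + deg P_l + m c + m (l - 1 - c) ≤ (D - 1) + m (δ - l) + m (l - 1) ≤ D + m δ`. Let `κ', y', w'` be given, `Ω` an algebraic closure of `κ'`, an algebra over `K₁ = k(y i.castSucc)` by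
`y i.castSucc ↦ y' i.castSucc` (both families are independent). For `a ∈ κ` the image of `Tr(a)` in `Ω` is `∑_τ τ(a)`, over the `K₁`-embeddings `τ : κ → Ω` (`trace_eq_sum_embeddings`). So `H(y', w') = ∑_τ A_τ B_τ` as in the landed file, `A_τ (y'_last - τ y_last) = 0`, and `B_τ (w' - τ w) = 0` if `τ y_last = y'_last`. So the term of `τ` is `0` unless
`τ y_last = y'_last` and `τ w = w'`. If `H(y', w') ≠ 0` there is such a `τ`, and `N(y', w') = τ(N(y, w))` for all `N`. For `κ' = κ`, `(y', w') = (y, w)`: only the inclusion has a nonzero term, `R_last(y) P_z(y, w)`. -/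
def S_TrB : Prop :=
  ∀ (d : ℕ) (k κ : Type) [Field k] [CharZero k] [Field κ] [Algebra k κ] (y : Fin (d + 2) → κ) (w : κ) (R : Po d k)
    (P : PZ d k) (m : ℕ), AlgebraicIndependent k (fun i : Fin (d + 1) => y i.castSucc) →
    (∀ a : κ, ∃ N C : PZ d k, ev y w C ≠ 0 ∧ a * ev y w C = ev y w N) →
    MvPolynomial.aeval y R = 0 → R ≠ 0 → MvPolynomial.coeff (Finsupp.single (Fin.last (d + 1)) R.totalDegree) R ≠ 0 →
    P.Monic → ev y w P = 0 → Wle m (m * P.natDegree) P →
    ∃ H : PZ d k, Wle m (R.totalDegree + m * P.natDegree) H ∧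
      ev y w H = MvPolynomial.aeval y (MvPolynomial.pderiv (Fin.last (d + 1)) R) * ev y w P.derivative ∧
      ∀ (κ' : Type) [Field κ'] [Algebra k κ'] (y' : Fin (d + 2) → κ') (w' : κ'),
        AlgebraicIndependent k (fun i : Fin (d + 1) => y' i.castSucc) →
        MvPolynomial.aeval y' R = 0 → ev y' w' P = 0 →
        ev y' w' H = 0 ∨ ∀ N : PZ d k, ev y w N = 0 ↔ ev y' w' N = 0

/-- (F3v) One direction. ADAPT F3 (the part for one value `c`; there `v = (c, 1)`). PROOF (uses `S_TrB`, `S_Unr`, `S_Dvc`). `v i.castSucc = c i`, `v (Fin.last _) = 1`. Let `φ` be the automorphism `T_i ↦ T_i + c_i T_last` (`i = castSucc`), `T_last ↦ T_last` of `k[T]`, `R^c = φ R`, `P^c = φ P` (on the coefficients), `y' i = t i.castSucc - c_i t_last`, `y' last = t_last`: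
`(φ N)(y', z) = N(t, z)`. Total degrees and weights do not change. The coefficient of `T_last ^ D` in `R^c` is `R^top(v) ≠ 0` (`R^top` = the form of degree `D` of `R`). Let `κ` be the residue field of `O`, `y` = residues of `y'`, `w` = residue of `z`. `R^c(y) = 0`. The `y i.castSucc` are algebraically independent over `k`: `y_last` is integral over `k[y i.castSucc]`, so all residues of
the `t i` are algebraic over `k(y i.castSucc)`; by `S_Dvc` (1) `d + 1` of them are independent, so the `d + 1` elements `y i.castSucc` are (transcendence degree). Every element of `κ` is a quotient of polynomials in `y, w` by `S_Unr` (i). So `S_TrB` gives `H^c ∈ PZ d k`; `H = φ⁻¹ H^c`: `H(t, z) ≡ (∂_last R^c)(y) P_z = (∑ v_i R_i)(t) P_z(t, z) mod 𝔪_O` (chain rule). At `O₁ ≠ O` with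
`v₁(R(t)) < 1` the residues `(y'', w'')` of the same elements in the residue field of `O₁` satisfy the same hypotheses: either `v₁(H(t, z)) < 1`, or `v(N(t, z)) < 1 ↔ v₁(N(t, z)) < 1` for all `N` (replace `N` by `φ N`), which gives `O₁ = O` by `S_Unr` (iii). -/
def S_F3v : Prop :=
  ∀ (d : ℕ) (k E : Type) [Field k] [CharZero k] [Field E] [Algebra k E] (t : Fin (d + 2) → E) (z : E) (P : PZ d k)
    (m : ℕ) (D : Po d k), Tb k t → Mdl k t z P m D → ∀ O : ValuationSubring E, Gd k t D O →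
    ∀ R : Po d k, Irreducible R → (∀ G : Po d k, O.valuation (MvPolynomial.aeval t G) < 1 ↔ R ∣ G) →
    ∀ v : Fin (d + 2) → k, v (Fin.last (d + 1)) = 1 →
      MvPolynomial.eval v (MvPolynomial.homogeneousComponent R.totalDegree R) ≠ 0 →
    ∃ H : PZ d k, Wle m (R.totalDegree + m * P.natDegree) H ∧
      O.valuation (ev t z H - MvPolynomial.aeval t (∑ i, MvPolynomial.C (v i) * MvPolynomial.pderiv i R) *
        ev t z P.derivative) < 1 ∧
      ∀ O₁ : ValuationSubring E, Dv k t O₁ → (∀ j, t j ∈ O₁) →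
        O₁.valuation (MvPolynomial.aeval t R) < 1 → O₁ ≠ O → O₁.valuation (ev t z H) < 1

/-- (Dir) NEW, directions. PROOF. `Q = R^top(T_0, …, T_d, 1)` in `MvPolynomial (Fin (d + 1)) k` is not `0` (the monomials of degree `D` in `d + 2` variables go to different monomials). Choose `c` with `Q(c) ≠ 0` (`MvPolynomial.funext`, `k` infinite), and for every `i` some `s_i ≠ 0` with `Q(c + s_i e_i) ≠ 0`
(the polynomial `X ↦ Q(c + X e_i)` in one variable is not `0` at `0`, so it has finitely many roots). `v = (c, 1)`, `v_i = (c + s_i e_i, 1)`. -/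
def S_Dir : Prop :=
  ∀ (d : ℕ) (k : Type) [Field k] [Infinite k] (R : Po d k), R ≠ 0 → ∃ (v : Fin (d + 2) → k) (s : Fin (d + 1) → k),
    v (Fin.last (d + 1)) = 1 ∧ (∀ i, s i ≠ 0) ∧
    MvPolynomial.eval v (MvPolynomial.homogeneousComponent R.totalDegree R) ≠ 0 ∧
    ∀ i : Fin (d + 1), MvPolynomial.eval (Function.update v i.castSucc (v i.castSucc + s i))
      (MvPolynomial.homogeneousComponent R.totalDegree R) ≠ 0

/-- (F3) PROOF (uses `S_F3v`, `S_Dir`). `v, s` from `S_Dir`, `H*` from `S_F3v` for `v`, `H^i` for `v + s_i e_i` (`Function.update`; its last coordinate is `1` because `i.castSucc ≠ Fin.last _`). For `i = castSucc i'`: `H i = (H^i - H*) / s_i` (multiplication by the constant `C (C s_i⁻¹)`), with `∑ (v + s_i e_i)_j R_j - ∑ v_j R_j = s_i R_i`;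
`H last = H* - ∑_(i : Fin (d + 1)) v_i H (castSucc i)`. All clauses are linear (`Wle` is stable under `k`-combinations; `O` contains `k`). -/
def S_F3 : Prop :=
  ∀ (d : ℕ) (k E : Type) [Field k] [CharZero k] [Field E] [Algebra k E] (t : Fin (d + 2) → E) (z : E) (P : PZ d k)
    (m : ℕ) (D : Po d k), Tb k t → Mdl k t z P m D → ∀ O : ValuationSubring E, Gd k t D O →
    ∀ R : Po d k, Irreducible R → (∀ G : Po d k, O.valuation (MvPolynomial.aeval t G) < 1 ↔ R ∣ G) →
    ∃ H : Fin (d + 2) → PZ d k, ∀ i, Wle m (R.totalDegree + m * P.natDegree) (H i) ∧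
      O.valuation (ev t z (H i) -
        MvPolynomial.aeval t (MvPolynomial.pderiv i R) * ev t z P.derivative) < 1 ∧
      ∀ O₁ : ValuationSubring E, Dv k t O₁ → (∀ j, t j ∈ O₁) →
        O₁.valuation (MvPolynomial.aeval t R) < 1 → O₁ ≠ O → O₁.valuation (ev t z (H i)) < 1

/-! ## Forms -/

/-- (Inz) ADAPT Inz (same proof). -/
def S_Inz : Prop :=
  ∀ (d : ℕ) (k E : Type) [Field k] [CharZero k] [Field E] [Algebra k E] (t : Fin (d + 2) → E) (z : E) (P : PZ d k)
    (m : ℕ) (D : Po d k), Mdl k t z P m D → ∀ O : ValuationSubring E, (∀ c : k, algebraMap k E c ∈ O) →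
    ∀ l : Fin (d + 2), 1 < O.valuation (t l) → (∀ i, t i / t l ∈ O) → ∀ (N : ℕ) (H : PZ d k), Wle m N H →
    O.valuation (ev t z H) ≤ O.valuation (t l) ^ N

/-- (F4e) ADAPT F4e (uses `S_Der`, `S_DO`; same proof: `R ∣ pderiv i R` for all `i`, so all are `0` by degrees, and `R` is a constant). -/
def S_F4e : Prop :=
  ∀ (d : ℕ) (k E : Type) [Field k] [CharZero k] [Field E] [Algebra k E] (x : Fin (d + 2) → E), Tb k x →
    ∀ Δ : Fin (d + 2) → Derivation k E E, Dual x Δ → ∀ (t : Fin (d + 2) → E) (z : E) (P : PZ d k) (m : ℕ) (D : Po d k),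
    Tb k t → Mdl k t z P m D → ∀ O : ValuationSubring E, Gd k t D O → ∀ R : Po d k, Irreducible R →
    (∀ G : Po d k, O.valuation (MvPolynomial.aeval t G) < 1 ↔ R ∣ G) →
    (MvPolynomial.aeval t R)⁻¹ • dd Δ (MvPolynomial.aeval t R) ∉ Om Δ O

/-- (F4) Logarithmic forms with bounded poles. ADAPT F4 (uses `S_Res`, `S_Inf`, `S_Inz`, `S_Unr`, `S_F3`, `S_F4e`; same proof, sums over `Fin (d + 2)`). -/
def S_F4 : Prop :=
  ∀ (d : ℕ) (k E : Type) [Field k] [CharZero k] [Field E] [Algebra k E] (x : Fin (d + 2) → E), Tb k x →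
    ∀ Δ : Fin (d + 2) → Derivation k E E, Dual x Δ → ∀ (t : Fin (d + 2) → E) (z : E) (P : PZ d k) (m : ℕ) (D : Po d k),
    Tb k t → Mdl k t z P m D → ∃ B : ValuationSubring E → E, (∀ O₁, B O₁ ≠ 0) ∧
      (∀ O₁, Dv k t O₁ → B O₁ ∈ O₁) ∧ (∀ O₁, Gd k t D O₁ → B O₁ = 1) ∧
      ∀ O : ValuationSubring E, Gd k t D O → ∃ (ω : Fin (d + 2) → E) (r : E), r ≠ 0 ∧ O.valuation r < 1 ∧
        (∀ e, O.valuation e < 1 → e / r ∈ O) ∧ ω - r⁻¹ • dd Δ r ∈ Om Δ O ∧ ω ∉ Om Δ O ∧
        ∀ O₁ : ValuationSubring E, Dv k t O₁ → O₁ ≠ O → B O₁ • ω ∈ Om Δ O₁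

/-- (Pb) ADAPT Pb (uses `S_Der`; same proof). -/
def S_Pb : Prop :=
  ∀ (d : ℕ) (k E : Type) [Field k] [CharZero k] [Field E] [Algebra k E] (x : Fin (d + 2) → E), Tb k x →
    ∀ Δ : Fin (d + 2) → Derivation k E E, Dual x Δ → ∀ ρ : E →ₐ[k] E,
    (∀ h, pb ρ x Δ (dd Δ h) = dd Δ (ρ h)) ∧ (∀ (a : E) (w : Fin (d + 2) → E), pb ρ x Δ (a • w) = ρ a • pb ρ x Δ w) ∧
    (∀ w w' : Fin (d + 2) → E, pb ρ x Δ (w + w') = pb ρ x Δ w + pb ρ x Δ w') ∧
    ∀ (O : ValuationSubring E) (w : Fin (d + 2) → E), w ∈ Om Δ (cm ρ O) → pb ρ x Δ w ∈ Om Δ O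

/-- (F5) ADAPT F5 (uses `S_Pb`; same proof). -/
def S_F5 : Prop :=
  ∀ (d : ℕ) (k E : Type) [Field k] [CharZero k] [Field E] [Algebra k E] (x : Fin (d + 2) → E), Tb k x →
    ∀ Δ : Fin (d + 2) → Derivation k E E, Dual x Δ → ∀ ρ : E →ₐ[k] E,
    (∀ (O : ValuationSubring E) (ω : Fin (d + 2) → E) (r : E), InTI k E ρ O → r ≠ 0 → O.valuation r < 1 →
      (∀ e, O.valuation e < 1 → e / r ∈ O) → ω - r⁻¹ • dd Δ r ∈ Om Δ O → pb ρ x Δ ω - ω ∈ Om Δ O) ∧
    ∀ (O₁ : ValuationSubring E) (ω : Fin (d + 2) → E) (b₁ b₂ : E), b₁ ∈ O₁ → b₂ ∈ cm ρ O₁ →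
      b₁ • ω ∈ Om Δ O₁ → b₂ • ω ∈ Om Δ (cm ρ O₁) → (b₁ * ρ b₂) • (pb ρ x Δ ω - ω) ∈ Om Δ O₁

/-! ## Finiteness -/

/-- (Qf) ADAPT Qf. PROOF (uses `S_VR` (`n = d + 1`), `S_Int`, `S_Dvc`). As in the landed file; only the step `Dv k x O` for a discrete valuation ring `O` with `O ∩ F = V` (`V` the ring of the irreducible `R`) changes: `k, x_i ∈ V`, `R` is not a constant, so some variable `T_{i₀}` occurs in it (`0 < R.degreeOf i₀`); `σ = i₀.succAbove`; if `G ≠ 0` in `d + 1` variables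
and `v(G(x ∘ σ)) < 1` then `R ∣ rename σ G` (otherwise `1 / G(x ∘ σ) ∈ V`), but `T_{i₀}` does not occur in `rename σ G ≠ 0` (`MvPolynomial.degreeOf_mul_eq`): a contradiction. So `Ind k O (x ∘ σ)`, and `Dv k x O` by `S_Dvc` (2). -/
def S_Qf : Prop :=
  ∀ (d : ℕ) (k E : Type) [Field k] [CharZero k] [Field E] [Algebra k E] (x : Fin (d + 2) → E), Tb k x →
    ∀ A : ValuationSubring E → E, (∀ O, A O ≠ 0) → {O | Dv k x O ∧ A O ≠ 1}.Finite →
    ∃ c : Po d k, c ≠ 0 ∧ ∀ b : E, (∀ O, Dv k x O → A O * b ∈ O) →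
      ∀ e : E, (∀ O, Dv k x O → (∀ i, x i ∈ O) → e ∈ O) → ∃ p : Po d k,
        algebraMap (IntermediateField.adjoin k (Set.range x)) E
          (Algebra.trace (IntermediateField.adjoin k (Set.range x)) E (MvPolynomial.aeval x c * b * e)) =
        MvPolynomial.aeval x p

/-- (Qi) ADAPT Qi. PROOF (uses `S_VR` (`n = d + 1`), `S_Int`, `S_Dvc`, `S_Fib`). As in the landed file; only the step `Dv k x O` for a discrete valuation ring `O` with `O ∩ F = V` (`V` = the ring at infinity) changes: `S_Dvc` (4) with `l = 0`, `σ = Fin.succ`: for `G ≠ 0` in `d + 1` variables `G(x_1 / x_0, …) (x 0) ^ (deg G)` is the value of a nonzero form of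
degree `deg G` in `d + 2` variables, so `G(x_1 / x_0, …)` is a unit of `V` and of `O`. -/
def S_Qi : Prop :=
  ∀ (d : ℕ) (k E : Type) [Field k] [CharZero k] [Field E] [Algebra k E] (x : Fin (d + 2) → E), Tb k x →
    ∀ A : ValuationSubring E → E, (∀ O, A O ≠ 0) → ∀ e : E, ∃ n : ℕ,
      ∀ b : E, (∀ O, Dv k x O → A O * b ∈ O) → ∀ a c : Po d k, c ≠ 0 →
        algebraMap (IntermediateField.adjoin k (Set.range x)) E
          (Algebra.trace (IntermediateField.adjoin k (Set.range x)) E (b * e)) * MvPolynomial.aeval x c =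
          MvPolynomial.aeval x a → a.totalDegree ≤ c.totalDegree + n

/-- (Q) ADAPT Q (uses `S_Qf`, `S_Qi`; same proof). -/
def S_Q : Prop :=
  ∀ (d : ℕ) (k E : Type) [Field k] [CharZero k] [Field E] [Algebra k E] (x : Fin (d + 2) → E), Tb k x →
    ∀ A : ValuationSubring E → E, (∀ O, A O ≠ 0) → {O | Dv k x O ∧ A O ≠ 1}.Finite →
    ∃ Q : Submodule k E, Module.Finite k Q ∧ ∀ b : E, (∀ O, Dv k x O → A O * b ∈ O) → b ∈ Q

/-- (Q2) ADAPT Q2 (uses `S_Q`, `S_Mdl`, `S_Exc`, `S_DO`, `S_DBd`; same proof, `Q₂ = {w : ∀ i, w i ∈ Q}`). -/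
def S_Q2 : Prop :=
  ∀ (d : ℕ) (k E : Type) [Field k] [CharZero k] [Field E] [Algebra k E] (x : Fin (d + 2) → E), Tb k x →
    ∀ Δ : Fin (d + 2) → Derivation k E E, Dual x Δ →
    ∀ A : ValuationSubring E → E, (∀ O, A O ≠ 0) → {O | Dv k x O ∧ A O ≠ 1}.Finite →
    ∃ Q : Submodule k (Fin (d + 2) → E), Module.Finite k Q ∧
      ∀ w : Fin (d + 2) → E, (∀ O, Dv k x O → A O • w ∈ Om Δ O) → w ∈ Q

/-- (F7) ADAPT F7. PROOF. Let `q = finrank k Q`, `W` = the `k`-span of `ω 0, …, ω (q + n)`, of dimension `q + n + 1`; `w ↦ σ w - w` maps `W` to `Q`, so its kernel has dimension `≥ n + 1`: there are `w_0, …, w_n ∈ W`, linearly independent over `k`, with `σ w_j = w_j`. They are linearly dependent over `E` (`E ^ n` has dimension `n`). Take a relation over `E` with the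
smallest number of nonzero coefficients, one of them equal to `1`, apply `σ` and subtract: the coefficients are fixed by `ρ`, so they are in `k`: a contradiction to the independence over `k`. -/
def S_F7 : Prop :=
  ∀ (n : ℕ) (k E : Type) [Field k] [Field E] [Algebra k E] (ρ : E →ₐ[k] E),
    (∀ h : E, ρ h = h → ∃ c : k, h = algebraMap k E c) →
    ∀ σ : (Fin n → E) →ₗ[k] (Fin n → E), (∀ (a : E) (w : Fin n → E), σ (a • w) = ρ a • σ w) →
    ∀ Q : Submodule k (Fin n → E), Module.Finite k Q → ∀ ω : ℕ → Fin n → E, LinearIndependent k ω →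
    (∀ n, σ (ω n) - ω n ∈ Q) → False

/-- (AllA) Assembly. ADAPT AllA: `theorem tCanA (hDvc : S_Dvc) (hDer : S_Der) (hMdl : S_Mdl) (hExc : S_Exc) (hF1 : S_F1) (hF4 : S_F4) (hPb : S_Pb) (hF5 : S_F5) (hFbc : S_Fbc) (hQ2 : S_Q2) (hF7 : S_F7) : Pool.Agent.Lib.MP_16285c_agX.StmtCan`. PROOF as in the landed file. The only change: `Dv k x O` for `O` as in `StmtCan`
(`InTI`, `x i ∈ O`, the prime `{G : v(G(x)) < 1}` is generated by the irreducible `R`): some variable `T_{i₀}` occurs in `R`, `σ = i₀.succAbove`; `v(G(x ∘ σ)) < 1`, `G ≠ 0`, would give `R ∣ rename σ G ≠ 0`, in which `T_{i₀}` does not occur: so `Ind k O (x ∘ σ)`, and `S_Dvc` (2). And `Γ` = product of the `R`'s of the finitely many `O` (or `1`). -/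
def S_AllA : Prop := Pool.Agent.Lib.MP_16285c_agX.StmtCan

end Pool.Agent.Lib.MP_16285c_agX.Cn
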