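import Pool.Agent.Lib.MP_16285c_agX.Can.Spec

/-!
# `S_TrA`: the trace formula in every dimension, finiteness and the degrees of the traces

`int_pair`: for `q ≠ 0` and a ring `A` whose image contains `k`, `q⁻¹` and the `y i / q` (`i` not the last index), the elements
`y last / q` and `w / q ^ m` are integral over `A`. For `q = 1`, `A = k[T']` with `T' ↦ y'` this is step (2), for `q = y 0`, `A` = the
valuation ring at infinity this is step (3).
-/

set_option autoImplicit false

namespace Pool.Agent.Lib.MP_16285c_agX.Cn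

namespace TrAM

/-- An element with a monic relation is integral. -/
theorem int_of {A B ι : Type} [CommRing A] [CommRing B] [Algebra A B] (z : B) (n : ℕ) (S : Finset ι)
    (c : ι → A) (j : ι → ℕ) (hj : ∀ e ∈ S, j e < n)
    (h : z ^ n + ∑ e ∈ S, algebraMap A B (c e) * z ^ j e = 0) : IsIntegral A z := by
  refine ⟨Polynomial.X ^ n + ∑ e ∈ S, Polynomial.C (c e) * Polynomial.X ^ j e,
    Polynomial.monic_X_pow_add ?_, ?_⟩
  · rw [← Polynomial.mem_degreeLT]
    refine Submodule.sum_mem _ fun e he => ?_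
    rw [Polynomial.mem_degreeLT]
    exact lt_of_le_of_lt (Polynomial.degree_C_mul_X_pow_le _ _) (by exact_mod_cast hj e he)
  · simpa [Polynomial.eval₂_finsetSum] using h

theorem scale {κ : Type} [Field κ] {n : ℕ} (y : Fin n → κ) (q : κ) (hq : q ≠ 0) (N : ℕ) (e : Fin n → ℕ)
    (h : ∑ i, e i ≤ N) :
    ∏ i, y i ^ e i = q ^ N * (q⁻¹ ^ (N - ∑ i, e i) * ∏ i, (y i / q) ^ e i) := by
  have h1 : ∏ i, (y i / q) ^ e i = (∏ i, y i ^ e i) / q ^ (∑ i, e i) := by
    rw [← Finset.prod_pow_eq_pow_sum, ← Finset.prod_div_distrib]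
    exact Finset.prod_congr rfl fun i _ => div_pow _ _ _
  obtain ⟨M, hM⟩ := Nat.exists_eq_add_of_le h
  have h2 : q ^ (∑ i, e i) ≠ 0 := pow_ne_zero _ hq
  have h3 : q ^ M ≠ 0 := pow_ne_zero _ hq
  rw [h1, hM, Nat.add_sub_cancel_left, inv_pow, pow_add]
  field_simp

theorem deg_le {k : Type} [Field k] {n : ℕ} (G : MvPolynomial (Fin n) k) (e : Fin n →₀ ℕ) (he : e ∈ G.support) :
    ∑ i, e i ≤ G.totalDegree := by
  have h := MvPolynomial.le_totalDegree he
  rw [Finsupp.sum_fintype _ _ (fun _ => rfl)] at h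
  exact h

theorem aeval_sum {k κ : Type} [Field k] [Field κ] [Algebra k κ] {n : ℕ} (y : Fin n → κ)
    (G : MvPolynomial (Fin n) k) :
    MvPolynomial.aeval y G =
      ∑ e ∈ G.support, algebraMap k κ (MvPolynomial.coeff e G) * ∏ i, y i ^ e i := by
  rw [MvPolynomial.aeval_def, MvPolynomial.eval₂_eq']

/-- Homogenization: `G(y) / q ^ N` is a polynomial in `1 / q` and the `y i / q`. -/
theorem hom_mem {k κ : Type} [Field k] [Field κ] [Algebra k κ] {n : ℕ} (y : Fin n → κ) (q : κ) (hq : q ≠ 0)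
    (G : MvPolynomial (Fin n) k) (N : ℕ) (hN : G.totalDegree ≤ N) (C : Subring κ)
    (hk : ∀ c : k, algebraMap k κ c ∈ C) (h1 : q⁻¹ ∈ C) (h0 : ∀ i, y i / q ∈ C) :
    ∃ a ∈ C, MvPolynomial.aeval y G = q ^ N * a := by
  refine ⟨∑ e ∈ G.support, algebraMap k κ (MvPolynomial.coeff e G) *
    (q⁻¹ ^ (N - ∑ i, e i) * ∏ i, (y i / q) ^ e i), ?_, ?_⟩
  · exact Subring.sum_mem _ fun e _ => mul_mem (hk _)
      (mul_mem (pow_mem h1 _) (Subring.prod_mem _ fun i _ => pow_mem (h0 i) _))
  · rw [aeval_sum, Finset.mul_sum]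
    refine Finset.sum_congr rfl fun e he => ?_
    rw [scale y q hq N _ ((deg_le G e he).trans hN)]
    ring

theorem ev_sum {d : ℕ} {k κ : Type} [Field k] [Field κ] [Algebra k κ] (y : Fin (d + 2) → κ) (w : κ) (P : PZ d k) :
    ev y w P = ∑ l ∈ Finset.range (P.natDegree + 1), MvPolynomial.aeval y (P.coeff l) * w ^ l := by
  rw [ev, Polynomial.coe_eval₂RingHom, Polynomial.eval₂_eq_sum_range]
  rfl

theorem int_pair {d : ℕ} {k κ A : Type} [Field k] [Field κ] [Algebra k κ] [CommRing A] [Algebra A κ]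
    (y : Fin (d + 2) → κ) (w : κ) (R : Po d k) (P : PZ d k) (m : ℕ) (q : κ) (hq : q ≠ 0)
    (hk : ∀ c : k, ∃ a : A, algebraMap A κ a = algebraMap k κ c)
    (h1 : ∃ a : A, algebraMap A κ a = q⁻¹) (h0 : ∀ i : Fin (d + 1), ∃ a : A, algebraMap A κ a = y i.castSucc / q)
    (hR : MvPolynomial.aeval y R = 0)
    (hR1 : MvPolynomial.coeff (Finsupp.single (Fin.last (d + 1)) R.totalDegree) R ≠ 0) (hP : P.Monic)
    (hP0 : ev y w P = 0) (hW : Wle m (m * P.natDegree) P) :
    IsIntegral A (y (Fin.last (d + 1)) / q) ∧ IsIntegral A (w / q ^ m) := by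
  have hy : IsIntegral A (y (Fin.last (d + 1)) / q) := by
    obtain ⟨D, hD⟩ : ∃ D, D = R.totalDegree := ⟨_, rfl⟩
    rw [← hD] at hR1
    obtain ⟨r, hr⟩ : ∃ r, r = MvPolynomial.coeff (Finsupp.single (Fin.last (d + 1)) D) R := ⟨_, rfl⟩
    rw [← hr] at hR1
    obtain ⟨b, hb⟩ := h1
    choose x hx using h0
    have hc : ∀ e : Fin (d + 2) →₀ ℕ, ∃ a : A, algebraMap A κ a =
        algebraMap k κ (r⁻¹ * MvPolynomial.coeff e R) *
          (q⁻¹ ^ (D - ∑ i, e i) * ∏ i : Fin (d + 1), (y i.castSucc / q) ^ e i.castSucc) := by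
      intro e
      obtain ⟨a, ha⟩ := hk (r⁻¹ * MvPolynomial.coeff e R)
      refine ⟨a * (b ^ (D - ∑ i, e i) * ∏ i : Fin (d + 1), x i ^ e i.castSucc), ?_⟩
      rw [map_mul, map_mul, map_pow, map_prod, ha, hb]
      refine congrArg₂ _ rfl (congrArg₂ _ rfl (Finset.prod_congr rfl fun i _ => ?_))
      rw [map_pow, hx]
    choose c hc using hc
    have hs0 : Finsupp.single (Fin.last (d + 1)) D ∈ R.support := by
      rw [MvPolynomial.mem_support_iff, ← hr]
      exact hR1
    refine int_of (y (Fin.last (d + 1)) / q) D (R.support.erase (Finsupp.single (Fin.last (d + 1)) D)) c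
      (fun e => e (Fin.last (d + 1))) ?_ ?_
    · intro e he
      obtain ⟨he1, he2⟩ := Finset.mem_erase.1 he
      have h3 := deg_le R e he2
      rw [← hD, Fin.sum_univ_castSucc] at h3
      refine lt_of_le_of_ne (by omega) fun h4 => he1 ?_
      have h5 : ∑ i : Fin (d + 1), e i.castSucc = 0 := by
        have h4' : e (Fin.last (d + 1)) = D := h4
        omega
      ext i
      refine Fin.lastCases ?_ (fun i => ?_) i
      · rw [Finsupp.single_eq_same]
        exact h4
      · rw [Finsupp.single_apply, if_neg (Fin.castSucc_ne_last i).symm]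
        exact (Finset.sum_eq_zero_iff.1 h5) i (Finset.mem_univ i)
    · have h5 : ∑ e ∈ R.support, algebraMap A κ (c e) * (y (Fin.last (d + 1)) / q) ^ e (Fin.last (d + 1)) = 0 := by
        have h6 : q ^ D * algebraMap k κ r *
            ∑ e ∈ R.support, algebraMap A κ (c e) * (y (Fin.last (d + 1)) / q) ^ e (Fin.last (d + 1)) = 0 := by
          rw [Finset.mul_sum, ← hR, aeval_sum]
          refine Finset.sum_congr rfl fun e he => ?_
          have h7 := deg_le R e he
          rw [← hD] at h7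
          have h8 : MvPolynomial.coeff e R = r * (r⁻¹ * MvPolynomial.coeff e R) := by
            rw [mul_inv_cancel_left₀ hR1]
          rw [hc, scale y q hq D _ h7, Fin.prod_univ_castSucc (fun i => (y i / q) ^ e i)]
          conv_rhs => rw [h8, map_mul]
          ring
        have h9 : q ^ D * algebraMap k κ r ≠ 0 :=
          mul_ne_zero (pow_ne_zero _ hq) fun h => hR1 ((map_eq_zero (algebraMap k κ)).1 h)
        exact (mul_eq_zero.1 h6).resolve_left h9
      rw [← Finset.add_sum_erase _ _ hs0] at h5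
      have h10 : algebraMap A κ (c (Finsupp.single (Fin.last (d + 1)) D)) * (y (Fin.last (d + 1)) / q) ^
          (Finsupp.single (Fin.last (d + 1)) D) (Fin.last (d + 1)) = (y (Fin.last (d + 1)) / q) ^ D := by
        have h11 : ∑ i, (Finsupp.single (Fin.last (d + 1)) D) i = D := by
          rw [Finset.sum_eq_single (Fin.last (d + 1))]
          · exact Finsupp.single_eq_same
          · intro i _ hi
            rw [Finsupp.single_apply, if_neg (Ne.symm hi)]
          · intro h
            exact absurd (Finset.mem_univ _) h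
        have h12 : ∏ i : Fin (d + 1), (y i.castSucc / q) ^ (Finsupp.single (Fin.last (d + 1)) D) i.castSucc = 1 := by
          refine Finset.prod_eq_one fun i _ => ?_
          rw [Finsupp.single_apply, if_neg (Fin.castSucc_ne_last i).symm, pow_zero]
        rw [hc, ← hr, inv_mul_cancel₀ hR1, h11, h12, Nat.sub_self, Finsupp.single_eq_same]
        simp
      rw [h10] at h5
      exact h5
  refine ⟨hy, ?_⟩
  obtain ⟨C, hC⟩ : ∃ C : Subalgebra A κ, C = integralClosure A κ := ⟨_, rfl⟩
  have hCm : ∀ z : κ, z ∈ C ↔ IsIntegral A z := fun z => by rw [hC]; exact mem_integralClosure_iff _ _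
  have hAC : ∀ z : κ, (∃ a : A, algebraMap A κ a = z) → z ∈ C.toSubring := by
    rintro z ⟨a, rfl⟩
    exact C.algebraMap_mem a
  have hyC : ∀ i : Fin (d + 2), y i / q ∈ C.toSubring := by
    intro i
    refine Fin.lastCases ?_ (fun i => ?_) i
    · exact (hCm _).2 hy
    · exact hAC _ (h0 i)
  have hcoef : ∀ l : ℕ, l < P.natDegree → ∃ a : C, algebraMap C κ a * q ^ (m * (P.natDegree - l)) =
      MvPolynomial.aeval y (P.coeff l) := by
    intro l hl
    have h3 : (P.coeff l).totalDegree ≤ m * (P.natDegree - l) := by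
      by_cases h4 : l ∈ P.support
      · have h5 := hW l h4
        rw [Nat.mul_sub]
        omega
      · rw [Polynomial.notMem_support_iff.1 h4, MvPolynomial.totalDegree_zero]
        exact Nat.zero_le _
    obtain ⟨a, ha, h⟩ := hom_mem y q hq (P.coeff l) _ h3 C.toSubring (fun c => hAC _ (hk c))
      (hAC _ h1) hyC
    refine ⟨⟨a, ha⟩, ?_⟩
    rw [h, mul_comm]
    rfl
  choose! c hc using hcoef
  have h11 : IsIntegral C (w / q ^ m) := by
    refine int_of (w / q ^ m) P.natDegree (Finset.range P.natDegree) c (fun l => l)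
      (fun l hl => Finset.mem_range.1 hl) ?_
    have h12 : q ^ (m * P.natDegree) * ((w / q ^ m) ^ P.natDegree +
        ∑ l ∈ Finset.range P.natDegree, algebraMap C κ (c l) * (w / q ^ m) ^ l) = ev y w P := by
      rw [ev_sum, Finset.sum_range_succ, hP.coeff_natDegree, map_one, one_mul,
        add_comm ((w / q ^ m) ^ P.natDegree), mul_add, Finset.mul_sum]
      refine congrArg₂ _ (Finset.sum_congr rfl fun l hl => ?_) ?_
      · have hl' := Finset.mem_range.1 hl
        rw [← hc l hl', div_pow, ← pow_mul]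
        have h13 : q ^ (m * P.natDegree) = q ^ (m * (P.natDegree - l)) * q ^ (m * l) := by
          rw [← pow_add, ← mul_add, Nat.sub_add_cancel hl'.le]
        rw [h13]
        have h14 : q ^ (m * l) ≠ 0 := pow_ne_zero _ hq
        field_simp
      · rw [div_pow, ← pow_mul, mul_div_cancel₀ _ (pow_ne_zero _ hq)]
    rw [hP0] at h12
    exact (mul_eq_zero.1 h12).resolve_left (pow_ne_zero _ hq)
  have : Algebra.IsIntegral A C := by
    rw [hC]
    exact integralClosure.AlgebraIsIntegral
  exact isIntegral_trans (R := A) (A := C) _ h11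

/-- The trace of an integral element. -/
theorem tr_mem {k κ : Type} [Field k] [Field κ] [Algebra k κ] {n : ℕ} (L : IntermediateField k κ)
    [FiniteDimensional L κ] (x : Fin n → L) (hx : AlgebraicIndependent k x)
    (hL : L = IntermediateField.adjoin k (Set.range fun i => (x i : κ))) (g : κ)
    (hg : ∀ [Algebra (MvPolynomial (Fin n) k) κ], (∀ p : MvPolynomial (Fin n) k,
      algebraMap (MvPolynomial (Fin n) k) κ p = MvPolynomial.aeval (fun i => (x i : κ)) p) →
      IsIntegral (MvPolynomial (Fin n) k) g) :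
    ∃ Θ : MvPolynomial (Fin n) k,
      MvPolynomial.aeval (fun i => (x i : κ)) Θ = algebraMap L κ (Algebra.trace L κ g) := by
  let a1 : Algebra (MvPolynomial (Fin n) k) L := (MvPolynomial.aeval x : MvPolynomial (Fin n) k →ₐ[k] L).toRingHom.toAlgebra
  let a2 : Algebra (MvPolynomial (Fin n) k) κ :=
    (MvPolynomial.aeval (fun i => (x i : κ)) : MvPolynomial (Fin n) k →ₐ[k] κ).toRingHom.toAlgebra
  have hxx : ∀ p : MvPolynomial (Fin n) k, MvPolynomial.aeval (fun i => (x i : κ)) p =
      algebraMap L κ (MvPolynomial.aeval x p) :=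
    fun p => MvPolynomial.aeval_algebraMap_apply κ x p
  have : IsScalarTower (MvPolynomial (Fin n) k) L κ := IsScalarTower.of_algebraMap_eq hxx
  have : FaithfulSMul (MvPolynomial (Fin n) k) L :=
    (faithfulSMul_iff_algebraMap_injective _ _).2 hx
  have : IsFractionRing (MvPolynomial (Fin n) k) L := by
    refine IsFractionRing.of_field _ _ fun z => ?_
    have hz : (z : κ) ∈ IntermediateField.adjoin k (Set.range fun i => (x i : κ)) := hL ▸ z.2
    obtain ⟨p, q, h⟩ := (IntermediateField.mem_adjoin_range_iff k _ _).1 hz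
    refine ⟨p, q, Subtype.ext ?_⟩
    rw [h, hxx, hxx, ← map_div₀]
    rfl
  have h := Algebra.isIntegral_trace (L := L) (F := κ) (hg fun _ => rfl)
  obtain ⟨Θ, hΘ⟩ := IsIntegrallyClosed.isIntegral_iff.1 h
  refine ⟨Θ, ?_⟩
  rw [hxx, ← hΘ]
  rfl

/-- The trace of an element which is integral over a valuation ring. -/
theorem tr_val {k κ : Type} [Field k] [Field κ] [Algebra k κ] (L : IntermediateField k κ)
    [FiniteDimensional L κ] (V : ValuationSubring L) (g : κ)
    (hg : ∀ [Algebra V κ], (∀ p : V, algebraMap V κ p = algebraMap L κ (p : L)) → IsIntegral V g) :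
    Algebra.trace L κ g ∈ V := by
  let a2 : Algebra V κ := ((algebraMap L κ).comp (algebraMap V L)).toAlgebra
  have : IsScalarTower V L κ := IsScalarTower.of_algebraMap_eq fun _ => rfl
  have h := Algebra.isIntegral_trace (L := L) (F := κ) (hg fun _ => rfl)
  obtain ⟨Θ, hΘ⟩ := IsIntegrallyClosed.isIntegral_iff.1 h
  rw [← hΘ]
  exact Θ.2

/-- `κ` is finite over `k(y')`. -/
theorem fd {d : ℕ} {k κ : Type} [Field k] [Field κ] [Algebra k κ] (y : Fin (d + 2) → κ) (w : κ)
    (hgen : ∀ a : κ, ∃ N C : PZ d k, ev y w C ≠ 0 ∧ a * ev y w C = ev y w N) (K : IntermediateField k κ)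
    (hK : ∀ i : Fin (d + 1), y i.castSucc ∈ K)
    (h1 : IsIntegral K (y (Fin.last (d + 1)))) (h2 : IsIntegral K w) :
    FiniteDimensional K κ := by
  obtain ⟨L, hL⟩ : ∃ L : IntermediateField K κ,
    L = IntermediateField.adjoin K {y (Fin.last (d + 1)), w} := ⟨_, rfl⟩
  have hf : FiniteDimensional K L := by
    rw [hL]
    refine IntermediateField.finiteDimensional_adjoin fun x hx => ?_
    rcases hx with rfl | hx
    · exact h1
    · rw [Set.mem_singleton_iff.1 hx]
      exact h2
  have h1L : y (Fin.last (d + 1)) ∈ L := by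
    rw [hL]
    exact IntermediateField.subset_adjoin _ _ (Or.inl rfl)
  have h2L : w ∈ L := by
    rw [hL]
    exact IntermediateField.subset_adjoin _ _ (Or.inr rfl)
  have h0L : ∀ i : Fin (d + 2), y i ∈ L := by
    intro i
    refine Fin.lastCases h1L (fun i => ?_) i
    exact L.algebraMap_mem (⟨y i.castSucc, hK i⟩ : K)
  have hkL : ∀ c : k, algebraMap k κ c ∈ L := fun c => L.algebraMap_mem (algebraMap k K c)
  have hev : ∀ N : PZ d k, ev y w N ∈ L := by
    intro N
    rw [ev_sum]
    refine sum_mem fun l _ => mul_mem ?_ (pow_mem h2L _)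
    rw [aeval_sum]
    exact sum_mem fun e _ => mul_mem (hkL _) (prod_mem fun i _ => pow_mem (h0L i) _)
  have htop : L = ⊤ := by
    rw [eq_top_iff]
    rintro a -
    obtain ⟨N, C, hC, h⟩ := hgen a
    rw [eq_div_of_mul_eq hC h]
    exact div_mem (hev N) (hev C)
  rw [htop] at hf
  exact Module.Finite.equiv IntermediateField.topEquiv.toLinearEquiv

/-- The degree bound. -/
theorem deg_bound {k F : Type} [Field k] [Field F] [Algebra k F] {n : ℕ} (x : Fin (n + 1) → F)
    (hx : AlgebraicIndependent k x) (Θ a b : MvPolynomial (Fin (n + 1)) k) (N : ℕ) (hb : b ≠ 0)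
    (hab : a.totalDegree ≤ b.totalDegree)
    (h : MvPolynomial.aeval x Θ * MvPolynomial.aeval x b = x 0 ^ N * MvPolynomial.aeval x a) :
    Θ.totalDegree ≤ N := by
  have h3 : Θ * b = MvPolynomial.X 0 ^ N * a := by
    refine hx ?_
    rw [map_mul, map_mul, map_pow, MvPolynomial.aeval_X, h]
  by_cases hΘ : Θ = 0
  · rw [hΘ, MvPolynomial.totalDegree_zero]
    exact Nat.zero_le _
  have h4 := congrArg MvPolynomial.totalDegree h3
  rw [MvPolynomial.totalDegree_mul_of_isDomain hΘ hb] at h4
  have h5 := MvPolynomial.totalDegree_mul (MvPolynomial.X 0 ^ N) a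
  have h6 : (MvPolynomial.X (0 : Fin (n + 1)) ^ N : MvPolynomial (Fin (n + 1)) k).totalDegree ≤ N := by
    refine (MvPolynomial.totalDegree_pow _ _).trans ?_
    rw [MvPolynomial.totalDegree_X, mul_one]
  omega

end TrAM

open TrAM in
theorem tTrA : S_VR → S_TrA := by
  intro hVR d k κ _ _ _ _ y w R P m hy hgen hR hR0 hR1 hP hP0 hW
  have hy0 : y 0 ≠ 0 := by
    have h := hy.ne_zero 0
    exact h
  obtain ⟨K, hK⟩ : ∃ K : IntermediateField k κ,
    K = IntermediateField.adjoin k (Set.range fun i : Fin (d + 1) => y i.castSucc) := ⟨_, rfl⟩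
  have hyK : ∀ i : Fin (d + 1), y i.castSucc ∈ K := by
    intro i
    rw [hK]
    exact IntermediateField.subset_adjoin _ _ ⟨i, rfl⟩
  have hKi : IsIntegral K (y (Fin.last (d + 1))) ∧ IsIntegral K w := by
    have h := int_pair (A := K) y w R P m 1 one_ne_zero (fun c => ⟨algebraMap k K c, rfl⟩)
      ⟨1, by simp⟩ (fun i => ⟨⟨y i.castSucc, hyK i⟩, by simp⟩) hR hR1 hP hP0 hW
    simpa using h
  have hfd : FiniteDimensional K κ := fd y w hgen K hyK hKi.1 hKi.2
  rw [← hK]
  refine ⟨hfd, ?_⟩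
  -- the basis of `K`
  obtain ⟨x, hxy⟩ : ∃ x : Fin (d + 1) → K, ∀ i, (x i : κ) = y i.castSucc := ⟨fun i => ⟨y i.castSucc, hyK i⟩, fun _ => rfl⟩
  have hxf : (fun i => (x i : κ)) = fun i : Fin (d + 1) => y i.castSucc := funext hxy
  have hx : AlgebraicIndependent k x := by
    have h1 : AlgebraicIndependent k (fun i => (algebraMap K κ) (x i)) := by
      have : (fun i => (algebraMap K κ) (x i)) = fun i : Fin (d + 1) => y i.castSucc := funext hxy
      rw [this]
      exact hy
    exact AlgebraicIndependent.of_comp (IsScalarTower.toAlgHom k K κ) h1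
  have hxx : ∀ p : MvPolynomial (Fin (d + 1)) k, MvPolynomial.aeval (fun i : Fin (d + 1) => y i.castSucc) p =
      algebraMap K κ (MvPolynomial.aeval x p) := by
    intro p
    rw [← hxf]
    exact MvPolynomial.aeval_algebraMap_apply κ x p
  -- the valuation ring at infinity
  obtain ⟨-, V, -, hV⟩ := hVR d k K x hx (by
    intro f
    have hz : (f : κ) ∈ IntermediateField.adjoin k (Set.range fun i : Fin (d + 1) => y i.castSucc) := hK ▸ f.2
    obtain ⟨p, q, h⟩ := (IntermediateField.mem_adjoin_range_iff k _ _).1 hz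
    by_cases hq : MvPolynomial.aeval (fun i : Fin (d + 1) => y i.castSucc) q = 0
    · refine ⟨0, 1, one_ne_zero, Subtype.ext ?_⟩
      rw [hq, div_zero] at h
      have : f = 0 := Subtype.ext h
      rw [this]
      simp
    · refine ⟨p, q, ?_, (algebraMap K κ).injective ?_⟩
      · rintro rfl
        exact hq (map_zero _)
      · rw [map_mul, ← hxx, ← hxx]
        have h2 : algebraMap K κ f = (f : κ) := rfl
        rw [h2, h]
        exact div_mul_cancel₀ _ hq)
  have hx0 : x 0 ≠ 0 := by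
    intro h
    have h1 := hxy 0
    rw [h] at h1
    exact hy0 (by simpa using h1.symm)
  have hVk : ∀ c : k, algebraMap k K c ∈ V := by
    intro c
    refine (hV _).2 ⟨MvPolynomial.C c, 1, one_ne_zero, by simp, ?_⟩
    rw [map_one, mul_one, MvPolynomial.aeval_C]
  have hVi : (x 0)⁻¹ ∈ V := by
    refine (hV _).2 ⟨1, MvPolynomial.X 0, MvPolynomial.X_ne_zero 0, by simp, ?_⟩
    rw [map_one, MvPolynomial.aeval_X, inv_mul_cancel₀ hx0]
  have hVx : ∀ i, x i / x 0 ∈ V := by
    intro i
    refine (hV _).2 ⟨MvPolynomial.X i, MvPolynomial.X 0, MvPolynomial.X_ne_zero 0, ?_, ?_⟩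
    · rw [MvPolynomial.totalDegree_X, MvPolynomial.totalDegree_X]
    · rw [MvPolynomial.aeval_X, MvPolynomial.aeval_X, div_mul_cancel₀ _ hx0]
  have hx0y : algebraMap K κ (x 0) = y 0 := hxy 0
  have key : ∀ b c : ℕ, ∃ Θ : MvPolynomial (Fin (d + 1)) k, Θ.totalDegree ≤ b + m * c ∧
      MvPolynomial.aeval (fun i : Fin (d + 1) => y i.castSucc) Θ =
        algebraMap K κ (Algebra.trace K κ (y (Fin.last (d + 1)) ^ b * w ^ c)) := by
    intro b c
    obtain ⟨Θ, hΘ⟩ := tr_mem K x hx (by rw [hxf]; exact hK) (y (Fin.last (d + 1)) ^ b * w ^ c)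
      fun {_} hA => by
        obtain ⟨h1, h2⟩ := int_pair (A := MvPolynomial (Fin (d + 1)) k) y w R P m 1 one_ne_zero
          (fun c => ⟨MvPolynomial.C c, by rw [hA, MvPolynomial.aeval_C]⟩)
          ⟨1, by simp⟩ (fun i => ⟨MvPolynomial.X i, by rw [hA, MvPolynomial.aeval_X, div_one, hxy]⟩) hR hR1 hP hP0 hW
        rw [div_one] at h1
        rw [one_pow, div_one] at h2
        exact (h1.pow b).mul (h2.pow c)
    rw [hxf] at hΘ
    have hS := tr_val K V ((y (Fin.last (d + 1)) / y 0) ^ b * (w / y 0 ^ m) ^ c)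
      fun {_} hA => by
        obtain ⟨h1, h2⟩ := int_pair (A := V) y w R P m (y 0) hy0
          (fun c => ⟨⟨algebraMap k K c, hVk c⟩, by rw [hA]; rfl⟩)
          ⟨⟨(x 0)⁻¹, hVi⟩, by rw [hA, map_inv₀, hx0y]⟩
          (fun i => ⟨⟨x i / x 0, hVx i⟩, by
            rw [hA, map_div₀, hx0y]
            exact congrArg (· / y 0) (hxy i)⟩) hR hR1 hP hP0 hW
        exact (h1.pow b).mul (h2.pow c)
    obtain ⟨p, q, hq, hpq, hf⟩ := (hV _).1 hS
    refine ⟨Θ, deg_bound x hx Θ p q _ hq hpq ?_, hΘ⟩
    have h1 : y (Fin.last (d + 1)) ^ b * w ^ c =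
        (x 0 ^ (b + m * c) : K) • ((y (Fin.last (d + 1)) / y 0) ^ b * (w / y 0 ^ m) ^ c) := by
      rw [Algebra.smul_def, map_pow, hx0y, div_pow, div_pow, ← pow_mul, pow_add]
      field_simp
    rw [h1, map_smul, smul_eq_mul, hxx] at hΘ
    have h2 := (algebraMap K κ).injective hΘ
    rw [h2, mul_assoc, hf]
  choose Θ hΘ using key
  exact ⟨Θ, hΘ⟩

end Pool.Agent.Lib.MP_16285c_agX.Cn
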